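import Mathlib

/-! One-dimensional inequality behind the lifted Banaszczyk lemma. -/

namespace Pool.Agent.P.MP_e00059_co

open MeasureTheory Set

/-- points from which a segment of half-length `1 + θ` inside `I` is centred within distance 2 -/
def lineLift (I : Set ℝ) (θ : ℝ) : Set ℝ :=
  {t | ∃ u ∈ Icc (-2 : ℝ) 2, t + (u - 1 - θ) ∈ I ∧ t + (u + 1 + θ) ∈ I}

/-- the tilted Gaussian weight on the line -/
noncomputable def lnW (β κ t : ℝ) : ℝ := Real.exp (β * t - κ * t ^ 2 / 2)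

theorem lnW_cont (β κ : ℝ) : Continuous (lnW β κ) := by
  unfold lnW
  fun_prop

theorem lnW_sym (β κ c u : ℝ) : lnW β κ (c + u) + lnW β κ (c - u) =
    lnW β κ c * Real.exp (-(κ * u ^ 2 / 2)) * (2 * Real.cosh ((β - κ * c) * u)) := by
  unfold lnW
  rw [Real.cosh_eq, mul_div_cancel₀ _ two_ne_zero, ← Real.exp_add, mul_add (Real.exp _),
    ← Real.exp_add, ← Real.exp_add]
  congr 2 <;> ring

theorem lnW_lint (β κ : ℝ) {x y : ℝ} (h : x ≤ y) :
    ∫⁻ t in Ioo x y, ENNReal.ofReal (Real.exp (β * t - κ * t ^ 2 / 2)) =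
      ENNReal.ofReal (∫ t in x..y, lnW β κ t) := by
  rw [intervalIntegral.integral_of_le h, integral_Ioc_eq_integral_Ioo,
    ofReal_integral_eq_lintegral_ofReal]
  · rfl
  · exact ((lnW_cont β κ).integrableOn_Icc).mono_set Ioo_subset_Icc_self
  · exact Filter.Eventually.of_forall fun t => (Real.exp_pos _).le

theorem lnW_est (β κ a b : ℝ) (hκ0 : 0 ≤ κ) (hκ : κ ≤ 1 / 256) (hab : a ≤ b) (h4 : b ≤ a + 4) :
    ∃ K : ℝ, 0 ≤ K ∧ 2 * ∫ t in a..b, lnW β κ t ≤ (b - a) * K ∧ ∀ g : ℝ, 0 ≤ g → g ≤ 2 →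
      (∫ t in a..b, lnW β κ t) + g * (31 / 32 * K) ≤ ∫ t in (a - g)..(b + g), lnW β κ t := by
  set c := (a + b) / 2 with hc
  have hw := lnW_cont β κ
  have hi : ∀ x y, IntervalIntegrable (lnW β κ) volume x y := fun x y => hw.intervalIntegrable x y
  have hi' : ∀ x y, IntervalIntegrable (fun t => lnW β κ (a + b - t)) volume x y := fun x y =>
    (hw.comp (by fun_prop)).intervalIntegrable x y
  have hc0 : 0 < lnW β κ c := Real.exp_pos _
  have e : ∀ t, lnW β κ t + lnW β κ (a + b - t) = lnW β κ c * Real.exp (-(κ * (t - c) ^ 2 / 2)) *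
      (2 * Real.cosh ((β - κ * c) * (t - c))) := fun t => by
    rw [← lnW_sym]
    congr 2
    · ring
    · rw [hc]
      ring
  refine ⟨lnW β κ c * (2 * Real.cosh ((β - κ * c) * ((b - a) / 2))),
    mul_nonneg hc0.le (mul_nonneg zero_le_two (Real.cosh_pos _).le), ?_, fun g g0 g2 => ?_⟩
  · have h1 : ∫ t in a..b, lnW β κ (a + b - t) = ∫ t in a..b, lnW β κ t := by
      rw [intervalIntegral.integral_comp_sub_left]
      congr 1 <;> ring
    rw [two_mul]
    nth_rewrite 2 [← h1]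
    rw [← intervalIntegral.integral_add (hi _ _) (hi' _ _), ← smul_eq_mul,
      ← intervalIntegral.integral_const]
    refine intervalIntegral.integral_mono_on hab ((hi _ _).add (hi' _ _)) intervalIntegrable_const
      fun t ht => ?_
    rw [e]
    have h2 : Real.exp (-(κ * (t - c) ^ 2 / 2)) ≤ 1 :=
      Real.exp_le_one_iff.2 (neg_nonpos.2 (by positivity))
    have h3 : Real.cosh ((β - κ * c) * (t - c)) ≤ Real.cosh ((β - κ * c) * ((b - a) / 2)) := by
      rw [Real.cosh_le_cosh, abs_mul, abs_mul]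
      refine mul_le_mul_of_nonneg_left (le_trans (abs_le.2 ⟨?_, ?_⟩) (le_abs_self _)) (abs_nonneg _)
      · linarith [ht.1]
      · linarith [ht.2]
    have h5 := Real.cosh_pos ((β - κ * c) * (t - c))
    exact mul_le_mul (mul_le_of_le_one_right hc0.le h2) (by linarith) (by linarith) hc0.le
  · have h1 : ∫ t in b..(b + g), lnW β κ (a + b - t) = ∫ t in (a - g)..a, lnW β κ t := by
      rw [intervalIntegral.integral_comp_sub_left]
      congr 1 <;> ring
    rw [← intervalIntegral.integral_add_adjacent_intervals (hi (a - g) a) (hi a (b + g)),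
      ← intervalIntegral.integral_add_adjacent_intervals (hi a b) (hi b (b + g)), ← h1]
    have h6 : g * (31 / 32 * (lnW β κ c * (2 * Real.cosh ((β - κ * c) * ((b - a) / 2))))) ≤
        ∫ t in b..(b + g), (lnW β κ t + lnW β κ (a + b - t)) := by
      nth_rewrite 1 [show g = b + g - b by ring]
      rw [← smul_eq_mul, ← intervalIntegral.integral_const]
      refine intervalIntegral.integral_mono_on (by linarith) intervalIntegrable_const
        ((hi _ _).add (hi' _ _)) fun t ht => ?_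
      rw [e]
      have h7 : (t - c) ^ 2 ≤ 4 ^ 2 :=
        sq_le_sq' (by linarith [ht.1]) (by linarith [ht.2])
      have h2 : 31 / 32 ≤ Real.exp (-(κ * (t - c) ^ 2 / 2)) := by
        refine le_trans ?_ (Real.add_one_le_exp _)
        nlinarith [sq_nonneg (t - c)]
      have h3 : Real.cosh ((β - κ * c) * ((b - a) / 2)) ≤ Real.cosh ((β - κ * c) * (t - c)) := by
        rw [Real.cosh_le_cosh, abs_mul, abs_mul]
        refine mul_le_mul_of_nonneg_left (le_trans (abs_le.2 ⟨?_, ?_⟩) (le_abs_self _))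
          (abs_nonneg _)
        · linarith [ht.1]
        · linarith [ht.1]
      have h5 := Real.cosh_pos ((β - κ * c) * ((b - a) / 2))
      rw [← mul_assoc, mul_comm (31 / 32 : ℝ)]
      exact mul_le_mul (mul_le_mul_of_nonneg_left h2 hc0.le) (by linarith) (by linarith)
        (by positivity)
    rw [intervalIntegral.integral_add (hi _ _) (hi' _ _)] at h6
    linarith

theorem lift_of_Ioo {I : Set ℝ} {a b θ : ℝ} (h : Ioo a b ⊆ I) (hθ : -1 ≤ θ)
    (hl : a + (1 + θ) < b - (1 + θ)) : Ioo (a - (1 - θ)) (b + (1 - θ)) ⊆ lineLift I θ := by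
  intro t ht
  obtain ⟨s, h1, h2⟩ := exists_between (show max (a + (1 + θ)) (t - 2) < min (b - (1 + θ)) (t + 2)
    from max_lt (lt_min hl (by linarith [ht.1])) (lt_min (by linarith [ht.2]) (by linarith)))
  obtain ⟨h3, h4⟩ := max_lt_iff.1 h1
  obtain ⟨h5, h6⟩ := lt_min_iff.1 h2
  exact ⟨s - t, ⟨by linarith, by linarith⟩, h ⟨by linarith, by linarith⟩,
    h ⟨by linarith, by linarith⟩⟩

theorem lift_of_long {I : Set ℝ} (hc : OrdConnected I) {p θ : ℝ} (h0 : p ∈ I) (h4 : p + 4 ∈ I)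
    (h1 : -1 ≤ θ) (h2 : θ ≤ 1) : I ⊆ lineLift I θ := by
  intro t ht
  rcases le_total t p with h | h
  · exact ⟨2, ⟨by norm_num, le_rfl⟩, hc.out ht h4 ⟨by linarith, by linarith⟩,
      hc.out ht h4 ⟨by linarith, by linarith⟩⟩
  · rcases le_total t (p + 4) with h' | h'
    · exact ⟨p + 2 - t, ⟨by linarith, by linarith⟩, hc.out h0 h4 ⟨by linarith, by linarith⟩,
        hc.out h0 h4 ⟨by linarith, by linarith⟩⟩
    · exact ⟨-2, ⟨le_rfl, by norm_num⟩, hc.out h0 ht ⟨by linarith, by linarith⟩,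
        hc.out h0 ht ⟨by linarith, by linarith⟩⟩

theorem line_ineq (I : Set ℝ) (hI : IsOpen I) (hc : Convex ℝ I) (β κ : ℝ) (hκ0 : 0 ≤ κ)
    (hκ : κ ≤ 1 / 256) :
    14 * ∫⁻ t in I, ENNReal.ofReal (Real.exp (β * t - κ * t ^ 2 / 2)) ≤
      5 * (∫⁻ t in lineLift I (-1), ENNReal.ofReal (Real.exp (β * t - κ * t ^ 2 / 2))) +
      3 * (∫⁻ t in lineLift I 0, ENNReal.ofReal (Real.exp (β * t - κ * t ^ 2 / 2))) +
      6 * (∫⁻ t in lineLift I 1, ENNReal.ofReal (Real.exp (β * t - κ * t ^ 2 / 2))) := by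
  have ho := hc.ordConnected
  set μ : Set ℝ → ENNReal := fun S =>
    ∫⁻ t in S, ENNReal.ofReal (Real.exp (β * t - κ * t ^ 2 / 2)) with hμ
  have mono : ∀ {S T : Set ℝ}, S ⊆ T → μ S ≤ μ T := fun h => lintegral_mono_set h
  change 14 * μ I ≤ 5 * μ _ + 3 * μ _ + 6 * μ _
  rcases I.eq_empty_or_nonempty with rfl | ⟨p, hp⟩
  · simp [hμ]
  by_cases hl : ∃ q, q ∈ I ∧ q + 4 ∈ I
  · obtain ⟨q, h0, h4⟩ := hl
    calc 14 * μ I = 5 * μ I + 3 * μ I + 6 * μ I := by ring
      _ ≤ _ := by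
        gcongr <;> exact mono (lift_of_long ho h0 h4 (by norm_num) (by norm_num))
  have hs : ∀ x ∈ I, ∀ y ∈ I, y ≤ x + 4 := fun x hx y hy => by
    by_contra h
    exact hl ⟨x, hx, ho.out hx hy ⟨by linarith, (not_le.1 h).le⟩⟩
  have hA : BddAbove I := ⟨p + 4, fun y hy => hs p hp y hy⟩
  have hB : BddBelow I := ⟨p - 4, fun y hy => by linarith [hs y hy p hp]⟩
  set a := sInf I
  set b := sSup I
  have h4 : b ≤ a + 4 := by
    have : b - 4 ≤ a := le_csInf ⟨p, hp⟩ fun x hx =>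
      sub_le_iff_le_add.2 (csSup_le ⟨p, hp⟩ (hs x hx))
    linarith
  have hin : Ioo a b ⊆ I := fun x hx => by
    obtain ⟨y, hy, h1⟩ := exists_lt_of_csInf_lt ⟨p, hp⟩ hx.1
    obtain ⟨z, hz, h2⟩ := exists_lt_of_lt_csSup ⟨p, hp⟩ hx.2
    exact ho.out hy hz ⟨h1.le, h2.le⟩
  have hab : a < b := by
    obtain ⟨r, hr, h⟩ := Metric.isOpen_iff.1 hI p hp
    have : p + r / 2 ∈ I := h (by
      rw [Metric.mem_ball, Real.dist_eq, abs_lt]
      constructor <;> linarith)
    linarith [csInf_le hB hp, le_csSup hA this]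
  have hI0 : μ I ≤ ENNReal.ofReal (∫ t in a..b, lnW β κ t) := by
    rw [← lnW_lint β κ hab.le, setLIntegral_congr Ioo_ae_eq_Icc]
    exact mono fun x hx => ⟨csInf_le hB hx, le_csSup hA hx⟩
  obtain ⟨K, K0, k1, k2⟩ := lnW_est β κ a b hκ0 hκ hab.le h4
  have hJ : ∀ θ : ℝ, -1 ≤ θ → θ ≤ 1 → a + (1 + θ) < b - (1 + θ) →
      ENNReal.ofReal ((∫ t in a..b, lnW β κ t) + (1 - θ) * (31 / 32 * K)) ≤ μ (lineLift I θ) := by
    intro θ h1 h2 h3
    refine (ENNReal.ofReal_le_ofReal (k2 _ (by linarith) (by linarith))).trans ?_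
    rw [← lnW_lint β κ (by linarith)]
    exact mono (lift_of_Ioo hin h1 h3)
  set X := ∫ t in a..b, lnW β κ t
  have X0 : 0 ≤ X := intervalIntegral.integral_nonneg hab.le fun t _ => (Real.exp_pos _).le
  have j1 := hJ (-1) le_rfl (by norm_num) (by linarith)
  have c5 : (5 : ENNReal) = ENNReal.ofReal 5 := by simp
  have c3 : (3 : ENNReal) = ENNReal.ofReal 3 := by simp
  have c14 : (14 : ENNReal) = ENNReal.ofReal 14 := by simp
  refine le_trans ?_ le_self_add
  refine (mul_le_mul_right hI0 14).trans ?_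
  by_cases h2 : b ≤ a + 2
  · refine le_trans ?_ le_self_add
    refine le_trans ?_ (mul_le_mul_right j1 5)
    rw [c5, c14, ← ENNReal.ofReal_mul (by norm_num), ← ENNReal.ofReal_mul (by norm_num)]
    refine ENNReal.ofReal_le_ofReal ?_
    nlinarith
  · have j0 := hJ 0 (by norm_num) (by norm_num) (by linarith)
    refine le_trans ?_ (add_le_add (mul_le_mul_right j1 5) (mul_le_mul_right j0 3))
    rw [c5, c14, c3, ← ENNReal.ofReal_mul (by norm_num), ← ENNReal.ofReal_mul (by norm_num),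
      ← ENNReal.ofReal_mul (by norm_num), ← ENNReal.ofReal_add (by positivity) (by positivity)]
    refine ENNReal.ofReal_le_ofReal ?_
    nlinarith

end Pool.Agent.P.MP_e00059_co
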