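import Mathlib
import Pool.Agent.P.MP_e00059_co.Line

/-! Gaussian mass, the lifting step in `ι → ℝ`, and the Gaussian tail bound. -/

namespace Pool.Agent.P.MP_e00059_co

open MeasureTheory Set

variable {ι : Type} [Fintype ι]

/-- unnormalised Gaussian mass of a set -/
noncomputable def gm (σ : ℝ) (S : Set (ι → ℝ)) : ENNReal :=
  ∫⁻ x in S, ENNReal.ofReal (Real.exp (-(∑ k, x k ^ 2) / (2 * σ ^ 2)))

/-- the lift of `S` along `v` at height `θ` -/
def lift (v : ι → ℝ) (S : Set (ι → ℝ)) (θ : ℝ) : Set (ι → ℝ) :=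
  {x | ∃ u ∈ Icc (-2 : ℝ) 2, x + (u - 1 - θ) • v ∈ S ∧ x + (u + 1 + θ) • v ∈ S}

theorem gm_univ_ne_top (σ : ℝ) (hσ : 0 < σ) : gm σ (univ : Set (ι → ℝ)) ≠ ⊤ := by
  have h : Integrable (fun x : ι → ℝ => ∏ k, Real.exp (-(1 / (2 * σ ^ 2)) * x k ^ 2)) :=
    Integrable.fintype_prod (f := fun _ t => Real.exp (-(1 / (2 * σ ^ 2)) * t ^ 2))
      fun _ => integrable_exp_neg_mul_sq (by positivity)
  have e : ∀ x : ι → ℝ, Real.exp (-(∑ k, x k ^ 2) / (2 * σ ^ 2)) =
      ∏ k, Real.exp (-(1 / (2 * σ ^ 2)) * x k ^ 2) := fun x => by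
    rw [← Real.exp_sum, ← Finset.mul_sum]; congr 1; ring
  simp only [gm, Measure.restrict_univ, e]
  exact h.lintegral_lt_top.ne

theorem measurable_gw (σ : ℝ) : Measurable fun x : ι → ℝ =>
    ENNReal.ofReal (Real.exp (-(∑ k, x k ^ 2) / (2 * σ ^ 2))) := by fun_prop

theorem gm_univ_ne_zero (σ : ℝ) : gm σ (univ : Set (ι → ℝ)) ≠ 0 := by
  refine ((setLIntegral_pos_iff (measurable_gw σ)).2 ?_).ne'
  have : Function.support (fun x : ι → ℝ =>
      ENNReal.ofReal (Real.exp (-(∑ k, x k ^ 2) / (2 * σ ^ 2)))) = univ :=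
    eq_univ_of_forall fun x => (ENNReal.ofReal_pos.2 (Real.exp_pos _)).ne'
  rw [this, inter_self]
  exact isOpen_univ.measure_pos _ univ_nonempty

omit [Fintype ι] in
theorem isOpen_lift (v : ι → ℝ) {S : Set (ι → ℝ)} (hS : IsOpen S) (θ : ℝ) :
    IsOpen (lift v S θ) := by
  have : lift v S θ = ⋃ u ∈ Icc (-2 : ℝ) 2,
      (fun x => x + (u - 1 - θ) • v) ⁻¹' S ∩ (fun x => x + (u + 1 + θ) • v) ⁻¹' S := by
    ext x
    simp only [lift, mem_ofPred_eq, mem_iUnion, mem_inter_iff, mem_preimage, exists_prop]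
  rw [this]
  exact isOpen_biUnion fun u _ => (hS.preimage (by fun_prop)).inter (hS.preimage (by fun_prop))

/-- integration along the lines parallel to `v` -/
theorem soft_fubini {v : ι → ℝ} (hN : 0 < ∑ k, v k ^ 2) : ∃ ψ : (ι → ℝ) → ENNReal, Measurable ψ ∧
    ∀ F : (ι → ℝ) → ENNReal, Measurable F →
      ∫⁻ x, F x = ∫⁻ x, ψ x * ∫⁻ t : ℝ, F (x + t • v) := by
  set N := ∑ k, v k ^ 2 with hNd
  let ψ : (ι → ℝ) → ENNReal := fun x => (Icc (0 : ℝ) 1).indicator 1 ((∑ k, x k * v k) / N)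
  have mψ : Measurable ψ :=
    (measurable_one.indicator measurableSet_Icc).comp (by fun_prop)
  have h1 : ∀ x : ι → ℝ, ∫⁻ t : ℝ, ψ (x - t • v) = 1 := fun x => by
    have e : ∀ t : ℝ, ψ (x - t • v) =
        (Icc ((∑ k, x k * v k) / N - 1) ((∑ k, x k * v k) / N)).indicator 1 t := fun t => by
      have : (∑ k, (x - t • v) k * v k) / N = (∑ k, x k * v k) / N - t := by
        have : ∑ k, (x - t • v) k * v k = ∑ k, x k * v k - t * N := by
          rw [hNd, Finset.mul_sum, ← Finset.sum_sub_distrib]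
          exact Finset.sum_congr rfl fun k _ => by simp; ring
        rw [this]; field_simp
      simp only [ψ, this, indicator, mem_Icc, Pi.one_apply]
      congr 1
      exact propext ⟨fun h => ⟨by linarith [h.2], by linarith [h.1]⟩,
        fun h => ⟨by linarith [h.2], by linarith [h.1]⟩⟩
    simp only [e]
    rw [lintegral_indicator_one measurableSet_Icc, Real.volume_Icc]
    simp
  refine ⟨ψ, mψ, fun F mF => ?_⟩
  calc ∫⁻ x, F x = ∫⁻ x, ∫⁻ t : ℝ, F x * ψ (x - t • v) := by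
        refine lintegral_congr fun x => ?_
        rw [lintegral_const_mul _ (by fun_prop), h1, mul_one]
    _ = ∫⁻ t : ℝ, ∫⁻ x, F x * ψ (x - t • v) :=
        lintegral_lintegral_swap (by fun_prop)
    _ = ∫⁻ t : ℝ, ∫⁻ x, ψ x * F (x + t • v) := by
        refine lintegral_congr fun t => ?_
        rw [← lintegral_add_right_eq_self _ (t • v)]
        simp only [add_sub_cancel_right, mul_comm]
    _ = ∫⁻ x, ∫⁻ t : ℝ, ψ x * F (x + t • v) :=
        lintegral_lintegral_swap (by fun_prop)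
    _ = _ := lintegral_congr fun x => lintegral_const_mul _ (by fun_prop)

theorem line_mass (σ : ℝ) (hσ : 0 < σ) (v x : ι → ℝ) {S : Set (ι → ℝ)} (hS : MeasurableSet S) :
    ∫⁻ t : ℝ, S.indicator (fun y =>
        ENNReal.ofReal (Real.exp (-(∑ k, y k ^ 2) / (2 * σ ^ 2)))) (x + t • v) =
      ENNReal.ofReal (Real.exp (-(∑ k, x k ^ 2) / (2 * σ ^ 2))) *
        ∫⁻ t in {t : ℝ | x + t • v ∈ S}, ENNReal.ofReal (Real.exp
          ((-(∑ k, x k * v k) / σ ^ 2) * t - ((∑ k, v k ^ 2) / σ ^ 2) * t ^ 2 / 2)) := by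
  have hm : MeasurableSet {t : ℝ | x + t • v ∈ S} :=
    (by fun_prop : Measurable fun t : ℝ => x + t • v) hS
  rw [← lintegral_const_mul _ (by fun_prop), ← lintegral_indicator hm]
  refine lintegral_congr fun t => ?_
  by_cases h : x + t • v ∈ S
  · rw [indicator_of_mem h, indicator_of_mem (show t ∈ {t : ℝ | x + t • v ∈ S} from h),
      ← ENNReal.ofReal_mul (Real.exp_pos _).le, ← Real.exp_add]
    congr 2
    have : ∑ k, (x + t • v) k ^ 2 =
        ∑ k, x k ^ 2 + 2 * t * ∑ k, x k * v k + t ^ 2 * ∑ k, v k ^ 2 := by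
      rw [Finset.mul_sum, Finset.mul_sum, ← Finset.sum_add_distrib, ← Finset.sum_add_distrib]
      exact Finset.sum_congr rfl fun k _ => by simp; ring
    rw [this]; field_simp; ring
  · rw [indicator_of_notMem h, indicator_of_notMem (show t ∉ {t : ℝ | x + t • v ∈ S} from h)]

theorem step_ineq (σ : ℝ) (hσ : 0 < σ) (v : ι → ℝ) (hv : 256 * ∑ k, v k ^ 2 ≤ σ ^ 2)
    (S : Set (ι → ℝ)) (hS : IsOpen S) (hc : Convex ℝ S) :
    14 * gm σ S ≤ 5 * gm σ (lift v S (-1)) + 3 * gm σ (lift v S 0) + 6 * gm σ (lift v S 1) := by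
  have hN0 : 0 ≤ ∑ k, v k ^ 2 := Finset.sum_nonneg fun k _ => sq_nonneg _
  rcases hN0.eq_or_lt with h0 | hN
  · have hv0 : v = 0 := funext fun k => pow_eq_zero_iff two_ne_zero |>.1
      ((Finset.sum_eq_zero_iff_of_nonneg fun k _ => sq_nonneg (v k)).1 h0.symm k (Finset.mem_univ k))
    have e : ∀ θ, lift v S θ = S := fun θ => by
      ext x
      simp only [lift, hv0, smul_zero, add_zero, and_self, mem_ofPred_eq]
      exact ⟨fun ⟨_, _, h⟩ => h, fun h => ⟨0, ⟨by norm_num, by norm_num⟩, h⟩⟩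
    simp only [e]
    rw [← add_mul, ← add_mul]
    norm_num
  obtain ⟨ψ, mψ, H⟩ := soft_fubini hN
  set W : (ι → ℝ) → ENNReal := fun y =>
    ENNReal.ofReal (Real.exp (-(∑ k, y k ^ 2) / (2 * σ ^ 2))) with hW
  have mW : Measurable W := measurable_gw σ
  let G : Set (ι → ℝ) → (ι → ℝ) → ENNReal := fun T x => ψ x * ∫⁻ t : ℝ, T.indicator W (x + t • v)
  have mG : ∀ T, IsOpen T → Measurable (G T) := fun T hT => by
    have := mW.indicator hT.measurableSet
    exact mψ.mul (Measurable.lintegral_prod_right (f := fun x (t : ℝ) => T.indicator W (x + t • v))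
      (by fun_prop))
  have eG : ∀ T, IsOpen T → gm σ T = ∫⁻ x, G T x := fun T hT => by
    rw [gm, ← lintegral_indicator hT.measurableSet]
    exact H _ (mW.indicator hT.measurableSet)
  have o1 := isOpen_lift v hS (-1)
  have o2 := isOpen_lift v hS 0
  have o3 := isOpen_lift v hS 1
  rw [eG _ hS, eG _ o1, eG _ o2, eG _ o3, ← lintegral_const_mul _ (mG _ hS),
    ← lintegral_const_mul _ (mG _ o1), ← lintegral_const_mul _ (mG _ o2),
    ← lintegral_const_mul _ (mG _ o3), ← lintegral_add_left ((mG _ o1).const_mul _),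
    ← lintegral_add_right _ ((mG _ o3).const_mul _)]
  refine lintegral_mono fun x => ?_
  have eL : ∀ θ, {t : ℝ | x + t • v ∈ lift v S θ} = lineLift {t : ℝ | x + t • v ∈ S} θ := fun θ => by
    ext t
    simp only [lift, lineLift, mem_ofPred_eq, add_smul t, add_assoc x]
  have hI : IsOpen {t : ℝ | x + t • v ∈ S} :=
    hS.preimage (by fun_prop : Continuous fun t : ℝ => x + t • v)
  have hcI : Convex ℝ {t : ℝ | x + t • v ∈ S} := by
    intro s hs t ht a b ha hb hab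
    have := hc hs ht ha hb hab
    have e : a • (x + s • v) + b • (x + t • v) = x + (a • s + b • t) • v := by
      obtain rfl : b = 1 - a := by linarith
      ext k; simp; ring
    rwa [e] at this
  have key := line_ineq _ hI hcI (-(∑ k, x k * v k) / σ ^ 2) ((∑ k, v k ^ 2) / σ ^ 2)
    (by positivity) (by rw [div_le_iff₀ (by positivity)]; linarith)
  simp only [G, hW, line_mass σ hσ v x hS.measurableSet, line_mass σ hσ v x o1.measurableSet,
    line_mass σ hσ v x o2.measurableSet, line_mass σ hσ v x o3.measurableSet, eL]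
  calc _ = (ψ x * W x) * (14 * _) := by rw [hW]; ring
    _ ≤ (ψ x * W x) * _ := mul_le_mul_right key _
    _ = _ := by rw [hW]; ring

theorem gm_half (σ : ℝ) (hσ : 0 < σ) (a : ι → ℝ) (B Δ : ℝ) (hB : 0 < B) (hΔ : 0 ≤ Δ)
    (ha : ∑ k, a k ^ 2 ≤ B ^ 2) :
    gm σ {x : ι → ℝ | Δ ≤ ∑ k, a k * x k} ≤
      ENNReal.ofReal (Real.exp (-Δ ^ 2 / (2 * σ ^ 2 * B ^ 2))) * gm σ (univ : Set (ι → ℝ)) := by
  have hm : MeasurableSet {x : ι → ℝ | Δ ≤ ∑ k, a k * x k} :=
    measurableSet_le measurable_const (by fun_prop)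
  obtain ⟨c, hc⟩ : ∃ c : ℝ, c = Δ / B ^ 2 := ⟨_, rfl⟩
  have c0 : 0 ≤ c := by rw [hc]; positivity
  have hΔc : Δ = c * B ^ 2 := by rw [hc]; field_simp
  simp only [gm, Measure.restrict_univ]
  rw [← lintegral_sub_right_eq_self (μ := (volume : Measure (ι → ℝ))) _ (c • a),
    ← lintegral_const_mul _ (by fun_prop), ← lintegral_indicator hm]
  refine lintegral_mono fun x => ?_
  by_cases h : Δ ≤ ∑ k, a k * x k
  · rw [indicator_of_mem (show x ∈ {x : ι → ℝ | Δ ≤ ∑ k, a k * x k} from h),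
      ← ENNReal.ofReal_mul (Real.exp_pos _).le, ← Real.exp_add]
    refine ENNReal.ofReal_le_ofReal (Real.exp_le_exp.2 ?_)
    have e : ∑ k, (x - c • a) k ^ 2 =
        ∑ k, x k ^ 2 - 2 * c * ∑ k, a k * x k + c ^ 2 * ∑ k, a k ^ 2 := by
      rw [Finset.mul_sum, Finset.mul_sum, ← Finset.sum_sub_distrib, ← Finset.sum_add_distrib]
      exact Finset.sum_congr rfl fun k _ => by simp; ring
    have e2 : -Δ ^ 2 / (2 * σ ^ 2 * B ^ 2) = -(c * Δ) / (2 * σ ^ 2) := by
      rw [hc]; field_simp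
    rw [e, e2, ← add_div]
    gcongr
    have h1 : c * Δ ≤ c * ∑ k, a k * x k := mul_le_mul_of_nonneg_left h c0
    have h2 : c ^ 2 * ∑ k, a k ^ 2 ≤ c ^ 2 * B ^ 2 := mul_le_mul_of_nonneg_left ha (sq_nonneg c)
    have h3 : c ^ 2 * B ^ 2 = c * Δ := by rw [hΔc]; ring
    linarith
  · rw [indicator_of_notMem (show x ∉ {x : ι → ℝ | Δ ≤ ∑ k, a k * x k} from h)]
    exact zero_le

theorem gm_tail (σ : ℝ) (hσ : 0 < σ) (a : ι → ℝ) (B Δ : ℝ) (hB : 0 < B) (hΔ : 0 ≤ Δ)
    (ha : ∑ k, a k ^ 2 ≤ B ^ 2) :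
    gm σ {x : ι → ℝ | Δ ≤ |∑ k, a k * x k|} ≤
      ENNReal.ofReal (2 * Real.exp (-Δ ^ 2 / (2 * σ ^ 2 * B ^ 2))) * gm σ (univ : Set (ι → ℝ)) := by
  have h1 := gm_half σ hσ a B Δ hB hΔ ha
  have h2 := gm_half σ hσ (-a) B Δ hB hΔ (by simpa using ha)
  have e : {x : ι → ℝ | Δ ≤ |∑ k, a k * x k|} =
      {x : ι → ℝ | Δ ≤ ∑ k, a k * x k} ∪ {x : ι → ℝ | Δ ≤ ∑ k, (-a) k * x k} := by
    ext x; simp [le_abs]
  rw [e, two_mul, ENNReal.ofReal_add (Real.exp_pos _).le (Real.exp_pos _).le, add_mul]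
  exact (lintegral_union_le _ _ _).trans (add_le_add h1 h2)

end Pool.Agent.P.MP_e00059_co
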