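import Mathlib
import Pool.Agent.P.MP_e00059_co.Step

/-! Banaszczyk's theorem on signed series, by lifting. -/

namespace Pool.Agent.P.MP_e00059_co

open MeasureTheory Set

variable {ι : Type} [Fintype ι]

/-- iterated lift of `K` along `v 0, …, v (k-1)` at heights `θ 0, …, θ (k-1)` -/
def iterLift (K : Set (ι → ℝ)) : ℕ → (ℕ → ι → ℝ) → (ℕ → ℝ) → Set (ι → ℝ)
  | 0, _, _ => K
  | k + 1, v, θ => K ∩ lift (v 0) (iterLift K k (fun j => v (j + 1)) (fun j => θ (j + 1))) (θ 0)

theorem iterLift_realize : True := by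
  have := @iterLift.eq_def
  trivial

omit [Fintype ι] in
theorem ban_isOpen_lift (v : ι → ℝ) (S : Set (ι → ℝ)) (hS : IsOpen S) (θ : ℝ) :
    IsOpen (lift v S θ) := by
  have h : lift v S θ = ⋃ u ∈ Icc (-2 : ℝ) 2,
      ((fun x : ι → ℝ => x + (u - 1 - θ) • v) ⁻¹' S ∩
        (fun x : ι → ℝ => x + (u + 1 + θ) • v) ⁻¹' S) := by
    ext x
    simp only [lift, mem_ofPred_eq, mem_iUnion, mem_inter_iff, mem_preimage, exists_prop]
  rw [h]
  refine isOpen_biUnion fun u _ => IsOpen.inter ?_ ?_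
  · exact hS.preimage (continuous_id.add continuous_const)
  · exact hS.preimage (continuous_id.add continuous_const)

omit [Fintype ι] in
theorem isOpen_iterLift (K : Set (ι → ℝ)) (hK : IsOpen K) (k : ℕ) :
    ∀ (v : ℕ → ι → ℝ) (θ : ℕ → ℝ), IsOpen (iterLift K k v θ) := by
  induction k with
  | zero => intro v θ; exact hK
  | succ k ih => intro v θ; exact hK.inter (ban_isOpen_lift _ _ (ih _ _) _)

omit [Fintype ι] in
theorem neg_mem_iterLift (K : Set (ι → ℝ)) (hs : ∀ x ∈ K, -x ∈ K) (k : ℕ) :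
    ∀ (v : ℕ → ι → ℝ) (θ : ℕ → ℝ), ∀ x ∈ iterLift K k v θ, -x ∈ iterLift K k v θ := by
  induction k with
  | zero => intro v θ x hx; exact hs x hx
  | succ k ih =>
    rintro v θ x ⟨hx, u, hu, h1, h2⟩
    refine ⟨hs x hx, -u, ⟨by linarith [hu.2], by linarith [hu.1]⟩, ?_, ?_⟩
    · have h := ih _ _ _ h2
      have e : -x + (-u - 1 - θ 0) • v 0 = -(x + (u + 1 + θ 0) • v 0) := by
        ext i
        simp only [Pi.add_apply, Pi.neg_apply, Pi.smul_apply, smul_eq_mul]
        ring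
      rw [e]
      exact h
    · have h := ih _ _ _ h1
      have e : -x + (-u + 1 + θ 0) • v 0 = -(x + (u - 1 - θ 0) • v 0) := by
        ext i
        simp only [Pi.add_apply, Pi.neg_apply, Pi.smul_apply, smul_eq_mul]
        ring
      rw [e]
      exact h

omit [Fintype ι] in
theorem combo_mem_iterLift (K : Set (ι → ℝ)) (hc : Convex ℝ K) (a b : ℝ) (ha : 0 ≤ a)
    (hb : 0 ≤ b) (hab : a + b = 1) (k : ℕ) :
    ∀ (v : ℕ → ι → ℝ) (θ θ' : ℕ → ℝ), ∀ x ∈ iterLift K k v θ, ∀ y ∈ iterLift K k v θ',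
      a • x + b • y ∈ iterLift K k v (fun j => a * θ j + b * θ' j) := by
  induction k with
  | zero => intro v θ θ' x hx y hy; exact hc hx hy ha hb hab
  | succ k ih =>
    rintro v θ θ' x ⟨hx, u, hu, h1, h2⟩ y ⟨hy, u', hu', h1', h2'⟩
    refine ⟨hc hx hy ha hb hab, a * u + b * u', ⟨?_, ?_⟩, ?_, ?_⟩
    · nlinarith [mul_nonneg ha (sub_nonneg.2 hu.1), mul_nonneg hb (sub_nonneg.2 hu'.1)]
    · nlinarith [mul_nonneg ha (sub_nonneg.2 hu.2), mul_nonneg hb (sub_nonneg.2 hu'.2)]
    · have h := ih _ _ _ _ h1 _ h1'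
      have e : a • x + b • y + (a * u + b * u' - 1 - (a * θ 0 + b * θ' 0)) • v 0 =
          a • (x + (u - 1 - θ 0) • v 0) + b • (y + (u' - 1 - θ' 0) • v 0) := by
        ext i
        simp only [Pi.add_apply, Pi.smul_apply, smul_eq_mul]
        linear_combination (v 0 i) * hab
      rw [e]
      exact h
    · have h := ih _ _ _ _ h2 _ h2'
      have e : a • x + b • y + (a * u + b * u' + 1 + (a * θ 0 + b * θ' 0)) • v 0 =
          a • (x + (u + 1 + θ 0) • v 0) + b • (y + (u' + 1 + θ' 0) • v 0) := by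
        ext i
        simp only [Pi.add_apply, Pi.smul_apply, smul_eq_mul]
        linear_combination (-(v 0 i)) * hab
      rw [e]
      exact h

omit [Fintype ι] in
theorem convex_iterLift (K : Set (ι → ℝ)) (hc : Convex ℝ K) (k : ℕ) (v : ℕ → ι → ℝ)
    (θ : ℕ → ℝ) : Convex ℝ (iterLift K k v θ) := by
  intro x hx y hy a b ha hb hab
  have h := combo_mem_iterLift K hc a b ha hb hab k v θ θ x hx y hy
  have e : (fun j => a * θ j + b * θ j) = θ := by
    funext j
    linear_combination (θ j) * hab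
  rwa [e] at h

omit [Fintype ι] in
theorem convex_heights (K : Set (ι → ℝ)) (hc : Convex ℝ K) (k : ℕ) (v : ℕ → ι → ℝ) :
    Convex ℝ {θ : ℕ → ℝ | (0 : ι → ℝ) ∈ iterLift K k v θ} := by
  intro θ h θ' h' a b ha hb hab
  have h2 := combo_mem_iterLift K hc a b ha hb hab k v θ θ' 0 h 0 h'
  simp only [smul_zero, add_zero] at h2
  exact h2

omit [Fintype ι] in
theorem signs_of_mem (K : Set (ι → ℝ)) (hc : Convex ℝ K) (k : ℕ) :
    ∀ (v : ℕ → ι → ℝ) (θ : ℕ → ℝ), (∀ j < k, 0 ≤ θ j) → ∀ z ∈ iterLift K k v θ,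
      ∃ ε : ℕ → ℝ, (∀ i, ε i = 1 ∨ ε i = -1) ∧
        ∀ t ≤ k, z + ∑ i ∈ Finset.range t, ε i • v i ∈ K := by
  induction k with
  | zero =>
    intro v θ _ z hz
    refine ⟨fun _ => 1, fun _ => Or.inl rfl, fun t ht => ?_⟩
    obtain rfl : t = 0 := by omega
    simpa [iterLift] using hz
  | succ k ih =>
    rintro v θ hθ z ⟨hz, u, hu, h1, h2⟩
    have h0 : 0 ≤ θ 0 := hθ 0 (by omega)
    have hcv := convex_iterLift K hc k (fun j => v (j + 1)) (fun j => θ (j + 1))
    have hseg : ∀ s : ℝ, u - 1 - θ 0 ≤ s → s ≤ u + 1 + θ 0 →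
        z + s • v 0 ∈ iterLift K k (fun j => v (j + 1)) (fun j => θ (j + 1)) := by
      intro s hs1 hs2
      have hd : 0 < 2 + 2 * θ 0 := by linarith
      have h := hcv h1 h2 (a := (u + 1 + θ 0 - s) / (2 + 2 * θ 0))
        (b := (s - (u - 1 - θ 0)) / (2 + 2 * θ 0))
        (div_nonneg (by linarith) hd.le) (div_nonneg (by linarith) hd.le)
        (by field_simp; ring)
      have e : z + s • v 0 = ((u + 1 + θ 0 - s) / (2 + 2 * θ 0)) • (z + (u - 1 - θ 0) • v 0) +
          ((s - (u - 1 - θ 0)) / (2 + 2 * θ 0)) • (z + (u + 1 + θ 0) • v 0) := by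
        ext i
        simp only [Pi.add_apply, Pi.smul_apply, smul_eq_mul]
        field_simp
        ring
      rw [e]
      exact h
    obtain ⟨s, hs, hmem⟩ : ∃ s : ℝ, (s = 1 ∨ s = -1) ∧
        z + s • v 0 ∈ iterLift K k (fun j => v (j + 1)) (fun j => θ (j + 1)) := by
      rcases le_total 0 u with h | h
      · exact ⟨1, Or.inl rfl, hseg 1 (by linarith [hu.2]) (by linarith)⟩
      · exact ⟨-1, Or.inr rfl, hseg (-1) (by linarith) (by linarith [hu.1])⟩
    obtain ⟨ε, hε, hK⟩ := ih _ _ (fun j hj => hθ (j + 1) (by omega)) _ hmem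
    refine ⟨fun i => Nat.casesOn i s ε, fun i => ?_, fun t ht => ?_⟩
    · cases i with
      | zero => exact hs
      | succ i => exact hε i
    · cases t with
      | zero => simpa using hz
      | succ t =>
        have h := hK t (by omega)
        rw [Finset.sum_range_succ', add_comm (∑ i ∈ Finset.range t, _), ← add_assoc]
        exact h

theorem ban_gm_mono (σ : ℝ) {S T : Set (ι → ℝ)} (h : S ⊆ T) : gm σ S ≤ gm σ T :=
  lintegral_mono_set h

theorem ban_gm_le_inter_add (σ : ℝ) (K X : Set (ι → ℝ)) : gm σ X ≤ gm σ (K ∩ X) + gm σ Kᶜ := by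
  refine le_trans (ban_gm_mono σ (T := (K ∩ X) ∪ Kᶜ) ?_) (lintegral_union_le _ _ _)
  intro x hx
  by_cases h : x ∈ K
  · exact Or.inl ⟨h, hx⟩
  · exact Or.inr h

theorem ban_gm_empty (σ : ℝ) : gm σ (∅ : Set (ι → ℝ)) = 0 := by
  simp [gm]

/-- five values `-1`, three values `0`, six values `1` -/
def banTau (c : Fin 14) : ℝ := if c.val < 5 then -1 else if c.val < 8 then 0 else 1

theorem banTau_le (c : Fin 14) : banTau c ≤ 1 := by
  unfold banTau
  split_ifs <;> norm_num

theorem sum_banTau : ∑ c, banTau c = 1 := by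
  simp only [Fin.sum_univ_succ, Fin.sum_univ_zero, banTau]
  norm_num

theorem sum_banTau_fun (g : ℝ → ENNReal) : ∑ c, g (banTau c) = 5 * g (-1) + 3 * g 0 + 6 * g 1 := by
  simp only [Fin.sum_univ_succ, Fin.sum_univ_zero, banTau]
  norm_num
  ring

theorem exists_family (σ : ℝ) (hσ : 0 < σ) (K : Set (ι → ℝ)) (hK : IsOpen K) (hc : Convex ℝ K)
    (k : ℕ) : ∃ (T : Type) (_ : Fintype T) (θ : T → ℕ → ℝ), Fintype.card T = 14 ^ k ∧
      (∀ f j, θ f j ≤ 1) ∧ (∀ j < k, 14 * ∑ f, θ f j = 14 ^ k) ∧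
      ∀ v : ℕ → ι → ℝ, (∀ i < k, 256 * ∑ l, v i l ^ 2 ≤ σ ^ 2) →
        14 ^ k * gm σ (univ : Set (ι → ℝ)) ≤
          ∑ f, gm σ (iterLift K k v (θ f)) + 14 ^ k * ((k : ENNReal) + 1) * gm σ Kᶜ := by
  induction k with
  | zero =>
    refine ⟨Unit, inferInstance, fun _ _ => 0, by simp, fun _ _ => by norm_num,
      fun j hj => by omega, fun v _ => ?_⟩
    have h := ban_gm_le_inter_add σ K univ
    simpa [iterLift] using h
  | succ k ih =>
    obtain ⟨T, hT, θ, hcard, hle, hsum, hgm⟩ := ih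
    refine ⟨T × Fin 14, inferInstance, fun p j => Nat.casesOn j (banTau p.2) (θ p.1), ?_, ?_, ?_, ?_⟩
    · rw [Fintype.card_prod, hcard, Fintype.card_fin, pow_succ]
    · intro p j
      cases j with
      | zero => exact banTau_le _
      | succ j => exact hle _ _
    · intro j hj
      cases j with
      | zero =>
        have e : ∑ p : T × Fin 14, banTau p.2 = 14 ^ k := by
          rw [Fintype.sum_prod_type]
          simp only [sum_banTau, Finset.sum_const, Finset.card_univ, hcard, nsmul_eq_mul]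
          push_cast
          ring
        show 14 * ∑ p : T × Fin 14, banTau p.2 = 14 ^ (k + 1)
        rw [e]
        ring
      | succ j =>
        have e : ∑ p : T × Fin 14, θ p.1 j = 14 * ∑ f, θ f j := by
          rw [Fintype.sum_prod_type]
          simp only [Finset.sum_const, Finset.card_univ, Fintype.card_fin, nsmul_eq_mul]
          rw [Finset.mul_sum]
          push_cast
          rfl
        show 14 * ∑ p : T × Fin 14, θ p.1 j = 14 ^ (k + 1)
        rw [e, hsum j (by omega)]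
        ring
    · intro v hv
      have h1 := hgm (fun j => v (j + 1)) (fun i hi => hv (i + 1) (by omega))
      have h2 : ∀ f : T, 14 * gm σ (iterLift K k (fun j => v (j + 1)) (θ f)) ≤
          ∑ c : Fin 14, gm σ (K ∩ lift (v 0) (iterLift K k (fun j => v (j + 1)) (θ f)) (banTau c)) +
            14 * gm σ Kᶜ := by
        intro f
        have h3 := step_ineq σ hσ (v 0) (hv 0 (by omega)) _
          (isOpen_iterLift K hK k (fun j => v (j + 1)) (θ f))
          (convex_iterLift K hc k (fun j => v (j + 1)) (θ f))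
        rw [← sum_banTau_fun
          (fun s => gm σ (lift (v 0) (iterLift K k (fun j => v (j + 1)) (θ f)) s))] at h3
        refine h3.trans ?_
        refine (Finset.sum_le_sum fun c _ => ban_gm_le_inter_add σ K _).trans ?_
        rw [Finset.sum_add_distrib]
        simp only [Finset.sum_const, Finset.card_univ, Fintype.card_fin, nsmul_eq_mul]
        push_cast
        exact le_rfl
      have h4 : 14 * ∑ f, gm σ (iterLift K k (fun j => v (j + 1)) (θ f)) ≤
          ∑ p : T × Fin 14,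
            gm σ (K ∩ lift (v 0) (iterLift K k (fun j => v (j + 1)) (θ p.1)) (banTau p.2)) +
            14 ^ (k + 1) * gm σ Kᶜ := by
        rw [Finset.mul_sum, Fintype.sum_prod_type]
        refine (Finset.sum_le_sum fun f _ => h2 f).trans ?_
        rw [Finset.sum_add_distrib]
        simp only [Finset.sum_const, Finset.card_univ, hcard, nsmul_eq_mul]
        push_cast
        rw [pow_succ, mul_assoc]
      show 14 ^ (k + 1) * gm σ (univ : Set (ι → ℝ)) ≤ ∑ p : T × Fin 14,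
            gm σ (K ∩ lift (v 0) (iterLift K k (fun j => v (j + 1)) (θ p.1)) (banTau p.2)) +
            14 ^ (k + 1) * (((k + 1 : ℕ) : ENNReal) + 1) * gm σ Kᶜ
      calc 14 ^ (k + 1) * gm σ (univ : Set (ι → ℝ))
          = 14 * (14 ^ k * gm σ (univ : Set (ι → ℝ))) := by ring
        _ ≤ 14 * (∑ f, gm σ (iterLift K k (fun j => v (j + 1)) (θ f)) +
              14 ^ k * ((k : ENNReal) + 1) * gm σ Kᶜ) := by gcongr
        _ = 14 * ∑ f, gm σ (iterLift K k (fun j => v (j + 1)) (θ f)) +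
              14 ^ (k + 1) * ((k : ENNReal) + 1) * gm σ Kᶜ := by ring
        _ ≤ (∑ p : T × Fin 14,
              gm σ (K ∩ lift (v 0) (iterLift K k (fun j => v (j + 1)) (θ p.1)) (banTau p.2)) +
              14 ^ (k + 1) * gm σ Kᶜ) + 14 ^ (k + 1) * ((k : ENNReal) + 1) * gm σ Kᶜ := by gcongr
        _ = _ := by push_cast; ring

theorem signed_series (σ : ℝ) (hσ : 0 < σ) (n : ℕ) (v : ℕ → ι → ℝ)
    (hv : ∀ i < n, 256 * ∑ k, v i k ^ 2 ≤ σ ^ 2) (K : Set (ι → ℝ)) (hK : IsOpen K)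
    (hc : Convex ℝ K) (hs : ∀ x ∈ K, -x ∈ K)
    (hm : 14 * ((n : ENNReal) + 1) * gm σ Kᶜ ≤ gm σ (univ : Set (ι → ℝ))) :
    ∃ ε : ℕ → ℝ, (∀ i, ε i = 1 ∨ ε i = -1) ∧ ∀ t ≤ n, ∑ i ∈ Finset.range t, ε i • v i ∈ K := by
  classical
  obtain ⟨T, hT, θ, hcard, hle, hsum, hgm⟩ := exists_family σ hσ K hK hc n
  have h1 := hgm v hv
  set Z := gm σ (univ : Set (ι → ℝ)) with hZ
  have hZ0 : Z ≠ 0 := gm_univ_ne_zero σ
  have hZt : Z ≠ ⊤ := gm_univ_ne_top σ hσ
  set G : Finset T := Finset.univ.filter fun f => (iterLift K n v (θ f)).Nonempty with hG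
  have h2 : ∑ f, gm σ (iterLift K n v (θ f)) ≤ (G.card : ENNReal) * Z := by
    rw [← Finset.sum_filter_add_sum_filter_not Finset.univ
      (fun f => (iterLift K n v (θ f)).Nonempty)]
    have e : ∑ f ∈ Finset.univ.filter (fun f => ¬(iterLift K n v (θ f)).Nonempty),
        gm σ (iterLift K n v (θ f)) = 0 := by
      refine Finset.sum_eq_zero fun f hf => ?_
      rw [Finset.mem_filter, not_nonempty_iff_eq_empty] at hf
      rw [hf.2, ban_gm_empty]
    rw [e, add_zero]
    refine (Finset.sum_le_sum fun f _ => ban_gm_mono σ (subset_univ _)).trans ?_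
    rw [Finset.sum_const, nsmul_eq_mul]
  have h3 : ((14 * 14 ^ n : ℕ) : ENNReal) * Z ≤ ((14 * G.card + 14 ^ n : ℕ) : ENNReal) * Z := by
    push_cast
    calc 14 * 14 ^ n * Z = 14 * (14 ^ n * Z) := by ring
      _ ≤ 14 * ((G.card : ENNReal) * Z + 14 ^ n * ((n : ENNReal) + 1) * gm σ Kᶜ) := by
          gcongr
          exact h1.trans (by gcongr)
      _ = 14 * (G.card : ENNReal) * Z + 14 ^ n * (14 * ((n : ENNReal) + 1) * gm σ Kᶜ) := by ring
      _ ≤ 14 * (G.card : ENNReal) * Z + 14 ^ n * Z := by gcongr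
      _ = _ := by ring
  have h4 : 14 * 14 ^ n ≤ 14 * G.card + 14 ^ n := by
    have h := (ENNReal.mul_le_mul_iff_left hZ0 hZt).1 h3
    exact_mod_cast h
  have hpos : 0 < 14 ^ n := by positivity
  have hGpos : 0 < G.card := by omega
  have hGr : (0 : ℝ) < G.card := by exact_mod_cast hGpos
  have h4r : (14 : ℝ) * 14 ^ n ≤ 14 * G.card + 14 ^ n := by exact_mod_cast h4
  have h5 : ∀ f ∈ G, θ f ∈ {θ : ℕ → ℝ | (0 : ι → ℝ) ∈ iterLift K n v θ} := by
    intro f hf
    obtain ⟨x, hx⟩ := (Finset.mem_filter.1 hf).2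
    have h := convex_iterLift K hc n v (θ f) hx (neg_mem_iterLift K hs n v (θ f) x hx)
      (a := 1 / 2) (b := 1 / 2) (by norm_num) (by norm_num) (by norm_num)
    simpa using h
  have h6 := (convex_heights K hc n v).sum_mem (t := G) (w := fun _ => 1 / (G.card : ℝ)) (z := θ)
    (fun _ _ => by positivity)
    (by rw [Finset.sum_const, nsmul_eq_mul]; field_simp) h5
  have h7 : ∀ j < n, 0 ≤ (∑ f ∈ G, (1 / (G.card : ℝ)) • θ f) j := by
    intro j hj
    rw [Finset.sum_apply]
    simp only [Pi.smul_apply, smul_eq_mul]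
    rw [← Finset.mul_sum]
    refine mul_nonneg (by positivity) ?_
    have e1 : ∑ f ∈ G, (1 - θ f j) ≤ ∑ f, (1 - θ f j) :=
      Finset.sum_le_sum_of_subset_of_nonneg (Finset.subset_univ _)
        (fun f _ _ => sub_nonneg.2 (hle f j))
    rw [Finset.sum_sub_distrib, Finset.sum_sub_distrib] at e1
    simp only [Finset.sum_const, Finset.card_univ, hcard, nsmul_eq_mul, mul_one] at e1
    push_cast at e1
    have e2 := hsum j hj
    linarith
  obtain ⟨ε, hε, hmem⟩ := signs_of_mem K hc n v _ h7 0 h6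
  exact ⟨ε, hε, fun t ht => by simpa using hmem t ht⟩

theorem balance {J : Type} [Fintype J] (n : ℕ) (v : ℕ → ι → ℝ) (a : J → ι → ℝ) (A B : ℝ)
    (hA : 0 < A) (hB : 0 < B) (hv : ∀ i < n, ∑ k, v i k ^ 2 ≤ A ^ 2)
    (ha : ∀ j, ∑ k, a j k ^ 2 ≤ B ^ 2) :
    ∃ ε : ℕ → ℝ, (∀ i, ε i = 1 ∨ ε i = -1) ∧ ∀ t ≤ n, ∀ j,
      |∑ i ∈ Finset.range t, ε i * ∑ k, a j k * v i k| ≤
        16 * A * B * √(2 * Real.log (28 * (n + 1) * (Fintype.card J + 1))) := by
  set M : ℝ := 28 * (n + 1) * (Fintype.card J + 1) with hM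
  have hn0 : (0 : ℝ) ≤ n := Nat.cast_nonneg _
  have hJ0 : (0 : ℝ) ≤ Fintype.card J := Nat.cast_nonneg _
  have hM1 : 1 ≤ M := by
    rw [hM]
    nlinarith [mul_nonneg hn0 hJ0]
  have hM0 : 0 < M := by linarith
  have hlog : 0 ≤ Real.log M := Real.log_nonneg hM1
  set Δ : ℝ := 16 * A * B * √(2 * Real.log M) with hΔ
  have hΔ0 : 0 ≤ Δ := by positivity
  have hσ : 0 < 16 * A := by positivity
  set K : Set (ι → ℝ) := {x | ∀ j, |∑ k, a j k * x k| < Δ} with hKdef
  have hKi : K = ⋂ j, {x : ι → ℝ | |∑ k, a j k * x k| < Δ} := by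
    ext x
    simp only [hKdef, mem_ofPred_eq, mem_iInter]
  have hK : IsOpen K := by
    rw [hKi]
    refine isOpen_iInter_of_finite fun j => isOpen_lt ?_ continuous_const
    fun_prop
  have hc : Convex ℝ K := by
    intro x hx y hy s t hs ht hst j
    have e : ∑ k, a j k * (s • x + t • y) k =
        s * ∑ k, a j k * x k + t * ∑ k, a j k * y k := by
      rw [Finset.mul_sum, Finset.mul_sum, ← Finset.sum_add_distrib]
      refine Finset.sum_congr rfl fun k _ => ?_
      simp only [Pi.add_apply, Pi.smul_apply, smul_eq_mul]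
      ring
    rw [e]
    have h := convex_Ioo (𝕜 := ℝ) (-Δ) Δ (abs_lt.1 (hx j)) (abs_lt.1 (hy j)) hs ht hst
    exact abs_lt.2 h
  have hs : ∀ x ∈ K, -x ∈ K := by
    intro x hx j
    have e : ∑ k, a j k * (-x) k = -∑ k, a j k * x k := by
      rw [← Finset.sum_neg_distrib]
      refine Finset.sum_congr rfl fun k _ => ?_
      simp only [Pi.neg_apply]
      ring
    rw [e, abs_neg]
    exact hx j
  have hexp : 2 * Real.exp (-Δ ^ 2 / (2 * (16 * A) ^ 2 * B ^ 2)) = 2 / M := by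
    have e : -Δ ^ 2 / (2 * (16 * A) ^ 2 * B ^ 2) = -Real.log M := by
      rw [hΔ, mul_pow, Real.sq_sqrt (by positivity)]
      field_simp
    rw [e, Real.exp_neg, Real.exp_log hM0, div_eq_mul_inv]
  have hm : 14 * ((n : ENNReal) + 1) * gm (16 * A) Kᶜ ≤ gm (16 * A) (univ : Set (ι → ℝ)) := by
    have h1 : gm (16 * A) Kᶜ ≤
        (Fintype.card J : ENNReal) * (ENNReal.ofReal (2 / M) * gm (16 * A) (univ : Set (ι → ℝ))) := by
      have e : Kᶜ = ⋃ j, {x : ι → ℝ | Δ ≤ |∑ k, a j k * x k|} := by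
        ext x
        simp only [hKdef, mem_compl_iff, mem_ofPred_eq, mem_iUnion, not_forall, not_lt]
      rw [e]
      refine (lintegral_iUnion_le _ _).trans ?_
      rw [tsum_fintype]
      refine (Finset.sum_le_sum fun j _ => gm_tail (16 * A) hσ (a j) B Δ hB hΔ0 (ha j)).trans ?_
      rw [hexp, Finset.sum_const, Finset.card_univ, nsmul_eq_mul]
    have h2 : 14 * ((n : ENNReal) + 1) * ((Fintype.card J : ENNReal) * ENNReal.ofReal (2 / M)) ≤ 1 := by
      have e : 14 * ((n : ENNReal) + 1) * ((Fintype.card J : ENNReal) * ENNReal.ofReal (2 / M)) =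
          ENNReal.ofReal (((14 * (n + 1) * Fintype.card J : ℕ) : ℝ) * (2 / M)) := by
        rw [ENNReal.ofReal_mul (Nat.cast_nonneg _), ENNReal.ofReal_natCast]
        push_cast
        ring
      rw [e, ENNReal.ofReal_le_one]
      push_cast
      rw [← mul_div_assoc, div_le_one hM0, hM]
      nlinarith
    calc 14 * ((n : ENNReal) + 1) * gm (16 * A) Kᶜ
        ≤ 14 * ((n : ENNReal) + 1) * ((Fintype.card J : ENNReal) *
            (ENNReal.ofReal (2 / M) * gm (16 * A) (univ : Set (ι → ℝ)))) := by gcongr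
      _ = 14 * ((n : ENNReal) + 1) * ((Fintype.card J : ENNReal) * ENNReal.ofReal (2 / M)) *
            gm (16 * A) (univ : Set (ι → ℝ)) := by ring
      _ ≤ 1 * gm (16 * A) (univ : Set (ι → ℝ)) := by gcongr
      _ = _ := one_mul _
  obtain ⟨ε, hε, hmem⟩ := signed_series (16 * A) hσ n v
    (fun i hi => by nlinarith [hv i hi]) K hK hc hs hm
  refine ⟨ε, hε, fun t ht j => ?_⟩
  have h := hmem t ht j
  have e : ∑ k, a j k * (∑ i ∈ Finset.range t, ε i • v i) k =
      ∑ i ∈ Finset.range t, ε i * ∑ k, a j k * v i k := by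
    simp only [Finset.sum_apply, Pi.smul_apply, smul_eq_mul, Finset.mul_sum]
    rw [Finset.sum_comm]
    refine Finset.sum_congr rfl fun i _ => Finset.sum_congr rfl fun k _ => ?_
    ring
  rw [e] at h
  exact h.le

end Pool.Agent.P.MP_e00059_co
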