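import Mathlib

/-! Exponential moment bounds for sums of independent ternary digits. -/

open Finset Real
open scoped BigOperators

namespace Pool.Agent.P.MP_e00059_co.L43

/-- centred ternary digit -/
def z (a : Fin 3) : ℝ := ((a : ℕ) : ℝ) - 1

lemma z0 : z 0 = -1 := by simp [z]
lemma z1 : z 1 = 0 := by simp [z]
lemma z2 : z 2 = 1 := by norm_num [z]

lemma abs_z (a : Fin 3) : |z a| ≤ 1 := by
  fin_cases a <;> norm_num [z]

lemma ex3 (G : Fin 3 → ℝ) : 𝔼 c, G c = (G 0 + G 1 + G 2) / 3 := by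
  rw [Fintype.expect_eq_sum_div_card, Fin.sum_univ_three]
  simp

lemma expect_pi {J B : Type} [Fintype J] [DecidableEq J] [Fintype B] (g : J → B → ℝ) :
    𝔼 a : J → B, ∏ j, g j (a j) = ∏ j, 𝔼 b, g j b := by
  simp only [Fintype.expect_eq_sum_div_card]
  rw [Finset.prod_div_distrib, Fintype.prod_sum]
  simp

lemma expect_cons {B : Type} [Fintype B] (m : ℕ) (G : (Fin (m + 1) → B) → ℝ) :
    𝔼 a, G a = 𝔼 a : Fin m → B, 𝔼 c : B, G (Fin.cons c a) := by
  rw [Finset.expect_comm, ← Finset.expect_product', Finset.univ_product_univ]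
  exact (Fintype.expect_equiv (Fin.consEquiv fun _ => B) _ _ fun i => rfl).symm

lemma mgf_one (d : Fin 3) (x : ℝ) : 𝔼 c, exp (x * z (d + c)) ≤ exp (x ^ 2 / 2) := by
  have h : 𝔼 c, exp (x * z (d + c)) = 𝔼 c, exp (x * z c) :=
    Fintype.expect_equiv (Equiv.addLeft d) _ _ fun i => rfl
  rw [h, ex3, z0, z1, z2]
  have h1 := Real.cosh_le_exp_half_sq x
  have h2 := Real.one_le_cosh x
  rw [Real.cosh_eq] at h1 h2
  simp only [mul_neg, mul_one, mul_zero, exp_zero]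
  linarith

lemma moments (m : ℕ) : ∀ c : Fin m → ℝ,
    𝔼 a : Fin m → Fin 3, (∑ ν, c ν * z (a ν)) ^ 2 = 2 / 3 * ∑ ν, c ν ^ 2 ∧
    𝔼 a : Fin m → Fin 3, (∑ ν, c ν * z (a ν)) ^ 4 ≤ 3 * (∑ ν, c ν ^ 2) ^ 2 := by
  induction m with
  | zero => intro c; simp
  | succ m ih =>
    intro c
    obtain ⟨h2, h4⟩ := ih fun ν => c ν.succ
    have hV : 0 ≤ ∑ ν : Fin m, c ν.succ ^ 2 := Finset.sum_nonneg fun _ _ => sq_nonneg _
    rw [expect_cons, expect_cons]
    simp only [Fin.sum_univ_succ, Fin.cons_zero, Fin.cons_succ, ex3, z0, z1, z2]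
    set S : (Fin m → Fin 3) → ℝ := fun a => ∑ ν, c ν.succ * z (a ν) with hS
    set V := ∑ ν : Fin m, c ν.succ ^ 2
    have e2 : ∀ a, ((c 0 * -1 + S a) ^ 2 + (c 0 * 0 + S a) ^ 2 + (c 0 * 1 + S a) ^ 2) / 3 =
        S a ^ 2 + 2 / 3 * c 0 ^ 2 := fun a => by ring
    have e4 : ∀ a, ((c 0 * -1 + S a) ^ 4 + (c 0 * 0 + S a) ^ 4 + (c 0 * 1 + S a) ^ 4) / 3 =
        S a ^ 4 + (4 * c 0 ^ 2 * S a ^ 2 + 2 / 3 * c 0 ^ 4) := fun a => by ring
    constructor
    · change 𝔼 a, ((c 0 * -1 + S a) ^ 2 + (c 0 * 0 + S a) ^ 2 + (c 0 * 1 + S a) ^ 2) / 3 = _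
      simp only [e2]
      rw [Finset.expect_add_distrib, Fintype.expect_const, h2]
      ring
    · change 𝔼 a, ((c 0 * -1 + S a) ^ 4 + (c 0 * 0 + S a) ^ 4 + (c 0 * 1 + S a) ^ 4) / 3 ≤ _
      simp only [e4]
      rw [Finset.expect_add_distrib, Finset.expect_add_distrib, Fintype.expect_const,
        ← Finset.mul_expect, h2]
      nlinarith [mul_nonneg hV (sq_nonneg (c 0)), sq_nonneg (c 0 ^ 2)]

lemma exp_neg_le (y : ℝ) (hy : 0 ≤ y) : exp (-y) ≤ 1 - y + y ^ 2 := by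
  rw [exp_neg, inv_le_iff_one_le_mul₀ (exp_pos y)]
  have h1 := add_one_le_exp y
  have h2 : 0 ≤ 1 - y + y ^ 2 := by nlinarith
  nlinarith [mul_le_mul_of_nonneg_left h1 h2, pow_nonneg hy 3]

lemma main_cell (m : ℕ) (hm : 0 < m) (c : Fin m → ℝ) (hc : ∀ ν, |c ν| ≤ 1) (μ : ℝ) (h0 : 0 ≤ μ)
    (h1 : μ ≤ 1 / 4) :
    𝔼 a : Fin m → Fin 3, exp (-(μ / (3 * √m) * |∑ ν, c ν * z (a ν)|)) ≤
      exp (-(μ / (54 * m) * ∑ ν, c ν ^ 2)) := by
  obtain ⟨h2, h4⟩ := moments m c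
  set V := ∑ ν, c ν ^ 2 with hV
  have hm' : (0 : ℝ) < m := by exact_mod_cast hm
  have V0 : 0 ≤ V := Finset.sum_nonneg fun _ _ => sq_nonneg _
  have Vm : V ≤ m := by
    calc V ≤ ∑ _ν : Fin m, (1 : ℝ) := Finset.sum_le_sum fun ν _ => by
            rw [← sq_abs]; nlinarith [hc ν, abs_nonneg (c ν)]
      _ = m := by simp
  set θ : ℝ := 1 / (3 * √m) with hθ
  have θ0 : 0 < θ := by positivity
  have θ2 : θ ^ 2 = 1 / (9 * m) := by
    rw [hθ, div_pow, mul_pow, sq_sqrt hm'.le]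
    norm_num
  have pt : ∀ S : ℝ, exp (-(μ / (3 * √m) * |S|)) ≤
      1 + ((μ ^ 2 - μ) * θ ^ 2 * S ^ 2 + μ * (θ ^ 2) ^ 2 * S ^ 4) := by
    intro S
    have e : μ / (3 * √m) * |S| = μ * (θ * |S|) := by rw [hθ]; ring
    set x := θ * |S| with hx
    have x0 : 0 ≤ x := by positivity
    have x2 : x ^ 2 = θ ^ 2 * S ^ 2 := by rw [hx, mul_pow, sq_abs]
    have x4 : x ^ 4 = (θ ^ 2) ^ 2 * S ^ 4 := by
      rw [show x ^ 4 = (x ^ 2) ^ 2 by ring, x2]; ring
    have hx1 : x ^ 2 - x ^ 4 ≤ x := by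
      rcases le_total x 1 with h | h
      · nlinarith [pow_nonneg x0 4]
      · nlinarith [mul_nonneg (sq_nonneg x) (show 0 ≤ x ^ 2 - 1 by nlinarith)]
    rw [e]
    refine (exp_neg_le _ (mul_nonneg h0 x0)).trans ?_
    rw [mul_assoc (μ ^ 2 - μ), mul_assoc μ, ← x2, ← x4]
    nlinarith [mul_le_mul_of_nonneg_left hx1 h0]
  refine (Finset.expect_le_expect fun a _ => pt _).trans ?_
  rw [Finset.expect_add_distrib, Finset.expect_add_distrib, Fintype.expect_const,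
    ← Finset.mul_expect, ← Finset.mul_expect, h2]
  refine le_trans ?_ (add_one_le_exp _)
  have h5 : μ * (θ ^ 2) ^ 2 * 𝔼 a : Fin m → Fin 3, (∑ ν, c ν * z (a ν)) ^ 4 ≤
      μ * (θ ^ 2) ^ 2 * (3 * V ^ 2) := mul_le_mul_of_nonneg_left h4 (by positivity)
  have h6 : θ ^ 2 * V ≤ 1 / 9 := by
    rw [θ2, div_mul_eq_mul_div, div_le_iff₀ (by positivity)]
    linarith
  have h7 : μ / (54 * m) = μ * θ ^ 2 / 6 := by
    rw [θ2]
    field_simp
    ring
  rw [h7]
  have h8 : 0 ≤ μ * θ ^ 2 * V := by positivity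
  nlinarith [mul_le_mul_of_nonneg_left h6 h8, mul_le_mul_of_nonneg_left h1 h8]

lemma noise_class {J : Type} [Fintype J] [DecidableEq J] (m : ℕ) (d : Fin 3)
    (b : J → Fin m → ℝ) (hb : ∀ Q ν, |b Q ν| ≤ 1) (μ : ℝ) :
    𝔼 a : J → Fin m → Fin 3, exp (μ * ∑ Q, ∑ ν, b Q ν * z (d + a Q ν)) ≤
      exp (μ ^ 2 / 2 * (Fintype.card J * m)) := by
  have e : ∀ a : J → Fin m → Fin 3, exp (μ * ∑ Q, ∑ ν, b Q ν * z (d + a Q ν)) =
      ∏ Q, ∏ ν, exp (μ * b Q ν * z (d + a Q ν)) := by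
    intro a
    simp only [← exp_sum, Finset.mul_sum, mul_assoc]
  simp only [e]
  rw [expect_pi fun Q (b' : Fin m → Fin 3) => ∏ ν, exp (μ * b Q ν * z (d + b' ν))]
  have e2 : exp (μ ^ 2 / 2 * (Fintype.card J * m)) = ∏ _Q : J, ∏ _ν : Fin m, exp (μ ^ 2 / 2) := by
    simp only [← exp_sum]
    congr 1
    simp only [Finset.sum_const, Finset.card_univ, Fintype.card_fin, nsmul_eq_mul]
    ring
  rw [e2]
  refine Finset.prod_le_prod (fun Q _ => Finset.expect_nonneg fun a _ =>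
    Finset.prod_nonneg fun ν _ => (exp_pos _).le) fun Q _ => ?_
  rw [expect_pi fun ν (c : Fin 3) => exp (μ * b Q ν * z (d + c))]
  refine Finset.prod_le_prod (fun ν _ => Finset.expect_nonneg fun a _ => (exp_pos _).le)
    fun ν _ => (mgf_one d _).trans (exp_le_exp.2 ?_)
  have : b Q ν ^ 2 ≤ 1 := by
    rw [← sq_abs]; nlinarith [hb Q ν, abs_nonneg (b Q ν)]
  nlinarith [sq_nonneg μ]

lemma main_class {J : Type} [Fintype J] [DecidableEq J] (m : ℕ) (hm : 0 < m)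
    (c : J → Fin m → ℝ) (hc : ∀ Q ν, |c Q ν| ≤ 1) (μ : ℝ) (h0 : 0 ≤ μ) (h1 : μ ≤ 1 / 4) :
    𝔼 a : J → Fin m → Fin 3, exp (-(μ / (3 * √m) * ∑ Q, |∑ ν, c Q ν * z (a Q ν)|)) ≤
      exp (-(μ / (54 * m) * ∑ Q, ∑ ν, c Q ν ^ 2)) := by
  simp only [Finset.mul_sum (s := (univ : Finset J)), ← Finset.sum_neg_distrib, exp_sum]
  rw [expect_pi fun Q (b' : Fin m → Fin 3) => exp (-(μ / (3 * √m) * |∑ ν, c Q ν * z (b' ν)|))]
  exact Finset.prod_le_prod (fun Q _ => Finset.expect_nonneg fun a _ => (exp_pos _).le)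
    fun Q _ => main_cell m hm _ (hc Q) μ h0 h1

lemma sum_class {S : ℕ} (p : Fin S) (G : (Fin S → Fin 3) → ℝ) :
    ∑ R, G R = ∑ d : Fin 3, ∑ Q : Fin S → Fin 3,
      if Q p = 0 then G (Function.update Q p d) else 0 := by
  have e : ∀ d : Fin 3, ∑ Q : Fin S → Fin 3, (if Q p = 0 then G (Function.update Q p d) else 0) =
      ∑ R : Fin S → Fin 3, if R p = d then G R else 0 := by
    intro d
    rw [← Finset.sum_filter, ← Finset.sum_filter]
    refine Finset.sum_nbij' (fun Q => Function.update Q p d) (fun R => Function.update R p 0)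
      (fun Q _ => by simp) (fun R _ => by simp) (fun Q hQ => ?_) (fun R hR => ?_) fun _ _ => rfl
    · rw [Function.update_idem, ← (mem_filter.1 hQ).2, Function.update_eq_self]
    · rw [Function.update_idem, ← (mem_filter.1 hR).2, Function.update_eq_self]
  simp only [e]
  rw [Finset.sum_comm]
  simp

/-- the one step exponential moment bound -/
theorem step_bound {S : ℕ} (m : ℕ) (hm : 0 < m) (p : Fin S)
    (α β : (Fin S → Fin 3) → Fin m → ℝ) (hα : ∀ R ν, |α R ν| ≤ 1) (hβ : ∀ R ν, |β R ν| ≤ 1)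
    (hV : (m : ℝ) * 3 ^ S / 81 ≤ ∑ R, ∑ ν, if R p = 0 then α R ν ^ 2 else 0) :
    𝔼 a : (Fin S → Fin 3) → Fin m → Fin 3, exp (-(2 / 10 ^ 5 / √m *
      (1 / 12 * ∑ R, |∑ ν, α R ν * z (R p + a (Function.update R p 0) ν)| -
        1 / 3 * ∑ R, ∑ ν, β R ν * z (R p + a (Function.update R p 0) ν)))) ≤
      exp (-(3 ^ S / (2 * 10 ^ 9))) := by
  have hm' : (0 : ℝ) < m := by exact_mod_cast hm
  have hs : 0 < √(m : ℝ) := sqrt_pos.2 hm'
  set lam : ℝ := 2 / 10 ^ 5 / √m with hlam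
  have lam0 : 0 < lam := by positivity
  have lam2 : lam ^ 2 * m = 4 / 10 ^ 10 := by
    rw [hlam, div_pow, sq_sqrt hm'.le]
    field_simp
    norm_num
  let c : (Fin S → Fin 3) → Fin m → ℝ := fun Q ν => if Q p = 0 then α Q ν else 0
  let b : Fin 3 → (Fin S → Fin 3) → Fin m → ℝ := fun d Q ν =>
    if Q p = 0 then β (Function.update Q p d) ν else 0
  let M : ((Fin S → Fin 3) → Fin m → Fin 3) → ℝ := fun a => ∑ Q, |∑ ν, c Q ν * z (a Q ν)|
  let X : Fin 3 → ((Fin S → Fin 3) → Fin m → Fin 3) → ℝ := fun d a =>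
    ∑ Q, ∑ ν, b d Q ν * z (d + a Q ν)
  have hM : ∀ a, M a ≤ ∑ R, |∑ ν, α R ν * z (R p + a (Function.update R p 0) ν)| := by
    intro a
    refine Finset.sum_le_sum fun Q _ => ?_
    by_cases h : Q p = 0
    · have : Function.update Q p 0 = Q := by rw [← h, Function.update_eq_self]
      simp [c, h, this]
    · simp [c, h]
  have hX : ∀ a, ∑ R, ∑ ν, β R ν * z (R p + a (Function.update R p 0) ν) =
      X 0 a + X 1 a + X 2 a := by
    intro a
    rw [sum_class p, ← Fin.sum_univ_three (fun d => X d a)]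
    refine Finset.sum_congr rfl fun d _ => Finset.sum_congr rfl fun Q _ => ?_
    by_cases h : Q p = 0
    · have : Function.update Q p 0 = Q := by rw [← h, Function.update_eq_self]
      simp [b, h, this]
    · simp [b, h]
  have h1 : 𝔼 a, exp (-(lam / 12 * M a)) ^ 2 ≤ exp (-(1 / 10 ^ 5 / 4374 * 3 ^ S)) := by
    have e : ∀ a, exp (-(lam / 12 * M a)) ^ 2 = exp (-(1 / 10 ^ 5 / (3 * √m) * M a)) := by
      intro a
      rw [← exp_nat_mul, hlam]
      congr 1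
      push_cast
      field_simp
      ring
    simp only [e]
    refine (main_class m hm c (fun Q ν => ?_) _ (by norm_num) (by norm_num)).trans
      (exp_le_exp.2 ?_)
    · by_cases h : Q p = 0 <;> simp [c, h, hα]
    · have e2 : ∑ Q, ∑ ν, c Q ν ^ 2 = ∑ R, ∑ ν, if R p = 0 then α R ν ^ 2 else 0 :=
        Finset.sum_congr rfl fun Q _ => Finset.sum_congr rfl fun ν _ => by
          by_cases h : Q p = 0 <;> simp [c, h]
      rw [e2, neg_le_neg_iff]
      refine le_trans (le_of_eq ?_) (mul_le_mul_of_nonneg_left hV (by positivity))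
      field_simp
      norm_num
  have h2 : 𝔼 a, exp (lam / 3 * (X 0 a + X 1 a + X 2 a)) ^ 2 ≤ exp (8 / 10 ^ 10 * 3 ^ S) := by
    have hd : ∀ d, 𝔼 a, exp (2 * lam * X d a) ≤ exp (8 / 10 ^ 10 * 3 ^ S) := by
      intro d
      refine (noise_class m d (b d) (fun Q ν => ?_) _).trans (le_of_eq ?_)
      · by_cases h : Q p = 0 <;> simp [b, h, hβ]
      · congr 1
        simp only [Fintype.card_pi, Fintype.card_fin, Finset.prod_const, Finset.card_univ]
        push_cast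
        linear_combination (2 * 3 ^ S) * lam2
    have e : ∀ a, exp (lam / 3 * (X 0 a + X 1 a + X 2 a)) ^ 2 ≤
        1 / 3 * exp (2 * lam * X 0 a) + (1 / 3 * exp (2 * lam * X 1 a) +
          1 / 3 * exp (2 * lam * X 2 a)) := by
      intro a
      have := convexOn_exp.map_sum_le (t := (univ : Finset (Fin 3))) (w := fun _ => (1 / 3 : ℝ))
        (p := fun d => 2 * lam * X d a) (fun _ _ => by norm_num) (by simp) (fun _ _ => by simp)
      simp only [Fin.sum_univ_three, smul_eq_mul] at this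
      rw [← exp_nat_mul]
      refine le_trans (le_of_eq ?_) (this.trans (le_of_eq (by ring)))
      congr 1
      push_cast
      ring
    refine (Finset.expect_le_expect fun a _ => e a).trans ?_
    rw [Finset.expect_add_distrib, Finset.expect_add_distrib, ← Finset.mul_expect,
      ← Finset.mul_expect, ← Finset.mul_expect]
    linarith [hd 0, hd 1, hd 2]
  have h3 := Finset.expect_mul_sq_le_sq_mul_sq univ (fun a => exp (-(lam / 12 * M a)))
    (fun a => exp (lam / 3 * (X 0 a + X 1 a + X 2 a)))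
  have h4 : (𝔼 a, exp (-(lam / 12 * M a)) * exp (lam / 3 * (X 0 a + X 1 a + X 2 a))) ^ 2 ≤
      exp (-(3 ^ S / (2 * 10 ^ 9))) ^ 2 := by
    refine h3.trans ((mul_le_mul h1 h2 (Finset.expect_nonneg fun _ _ => sq_nonneg _)
      (exp_pos _).le).trans ?_)
    rw [← exp_add, ← exp_nat_mul, exp_le_exp]
    have : (0 : ℝ) < 3 ^ S := by positivity
    push_cast
    linarith
  refine le_trans (Finset.expect_le_expect fun a _ => ?_)
    ((pow_le_pow_iff_left₀ (Finset.expect_nonneg fun _ _ => by positivity) (exp_pos _).le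
      two_ne_zero).1 h4)
  rw [← exp_add, exp_le_exp, hX]
  nlinarith [mul_le_mul_of_nonneg_left (hM a) lam0.le]

end Pool.Agent.P.MP_e00059_co.L43
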