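import Mathlib
import Pool.Agent.P.MP_e00059_co.Prob

/-! The adaptive Riesz product: the effect of one new digit on one point. -/

open Finset Real
open scoped BigOperators

namespace Pool.Agent.P.MP_e00059_co.L43

/-- ternary digit strings -/
abbrev Dg (S : ℕ) := Fin S → Fin 3

variable {S : ℕ}

/-- digits of `a` below position `t`, digits of `b` from position `t` on -/
def mix (t : ℕ) (a b : Dg S) : Dg S := fun q => if (q : ℕ) < t then a q else b q

lemma mix_invol (t : ℕ) (a b : Dg S) : mix t (mix t a b) (mix t b a) = a := by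
  ext q
  simp only [mix]
  split_ifs <;> rfl

lemma expect_cell (t : ℕ) (G : Dg S → Dg S → ℝ) :
    𝔼 u, 𝔼 v, G u v = 𝔼 R, 𝔼 b, G (mix t R b) (mix t b R) := by
  rw [← Finset.expect_product', ← Finset.expect_product', univ_product_univ]
  refine (Fintype.expect_equiv (Function.Involutive.toPerm
    (fun x : Dg S × Dg S => (mix t x.1 x.2, mix t x.2 x.1)) ?_) _ _ fun i => rfl).symm
  intro x
  simp [mix_invol]

lemma expect_mix (t : ℕ) (G : Dg S → ℝ) : 𝔼 a, G a = 𝔼 a, 𝔼 b, G (mix t a b) := by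
  rw [← expect_cell t (fun u _ => G u)]
  simp

lemma expect_digit (p : Fin S) (f : Fin 3 → ℝ) (g : Dg S → ℝ)
    (hg : ∀ b c, g (Function.update b p c) = g b) :
    𝔼 b, f (b p) * g b = (𝔼 c, f c) * 𝔼 b, g b := by
  have h1 : 𝔼 b, f (b p) * g b = 𝔼 x : Dg S × Fin 3, f (x.1 p) * g x.1 := by
    rw [← univ_product_univ, Finset.expect_product]
    simp
  have h2 : (𝔼 c, f c) * 𝔼 b, g b = 𝔼 x : Dg S × Fin 3, f x.2 * g x.1 := by
    rw [← univ_product_univ, Finset.expect_product, Finset.mul_expect]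
    simp only [Finset.expect_mul]
  rw [h1, h2]
  refine Fintype.expect_equiv (Function.Involutive.toPerm
    (fun x : Dg S × Fin 3 => (Function.update x.1 p x.2, x.1 p)) ?_) _ _ fun i => ?_
  · intro x
    simp
  · simp [hg]

lemma mix_update (t : ℕ) (p : Fin S) (hp : t ≤ p) (b R : Dg S) (c : Fin 3) :
    mix t (Function.update b p c) R = mix t b R := by
  ext q
  simp only [mix]
  split_ifs with h
  · rw [Function.update_of_ne]
    rintro rfl
    omega
  · rfl

/-- invariants of the Riesz product after `k` steps -/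
structure Good (k : ℕ) (Ψ : Dg S → Dg S → ℝ) : Prop where
  nonneg : ∀ u v, 0 ≤ Ψ u v
  low : ∀ u u' v, Ψ (mix (k + 1) u u') v = Ψ u v
  cond : ∀ u v, 𝔼 b, Ψ u (mix k b v) = 1

lemma Good.tower {k : ℕ} {Ψ : Dg S → Dg S → ℝ} (h : Good k Ψ) (r : Fin S) (hr : (r : ℕ) = k)
    (g : Fin 3 → ℝ) (u v : Dg S) : 𝔼 b, g (b r) * Ψ u (mix (k + 1) b v) = 𝔼 c, g c := by
  rw [expect_mix k, Finset.expect_comm]
  have e : ∀ a b : Dg S, g (mix k a b r) * Ψ u (mix (k + 1) (mix k a b) v) =
      g (b r) * Ψ u (mix k a (mix (k + 1) b v)) := by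
    intro a b
    congr 2
    · simp [mix, hr]
    · ext q
      simp only [mix]
      split_ifs <;> first | rfl | omega
  simp only [e, ← Finset.mul_expect, h.cond]
  simpa using expect_digit r g (fun _ => 1) fun _ _ => rfl

lemma Good.mean {k : ℕ} {Ψ : Dg S → Dg S → ℝ} (h : Good k Ψ) (u : Dg S) : 𝔼 v, Ψ u v = 1 := by
  rw [expect_mix k, Finset.expect_comm]
  simp [h.cond]

/-- the mean zero profile in the first coordinate -/
noncomputable def eta (c : Fin 3) : ℝ := if c = 1 then -1 else 1 / 2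

/-- half the sign of `c - a` -/
noncomputable def kap (a c : Fin 3) : ℝ := if a < c then 1 / 2 else if c < a then -1 / 2 else 0

lemma abs_eta (c : Fin 3) : |eta c| ≤ 1 := by
  unfold eta
  split_ifs <;> norm_num [abs_of_pos]

lemma ex_eta : 𝔼 c, eta c = 0 := by
  rw [ex3]
  simp [eta]
  norm_num

lemma ex_z : 𝔼 c, z c = 0 := by
  rw [ex3, z0, z1, z2]
  norm_num

lemma ex_kap (a : Fin 3) : 𝔼 c, kap a c = -z a / 3 := by
  rw [ex3]
  fin_cases a <;> simp [kap, z] <;> norm_num

lemma ex_kap_eta (a : Fin 3) : 𝔼 c, kap a c * eta c = z a / 12 := by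
  rw [ex3]
  fin_cases a <;> simp [kap, z, eta] <;> norm_num

/-- one more factor of the Riesz product -/
noncomputable def nextP (t : ℕ) (p r : Fin S) (ε : Dg S → ℝ) (Ψ : Dg S → Dg S → ℝ)
    (u v : Dg S) : ℝ := Ψ u v * (1 + ε (mix t u v) * eta (u p) * z (v r))

lemma Good.next {k : ℕ} {Ψ : Dg S → Dg S → ℝ} (h : Good k Ψ) (p r : Fin S) (hr : (r : ℕ) = k)
    (hp : (p : ℕ) = k + 1) (ε : Dg S → ℝ) (hε : ∀ R, |ε R| ≤ 1) :
    Good (k + 1) (nextP (k + 1) p r ε Ψ) := by
  refine ⟨fun u v => mul_nonneg (h.nonneg u v) ?_, fun u u' v => ?_, fun u v => ?_⟩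
  · have : |ε (mix (k + 1) u v) * eta (u p) * z (v r)| ≤ 1 := by
      rw [abs_mul, abs_mul]
      exact mul_le_one₀ (mul_le_one₀ (hε _) (abs_nonneg _) (abs_eta _)) (abs_nonneg _) (abs_z _)
    linarith [neg_abs_le (ε (mix (k + 1) u v) * eta (u p) * z (v r))]
  · have e1 : mix (k + 1 + 1) u u' = mix (k + 1) u (mix (k + 1 + 1) u u') := by
      ext q
      simp only [mix]
      split_ifs <;> first | rfl | omega
    have e2 : mix (k + 1) (mix (k + 1 + 1) u u') v = mix (k + 1) u v := by
      ext q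
      simp only [mix]
      split_ifs <;> first | rfl | omega
    have e3 : mix (k + 1 + 1) u u' p = u p := by simp [mix, hp]
    unfold nextP
    rw [e2, e3, e1, h.low]
  · have e : ∀ b : Dg S, nextP (k + 1) p r ε Ψ u (mix (k + 1) b v) =
        (1 + ε (mix (k + 1) u v) * eta (u p) * z (b r)) * Ψ u (mix (k + 1) b v) := by
      intro b
      have e2 : mix (k + 1) u (mix (k + 1) b v) = mix (k + 1) u v := by
        ext q
        simp only [mix]
        split_ifs <;> rfl
      have e3 : mix (k + 1) b v r = b r := by simp [mix, hr]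
      unfold nextP
      rw [e2, e3, mul_comm]
    simp only [e]
    rw [h.tower r hr (fun c => 1 + ε (mix (k + 1) u v) * eta (u p) * z c),
      Finset.expect_add_distrib, ← Finset.mul_expect, ex_z]
    simp

/-- smoothed comparison of the first `t` digits -/
noncomputable def Hx (t : ℕ) (x u : Dg S) : ℝ :=
  1 / 2 + ∑ q : Fin S, if (q : ℕ) < t ∧ ∀ j < q, x j = u j then kap (x q) (u q) else 0

open Classical in
/-- comparison in the second coordinate, top digit first -/
noncomputable def Hy (y v : Dg S) : ℝ := if toColex y ≤ toColex v then 1 else 0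

lemma Hy_mem (y v : Dg S) : 0 ≤ Hy y v ∧ Hy y v ≤ 1 := by
  unfold Hy
  split_ifs <;> norm_num

lemma Hy_of (y v : Dg S) (i : Fin S) (h : ∀ j > i, y j = v j) (hi : y i ≠ v i) :
    Hy y v = if y i < v i then 1 else 0 := by
  classical
  unfold Hy
  refine if_congr ⟨fun h' => lt_of_le_of_ne (Pi.apply_le_of_toColex h' h) hi, fun h' => ?_⟩ rfl rfl
  exact le_of_lt ⟨i, h, h'⟩

lemma Hy_const (t : ℕ) (y R : Dg S) (q : Fin S) (hq : t ≤ q) (hne : y q ≠ R q) (b : Dg S) :
    Hy y (mix t b R) = Hy y R := by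
  obtain ⟨i, hi, hmax⟩ := Finset.exists_max_image (univ.filter fun j => y j ≠ R j) id
    ⟨q, by simp [hne]⟩
  have hqi : q ≤ i := hmax q (by simp [hne])
  have h1 : ∀ j > i, y j = R j := fun j hj => by
    by_contra hc
    exact absurd (hmax j (by simp [hc])) (not_le.2 hj)
  have h2 : ∀ j, i ≤ j → mix t b R j = R j := fun j hj => by
    have : ¬ (j : ℕ) < t := by
      have := Fin.le_def.1 (hqi.trans hj)
      omega
    simp [mix, this]
  have hi' : y i ≠ R i := (mem_filter.1 hi).2
  rw [Hy_of y R i h1 hi', Hy_of y _ i (fun j hj => by rw [h2 j hj.le, h1 j hj])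
    (by rwa [h2 i le_rfl]), h2 i le_rfl]

lemma Hx_succ (t : ℕ) (p : Fin S) (hp : (p : ℕ) = t) (x R b : Dg S) (d : Fin 3) :
    Hx (t + 1) (Function.update x p d) (mix t R b) =
      Hx t x R + (if ∀ j < p, x j = R j then 1 else 0) * kap d (b p) := by
  have e1 : ∀ j < p, Function.update x p d j = x j := fun j hj => Function.update_of_ne hj.ne _ _
  have e2 : ∀ j < p, mix t R b j = R j := fun j hj => by
    have : (j : ℕ) < t := hp ▸ hj
    simp [mix, this]
  have e3 : (if ∀ j < p, x j = R j then 1 else 0) * kap d (b p) =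
      ∑ q : Fin S, if q = p then (if ∀ j < p, x j = R j then 1 else 0) * kap d (b p) else 0 := by
    simp
  unfold Hx
  rw [e3, add_assoc, ← Finset.sum_add_distrib]
  congr 1
  refine Finset.sum_congr rfl fun q _ => ?_
  rcases lt_trichotomy q p with h | rfl | h
  · have h' : (q : ℕ) < t := hp ▸ h
    rw [if_neg h.ne, add_zero, e1 q h, e2 q h]
    refine if_congr (and_congr (by omega) (forall₂_congr fun j hj => ?_)) rfl rfl
    rw [e1 j (hj.trans h), e2 j (hj.trans h)]
  · have h1 : mix t R b q = b q := by simp [mix, hp]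
    have h2 : (∀ j < q, Function.update x q d j = mix t R b j) ↔ ∀ j < q, x j = R j :=
      forall₂_congr fun j hj => by rw [e1 j hj, e2 j hj]
    simp [h1, h2, hp]
  · have h' : t < (q : ℕ) := hp ▸ h
    rw [if_neg (by omega), if_neg (by omega), if_neg h.ne', add_zero]

lemma Hx_mix (t : ℕ) (x R b : Dg S) : Hx t x (mix t R b) = Hx t x R := by
  unfold Hx
  congr 1
  refine Finset.sum_congr rfl fun q _ => ?_
  by_cases h : (q : ℕ) < t
  · have e2 : ∀ j ≤ q, mix t R b j = R j := fun j hj => by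
      have : (j : ℕ) < t := lt_of_le_of_lt hj h
      simp [mix, this]
    rw [e2 q le_rfl]
    exact if_congr (and_congr_right fun _ => forall₂_congr fun j hj => by rw [e2 j hj.le]) rfl rfl
  · simp [h]

open Classical in
lemma Hx_top (x u : Dg S) : Hx S x u =
    ((if toLex x < toLex u then 1 else 0) + if toLex x ≤ toLex u then 1 else 0) / 2 := by
  by_cases h : x = u
  · subst h
    have : ¬ toLex x < toLex x := lt_irrefl (toLex x)
    simp [Hx, kap, this]
  obtain ⟨q, hq⟩ := Function.ne_iff.1 h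
  obtain ⟨i, hi, hmin⟩ := Finset.exists_min_image (univ.filter fun j => x j ≠ u j) id
    ⟨q, by simp [hq]⟩
  have h1 : ∀ j < i, x j = u j := fun j hj => by
    by_contra hc
    exact absurd (hmin j (by simp [hc])) (not_le.2 hj)
  have hi' : x i ≠ u i := (mem_filter.1 hi).2
  have e : Hx S x u = 1 / 2 + kap (x i) (u i) := by
    unfold Hx
    rw [Finset.sum_eq_single i, if_pos ⟨i.2, h1⟩]
    · intro j _ hj
      rcases lt_or_gt_of_ne hj with h' | h'
      · simp [h1 j h', kap]
      · exact if_neg fun hc => hi' (hc.2 i h')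
    · simp
  rw [e]
  rcases lt_or_gt_of_ne hi' with h' | h'
  · have : toLex x < toLex u := ⟨i, h1, h'⟩
    rw [if_pos this, if_pos this.le, kap, if_pos h']
    norm_num
  · have : toLex u < toLex x := ⟨i, fun j hj => (h1 j hj).symm, h'⟩
    have h2 : ¬ toLex x < toLex u := lt_asymm this
    have h3 : ¬ toLex x ≤ toLex u := not_le.2 this
    rw [if_neg h2, if_neg h3, kap, if_neg (not_lt.2 h'.le), if_pos h']
    norm_num

/-- weight of a point in the main term -/
noncomputable def Wt (t : ℕ) (r : Fin S) (Ψ : Dg S → Dg S → ℝ) (y R : Dg S) : ℝ :=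
  𝔼 b, z (b r) * (Hy y (mix t b R) * Ψ R (mix t b R))

/-- weight of a point in the noise term -/
noncomputable def Nt (t : ℕ) (Ψ : Dg S → Dg S → ℝ) (y R : Dg S) : ℝ :=
  𝔼 b, Hy y (mix t b R) * (Ψ R (mix t b R) - 1)

section
variable {k : ℕ} {Ψ : Dg S → Dg S → ℝ} (h : Good k Ψ) (r : Fin S) (hr : (r : ℕ) = k)
include h hr

lemma Good.one (u v : Dg S) : 𝔼 b, Ψ u (mix (k + 1) b v) = 1 := by
  simpa using h.tower r hr (fun _ => 1) u v

lemma Good.abs_Wt (y R : Dg S) : |Wt (k + 1) r Ψ y R| ≤ 1 := by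
  refine (Finset.abs_expect_le _ _).trans ((Finset.expect_le_expect fun b _ => ?_).trans
    (h.one r hr R R).le)
  have h1 := Hy_mem y (mix (k + 1) b R)
  have h2 := h.nonneg R (mix (k + 1) b R)
  rw [abs_mul, abs_of_nonneg (mul_nonneg h1.1 h2)]
  exact (mul_le_of_le_one_left (mul_nonneg h1.1 h2) (abs_z _)).trans (mul_le_of_le_one_left h2 h1.2)

lemma Good.abs_Nt (y R : Dg S) : |Nt (k + 1) Ψ y R| ≤ 1 := by
  rw [abs_le]
  constructor
  · refine le_trans (by simp) (Finset.expect_le_expect (f := fun _ => (-1 : ℝ)) fun b _ => ?_)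
    have h1 := Hy_mem y (mix (k + 1) b R)
    have h2 := h.nonneg R (mix (k + 1) b R)
    nlinarith [mul_nonneg h1.1 h2]
  · refine (Finset.expect_le_expect fun b _ => ?_).trans (h.one r hr R R).le
    have h1 := Hy_mem y (mix (k + 1) b R)
    have h2 := h.nonneg R (mix (k + 1) b R)
    nlinarith [mul_le_of_le_one_left h2 h1.2]

lemma Good.Wt_mid (y R : Dg S) (hy : ∀ q : Fin S, k + 1 ≤ q → R q = y q) (h1 : y r = 1) :
    Wt (k + 1) r Ψ y R = 1 / 3 := by
  have e : ∀ b : Dg S, z (b r) * (Hy y (mix (k + 1) b R) * Ψ R (mix (k + 1) b R)) =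
      (if b r = 2 then 1 else 0) * Ψ R (mix (k + 1) b R) := by
    intro b
    have e3 : mix (k + 1) b R r = b r := by simp [mix, hr]
    rw [← mul_assoc]
    congr 1
    by_cases hb : b r = 1
    · simp [hb, z1]
    · rw [Hy_of y _ r (fun j hj => ?_) (by rw [e3, h1]; exact Ne.symm hb), e3, h1]
      · revert hb
        generalize b r = c
        fin_cases c <;> simp [z]
        norm_num
      · have : k + 1 ≤ (j : ℕ) := hr ▸ hj
        simp [mix, hy j this, not_lt.2 this]
  unfold Wt
  simp only [e]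
  rw [h.tower r hr (fun c => if c = 2 then 1 else 0), ex3]
  simp

lemma Good.off (y R : Dg S) (q : Fin S) (hq : k + 1 ≤ q) (hne : y q ≠ R q) :
    Wt (k + 1) r Ψ y R = 0 ∧ Nt (k + 1) Ψ y R = 0 := by
  unfold Wt Nt
  simp only [Hy_const _ y R q hq hne, mul_left_comm _ (Hy y R), ← Finset.mul_expect]
  rw [h.tower r hr z, ex_z, Finset.expect_sub_distrib, h.one r hr]
  simp

theorem Good.point (p : Fin S) (hp : (p : ℕ) = k + 1) (ε : Dg S → ℝ) (x y : Dg S)
    (hy : ∀ q : Fin S, k + 1 ≤ q → x q = y q) (d : Fin 3) :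
    3 ^ S * (𝔼 u, 𝔼 v, Hx (k + 1 + 1) (Function.update x p d) u * Hy y v *
        (nextP (k + 1) p r ε Ψ u v - 1) - 𝔼 u, 𝔼 v, Hx (k + 1) x u * Hy y v * (Ψ u v - 1)) =
      1 / 12 * (ε x * (Wt (k + 1) r Ψ y x * z d)) - 1 / 3 * (Nt (k + 1) Ψ y x * z d) := by
  rw [expect_cell (k + 1), expect_cell (k + 1) fun u v => Hx (k + 1) x u * Hy y v * (Ψ u v - 1),
    ← Finset.expect_sub_distrib]
  have key : ∀ R : Dg S, 𝔼 b, Hx (k + 1 + 1) (Function.update x p d) (mix (k + 1) R b) *
        Hy y (mix (k + 1) b R) * (nextP (k + 1) p r ε Ψ (mix (k + 1) R b) (mix (k + 1) b R) - 1) -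
      𝔼 b, Hx (k + 1) x (mix (k + 1) R b) * Hy y (mix (k + 1) b R) *
        (Ψ (mix (k + 1) R b) (mix (k + 1) b R) - 1) = if R = x then
      1 / 12 * (ε x * (Wt (k + 1) r Ψ y x * z d)) - 1 / 3 * (Nt (k + 1) Ψ y x * z d) else 0 := by
    intro R
    set A : ℝ := if ∀ j < p, x j = R j then 1 else 0 with hA
    have e : ∀ b : Dg S, Hx (k + 1 + 1) (Function.update x p d) (mix (k + 1) R b) *
        Hy y (mix (k + 1) b R) * (nextP (k + 1) p r ε Ψ (mix (k + 1) R b) (mix (k + 1) b R) - 1) -
        Hx (k + 1) x (mix (k + 1) R b) * Hy y (mix (k + 1) b R) *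
        (Ψ (mix (k + 1) R b) (mix (k + 1) b R) - 1) =
        (Hx (k + 1) x R * ε R * eta (b p) + A * ε R * (kap d (b p) * eta (b p))) *
          (z (b r) * (Hy y (mix (k + 1) b R) * Ψ R (mix (k + 1) b R))) +
        A * kap d (b p) * (Hy y (mix (k + 1) b R) * (Ψ R (mix (k + 1) b R) - 1)) := by
      intro b
      have e3 : mix (k + 1) b R r = b r := by simp [mix, hr]
      have e4 : mix (k + 1) R b p = b p := by simp [mix, hp]
      unfold nextP
      rw [Hx_succ _ p hp, Hx_mix, mix_invol, h.low, e3, e4]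
      ring
    have hpr : r ≠ p := by
      rintro rfl
      omega
    rw [← Finset.expect_sub_distrib]
    simp only [e]
    rw [Finset.expect_add_distrib,
      expect_digit p (fun c => Hx (k + 1) x R * ε R * eta c + A * ε R * (kap d c * eta c)) _
        (fun b c => by rw [mix_update _ p hp.ge, Function.update_of_ne hpr]),
      expect_digit p (fun c => A * kap d c) _ (fun b c => by rw [mix_update _ p hp.ge]),
      Finset.expect_add_distrib, ← Finset.mul_expect, ← Finset.mul_expect, ← Finset.mul_expect,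
      ex_eta, ex_kap, ex_kap_eta]
    change _ * Wt (k + 1) r Ψ y R + _ * Nt (k + 1) Ψ y R = _
    by_cases hR : R = x
    · subst hR
      rw [if_pos rfl, hA, if_pos fun _ _ => rfl]
      ring
    · rw [if_neg hR]
      by_cases hag : ∀ j < p, x j = R j
      · obtain ⟨q, hq⟩ := Function.ne_iff.1 hR
        have hq' : k + 1 ≤ (q : ℕ) := by
          by_contra hc
          exact hq (hag q (by rw [Fin.lt_def]; omega)).symm
        obtain ⟨h1, h2⟩ := h.off r hr y R q hq' (by rw [← hy q hq']; exact hq.symm)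
        rw [h1, h2]
        ring
      · rw [hA, if_neg hag]
        ring
  simp only [key]
  rw [Fintype.expect_eq_sum_div_card, Finset.sum_ite_eq']
  simp only [mem_univ, if_true, Fintype.card_pi, Fintype.card_fin, Finset.prod_const,
    Finset.card_univ]
  push_cast
  field_simp

end

end Pool.Agent.P.MP_e00059_co.L43
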