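import Mathlib
import Pool.Agent.P.MP_e00059_co.Riesz

/-! The lower bound of order `log n ^ (3/2)` for the discrepancy of rectangles. -/

open Finset Real
open scoped BigOperators

namespace Pool.Agent.P.MP_e00059_co.L43

variable {S m : ℕ}

/-- the tested quantity at time `t` -/
noncomputable def TT (t : ℕ) (χ : Fin m → Dg S → ℝ) (w : Fin m → Dg S ≃ Dg S)
    (Ψ : Dg S → Dg S → ℝ) : ℝ :=
  ∑ ν, ∑ y, χ ν y * 𝔼 u, 𝔼 v, Hx t (w ν y) u * Hy y v * (Ψ u v - 1)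

/-- scrambling of the digit at position `p` -/
def shift (p : Fin S) (a : Dg S → Fin 3) : Dg S ≃ Dg S where
  toFun R := Function.update R p (R p + a (Function.update R p 0))
  invFun R := Function.update R p (R p - a (Function.update R p 0))
  left_inv R := by simp
  right_inv R := by simp

lemma count_mid (p r : Fin S) (hpr : r ≠ p) :
    ∑ y : Dg S, (if y p = 0 ∧ y r = 1 then (1 : ℝ) else 0) = 3 ^ S / 9 := by
  have h1 := expect_digit p (fun c => if c = 0 then 1 else 0)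
    (fun b => if b r = 1 then 1 else 0) fun b c => by rw [Function.update_of_ne hpr]
  have h2 := expect_digit r (fun c => if c = 1 then 1 else 0) (fun _ => 1) fun _ _ => rfl
  simp only [mul_one] at h2
  rw [h2, ex3, ex3, Fintype.expect_eq_sum_div_card, div_eq_iff (by positivity)] at h1
  simp only [ite_mul, one_mul, zero_mul, ← ite_and] at h1
  rw [h1]
  simp
  ring

theorem one_step (hm : 0 < m) {k : ℕ} (p r : Fin S) (hr : (r : ℕ) = k) (hp : (p : ℕ) = k + 1)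
    (χ : Fin m → Dg S → ℝ) (hχ : ∀ ν y, χ ν y = 1 ∨ χ ν y = -1) (w : Fin m → Dg S ≃ Dg S)
    (hw : ∀ ν y (q : Fin S), k + 1 ≤ q → w ν y q = y q) (Ψ : Dg S → Dg S → ℝ) (h : Good k Ψ) :
    ∃ Ψ' : (Dg S → Fin m → Fin 3) → Dg S → Dg S → ℝ, (∀ a, Good (k + 1) (Ψ' a)) ∧
      𝔼 a : Dg S → Fin m → Fin 3, exp (-(2 / 10 ^ 5 / √m * (3 ^ S *
        TT (k + 1 + 1) χ (fun ν => (w ν).trans (shift p fun Q => a Q ν)) (Ψ' a)))) ≤
      exp (-(2 / 10 ^ 5 / √m * (3 ^ S * TT (k + 1) χ w Ψ))) * exp (-(3 ^ S / (2 * 10 ^ 9))) := by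
  have hpr : r ≠ p := by
    rintro rfl
    omega
  have habs : ∀ ν y, |χ ν y| = 1 := fun ν y => by rcases hχ ν y with h | h <;> simp [h]
  let α : Dg S → Fin m → ℝ := fun R ν => χ ν ((w ν).symm R) * Wt (k + 1) r Ψ ((w ν).symm R) R
  let β : Dg S → Fin m → ℝ := fun R ν => χ ν ((w ν).symm R) * Nt (k + 1) Ψ ((w ν).symm R) R
  let C : (Dg S → Fin m → Fin 3) → Dg S → ℝ := fun a R =>
    ∑ ν, α R ν * z (R p + a (Function.update R p 0) ν)
  let ε : (Dg S → Fin m → Fin 3) → Dg S → ℝ := fun a R => if 0 ≤ C a R then 1 else -1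
  have hε : ∀ a R, ε a R * C a R = |C a R| := fun a R => by
    by_cases hc : 0 ≤ C a R
    · simp [ε, hc, abs_of_nonneg hc]
    · simp [ε, hc, abs_of_neg (not_le.1 hc)]
  refine ⟨fun a => nextP (k + 1) p r (ε a) Ψ, fun a => h.next p r hr hp _ fun R => ?_, ?_⟩
  · by_cases hc : 0 ≤ C a R <;> simp [ε, hc]
  have key : ∀ a : Dg S → Fin m → Fin 3, 3 ^ S *
      TT (k + 1 + 1) χ (fun ν => (w ν).trans (shift p fun Q => a Q ν)) (nextP (k + 1) p r (ε a) Ψ) =
      3 ^ S * TT (k + 1) χ w Ψ + (1 / 12 * ∑ R, |C a R| -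
        1 / 3 * ∑ R, ∑ ν, β R ν * z (R p + a (Function.update R p 0) ν)) := by
    intro a
    rw [← sub_eq_iff_eq_add', ← mul_sub, TT, TT, ← Finset.sum_sub_distrib, Finset.mul_sum]
    simp only [← hε, C, Finset.mul_sum]
    rw [Finset.sum_comm (s := (univ : Finset (Dg S))), Finset.sum_comm (s := (univ : Finset (Dg S))),
      ← Finset.sum_sub_distrib]
    refine Finset.sum_congr rfl fun ν _ => ?_
    rw [← Finset.sum_sub_distrib, ← Finset.sum_sub_distrib, Finset.mul_sum]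
    refine Fintype.sum_equiv (w ν) _ _ fun y => ?_
    have := h.point r hr p hp (ε a) (w ν y) y (hw ν y)
      (w ν y p + a (Function.update (w ν y) p 0) ν)
    simp only [α, β, Equiv.symm_apply_apply]
    change 3 ^ S * (χ ν y * (𝔼 u, 𝔼 v, Hx (k + 1 + 1) (Function.update (w ν y) p
      (w ν y p + a (Function.update (w ν y) p 0) ν)) u * Hy y v *
        (nextP (k + 1) p r (ε a) Ψ u v - 1)) - _) = _
    linear_combination χ ν y * this
  simp only [key, mul_add, neg_add, exp_add]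
  rw [← Finset.mul_expect]
  refine mul_le_mul_of_nonneg_left (step_bound m hm p α β (fun R ν => ?_) (fun R ν => ?_) ?_)
    (exp_pos _).le
  · simpa [α, abs_mul, habs] using h.abs_Wt r hr _ _
  · simpa [β, abs_mul, habs] using h.abs_Nt r hr _ _
  · rw [Finset.sum_comm]
    calc (m : ℝ) * 3 ^ S / 81 = ∑ _ν : Fin m, ∑ y : Dg S,
          1 / 9 * (if y p = 0 ∧ y r = 1 then (1 : ℝ) else 0) := by
          rw [← Finset.mul_sum, count_mid p r hpr]
          simp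
          ring
      _ ≤ _ := Finset.sum_le_sum fun ν _ => by
          rw [← (w ν).sum_comp fun R => if R p = 0 then α R ν ^ 2 else 0]
          refine Finset.sum_le_sum fun y _ => ?_
          rw [hw ν y p hp.ge]
          by_cases h0 : y p = 0 ∧ y r = 1
          · rw [if_pos h0, if_pos h0.1]
            simp only [α, Equiv.symm_apply_apply]
            rw [h.Wt_mid r hr y _ (hw ν y) h0.2, mul_pow, ← sq_abs (χ ν y), habs]
            norm_num
          · rw [if_neg h0, mul_zero]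
            split_ifs
            · exact sq_nonneg _
            · exact le_rfl

/-- signs from bits -/
def sg (σ : Fin m → Dg S → Bool) (ν : Fin m) (y : Dg S) : ℝ := if σ ν y then 1 else -1

theorem all_steps (hm : 0 < m) (k : ℕ) (hk : k < S) :
    ∃ (w : Fin m → Dg S ≃ Dg S) (Ψ : (Fin m → Dg S → Bool) → Dg S → Dg S → ℝ),
      (∀ ν y (q : Fin S), k + 1 ≤ q → w ν y q = y q) ∧ (∀ σ, Good k (Ψ σ)) ∧
      ∑ σ, exp (-(2 / 10 ^ 5 / √m * (3 ^ S * TT (k + 1) (sg σ) w (Ψ σ)))) ≤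
        (2 ^ 3 ^ S) ^ m * exp (-(k * (3 ^ S / (2 * 10 ^ 9)))) := by
  induction k with
  | zero =>
    refine ⟨fun _ => Equiv.refl _, fun _ _ _ => 1, fun _ _ _ _ => rfl,
      fun _ => ⟨fun _ _ => zero_le_one, fun _ _ _ => rfl, fun _ _ => by simp⟩, ?_⟩
    simp [TT]
  | succ k ih =>
    obtain ⟨w, Ψ, hw, hΨ, hs⟩ := ih (by omega)
    choose Ψ' h1 h2 using fun σ => one_step hm ⟨k + 1, hk⟩ ⟨k, by omega⟩ rfl rfl (sg σ)
      (fun ν y => by unfold sg; split_ifs <;> simp) w hw (Ψ σ) (hΨ σ)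
    have h3 := Finset.sum_le_sum fun σ (_ : σ ∈ univ) => h2 σ
    rw [← Finset.expect_sum_comm, ← Finset.sum_mul] at h3
    obtain ⟨a, -, ha⟩ := Finset.exists_le_of_expect_le univ_nonempty h3
    refine ⟨_, fun σ => Ψ' σ a, fun ν y q hq => ?_, fun σ => h1 σ a, ha.trans ?_⟩
    · have : q ≠ ⟨k + 1, hk⟩ := by
        rintro rfl
        simp at hq
      change Function.update (w ν y) _ _ q = _
      rw [Function.update_of_ne this, hw ν y q (by omega)]
    · refine (mul_le_mul_of_nonneg_right hs (exp_pos _).le).trans (le_of_eq ?_)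
      rw [mul_assoc, ← exp_add]
      push_cast
      ring_nf

theorem riesz (hm : 0 < m) (s : ℕ) (hS : S = s + 1) (hs : (4 * 10 ^ 9 * m : ℝ) ≤ s) :
    ∃ w : Fin m → Dg S ≃ Dg S, ∀ χ : Fin m → Dg S → ℝ, (∀ ν y, χ ν y = 1 ∨ χ ν y = -1) →
      ∃ u v, m * √m ≤ |∑ ν, ∑ y, χ ν y * (Hx S (w ν y) u * Hy y v)| := by
  obtain ⟨w, Ψ, -, hΨ, hsum⟩ := all_steps (S := S) hm s (by omega)
  rw [← hS] at hsum
  refine ⟨w, fun χ hχ => ?_⟩
  obtain ⟨σ, rfl⟩ : ∃ σ, sg σ = χ := by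
    classical
    refine ⟨fun ν y => decide (χ ν y = 1), ?_⟩
    ext ν y
    rcases hχ ν y with h | h
    · simp [sg, h]
    · simp [sg, h]
      norm_num
  by_contra hc
  push Not at hc
  have hm' : (0 : ℝ) < m := by exact_mod_cast hm
  have hq : 0 < √(m : ℝ) := sqrt_pos.2 hm'
  have h1 := (Finset.single_le_sum (f := fun σ =>
    exp (-(2 / 10 ^ 5 / √m * (3 ^ S * TT S (sg σ) w (Ψ σ))))) (fun _ _ => (exp_pos _).le)
    (mem_univ σ)).trans hsum
  have h2 : ((2 : ℝ) ^ 3 ^ S) ^ m ≤ exp (m * 3 ^ S) := by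
    have : (2 : ℝ) ≤ exp 1 := by linarith [add_one_le_exp (1 : ℝ)]
    calc ((2 : ℝ) ^ 3 ^ S) ^ m ≤ (exp 1 ^ 3 ^ S) ^ m := by gcongr
      _ = _ := by
        rw [← exp_nat_mul, ← exp_nat_mul]
        push_cast
        ring_nf
  have h3 := h1.trans (mul_le_mul_of_nonneg_right h2 (exp_pos _).le)
  rw [← exp_add, exp_le_exp] at h3
  have h4 : TT S (sg σ) w (Ψ σ) ≤ 2 * (m * √m) := by
    have e : TT S (sg σ) w (Ψ σ) =
        𝔼 u, 𝔼 v, (∑ ν, ∑ y, sg σ ν y * (Hx S (w ν y) u * Hy y v)) * (Ψ σ u v - 1) := by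
      simp only [TT, Finset.sum_mul, Finset.expect_sum_comm, Finset.mul_expect, mul_assoc]
    have e2 : 2 * (m * √m) = 𝔼 u, 𝔼 v, m * √m * (Ψ σ u v + 1) := by
      simp only [← Finset.mul_expect, Finset.expect_add_distrib, (hΨ σ).mean]
      simp
      ring
    rw [e, e2]
    refine Finset.expect_le_expect fun u _ => Finset.expect_le_expect fun v _ => ?_
    have h5 := abs_lt.1 (hc u v)
    nlinarith [mul_nonneg (sub_nonneg.2 h5.2.le) ((hΨ σ).nonneg u v)]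
  have h5 : 2 / 10 ^ 5 / √m * (3 ^ S * TT S (sg σ) w (Ψ σ)) ≤
      2 / 10 ^ 5 / √m * (3 ^ S * (2 * (m * √m))) := by gcongr
  have h6 : 2 / 10 ^ 5 / √m * (3 ^ S * (2 * (m * √m))) = 4 / 10 ^ 5 * (m * 3 ^ S) := by
    field_simp
    ring
  have h7 : 4 * 10 ^ 9 * m * (3 ^ S / (2 * 10 ^ 9)) ≤ (s : ℝ) * (3 ^ S / (2 * 10 ^ 9)) := by gcongr
  have h8 : (0 : ℝ) < m * 3 ^ S := by positivity
  linarith

lemma exists_rank (α : Type) [Fintype α] [LinearOrder α] : ∃ f : α → ℕ, StrictMono f :=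
  ⟨fun a => ((monoEquivOfFin α rfl).symm a : ℕ), fun _ _ h =>
    (monoEquivOfFin α rfl).symm.strictMono h⟩

open Classical in
theorem lower_nets (hm : 0 < m) (s : ℕ) (hS : S = s + 1) (hs : (4 * 10 ^ 9 * m : ℝ) ≤ s)
    (n : ℕ) (hn : m * 3 ^ S ≤ n) : ∃ P : Finset (ℝ × ℝ), P.card = n ∧
    ∀ χ : ℝ × ℝ → ℝ, (∀ p, χ p = 1 ∨ χ p = -1) → ∃ a₁ b₁ a₂ b₂ : ℝ, a₁ ≤ b₁ ∧ a₂ ≤ b₂ ∧
      m * √m ≤ |∑ p ∈ P with (a₁ ≤ p.1 ∧ p.1 ≤ b₁) ∧ (a₂ ≤ p.2 ∧ p.2 ≤ b₂), χ p| := by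
  obtain ⟨w, hw⟩ := riesz hm s hS hs
  obtain ⟨f, hf⟩ := exists_rank (Lex (Dg S))
  obtain ⟨g, hg⟩ := @exists_rank (Colex (Dg S)) (inferInstanceAs (Fintype (Dg S))) _
  let Y : Fin m × Dg S → ℕ := fun i => m * g (toColex i.2) + i.1
  have Ydiv : ∀ i, Y i / m = g (toColex i.2) := fun i => by
    simp only [Y]
    rw [Nat.mul_add_div hm, Nat.div_eq_of_lt i.1.2, add_zero]
  let pt : Fin m × Dg S → ℝ × ℝ := fun i => (f (toLex (w i.1 i.2)), Y i)
  let pad : ℕ → ℝ × ℝ := fun j => (-2 - j, 0)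
  have ptinj : Function.Injective pt := by
    intro i j hij
    have h1 : Y i = Y j := Nat.cast_injective (R := ℝ) (congrArg Prod.snd hij)
    have h2 : g (toColex i.2) = g (toColex j.2) := by rw [← Ydiv, ← Ydiv, h1]
    simp only [Y, h2, Nat.add_left_cancel_iff] at h1
    exact Prod.ext (Fin.ext h1) (toColex.injective (hg.injective h2))
  have padinj : Function.Injective pad := by
    intro i j hij
    have h1 := congrArg Prod.fst hij
    simpa [pad] using h1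
  have hd : Disjoint (univ.image pt) ((range (n - m * 3 ^ S)).image pad) := by
    rw [Finset.disjoint_left]
    intro p h1 h2
    obtain ⟨i, -, rfl⟩ := mem_image.1 h1
    obtain ⟨j, -, h2⟩ := mem_image.1 h2
    have h3 : (-2 - j : ℝ) = f (toLex (w i.1 i.2)) := congrArg Prod.fst h2
    linarith [Nat.cast_nonneg (α := ℝ) j, Nat.cast_nonneg (α := ℝ) (f (toLex (w i.1 i.2)))]
  refine ⟨univ.image pt ∪ (range (n - m * 3 ^ S)).image pad, ?_, fun χ hχ => ?_⟩
  · rw [card_union_of_disjoint hd, card_image_of_injective _ ptinj,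
      card_image_of_injective _ padinj]
    simp
    omega
  obtain ⟨u, v, huv⟩ := hw (fun ν y => χ (pt (ν, y))) fun _ _ => hχ _
  have box : ∀ b : ℝ, ∑ p ∈ univ.image pt ∪ (range (n - m * 3 ^ S)).image pad with
      (-1 ≤ p.1 ∧ p.1 ≤ b) ∧ (-1 ≤ p.2 ∧ p.2 ≤ ((g (toColex v) + 1) * m - 1 : ℝ)), χ p =
      ∑ ν, ∑ y, χ (pt (ν, y)) * ((if (f (toLex (w ν y)) : ℝ) ≤ b then 1 else 0) * Hy y v) := by
    intro b
    rw [sum_filter, sum_union hd, sum_image fun _ _ _ _ h => ptinj h,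
      sum_image fun _ _ _ _ h => padinj h, Finset.sum_eq_zero (s := range _), add_zero,
      Fintype.sum_prod_type]
    · refine Finset.sum_congr rfl fun ν _ => Finset.sum_congr rfl fun y _ => ?_
      have h1 : (-1 : ℝ) ≤ (pt (ν, y)).1 := le_trans (by norm_num) (Nat.cast_nonneg _)
      have h2 : (-1 : ℝ) ≤ (pt (ν, y)).2 := le_trans (by norm_num) (Nat.cast_nonneg _)
      have h3 : (pt (ν, y)).2 ≤ ((g (toColex v) + 1) * m - 1 : ℝ) ↔ toColex y ≤ toColex v := by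
        refine Iff.trans ?_ (hg.le_iff_le (a := toColex y) (b := toColex v))
        rw [← Ydiv (ν, y), ← Nat.lt_succ_iff, Nat.div_lt_iff_lt_mul hm, le_sub_iff_add_le]
        change ((Y (ν, y) : ℕ) : ℝ) + 1 ≤ _ ↔ _
        exact_mod_cast Iff.rfl
      have h4 : (pt (ν, y)).1 = f (toLex (w ν y)) := rfl
      simp only [h1, h2, h3, true_and, Hy]
      rw [h4]
      by_cases h5 : (f (toLex (w ν y)) : ℝ) ≤ b <;> by_cases h6 : toColex y ≤ toColex v <;>
        simp [h5, h6]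
    · intro j _
      refine if_neg fun h => ?_
      have h3 : (-1 : ℝ) ≤ -2 - j := h.1.1
      linarith [Nat.cast_nonneg (α := ℝ) j]
  have hb : (-1 : ℝ) ≤ (g (toColex v) + 1) * m - 1 := by
    have : (0 : ℝ) ≤ (g (toColex v) + 1) * m := by positivity
    linarith
  have e : ∑ ν, ∑ y, χ (pt (ν, y)) * (Hx S (w ν y) u * Hy y v) =
      (∑ ν, ∑ y, χ (pt (ν, y)) *
        ((if (f (toLex (w ν y)) : ℝ) ≤ f (toLex u) - 1 then 1 else 0) * Hy y v) +
      ∑ ν, ∑ y, χ (pt (ν, y)) *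
        ((if (f (toLex (w ν y)) : ℝ) ≤ f (toLex u) then 1 else 0) * Hy y v)) / 2 := by
    simp only [← Finset.sum_add_distrib, Finset.sum_div]
    refine Finset.sum_congr rfl fun ν _ => Finset.sum_congr rfl fun y _ => ?_
    have h1 : (f (toLex (w ν y)) : ℝ) ≤ f (toLex u) - 1 ↔ toLex (w ν y) < toLex u := by
      rw [le_sub_iff_add_le]
      exact_mod_cast hf.lt_iff_lt
    have h2 : (f (toLex (w ν y)) : ℝ) ≤ f (toLex u) ↔ toLex (w ν y) ≤ toLex u := by
      exact_mod_cast hf.le_iff_le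
    rw [Hx_top, if_congr h1 rfl rfl, if_congr h2 rfl rfl]
    ring
  rw [e, ← box, ← box, abs_div, abs_two, le_div_iff₀ two_pos] at huv
  have h7 := huv.trans (abs_add_le _ _)
  by_contra hc
  push Not at hc
  have h0 : (0 : ℝ) ≤ f (toLex u) := Nat.cast_nonneg _
  linarith [hc (-1) (f (toLex u) - 1) (-1) _ (by linarith) hb,
    hc (-1) (f (toLex u)) (-1) _ (by linarith) hb]

open Classical in
theorem lower : ∃ c : ℝ, 0 < c ∧ ∀ n : ℕ, 2 ≤ n → ∃ P : Finset (ℝ × ℝ), P.card = n ∧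
    ∀ χ : ℝ × ℝ → ℝ, (∀ p, χ p = 1 ∨ χ p = -1) → ∃ a₁ b₁ a₂ b₂ : ℝ, a₁ ≤ b₁ ∧ a₂ ≤ b₂ ∧
      c * Real.log n ^ (3 / 2 : ℝ) ≤
        |∑ p ∈ P with (a₁ ≤ p.1 ∧ p.1 ≤ b₁) ∧ (a₂ ≤ p.2 ∧ p.2 ≤ b₂), χ p| := by
  refine ⟨(1 / (2 * 10 ^ 10)) ^ (3 / 2 : ℝ), by positivity, fun n hn => ?_⟩
  have hn0 : (0 : ℝ) < n := by exact_mod_cast (by omega : 0 < n)
  have hL : 0 ≤ log n := log_natCast_nonneg n
  rw [← mul_rpow (by positivity) hL]
  obtain ⟨m, hm1, hm2⟩ : ∃ m : ℕ, (m : ℝ) ≤ log n / 10 ^ 10 ∧ log n / 10 ^ 10 < m + 1 :=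
    ⟨⌊log n / 10 ^ 10⌋₊, Nat.floor_le (by positivity), Nat.lt_floor_add_one _⟩
  rcases Nat.eq_zero_or_pos m with rfl | hm
  · have inj : Function.Injective fun j : ℕ => ((j : ℝ), (0 : ℝ)) := fun i j h => by
      simpa using h
    refine ⟨(range n).image fun j : ℕ => ((j : ℝ), (0 : ℝ)), by
      rw [card_image_of_injective _ inj, card_range], fun χ hχ => ⟨0, 0, 0, 0, le_rfl, le_rfl, ?_⟩⟩
    rw [sum_filter, sum_image fun _ _ _ _ h => inj h, Finset.sum_eq_single 0]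
    · have : |χ (0, 0)| = 1 := by rcases hχ (0, 0) with h | h <;> simp [h]
      simp only [Nat.cast_zero, le_refl, and_self, if_true, this]
      refine rpow_le_one (by positivity) ?_ (by norm_num)
      simp only [Nat.cast_zero] at hm2
      linarith
    · intro j _ hj
      refine if_neg fun h => hj ?_
      have : (j : ℝ) ≤ 0 := h.1.2
      exact_mod_cast le_antisymm this (Nat.cast_nonneg j)
    · intro h
      exact absurd (mem_range.2 (by omega)) h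
  have hm' : (1 : ℝ) ≤ m := by exact_mod_cast hm
  obtain ⟨s, hs⟩ : ∃ s : ℕ, (s : ℝ) = 4 * 10 ^ 9 * m := ⟨4 * 10 ^ 9 * m, by push_cast; ring⟩
  have hcard : m * 3 ^ (s + 1) ≤ n := by
    have h3 : (3 : ℝ) ≤ exp 2 := by linarith [add_one_le_exp (2 : ℝ)]
    have h4 : (m : ℝ) ≤ exp m := by linarith [add_one_le_exp (m : ℝ)]
    have : ((m * 3 ^ (s + 1) : ℕ) : ℝ) ≤ n := by
      push_cast
      calc (m : ℝ) * 3 ^ (s + 1) ≤ exp m * exp 2 ^ (s + 1) := by gcongr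
        _ = exp (m + (s + 1) * 2) := by
          rw [← exp_nat_mul, ← exp_add]
          push_cast
          rfl
        _ ≤ exp (log n) := exp_le_exp.2 (by linarith)
        _ = n := exp_log hn0
    exact_mod_cast this
  obtain ⟨P, hP, h⟩ := lower_nets hm s rfl hs.ge n hcard
  refine ⟨P, hP, fun χ hχ => ?_⟩
  obtain ⟨a₁, b₁, a₂, b₂, h1, h2, h3⟩ := h χ hχ
  refine ⟨a₁, b₁, a₂, b₂, h1, h2, le_trans ?_ h3⟩
  calc (1 / (2 * 10 ^ 10) * log n) ^ (3 / 2 : ℝ) ≤ (m : ℝ) ^ (3 / 2 : ℝ) :=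
        rpow_le_rpow (by positivity) (by linarith) (by norm_num)
    _ = m * √m := by
      rw [sqrt_eq_rpow, ← rpow_one_add' (by positivity) (by norm_num)]
      norm_num

end Pool.Agent.P.MP_e00059_co.L43
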