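import Mathlib

/-! Discrepancy of boxes in dimension at least three: definitions and basic averaging lemmas. -/

namespace Pool.Agent.P.MP_e00059_co.HD

open Finset Real
open scoped BigOperators

/-- the sign attached to a Boolean -/
def sb (b : Bool) : ℝ := if b then 1 else -1

/-- the sign of `a - x` in a linear order -/
noncomputable def sgn {α : Type} [LinearOrder α] (a x : α) : ℝ :=
  if x < a then 1 else if a < x then -1 else 0

/-- indicator that two digit strings agree before position `t` -/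
noncomputable def a1 {M q : ℕ} (t : ℕ) (β ω : Fin M → Fin q) : ℝ :=
  if ∀ s : Fin M, (s : ℕ) < t → β s = ω s then 1 else 0

/-- the sign of the first difference if it sits at position `t`, else zero -/
noncomputable def d1 {M q : ℕ} (t : Fin M) (β ω : Fin M → Fin q) : ℝ :=
  a1 t β ω * sgn (β t) (ω t)

/-- the lexicographic sign of `β - ω` -/
noncomputable def lsg {M q : ℕ} (β ω : Fin M → Fin q) : ℝ := ∑ t, d1 t β ω

/-- weighted inner product -/
def ip {X : Type} [Fintype X] (μ f g : X → ℝ) : ℝ := ∑ x, μ x * (f x * g x)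

/-- pairing of a test function with the kernel of the point `p` inside its node -/
noncomputable def Phi {Ω N : Type} [Fintype Ω] [Fintype N] {n : ℕ} (k : Ω → Fin n → ℝ)
    (lab : Fin n → N) (ν ψ : N → Ω → ℝ) (p : Fin n) : ℝ :=
  (𝔼 b, ν (lab p) b * ψ (lab p) b * k b p) / Fintype.card N

/-- the digit space -/
abbrev Om (e M : ℕ) : Type := Fin e → Fin M → Fin 4

/-- indicator of the box of shape `j` around `w` -/
noncomputable def bx {e M : ℕ} (j : Fin e → ℕ) (b w : Om e M) : ℝ := ∏ i, a1 (j i) (b i) (w i)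

/-- level of a shape -/
def lv {e M : ℕ} (j : Fin e → Fin M) : ℕ := ∑ i, (j i : ℕ)

/-- indicator of the box of a shape with entries in `Fin M` -/
noncomputable def bf {e M : ℕ} (j : Fin e → Fin M) (b w : Om e M) : ℝ :=
  bx (fun i => (j i : ℕ)) b w

/-- the product of the lexicographic signs -/
noncomputable def kk {e M : ℕ} (b w : Om e M) : ℝ := ∏ i, lsg (b i) (w i)

/-- the invariant of the densities: exact on boxes of level at most `E`, slowly growing above -/
def Inv {e M : ℕ} (j1 E : ℕ) (ν : Om e M → ℝ) : Prop :=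
  (∀ j : Fin e → ℕ, ∑ i, j i ≤ E → ∀ w, 𝔼 b, ν b * bx j b w = (1 / 4 : ℝ) ^ (∑ i, j i)) ∧
  (∀ j : Fin e → ℕ, (∀ i, j i ≤ M) → ∀ w,
    𝔼 b, ν b * bx j b w ≤ (1 / 4 : ℝ) ^ (∑ i, j i) * (9 / 8 : ℝ) ^ (∑ i, j i + j1 - E))

/-- number of shapes in `J` whose box around `w` holds `w'` -/
noncomputable def kap {e M : ℕ} (J : Finset (Fin e → Fin M)) (w w' : Om e M) : ℝ :=
  ∑ j ∈ J, bf j w w'

/-- number of shapes in `J` at which all next digits of `w` equal one -/
noncomputable def mid {e M : ℕ} (J : Finset (Fin e → Fin M)) (w : Om e M) : ℝ :=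
  ∑ j ∈ J, ∏ i, (if w i (j i) = 1 then (1 : ℝ) else 0)

/-- the two-point kernel of the fine parts, pairs of shapes with join of level `≥ l1 + i` -/
noncomputable def KK {e M : ℕ} (l1 i : ℕ) (w w' : Om e M) : ℝ :=
  ∑ j : Fin e → Fin M, ∑ j' : Fin e → Fin M,
    if l1 ≤ lv j ∧ l1 ≤ lv j' ∧ l1 + i ≤ lv (j ⊔ j') then
      (1 / 4 : ℝ) ^ lv (j ⊔ j') * (9 / 8 : ℝ) ^ (lv (j ⊔ j') - l1) * bf (j ⊓ j') w w' else 0

theorem sb_sq (b : Bool) : sb b ^ 2 = 1 := by cases b <;> simp [sb]

theorem abs_sb (b : Bool) : |sb b| = 1 := by cases b <;> simp [sb]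

theorem abs_sgn {α : Type} [LinearOrder α] (a x : α) : |sgn a x| ≤ 1 := by
  unfold sgn; split_ifs <;> simp

theorem sgn_self {α : Type} [LinearOrder α] (a : α) : sgn a a = 0 := by simp [sgn]

theorem a1_nonneg {M q : ℕ} (t : ℕ) (β ω : Fin M → Fin q) : 0 ≤ a1 t β ω := by
  unfold a1; split_ifs <;> norm_num

theorem a1_le_one {M q : ℕ} (t : ℕ) (β ω : Fin M → Fin q) : a1 t β ω ≤ 1 := by
  unfold a1; split_ifs <;> norm_num

theorem a1_comm {M q : ℕ} (t : ℕ) (β ω : Fin M → Fin q) : a1 t β ω = a1 t ω β := by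
  unfold a1; simp only [eq_comm]

theorem a1_self {M q : ℕ} (t : ℕ) (β : Fin M → Fin q) : a1 t β β = 1 := by simp [a1]

theorem bx_nonneg {e M : ℕ} (j : Fin e → ℕ) (b w : Om e M) : 0 ≤ bx j b w :=
  prod_nonneg fun _ _ => a1_nonneg _ _ _

theorem bx_le_one {e M : ℕ} (j : Fin e → ℕ) (b w : Om e M) : bx j b w ≤ 1 :=
  prod_le_one (fun _ _ => a1_nonneg _ _ _) fun _ _ => a1_le_one _ _ _

theorem bx_comm {e M : ℕ} (j : Fin e → ℕ) (b w : Om e M) : bx j b w = bx j w b :=
  prod_congr rfl fun _ _ => a1_comm _ _ _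

theorem bx_self {e M : ℕ} (j : Fin e → ℕ) (b : Om e M) : bx j b b = 1 := by
  simp [bx, a1_self]

theorem bf_nonneg {e M : ℕ} (j : Fin e → Fin M) (b w : Om e M) : 0 ≤ bf j b w := bx_nonneg _ _ _

theorem bf_self {e M : ℕ} (j : Fin e → Fin M) (b : Om e M) : bf j b b = 1 := bx_self _ _

theorem kap_nonneg {e M : ℕ} (J : Finset (Fin e → Fin M)) (w w' : Om e M) : 0 ≤ kap J w w' :=
  sum_nonneg fun _ _ => bf_nonneg _ _ _

theorem mid_nonneg {e M : ℕ} (J : Finset (Fin e → Fin M)) (w : Om e M) : 0 ≤ mid J w :=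
  sum_nonneg fun _ _ => prod_nonneg fun _ _ => by split_ifs <;> norm_num

theorem KK_nonneg {e M : ℕ} (l1 i : ℕ) (w w' : Om e M) : 0 ≤ KK l1 i w w' := by
  refine sum_nonneg fun j _ => sum_nonneg fun j' _ => ?_
  split_ifs
  · have := bf_nonneg (j ⊓ j') w w'
    positivity
  · exact le_rfl

theorem lsg_zero {q : ℕ} (β ω : Fin 0 → Fin q) : lsg β ω = 0 := by simp [lsg]

theorem lsg_succ {M q : ℕ} (β ω : Fin (M + 1) → Fin q) :
    lsg β ω = sgn (β 0) (ω 0) +
      if β 0 = ω 0 then lsg (fun i => β i.succ) (fun i => ω i.succ) else 0 := by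
  unfold lsg
  rw [Fin.sum_univ_succ]
  congr 1
  · simp [d1, a1]
  · have key : ∀ t : Fin M, a1 ((t.succ : Fin (M + 1)) : ℕ) β ω =
        if β 0 = ω 0 then a1 (t : ℕ) (fun i => β i.succ) (fun i => ω i.succ) else 0 := by
      intro t
      unfold a1
      simp only [Fin.forall_fin_succ, Fin.val_zero, Fin.val_succ, Nat.zero_lt_succ, true_imp_iff,
        Nat.add_lt_add_iff_right]
      by_cases h : β 0 = ω 0 <;> simp [h]
    simp only [d1, key]
    split_ifs <;> simp

theorem expect_pi {J B : Type} [Fintype J] [DecidableEq J] [Fintype B] (g : J → B → ℝ) :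
    𝔼 a : J → B, ∏ j, g j (a j) = ∏ j, 𝔼 b, g j b := by
  simp only [Fintype.expect_eq_sum_div_card]
  rw [Finset.prod_div_distrib, Fintype.prod_sum]
  simp

theorem expect_cons {B : Type} [Fintype B] (m : ℕ) (G : (Fin (m + 1) → B) → ℝ) :
    𝔼 a, G a = 𝔼 c : B, 𝔼 a : Fin m → B, G (Fin.cons c a) := by
  rw [← Finset.expect_product', Finset.univ_product_univ]
  exact (Fintype.expect_equiv (Fin.consEquiv fun _ => B) _ _ fun i => rfl).symm

theorem expect_one {J B : Type} [Fintype J] [DecidableEq J] [Fintype B] [Nonempty B] (p : J)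
    (G : B → ℝ) : 𝔼 a : J → B, G (a p) = 𝔼 b, G b := by
  have h := expect_pi (J := J) (fun j b => if j = p then G b else 1)
  have h2 : ∀ j : J, (𝔼 b, if j = p then G b else 1) = if j = p then 𝔼 b, G b else 1 := by
    intro j
    split_ifs
    · rfl
    · exact Finset.expect_const univ_nonempty _
  simp only [h2, Finset.prod_ite_eq', mem_univ, if_true] at h
  exact h

theorem expect_two {J B : Type} [Fintype J] [DecidableEq J] [Fintype B] [Nonempty B] (p p' : J)
    (h : p ≠ p') (G : B → B → ℝ) : 𝔼 a : J → B, G (a p) (a p') = 𝔼 b, 𝔼 b', G b b' := by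
  classical
  have e1 : ∀ a : J → B, G (a p) (a p') = ∑ b, ∑ b', G b b' *
      ∏ j, ((if j = p then (if a j = b then (1 : ℝ) else 0) else 1) *
        (if j = p' then (if a j = b' then (1 : ℝ) else 0) else 1)) := by
    intro a
    simp only [Finset.prod_mul_distrib, Finset.prod_ite_eq', mem_univ, if_true]
    rw [Finset.sum_eq_single (a p), Finset.sum_eq_single (a p')]
    · simp
    · intro b _ hb; simp [Ne.symm hb]
    · simp
    · intro b _ hb; simp [Ne.symm hb]
    · simp
  have e2 : ∀ b b' : B, (𝔼 a : J → B,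
      ∏ j, ((if j = p then (if a j = b then (1 : ℝ) else 0) else 1) *
        (if j = p' then (if a j = b' then (1 : ℝ) else 0) else 1))) =
      (1 / Fintype.card B) * (1 / Fintype.card B) := by
    intro b b'
    rw [expect_pi (fun j x => (if j = p then (if x = b then (1 : ℝ) else 0) else 1) *
        (if j = p' then (if x = b' then (1 : ℝ) else 0) else 1))]
    have e3 : ∀ j : J, (𝔼 x : B, (if j = p then (if x = b then (1 : ℝ) else 0) else 1) *
        (if j = p' then (if x = b' then (1 : ℝ) else 0) else 1)) =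
        (if j = p then (1 / Fintype.card B : ℝ) else 1) *
          (if j = p' then (1 / Fintype.card B : ℝ) else 1) := by
      intro j
      by_cases h1 : j = p
      · have h2 : ¬ j = p' := fun h2 => h (h1.symm.trans h2)
        simp [h1, h, Fintype.expect_eq_sum_div_card]
      · by_cases h2 : j = p'
        · subst h2
          simp [h1, Fintype.expect_eq_sum_div_card]
        · simp [h1, h2]
    simp only [e3, Finset.prod_mul_distrib, Finset.prod_ite_eq', mem_univ, if_true]
  simp only [e1, Finset.expect_sum_comm, ← Finset.mul_expect, e2]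
  simp only [Fintype.expect_eq_sum_div_card, Finset.sum_div]
  refine sum_congr rfl fun b _ => sum_congr rfl fun b' _ => ?_
  ring

theorem expect_bool (G : Bool → ℝ) : 𝔼 b, G b = (G true + G false) / 2 := by
  rw [Fintype.expect_eq_sum_div_card]
  simp

/-- Hoeffding's bound on the cube -/
theorem hoeff {n : ℕ} (c : Fin n → ℝ) :
    𝔼 ε : Fin n → Bool, exp (∑ p, c p * sb (ε p)) ≤ exp ((∑ p, c p ^ 2) / 2) := by
  simp only [Real.exp_sum]
  rw [expect_pi (fun p b => exp (c p * sb b)), Finset.sum_div, Real.exp_sum]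
  refine Finset.prod_le_prod (fun p _ => expect_nonneg fun _ _ => (exp_pos _).le) fun p _ => ?_
  have := Real.cosh_le_exp_half_sq (c p)
  rw [Real.cosh_eq] at this
  rw [expect_bool]
  simpa [sb] using this

end Pool.Agent.P.MP_e00059_co.HD
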