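import Mathlib

/-! Choice of the numerical constants. -/

namespace Pool.Agent.P.MP_e00059_co.HD

open Finset Real
open scoped BigOperators

theorem numbers (e : ℕ) (υ lam1 cT c5 σ : ℝ) (h1 : 0 < υ) (h2 : 0 < lam1) (h3 : 0 < cT)
    (h4 : 1 ≤ c5) (h5 : 1 ≤ σ) : ∃ (j0 j1 k : ℕ) (θ0 K0 : ℝ), 3 ≤ k ∧ 4 ≤ j1 ∧
      j0 + (e + 1) ≤ j1 ∧ 0 < θ0 ∧ 0 < K0 ∧ θ0 ^ 2 * cT ≤ 1 ∧
      lam1 ^ 2 * θ0 ^ 2 * cT * c5 * 64 ^ j0 / 2 ≤ υ ∧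
      (2 * k + 1) * c5 * 64 ^ j0 / K0 ^ 2 ≤ υ ∧
      ((2 * k + 1) * σ + 2) / 4 ^ j0 ≤ υ ∧
      lam1 ^ 2 * K0 / (θ0 ^ 2 * 2 ^ k) ≤ υ ∧
      lam1 ^ 2 * (3 / 4 : ℝ) ^ j1 * 64 ^ j0 * c5 ≤ υ ∧
      2 * lam1 ^ 2 * K0 / (θ0 ^ 2 * 16 ^ j1) ≤ υ := by
  have h4' : 0 < c5 := by linarith
  obtain ⟨β, hβ, b1, b2⟩ : ∃ β : ℝ, 0 < β ∧ β * cT ≤ 1 ∧ lam1 ^ 2 * β * cT * c5 ≤ υ := by
    refine ⟨min (1 / cT) (υ / (lam1 ^ 2 * cT * c5)), lt_min (by positivity) (by positivity),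
      ?_, ?_⟩
    · exact (le_div_iff₀ h3).1 (min_le_left _ _)
    · have := (le_div_iff₀ (by positivity : 0 < lam1 ^ 2 * cT * c5)).1
        (min_le_right (1 / cT) (υ / (lam1 ^ 2 * cT * c5)))
      linarith
  obtain ⟨k0, hk0⟩ := exists_nat_ge (lam1 ^ 2 / (β * υ))
  have k1 : lam1 ^ 2 ≤ υ * (β * 2 ^ (k0 + 3)) := by
    rw [div_le_iff₀ (by positivity)] at hk0
    have a1 : (k0 : ℝ) ≤ 2 ^ (k0 + 3) := by
      have : k0 ≤ 2 ^ (k0 + 3) :=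
        (Nat.lt_two_pow_self.le).trans (Nat.pow_le_pow_right (by norm_num) (by omega))
      exact_mod_cast this
    calc lam1 ^ 2 ≤ k0 * (β * υ) := hk0
      _ ≤ 2 ^ (k0 + 3) * (β * υ) := by gcongr
      _ = _ := by ring
  obtain ⟨G, hG⟩ : ∃ G : ℝ, G = (2 * k0 + 27) * (σ + c5) + 2 := ⟨_, rfl⟩
  have hk0' : (0 : ℝ) ≤ k0 := Nat.cast_nonneg _
  obtain ⟨j0, hj0⟩ := exists_nat_ge (G / υ)
  have hj0' : (0 : ℝ) ≤ j0 := Nat.cast_nonneg _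
  have k2 : (2 * ((10 * j0 + (k0 + 3) : ℕ) : ℝ) + 1) * (σ + c5) + 2 ≤ υ * 4 ^ j0 := by
    rw [div_le_iff₀ h1] at hj0
    have a1 : (j0 : ℝ) + 1 ≤ 2 ^ j0 := by
      have : j0 + 1 ≤ 2 ^ j0 := Nat.lt_two_pow_self
      exact_mod_cast this
    have a2 : ((j0 : ℝ) + 1) ^ 2 ≤ 4 ^ j0 := by
      calc ((j0 : ℝ) + 1) ^ 2 ≤ (2 ^ j0) ^ 2 := by gcongr
        _ = 4 ^ j0 := by rw [← pow_mul, mul_comm, pow_mul]; norm_num
    have a3 : 0 ≤ σ + c5 := by linarith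
    have a4 : (2 * ((10 * j0 + (k0 + 3) : ℕ) : ℝ) + 1) ≤ (2 * k0 + 27) * (j0 + 1) := by
      push_cast
      nlinarith
    calc _ ≤ (2 * k0 + 27) * (j0 + 1) * (σ + c5) + 2 * (j0 + 1) := by
          have := mul_le_mul_of_nonneg_right a4 a3
          linarith
      _ = G * (j0 + 1) := by rw [hG]; ring
      _ ≤ (j0 + 1) * υ * (j0 + 1) := by
          refine mul_le_mul_of_nonneg_right ?_ (by positivity)
          nlinarith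
      _ = υ * ((j0 : ℝ) + 1) ^ 2 := by ring
      _ ≤ _ := by gcongr
  obtain ⟨X, hX⟩ : ∃ X : ℝ, X = lam1 ^ 2 * 64 ^ j0 * c5 := ⟨_, rfl⟩
  obtain ⟨Y, hY⟩ : ∃ Y : ℝ, Y = 2 * lam1 ^ 2 * 16 ^ j0 / (β / 64 ^ j0) := ⟨_, rfl⟩
  have X0 : 0 < X := by rw [hX]; positivity
  have Y0 : 0 < Y := by rw [hY]; positivity
  obtain ⟨j, hj⟩ := exists_pow_lt_of_lt_one (x := υ / (X + Y)) (y := (3 / 4 : ℝ))
    (by positivity) (by norm_num)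
  have k3 : (3 / 4 : ℝ) ^ (j + (j0 + e + 4)) * (X + Y) ≤ υ := by
    rw [lt_div_iff₀ (by positivity)] at hj
    refine le_trans ?_ hj.le
    exact mul_le_mul_of_nonneg_right
      (pow_le_pow_of_le_one (by norm_num) (by norm_num) (by omega)) (by positivity)
  have p0 : (0 : ℝ) < (3 / 4 : ℝ) ^ (j + (j0 + e + 4)) := by positivity
  have hθ : √(β / 64 ^ j0) ^ 2 = β / 64 ^ j0 := Real.sq_sqrt (by positivity)
  have p64 : (1 : ℝ) ≤ 64 ^ j0 := one_le_pow₀ (by norm_num)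
  have pk : (0 : ℝ) ≤ 2 * ((10 * j0 + (k0 + 3) : ℕ) : ℝ) + 1 := by positivity
  refine ⟨j0, j + (j0 + e + 4), 10 * j0 + (k0 + 3), √(β / 64 ^ j0), 16 ^ j0, by omega, by omega,
    by omega, Real.sqrt_pos.2 (by positivity), by positivity, ?_, ?_, ?_, ?_, ?_, ?_, ?_⟩
  · rw [hθ]
    exact le_trans (mul_le_mul_of_nonneg_right (div_le_self hβ.le p64) h3.le) b1
  · rw [hθ]
    have : lam1 ^ 2 * (β / 64 ^ j0) * cT * c5 * 64 ^ j0 / 2 = lam1 ^ 2 * β * cT * c5 / 2 := by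
      field_simp
    rw [this]
    linarith
  · rw [div_le_iff₀ (by positivity)]
    have a1 : ((16 : ℝ) ^ j0) ^ 2 = 4 ^ j0 * 64 ^ j0 := by
      rw [← pow_mul, mul_comm, pow_mul, ← mul_pow]; norm_num
    rw [a1, ← mul_assoc]
    refine mul_le_mul_of_nonneg_right (le_trans ?_ k2) (by positivity)
    nlinarith
  · rw [div_le_iff₀ (by positivity)]
    refine le_trans ?_ k2
    nlinarith
  · rw [hθ, div_le_iff₀ (by positivity)]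
    have a1 : (2 : ℝ) ^ (10 * j0 + (k0 + 3)) = 16 ^ j0 * 64 ^ j0 * 2 ^ (k0 + 3) := by
      rw [pow_add, pow_mul, ← mul_pow]; norm_num
    rw [a1]
    calc lam1 ^ 2 * 16 ^ j0 ≤ υ * (β * 2 ^ (k0 + 3)) * 16 ^ j0 := by gcongr
      _ = _ := by field_simp
  · calc _ = (3 / 4 : ℝ) ^ (j + (j0 + e + 4)) * X := by rw [hX]; ring
      _ ≤ _ := by nlinarith
  · rw [hθ]
    have a1 : (1 / 16 : ℝ) ^ (j + (j0 + e + 4)) ≤ (3 / 4 : ℝ) ^ (j + (j0 + e + 4)) :=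
      pow_le_pow_left₀ (by norm_num) (by norm_num) _
    calc _ = (1 / 16 : ℝ) ^ (j + (j0 + e + 4)) * Y := by
          rw [hY, one_div_pow]; field_simp
      _ ≤ (3 / 4 : ℝ) ^ (j + (j0 + e + 4)) * Y := by gcongr
      _ ≤ _ := by nlinarith

end Pool.Agent.P.MP_e00059_co.HD
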