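import Mathlib
import Pool.Agent.P.MP_e00059_co.Q0

/-! Box measures, geometric sums over shapes and the kernel bounds. -/

namespace Pool.Agent.P.MP_e00059_co.HD

open Finset Real
open scoped BigOperators

theorem qk_geo_int (ρ : ℝ) (h0 : 0 ≤ ρ) (h1 : ρ < 1) (Z : Finset ℤ) :
    ∑ z ∈ Z, ρ ^ z.natAbs ≤ (1 + ρ) / (1 - ρ) := by
  classical
  have hN : ∀ T : Finset ℕ, ∑ t ∈ T, ρ ^ t ≤ (1 - ρ)⁻¹ := fun T => by
    rw [← tsum_geometric_of_lt_one h0 h1]
    exact (summable_geometric_of_lt_one h0 h1).sum_le_tsum T fun t _ => pow_nonneg h0 t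
  rw [← sum_filter_add_sum_filter_not Z (fun z => 0 ≤ z)]
  have a1 : ∑ z ∈ Z.filter (fun z => 0 ≤ z), ρ ^ z.natAbs ≤ (1 - ρ)⁻¹ := by
    rw [← sum_image (s := Z.filter fun z => 0 ≤ z) (g := Int.natAbs) (f := fun t => ρ ^ t)]
    · exact hN _
    · intro x hx y hy h
      have := (mem_filter.1 (mem_coe.1 hx)).2
      have := (mem_filter.1 (mem_coe.1 hy)).2
      omega
  have a2 : ∑ z ∈ Z.filter (fun z => ¬ 0 ≤ z), ρ ^ z.natAbs ≤ ρ * (1 - ρ)⁻¹ := by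
    have e1 : ∑ z ∈ Z.filter (fun z => ¬ 0 ≤ z), ρ ^ z.natAbs =
        ρ * ∑ z ∈ Z.filter (fun z => ¬ 0 ≤ z), ρ ^ (z.natAbs - 1) := by
      rw [mul_sum]
      refine sum_congr rfl fun z hz => ?_
      have := (mem_filter.1 hz).2
      rw [← pow_succ']
      congr 1
      omega
    rw [e1, ← sum_image (s := Z.filter fun z => ¬ 0 ≤ z) (g := fun z => z.natAbs - 1)
      (f := fun t => ρ ^ t)]
    · exact mul_le_mul_of_nonneg_left (hN _) h0
    · intro x hx y hy h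
      have := (mem_filter.1 (mem_coe.1 hx)).2
      have := (mem_filter.1 (mem_coe.1 hy)).2
      simp only at h
      omega
  rw [div_eq_mul_inv, add_mul, one_mul]
  exact add_le_add a1 a2

theorem qk_geo_pi (ρ : ℝ) (h0 : 0 ≤ ρ) (h1 : ρ < 1) {ι κ : Type} [Fintype ι] (G : Finset κ)
    (φ : κ → ι → ℤ) (hφ : Set.InjOn φ G) :
    ∑ x ∈ G, ∏ i, ρ ^ (φ x i).natAbs ≤ ((1 + ρ) / (1 - ρ)) ^ Fintype.card ι := by
  classical
  rw [← sum_image (s := G) (g := φ) (f := fun z => ∏ i, ρ ^ (z i).natAbs) hφ]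
  have hsub : G.image φ ⊆ Fintype.piFinset fun i => G.image fun x => φ x i := by
    intro z hz
    obtain ⟨x, hx, rfl⟩ := mem_image.1 hz
    exact Fintype.mem_piFinset.2 fun i => mem_image_of_mem _ hx
  refine (sum_le_sum_of_subset_of_nonneg hsub fun z _ _ =>
    prod_nonneg fun i _ => pow_nonneg h0 _).trans ?_
  rw [← Finset.prod_univ_sum (fun i => G.image fun x => φ x i) fun _ z => ρ ^ z.natAbs,
    ← card_univ, ← prod_const]
  exact prod_le_prod (fun i _ => sum_nonneg fun z _ => pow_nonneg h0 _)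
    fun i _ => qk_geo_int ρ h0 h1 _

/-- `|g ⊔ h| + |g ⊓ h| = |g| + |h|` -/
theorem qk_lev_sup_add_inf {ι : Type} [Fintype ι] (g h : ι → ℕ) :
    ∑ i, (g ⊔ h) i + ∑ i, (g ⊓ h) i = ∑ i, g i + ∑ i, h i := by
  rw [← sum_add_distrib, ← sum_add_distrib]
  refine sum_congr rfl fun i _ => ?_
  simp only [Pi.sup_apply, Pi.inf_apply]
  omega

theorem qk_lev_sup_eq {ι : Type} [Fintype ι] (g h : ι → ℕ) :
    ∑ i, (g ⊔ h) i = ∑ i, (g ⊓ h) i + ∑ i, ((g i : ℤ) - h i).natAbs := by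
  rw [← sum_add_distrib]
  refine sum_congr rfl fun i _ => ?_
  simp only [Pi.sup_apply, Pi.inf_apply]
  omega

/-- Schur test for the kernel `4 ^ (-|g ⊔ h|)`. -/
theorem qk_schur {ι κ : Type} [Fintype ι] (G : Finset κ) (sh : κ → ι → ℕ) (hsh : Set.InjOn sh G)
    (C : κ → ℝ) :
    ∑ g ∈ G, ∑ h ∈ G, C g * C h * (1 / 4 : ℝ) ^ (∑ i, (sh g ⊔ sh h) i) ≤
      3 ^ Fintype.card ι * ∑ g ∈ G, C g ^ 2 * (1 / 4 : ℝ) ^ (∑ i, sh g i) := by
  let a : κ → ℝ := fun g => C g * (1 / 2 : ℝ) ^ (∑ i, sh g i)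
  let w : κ → κ → ℝ := fun g h => ∏ i, (1 / 2 : ℝ) ^ ((sh g i : ℤ) - sh h i).natAbs
  have w0 : ∀ g h, 0 ≤ w g h := fun g h => prod_nonneg fun i _ => by positivity
  have ws : ∀ g h, w g h = w h g := fun g h => prod_congr rfl fun i _ => by
    congr 1; omega
  have e1 : ∀ g h, C g * C h * (1 / 4 : ℝ) ^ (∑ i, (sh g ⊔ sh h) i) = a g * a h * w g h := by
    intro g h
    have h1 := qk_lev_sup_add_inf (sh g) (sh h)
    have h2 := qk_lev_sup_eq (sh g) (sh h)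
    have h3 : (1 / 4 : ℝ) ^ (∑ i, (sh g ⊔ sh h) i) =
        (1 / 2 : ℝ) ^ (∑ i, sh g i) * (1 / 2 : ℝ) ^ (∑ i, sh h i) * w g h := by
      simp only [w]
      rw [prod_pow_eq_pow_sum, ← pow_add, ← pow_add, show (1 / 4 : ℝ) = (1 / 2) ^ 2 by norm_num,
        ← pow_mul]
      congr 1
      omega
    rw [h3]; simp only [a]; ring
  have e2 : ∀ g, C g ^ 2 * (1 / 4 : ℝ) ^ (∑ i, sh g i) = a g ^ 2 := by
    intro g
    simp only [a]
    rw [mul_pow, ← pow_mul, mul_comm _ 2, pow_mul]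
    norm_num
  have row : ∀ g, ∑ h ∈ G, w g h ≤ 3 ^ Fintype.card ι := by
    intro g
    have := qk_geo_pi (1 / 2) (by norm_num) (by norm_num) G (fun h i => (sh g i : ℤ) - sh h i) (by
      intro x hx y hy hxy
      refine hsh hx hy (funext fun i => ?_)
      have := congrFun hxy i
      simp only at this
      omega)
    rw [show ((1 : ℝ) + 1 / 2) / (1 - 1 / 2) = 3 by norm_num] at this
    exact this
  simp only [e1, e2]
  have b1 : ∑ g ∈ G, ∑ h ∈ G, a g * a h * w g h ≤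
      ∑ g ∈ G, ∑ h ∈ G, (a g ^ 2 * w g h / 2 + a h ^ 2 * w h g / 2) := by
    refine sum_le_sum fun g _ => sum_le_sum fun h _ => ?_
    rw [ws h g]
    nlinarith [mul_nonneg (sq_nonneg (a g - a h)) (w0 g h)]
  have b2 : ∑ g ∈ G, ∑ h ∈ G, (a g ^ 2 * w g h / 2 + a h ^ 2 * w h g / 2) =
      ∑ g ∈ G, a g ^ 2 * ∑ h ∈ G, w g h := by
    simp only [sum_add_distrib]
    rw [sum_comm (s := G) (t := G) (f := fun g h => a h ^ 2 * w h g / 2), ← sum_add_distrib]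
    refine sum_congr rfl fun g _ => ?_
    rw [← sum_add_distrib, mul_sum]
    exact sum_congr rfl fun h _ => by ring
  rw [b2] at b1
  refine b1.trans ?_
  rw [mul_sum]
  exact sum_le_sum fun g _ => by
    rw [mul_comm]; exact mul_le_mul_of_nonneg_right (row g) (sq_nonneg _)

/-- at most `M^(e-1)` shapes on one level -/
theorem qk_lev_count {ι : Type} [Fintype ι] (M s : ℕ) (G : Finset (ι → ℕ))
    (hG : ∀ g ∈ G, ∀ i, g i < M) (hs : ∀ g ∈ G, ∑ i, g i = s) :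
    G.card ≤ M ^ (Fintype.card ι - 1) := by
  classical
  rcases isEmpty_or_nonempty ι with hι | ⟨⟨i0⟩⟩
  · have : G.card ≤ 1 := card_le_one.2 fun a _ b _ => Subsingleton.elim a b
    rw [Fintype.card_eq_zero, Nat.zero_sub, pow_zero]
    exact this
  · have h1 : G.card ≤ (Fintype.piFinset fun _ : {i // i ≠ i0} => range M).card := by
      refine card_le_card_of_injOn (fun g i => g i.1) ?_ ?_
      · intro g hg
        exact mem_coe.2 (Fintype.mem_piFinset.2 fun i => mem_range.2 (hG g hg _))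
      · intro g hg h hh hgh
        have e1 : ∀ i, i ≠ i0 → g i = h i := fun i hi => congrFun hgh ⟨i, hi⟩
        have e2 : ∑ i ∈ univ.erase i0, g i = ∑ i ∈ univ.erase i0, h i :=
          sum_congr rfl fun i hi => e1 i (ne_of_mem_erase hi)
        have e3 := hs g hg
        have e4 := hs h hh
        rw [← add_sum_erase _ _ (mem_univ i0)] at e3 e4
        funext i
        by_cases hi : i = i0
        · subst hi; omega
        · exact e1 i hi
    rw [Fintype.card_piFinset, prod_const, card_range, card_univ, Fintype.card_subtype_compl,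
      Fintype.card_subtype_eq] at h1
    exact h1

/-- geometric sum over shapes in the distance of the level from `l` -/
theorem qk_lev_geo (ρ : ℝ) (h0 : 0 ≤ ρ) (h1 : ρ < 1) {ι : Type} [Fintype ι] (M l : ℕ)
    (G : Finset (ι → ℕ)) (hG : ∀ g ∈ G, ∀ i, g i < M) :
    ∑ g ∈ G, ρ ^ (((∑ i, g i : ℕ) : ℤ) - l).natAbs ≤
      (M ^ (Fintype.card ι - 1) : ℕ) * ((1 + ρ) / (1 - ρ)) := by
  classical
  rw [← sum_fiberwise_of_maps_to (s := G) (t := G.image fun g => ((∑ i, g i : ℕ) : ℤ) - l)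
    (g := fun g => ((∑ i, g i : ℕ) : ℤ) - l) (fun g hg => mem_image_of_mem _ hg)]
  refine le_trans ?_ (mul_le_mul_of_nonneg_left
    (qk_geo_int ρ h0 h1 (G.image fun g => ((∑ i, g i : ℕ) : ℤ) - l)) (Nat.cast_nonneg _))
  rw [mul_sum]
  refine sum_le_sum fun z _ => ?_
  rw [sum_congr rfl (g := fun _ => ρ ^ z.natAbs) fun g hg => by rw [(mem_filter.1 hg).2],
    sum_const, nsmul_eq_mul]
  refine mul_le_mul_of_nonneg_right ?_ (pow_nonneg h0 _)
  have := qk_lev_count M (z + l).toNat (G.filter fun g => ((∑ i, g i : ℕ) : ℤ) - l = z)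
    (fun g hg => hG g (mem_filter.1 hg).1) (fun g hg => by
      have := (mem_filter.1 hg).2
      omega)
  exact_mod_cast this

/-- the weight of all pairs of shapes with a given meet -/
theorem qk_meet_weight {ι κ : Type} [Fintype ι] [DecidableEq (ι → ℕ)] (G : Finset κ)
    (sh : κ → ι → ℕ) (hsh : Set.InjOn sh G) (l k : ℕ) (c : κ × κ → ℝ) (g : ι → ℕ)
    (hc : ∀ x ∈ G ×ˢ G, c x ≤ if l ≤ ∑ i, sh x.1 i ∧ l ≤ ∑ i, sh x.2 i ∧
      k ≤ ∑ i, (sh x.1 ⊔ sh x.2) i then (9 / 32 : ℝ) ^ (∑ i, (sh x.1 ⊔ sh x.2) i - l) else 0) :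
    ∑ x ∈ G ×ˢ G with sh x.1 ⊓ sh x.2 = g, c x ≤
      15 ^ Fintype.card ι * (3 / 8 : ℝ) ^ max (((∑ i, g i : ℕ) : ℤ) - l).natAbs (k - l) := by
  have h1 := qk_geo_pi (7 / 8) (by norm_num) (by norm_num)
    ((G ×ˢ G).filter fun x => sh x.1 ⊓ sh x.2 = g) (fun x i => (sh x.1 i : ℤ) - sh x.2 i) (by
      intro x hx y hy hxy
      obtain ⟨hx1, hx2⟩ := mem_filter.1 (mem_coe.1 hx)
      obtain ⟨hy1, hy2⟩ := mem_filter.1 (mem_coe.1 hy)
      rw [mem_product] at hx1 hy1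
      have key : ∀ i, sh x.1 i = sh y.1 i ∧ sh x.2 i = sh y.2 i := fun i => by
        have a1 := congrFun hxy i
        have a2 := congrFun (hx2.trans hy2.symm) i
        simp only [Pi.inf_apply] at a1 a2
        omega
      exact Prod.ext (hsh hx1.1 hy1.1 (funext fun i => (key i).1))
        (hsh hx1.2 hy1.2 (funext fun i => (key i).2)))
  rw [show ((1 : ℝ) + 7 / 8) / (1 - 7 / 8) = 15 by norm_num] at h1
  refine le_trans ?_ (mul_le_mul_of_nonneg_right h1 (by positivity))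
  rw [sum_mul]
  refine sum_le_sum fun x hx => ?_
  obtain ⟨hx1, hx2⟩ := mem_filter.1 hx
  refine (hc x hx1).trans ?_
  rw [prod_pow_eq_pow_sum]
  split_ifs with h
  · have a1 := qk_lev_sup_add_inf (sh x.1) (sh x.2)
    have a2 := qk_lev_sup_eq (sh x.1) (sh x.2)
    rw [hx2] at a1 a2
    obtain ⟨b1, b2, b3⟩ := h
    set v := ∑ i, (sh x.1 ⊔ sh x.2) i
    set d := ∑ i, ((sh x.1 i : ℤ) - sh x.2 i).natAbs
    set s := ∑ i, g i
    have b4 : l ≤ v := by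
      refine b1.trans (sum_le_sum fun i _ => ?_)
      simp
    have c1 : (3 / 8 : ℝ) ^ (v - l) ≤ (3 / 8 : ℝ) ^ max ((s : ℤ) - l).natAbs (k - l) :=
      pow_le_pow_of_le_one (by norm_num) (by norm_num) (by omega)
    have c2 : (3 / 4 : ℝ) ^ (v - l) ≤ (7 / 8 : ℝ) ^ d := by
      calc (3 / 4 : ℝ) ^ (v - l) ≤ ((7 / 8 : ℝ) ^ 2) ^ (v - l) := by gcongr; norm_num
        _ = (7 / 8 : ℝ) ^ (2 * (v - l)) := by rw [pow_mul]
        _ ≤ _ := pow_le_pow_of_le_one (by norm_num) (by norm_num) (by omega)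
    rw [show (9 / 32 : ℝ) = 3 / 4 * (3 / 8) by norm_num, mul_pow]
    exact mul_le_mul c2 c1 (by positivity) (by positivity)
  · positivity

/-- total weight of all pairs (the diagonal value of the kernel) -/
theorem qk_pair_total {ι κ : Type} [Fintype ι] (G : Finset κ) (sh : κ → ι → ℕ)
    (hsh : Set.InjOn sh G) (M : ℕ) (hM : ∀ x ∈ G, ∀ i, sh x i < M) (l k : ℕ) (c : κ × κ → ℝ)
    (hc : ∀ x ∈ G ×ˢ G, c x ≤ if l ≤ ∑ i, sh x.1 i ∧ l ≤ ∑ i, sh x.2 i ∧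
      k ≤ ∑ i, (sh x.1 ⊔ sh x.2) i then (9 / 32 : ℝ) ^ (∑ i, (sh x.1 ⊔ sh x.2) i - l) else 0) :
    ∑ x ∈ G ×ˢ G, c x ≤ 7 * 15 ^ Fintype.card ι * (M ^ (Fintype.card ι - 1) : ℕ) *
      (3 / 4 : ℝ) ^ (k - l) := by
  classical
  set T := (G ×ˢ G).image fun x => sh x.1 ⊓ sh x.2
  rw [← sum_fiberwise_of_maps_to (s := G ×ˢ G) (t := T) (g := fun x => sh x.1 ⊓ sh x.2)
    (fun g hg => mem_image_of_mem _ hg)]
  have h1 := qk_lev_geo (3 / 4) (by norm_num) (by norm_num) M l T (by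
    intro g hg i
    obtain ⟨x, hx, rfl⟩ := mem_image.1 hg
    exact lt_of_le_of_lt inf_le_left (hM _ (mem_product.1 hx).1 i))
  rw [show ((1 : ℝ) + 3 / 4) / (1 - 3 / 4) = 7 by norm_num] at h1
  calc _ ≤ ∑ g ∈ T, 15 ^ Fintype.card ι * (3 / 4 : ℝ) ^ (k - l) *
        (3 / 4 : ℝ) ^ (((∑ i, g i : ℕ) : ℤ) - l).natAbs := by
        refine sum_le_sum fun g _ => (qk_meet_weight G sh hsh l k c g hc).trans ?_
        rw [mul_assoc, ← pow_add]
        refine mul_le_mul_of_nonneg_left ?_ (by positivity)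
        set a := (((∑ i, g i : ℕ) : ℤ) - l).natAbs
        calc (3 / 8 : ℝ) ^ max a (k - l) ≤ ((3 / 4 : ℝ) ^ 2) ^ max a (k - l) := by
              gcongr; norm_num
          _ = (3 / 4 : ℝ) ^ (2 * max a (k - l)) := by rw [pow_mul]
          _ ≤ _ := pow_le_pow_of_le_one (by norm_num) (by norm_num) (by omega)
    _ ≤ 15 ^ Fintype.card ι * (3 / 4 : ℝ) ^ (k - l) *
        ((M ^ (Fintype.card ι - 1) : ℕ) * 7) := by
        rw [← mul_sum]
        exact mul_le_mul_of_nonneg_left h1 (by positivity)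
    _ = _ := by ring

/-- second moment of the kernel -/
theorem qk_pair_second {ι κ : Type} [Fintype ι] (G : Finset κ) (sh : κ → ι → ℕ)
    (hsh : Set.InjOn sh G) (M : ℕ) (hM : ∀ x ∈ G, ∀ i, sh x i < M) (l k : ℕ) (c : κ × κ → ℝ)
    (h0 : ∀ x ∈ G ×ˢ G, 0 ≤ c x)
    (hc : ∀ x ∈ G ×ˢ G, c x ≤ if l ≤ ∑ i, sh x.1 i ∧ l ≤ ∑ i, sh x.2 i ∧
      k ≤ ∑ i, (sh x.1 ⊔ sh x.2) i then (9 / 32 : ℝ) ^ (∑ i, (sh x.1 ⊔ sh x.2) i - l) else 0) :
    ∑ x ∈ G ×ˢ G, ∑ y ∈ G ×ˢ G, c x * c y *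
        (1 / 4 : ℝ) ^ (∑ i, ((sh x.1 ⊓ sh x.2) ⊔ (sh y.1 ⊓ sh y.2)) i) ≤
      7 * 675 ^ Fintype.card ι * (M ^ (Fintype.card ι - 1) : ℕ) * (1 / 4 : ℝ) ^ l *
        (3 / 4 : ℝ) ^ (k - l) := by
  classical
  set T := (G ×ˢ G).image fun x => sh x.1 ⊓ sh x.2
  let C : (ι → ℕ) → ℝ := fun g => ∑ x ∈ G ×ˢ G with sh x.1 ⊓ sh x.2 = g, c x
  have e1 : ∑ x ∈ G ×ˢ G, ∑ y ∈ G ×ˢ G, c x * c y *
        (1 / 4 : ℝ) ^ (∑ i, ((sh x.1 ⊓ sh x.2) ⊔ (sh y.1 ⊓ sh y.2)) i) =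
      ∑ g ∈ T, ∑ h ∈ T, C g * C h * (1 / 4 : ℝ) ^ (∑ i, (id g ⊔ id h) i) := by
    rw [← sum_fiberwise_of_maps_to (s := G ×ˢ G) (t := T) (g := fun x => sh x.1 ⊓ sh x.2)
      (fun g hg => mem_image_of_mem _ hg)]
    refine sum_congr rfl fun g _ => ?_
    have e0 : ∀ x ∈ (G ×ˢ G).filter (fun x => sh x.1 ⊓ sh x.2 = g), ∑ y ∈ G ×ˢ G, c x * c y *
        (1 / 4 : ℝ) ^ (∑ i, ((sh x.1 ⊓ sh x.2) ⊔ (sh y.1 ⊓ sh y.2)) i) =
        c x * ∑ h ∈ T, C h * (1 / 4 : ℝ) ^ (∑ i, (id g ⊔ id h) i) := by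
      intro x hx
      rw [← sum_fiberwise_of_maps_to (s := G ×ˢ G) (t := T) (g := fun x => sh x.1 ⊓ sh x.2)
        (fun g hg => mem_image_of_mem _ hg), mul_sum]
      refine sum_congr rfl fun h _ => ?_
      simp only [C]
      rw [sum_mul, mul_sum]
      refine sum_congr rfl fun y hy => ?_
      rw [(mem_filter.1 hx).2, (mem_filter.1 hy).2, id, id, mul_assoc]
    rw [sum_congr rfl e0, ← sum_mul, mul_sum]
    exact sum_congr rfl fun h _ => (mul_assoc _ _ _).symm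
  rw [e1]
  refine (qk_schur T id (Set.injOn_id _) C).trans ?_
  have h1 := qk_lev_geo (3 / 4) (by norm_num) (by norm_num) M l T (by
    intro g hg i
    obtain ⟨x, hx, rfl⟩ := mem_image.1 hg
    exact lt_of_le_of_lt inf_le_left (hM _ (mem_product.1 hx).1 i))
  rw [show ((1 : ℝ) + 3 / 4) / (1 - 3 / 4) = 7 by norm_num] at h1
  have h2 : ∑ g ∈ T, C g ^ 2 * (1 / 4 : ℝ) ^ (∑ i, id g i) ≤
      ∑ g ∈ T, 225 ^ Fintype.card ι * (1 / 4 : ℝ) ^ l * (3 / 4 : ℝ) ^ (k - l) *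
        (3 / 4 : ℝ) ^ (((∑ i, g i : ℕ) : ℤ) - l).natAbs := by
    refine sum_le_sum fun g _ => ?_
    have c0 : 0 ≤ C g := sum_nonneg fun x hx => h0 x (mem_filter.1 hx).1
    have c1 : C g ≤ _ := qk_meet_weight G sh hsh l k c g hc
    simp only [id]
    set s := ∑ i, g i
    set a := ((s : ℤ) - l).natAbs
    have c2 : (1 / 4 : ℝ) ^ s ≤ (1 / 4 : ℝ) ^ l * 4 ^ max a (k - l) := by
      have : (1 / 4 : ℝ) ^ (s + max a (k - l)) ≤ (1 / 4 : ℝ) ^ l :=
        pow_le_pow_of_le_one (by norm_num) (by norm_num) (by omega)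
      calc (1 / 4 : ℝ) ^ s = (1 / 4 : ℝ) ^ (s + max a (k - l)) * 4 ^ max a (k - l) := by
            rw [pow_add, mul_assoc, ← mul_pow]; norm_num
        _ ≤ _ := by gcongr
    have c3 : ((3 / 8 : ℝ) ^ max a (k - l)) ^ 2 * 4 ^ max a (k - l) ≤
        (3 / 4 : ℝ) ^ (k - l) * (3 / 4 : ℝ) ^ a := by
      rw [← pow_mul, mul_comm _ 2, pow_mul, ← mul_pow, ← pow_add,
        show (3 / 8 : ℝ) ^ 2 * 4 = (3 / 4) ^ 2 by norm_num, ← pow_mul]
      exact pow_le_pow_of_le_one (by norm_num) (by norm_num) (by omega)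
    calc C g ^ 2 * (1 / 4 : ℝ) ^ s
        ≤ (15 ^ Fintype.card ι * (3 / 8 : ℝ) ^ max a (k - l)) ^ 2 *
          ((1 / 4 : ℝ) ^ l * 4 ^ max a (k - l)) := by gcongr
      _ = 225 ^ Fintype.card ι * (1 / 4 : ℝ) ^ l *
          (((3 / 8 : ℝ) ^ max a (k - l)) ^ 2 * 4 ^ max a (k - l)) := by
          rw [mul_pow, ← pow_mul (15 : ℝ), mul_comm _ 2, pow_mul]; norm_num; ring
      _ ≤ 225 ^ Fintype.card ι * (1 / 4 : ℝ) ^ l *
          ((3 / 4 : ℝ) ^ (k - l) * (3 / 4 : ℝ) ^ a) := by gcongr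
      _ = _ := by ring
  rw [← mul_sum] at h2
  calc 3 ^ Fintype.card ι * ∑ g ∈ T, C g ^ 2 * (1 / 4 : ℝ) ^ (∑ i, id g i)
      ≤ 3 ^ Fintype.card ι * (225 ^ Fintype.card ι * (1 / 4 : ℝ) ^ l * (3 / 4 : ℝ) ^ (k - l) *
        ((M ^ (Fintype.card ι - 1) : ℕ) * 7)) := by
        refine mul_le_mul_of_nonneg_left (h2.trans ?_) (by positivity)
        exact mul_le_mul_of_nonneg_left h1 (by positivity)
    _ = _ := by
        rw [show (675 : ℝ) = 3 * 225 by norm_num, mul_pow]; ring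

theorem expect_a1 {M : ℕ} (t : ℕ) (ht : t ≤ M) (ω : Fin M → Fin 4) :
    𝔼 β, a1 t β ω = (1 / 4 : ℝ) ^ t := by
  have e1 : ∀ β : Fin M → Fin 4, a1 t β ω =
      ∏ s : Fin M, (if (s : ℕ) < t then (if β s = ω s then (1 : ℝ) else 0) else 1) := by
    intro β
    unfold a1
    split_ifs with h
    · refine (prod_eq_one fun s _ => ?_).symm
      split_ifs with h1 h2
      · rfl
      · exact absurd (h s h1) h2
      · rfl
    · push Not at h
      obtain ⟨s, h1, h2⟩ := h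
      exact (prod_eq_zero (mem_univ s) (by rw [if_pos h1, if_neg h2])).symm
  simp only [e1]
  rw [expect_pi (fun (s : Fin M) (x : Fin 4) =>
    if (s : ℕ) < t then (if x = ω s then (1 : ℝ) else 0) else 1)]
  have e2 : ∀ s : Fin M, (𝔼 x : Fin 4,
      if (s : ℕ) < t then (if x = ω s then (1 : ℝ) else 0) else 1) =
      if (s : ℕ) < t then (1 / 4 : ℝ) else 1 := by
    intro s
    split_ifs
    · rw [Fintype.expect_eq_sum_div_card, Finset.sum_ite_eq']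
      simp
    · exact Finset.expect_const univ_nonempty _
  simp only [e2]
  rw [Fin.prod_univ_eq_prod_range (fun s => if s < t then (1 / 4 : ℝ) else 1) M,
    ← prod_filter, prod_const]
  congr 1
  have : (range M).filter (fun s => s < t) = range t := by
    ext s
    simp only [mem_filter, mem_range]
    omega
  rw [this, card_range]

theorem expect_bx {e M : ℕ} (j : Fin e → ℕ) (hj : ∀ i, j i ≤ M) (w : Om e M) :
    𝔼 b, bx j b w = (1 / 4 : ℝ) ^ (∑ i, j i) := by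
  unfold bx
  rw [expect_pi (fun i (β : Fin M → Fin 4) => a1 (j i) β (w i)), ← prod_pow_eq_pow_sum]
  exact prod_congr rfl fun i _ => expect_a1 _ (hj i) _

theorem geo1 (x : ℝ) (hx : 0 ≤ x) (hx1 : x < 1) (R c : ℕ) :
    ∑ s ∈ range R, x ^ Nat.dist s c ≤ (1 + x) / (1 - x) := by
  have h := qk_geo_int x hx hx1 ((range R).image fun s : ℕ => (s : ℤ) - c)
  rw [sum_image (fun a _ b _ hab => by omega)] at h
  refine le_trans (le_of_eq (sum_congr rfl fun s _ => ?_)) h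
  congr 1
  unfold Nat.dist
  omega

theorem geo {e M : ℕ} (x : ℝ) (hx : 0 ≤ x) (hx1 : x < 1) (g : Fin e → Fin M) :
    ∑ j : Fin e → Fin M, ∏ i, x ^ Nat.dist (j i) (g i) ≤ ((1 + x) / (1 - x)) ^ e := by
  have h := qk_geo_pi x hx hx1 (univ : Finset (Fin e → Fin M))
    (fun j i => ((j i : ℕ) : ℤ) - (g i : ℕ)) (by
      intro a _ b _ hab
      funext i
      have := congrFun hab i
      simp only at this
      exact Fin.ext (by omega))
  rw [Fintype.card_fin] at h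
  refine le_trans (le_of_eq (sum_congr rfl fun j _ => prod_congr rfl fun i _ => ?_)) h
  congr 1
  unfold Nat.dist
  omega

theorem qk_inj {e M : ℕ} (G : Finset (Fin e → Fin M)) :
    Set.InjOn (fun (j : Fin e → Fin M) i => (j i : ℕ)) G := by
  intro a _ b _ hab
  funext i
  exact Fin.ext (congrFun hab i)

theorem card_lv {e M : ℕ} (s : ℕ) :
    (univ.filter fun j : Fin (e + 1) → Fin M => lv j = s).card ≤ M ^ e := by
  have h := qk_lev_count M s ((univ.filter fun j : Fin (e + 1) → Fin M => lv j = s).image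
    fun j i => (j i : ℕ)) (by
      intro g hg i
      obtain ⟨j, _, rfl⟩ := mem_image.1 hg
      exact (j i).2) (by
      intro g hg
      obtain ⟨j, hj, rfl⟩ := mem_image.1 hg
      exact (mem_filter.1 hj).2)
  rw [card_image_of_injOn (qk_inj _), Fintype.card_fin, Nat.add_sub_cancel] at h
  exact h

theorem exists_shapes {e M : ℕ} (u l : ℕ) (h1 : e * u ≤ l) (h2 : l < M) (h3 : u ≤ M) :
    ∃ J : Finset (Fin (e + 1) → Fin M), J.card = u ^ e ∧ ∀ j ∈ J, lv j = l := by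
  have hb : ∀ x : Fin e → Fin u, ∑ i, (x i : ℕ) ≤ l := fun x => by
    have := sum_le_card_nsmul univ (fun i => (x i : ℕ)) u fun i _ => (x i).2.le
    rw [card_univ, Fintype.card_fin, smul_eq_mul] at this
    exact this.trans h1
  let F : (Fin e → Fin u) → Fin (e + 1) → Fin M := fun x =>
    Fin.cons ⟨l - ∑ i, (x i : ℕ), by omega⟩ fun i => ⟨x i, by have := (x i).2; omega⟩
  have hF : Function.Injective F := by
    intro x y h
    funext i
    have := congrArg Fin.val (congrFun h i.succ)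
    simp only [F, Fin.cons_succ] at this
    exact Fin.ext this
  refine ⟨univ.image F, ?_, ?_⟩
  · rw [card_image_of_injective _ hF, card_univ, Fintype.card_fun, Fintype.card_fin,
      Fintype.card_fin]
  · intro j hj
    obtain ⟨x, _, rfl⟩ := mem_image.1 hj
    unfold lv
    rw [Fin.sum_univ_succ]
    simp only [F, Fin.cons_zero, Fin.cons_succ]
    have := hb x
    omega

theorem a1_mul {M q : ℕ} (t t' : ℕ) (β ω : Fin M → Fin q) :
    a1 t β ω * a1 t' β ω = a1 (max t t') β ω := by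
  unfold a1
  have : (∀ s : Fin M, (s : ℕ) < max t t' → β s = ω s) ↔
      (∀ s : Fin M, (s : ℕ) < t → β s = ω s) ∧ ∀ s : Fin M, (s : ℕ) < t' → β s = ω s := by
    simp only [lt_max_iff, or_imp, forall_and]
  simp only [this]
  by_cases c1 : ∀ s : Fin M, (s : ℕ) < t → β s = ω s
  · by_cases c2 : ∀ s : Fin M, (s : ℕ) < t' → β s = ω s
    · rw [if_pos c1, if_pos c2, if_pos ⟨c1, c2⟩, mul_one]
    · rw [if_neg c2, mul_zero, if_neg fun h => c2 h.2]
  · rw [if_neg c1, zero_mul, if_neg fun h => c1 h.1]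

theorem bf_mul {e M : ℕ} (g h : Fin e → Fin M) (b w : Om e M) :
    bf g b w * bf h b w = bf (g ⊔ h) b w := by
  unfold bf bx
  rw [← prod_mul_distrib]
  exact prod_congr rfl fun i _ => a1_mul _ _ _ _

theorem expect_bf {e M : ℕ} (g : Fin e → Fin M) (w : Om e M) :
    𝔼 w', bf g w w' = (1 / 4 : ℝ) ^ lv g := by
  have : ∀ w', bf g w w' = bx (fun i => (g i : ℕ)) w' w := fun w' => bx_comm _ _ _
  simp only [this]
  exact expect_bx _ (fun i => (g i).2.le) w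

theorem expect_sq {e M : ℕ} {κ : Type} (G : Finset κ) (C : κ → ℝ) (s : κ → Fin e → Fin M)
    (w : Om e M) : 𝔼 w', (∑ x ∈ G, C x * bf (s x) w w') ^ 2 =
      ∑ x ∈ G, ∑ y ∈ G, C x * C y * (1 / 4 : ℝ) ^ lv (s x ⊔ s y) := by
  have e1 : ∀ w', (∑ x ∈ G, C x * bf (s x) w w') ^ 2 =
      ∑ x ∈ G, ∑ y ∈ G, C x * C y * bf (s x ⊔ s y) w w' := by
    intro w'
    rw [sq, sum_mul_sum]
    refine sum_congr rfl fun x _ => sum_congr rfl fun y _ => ?_
    rw [← bf_mul]; ring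
  simp only [e1, Finset.expect_sum_comm, ← Finset.mul_expect, expect_bf]

theorem schur {e M : ℕ} (C : (Fin e → Fin M) → ℝ) (w : Om e M) :
    𝔼 w', (∑ g, C g * bf g w w') ^ 2 ≤ 3 ^ e * ∑ g, C g ^ 2 * (1 / 4 : ℝ) ^ lv g := by
  rw [expect_sq univ C (fun g => g) w]
  have h := qk_schur (univ : Finset (Fin e → Fin M)) (fun j i => (j i : ℕ)) (qk_inj _) C
  rw [Fintype.card_fin] at h
  exact h

theorem kap_self {e M : ℕ} (J : Finset (Fin e → Fin M)) (w : Om e M) : kap J w w = J.card := by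
  simp [kap, bf_self]

theorem expect_kap {e M : ℕ} (J : Finset (Fin e → Fin M)) (l : ℕ) (hJ : ∀ j ∈ J, lv j = l)
    (w : Om e M) : 𝔼 w', kap J w w' = J.card * (1 / 4 : ℝ) ^ l := by
  unfold kap
  rw [Finset.expect_sum_comm, sum_congr rfl (g := fun _ => (1 / 4 : ℝ) ^ l)
    fun j hj => by rw [expect_bf, hJ j hj], sum_const, nsmul_eq_mul]

theorem expect_kap_sq {e M : ℕ} (J : Finset (Fin e → Fin M)) (l : ℕ) (hJ : ∀ j ∈ J, lv j = l)
    (w : Om e M) : 𝔼 w', kap J w w' ^ 2 ≤ 3 ^ e * (J.card * (1 / 4 : ℝ) ^ l) := by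
  have e1 : ∀ w', kap J w w' = ∑ j ∈ J, (fun _ => (1 : ℝ)) j * bf ((fun g => g) j) w w' := by
    intro w'
    simp [kap]
  simp only [e1]
  rw [expect_sq J (fun _ => (1 : ℝ)) (fun g => g) w]
  have h := qk_schur J (fun j i => (j i : ℕ)) (qk_inj _) (fun _ => (1 : ℝ))
  rw [Fintype.card_fin, sum_congr rfl (s₂ := J)
    (f := fun g : Fin e → Fin M => (1 : ℝ) ^ 2 * (1 / 4 : ℝ) ^ (∑ i, (g i : ℕ)))
    (g := fun _ => (1 / 4 : ℝ) ^ l) (fun j hj => by rw [one_pow, one_mul, ← hJ j hj, lv]),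
    sum_const, nsmul_eq_mul] at h
  exact h

theorem expect_mid {e M : ℕ} (J : Finset (Fin e → Fin M)) :
    𝔼 w : Om e M, mid J w = J.card * (1 / 4 : ℝ) ^ e := by
  unfold mid
  have e1 : ∀ j : Fin e → Fin M,
      (𝔼 w : Om e M, ∏ i, (if w i (j i) = 1 then (1 : ℝ) else 0)) = (1 / 4 : ℝ) ^ e := by
    intro j
    rw [expect_pi (fun i (β : Fin M → Fin 4) => if β (j i) = 1 then (1 : ℝ) else 0)]
    have e2 : ∀ i, (𝔼 β : Fin M → Fin 4, if β (j i) = 1 then (1 : ℝ) else 0) = 1 / 4 := by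
      intro i
      rw [expect_one (j i) (fun x : Fin 4 => if x = 1 then (1 : ℝ) else 0),
        Fintype.expect_eq_sum_div_card, Finset.sum_ite_eq']
      simp
    simp only [e2]
    rw [prod_const, card_univ, Fintype.card_fin]
  rw [Finset.expect_sum_comm]
  simp only [e1]
  rw [sum_const, nsmul_eq_mul]

theorem KK_bounds (e : ℕ) : ∃ c : ℝ, 1 ≤ c ∧ ∀ (M l1 i : ℕ) (w : Om (e + 1) M),
    KK l1 i w w ≤ c * (M : ℝ) ^ e * (1 / 4 : ℝ) ^ l1 * (3 / 4 : ℝ) ^ i ∧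
    𝔼 w', KK l1 i w w' ^ 2 ≤ c * (M : ℝ) ^ e * (1 / 64 : ℝ) ^ l1 * (3 / 4 : ℝ) ^ i := by
  have hc1 : (1 : ℝ) ≤ 675 ^ (e + 1) := one_le_pow₀ (by norm_num)
  refine ⟨7 * 675 ^ (e + 1), by linarith, fun M l1 i w => ?_⟩
  let c : (Fin (e + 1) → Fin M) × (Fin (e + 1) → Fin M) → ℝ := fun x =>
    if l1 ≤ lv x.1 ∧ l1 ≤ lv x.2 ∧ l1 + i ≤ lv (x.1 ⊔ x.2) then
      (9 / 32 : ℝ) ^ (lv (x.1 ⊔ x.2) - l1) else 0
  have c0 : ∀ x, 0 ≤ c x := fun x => by
    simp only [c]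
    split_ifs <;> positivity
  have e1 : ∀ w', KK l1 i w w' =
      (1 / 4 : ℝ) ^ l1 * ∑ x ∈ univ ×ˢ univ, c x * bf (x.1 ⊓ x.2) w w' := by
    intro w'
    unfold KK
    rw [mul_sum, sum_product]
    refine sum_congr rfl fun j _ => sum_congr rfl fun j' _ => ?_
    simp only [c]
    split_ifs with h
    · have : (1 / 4 : ℝ) ^ lv (j ⊔ j') = (1 / 4 : ℝ) ^ l1 * (1 / 4 : ℝ) ^ (lv (j ⊔ j') - l1) := by
        rw [← pow_add]
        congr 1
        omega
      rw [this, show (9 / 32 : ℝ) = 1 / 4 * (9 / 8) by norm_num, mul_pow]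
      ring
    · simp
  have h1 := qk_pair_total (univ : Finset (Fin (e + 1) → Fin M)) (fun j i => (j i : ℕ))
    (qk_inj _) M (fun x _ i => (x i).2) l1 (l1 + i) c fun x _ => le_rfl
  have h2 := qk_pair_second (univ : Finset (Fin (e + 1) → Fin M)) (fun j i => (j i : ℕ))
    (qk_inj _) M (fun x _ i => (x i).2) l1 (l1 + i) c (fun x _ => c0 x) fun x _ => le_rfl
  rw [Fintype.card_fin, Nat.add_sub_cancel, Nat.add_sub_cancel_left] at h1 h2
  push_cast at h1 h2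
  constructor
  · rw [e1]
    simp only [bf_self, mul_one]
    have h3 : (15 : ℝ) ^ (e + 1) ≤ 675 ^ (e + 1) := by gcongr; norm_num
    calc _ ≤ (1 / 4 : ℝ) ^ l1 * (7 * 675 ^ (e + 1) * (M : ℝ) ^ e * (3 / 4 : ℝ) ^ i) := by
          refine mul_le_mul_of_nonneg_left (h1.trans ?_) (by positivity)
          gcongr
      _ = _ := by ring
  · simp only [e1, mul_pow, ← Finset.mul_expect]
    rw [expect_sq (univ ×ˢ univ) c (fun x => x.1 ⊓ x.2) w]
    calc _ ≤ ((1 / 4 : ℝ) ^ l1) ^ 2 *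
          (7 * 675 ^ (e + 1) * (M : ℝ) ^ e * (1 / 4 : ℝ) ^ l1 * (3 / 4 : ℝ) ^ i) :=
          mul_le_mul_of_nonneg_left h2 (by positivity)
      _ = _ := by
          rw [show (1 / 64 : ℝ) = 1 / 4 * (1 / 4) * (1 / 4) by norm_num, mul_pow, mul_pow]
          ring

end Pool.Agent.P.MP_e00059_co.HD
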