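import Mathlib
import Pool.Agent.P.MP_e00059_co.QK

/-! Fine parts, Riesz functions and their pairings under a density with the invariant. -/

namespace Pool.Agent.P.MP_e00059_co.HD

open Finset Real
open scoped BigOperators

/-- the odd digit function -/
def ups (β ω : Fin 4) : ℝ := if ω = 1 then (if β = 0 then -1 else if β = 2 then 1 else 0) else 0

/-- the one-dimensional Riesz function -/
noncomputable def u1 {M : ℕ} (t : Fin M) (β ω : Fin M → Fin 4) : ℝ := a1 t β ω * ups (β t) (ω t)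

/-- the part of the kernel at shape `j` -/
noncomputable def dl {e M : ℕ} (j : Fin e → Fin M) (b w : Om e M) : ℝ :=
  ∏ i, d1 (j i) (b i) (w i)

/-- the Riesz function at shape `j` -/
noncomputable def uu {e M : ℕ} (j : Fin e → Fin M) (b w : Om e M) : ℝ :=
  ∏ i, u1 (j i) (b i) (w i)

/-- the fine part of the kernel -/
noncomputable def ff {e M : ℕ} (l1 : ℕ) (b w : Om e M) : ℝ :=
  ∑ j : Fin e → Fin M, if l1 ≤ lv j then dl j b w else 0

/-- a majorant of the fine part -/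
noncomputable def fh {e M : ℕ} (l1 : ℕ) (b w : Om e M) : ℝ :=
  ∑ j : Fin e → Fin M, if l1 ≤ lv j then bf j b w else 0

/-- agreement on the digits below the shape `j` -/
def ag {e M : ℕ} (j : Fin e → ℕ) (b w : Om e M) : Prop :=
  ∀ i, ∀ s : Fin M, (s : ℕ) < j i → b i s = w i s

theorem abs_ups (β ω : Fin 4) : |ups β ω| ≤ 1 := by
  unfold ups; split_ifs <;> simp

theorem ups_self (β : Fin 4) : ups β β = 0 := by
  fin_cases β <;> simp [ups]

theorem ups_sgn (β ω : Fin 4) : ups β ω * sgn β ω = ups β ω ^ 2 := by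
  fin_cases β <;> fin_cases ω <;> simp [ups, sgn]

theorem expect_ups (ω : Fin 4) : 𝔼 β, ups β ω = 0 := by
  rw [Fintype.expect_eq_sum_div_card, Fin.sum_univ_four]
  fin_cases ω <;> simp [ups]

theorem expect_ups_sq (ω : Fin 4) :
    𝔼 β, ups β ω ^ 2 = (1 / 2 : ℝ) * if ω = 1 then (1 : ℝ) else 0 := by
  rw [Fintype.expect_eq_sum_div_card, Fin.sum_univ_four]
  fin_cases ω <;> simp [ups]
  norm_num

open Classical in
theorem bx_eq {e M : ℕ} (j : Fin e → ℕ) (b w : Om e M) :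
    bx j b w = if ag j b w then 1 else 0 := by
  unfold bx a1 ag
  rw [Finset.prod_boole]
  simp

theorem bx_of_ag {e M : ℕ} {j : Fin e → ℕ} {b w : Om e M} (h : ag j b w) : bx j b w = 1 := by
  rw [bx_eq, if_pos h]

theorem bx_of_not {e M : ℕ} {j : Fin e → ℕ} {b w : Om e M} (h : ¬ ag j b w) : bx j b w = 0 := by
  rw [bx_eq, if_neg h]

theorem ag_mono {e M : ℕ} {j j' : Fin e → ℕ} {b w : Om e M} (h : ag j' b w)
    (hj : ∀ i, j i ≤ j' i) : ag j b w := fun i s hs => h i s (hs.trans_le (hj i))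

theorem a1_congr {M q : ℕ} (t : ℕ) (β β' ω : Fin M → Fin q)
    (h : ∀ s : Fin M, (s : ℕ) < t → β s = β' s) : a1 t β ω = a1 t β' ω := by
  unfold a1
  have : (∀ s : Fin M, (s : ℕ) < t → β s = ω s) ↔ ∀ s : Fin M, (s : ℕ) < t → β' s = ω s :=
    forall_congr' fun s => forall_congr' fun hs => by rw [h s hs]
  simp only [this]

theorem bx_dep {e M : ℕ} {j : Fin e → ℕ} {b b' : Om e M} (w : Om e M) (h : ag j b b') :
    bx j b w = bx j b' w :=
  prod_congr rfl fun i _ => a1_congr _ _ _ _ (h i)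

theorem dl_dep {e M : ℕ} {j : Fin e → Fin M} {b b' : Om e M} (w : Om e M)
    (h : ag (fun i => (j i : ℕ) + 1) b b') : dl j b w = dl j b' w := by
  refine prod_congr rfl fun i _ => ?_
  unfold d1
  rw [a1_congr _ (b i) (b' i) _ fun s hs => h i s (Nat.lt_succ_of_lt hs),
    h i (j i) (Nat.lt_succ_self _)]

theorem uu_dep {e M : ℕ} {j : Fin e → Fin M} {b b' : Om e M} (w : Om e M)
    (h : ag (fun i => (j i : ℕ) + 1) b b') : uu j b w = uu j b' w := by
  refine prod_congr rfl fun i _ => ?_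
  unfold u1
  rw [a1_congr _ (b i) (b' i) _ fun s hs => h i s (Nat.lt_succ_of_lt hs),
    h i (j i) (Nat.lt_succ_self _)]

theorem abs_dl {e M : ℕ} (j : Fin e → Fin M) (b w : Om e M) : |dl j b w| ≤ bf j b w := by
  unfold dl bf bx
  rw [Finset.abs_prod]
  refine prod_le_prod (fun _ _ => abs_nonneg _) fun i _ => ?_
  unfold d1
  rw [abs_mul, abs_of_nonneg (a1_nonneg _ _ _)]
  exact mul_le_of_le_one_right (a1_nonneg _ _ _) (abs_sgn _ _)

theorem abs_uu {e M : ℕ} (j : Fin e → Fin M) (b w : Om e M) : |uu j b w| ≤ bf j b w := by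
  unfold uu bf bx
  rw [Finset.abs_prod]
  refine prod_le_prod (fun _ _ => abs_nonneg _) fun i _ => ?_
  unfold u1
  rw [abs_mul, abs_of_nonneg (a1_nonneg _ _ _)]
  exact mul_le_of_le_one_right (a1_nonneg _ _ _) (abs_ups _ _)

theorem kk_eq {e M : ℕ} (b w : Om e M) : kk b w = ∑ j : Fin e → Fin M, dl j b w := by
  unfold kk lsg dl
  rw [Fintype.prod_sum]

theorem exact0 {e M : ℕ} (η : Om e M → ℝ) (j : Fin e → ℕ) (hj : ∀ i, j i ≤ M)
    (hη : ∀ w, 𝔼 b, η b * bx j b w = 0) (F : Om e M → ℝ)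
    (hF : ∀ b b', ag j b b' → F b = F b') : 𝔼 b, η b * F b = 0 := by
  have h1 : ∀ b, (1 / 4 : ℝ) ^ (∑ i, j i) * F b = 𝔼 w, bx j b w * F w := by
    intro b
    have : ∀ w, bx j b w * F w = bx j w b * F b := by
      intro w
      rw [bx_comm j w b]
      by_cases h : ag j b w
      · rw [hF b w h]
      · rw [bx_of_not h]; simp
    simp only [this]
    rw [← Finset.expect_mul, expect_bx j hj]
  have h2 : (1 / 4 : ℝ) ^ (∑ i, j i) * 𝔼 b, η b * F b = 0 := by
    rw [Finset.mul_expect]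
    have : ∀ b, (1 / 4 : ℝ) ^ (∑ i, j i) * (η b * F b) = 𝔼 w, η b * bx j b w * F w := by
      intro b
      rw [mul_left_comm, h1, Finset.mul_expect]
      simp only [mul_assoc]
    simp only [this]
    rw [Finset.expect_comm]
    simp only [← Finset.expect_mul, hη, zero_mul]
    simp
  rcases mul_eq_zero.1 h2 with h | h
  · exact absurd h (by positivity)
  · exact h

theorem exact1 {e M j1 E : ℕ} {ν : Om e M → ℝ} (hν : Inv j1 E ν) (j : Fin e → ℕ)
    (hj : ∀ i, j i ≤ M) (hE : ∑ i, j i ≤ E) (F : Om e M → ℝ)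
    (hF : ∀ b b', ag j b b' → F b = F b') : 𝔼 b, ν b * F b = 𝔼 b, F b := by
  have h := exact0 (fun b => ν b - 1) j hj (fun w => by
    simp only [sub_mul, one_mul]
    rw [Finset.expect_sub_distrib, hν.1 j hE w, expect_bx j hj, sub_self]) F hF
  simp only [sub_mul, one_mul] at h
  rw [Finset.expect_sub_distrib] at h
  linarith

theorem expect_update {J B : Type} [Fintype J] [DecidableEq J] [Fintype B] [Nonempty B] (t : J)
    (H : (J → B) → ℝ) : 𝔼 β, H β = 𝔼 β, 𝔼 c, H (Function.update β t c) := by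
  have h1 : 𝔼 β, H β = 𝔼 β, 𝔼 _c : B, H β := by
    refine Finset.expect_congr rfl fun β _ => ?_
    exact (Finset.expect_const univ_nonempty _).symm
  rw [h1, ← Finset.expect_product', ← Finset.expect_product', Finset.univ_product_univ]
  have inv : Function.Involutive
      fun z : (J → B) × B => (Function.update z.1 t z.2, z.1 t) := by
    intro z
    simp
  exact (Fintype.expect_equiv inv.toPerm _ _ fun z => rfl).symm

theorem expect_indep {J B : Type} [Fintype J] [DecidableEq J] [Fintype B] [Nonempty B] (t : J)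
    (F : (J → B) → ℝ) (G : B → ℝ) (hF : ∀ β c, F (Function.update β t c) = F β) :
    𝔼 β, F β * G (β t) = (𝔼 β, F β) * 𝔼 c, G c := by
  rw [expect_update t]
  simp only [hF, Function.update_self, ← Finset.mul_expect, ← Finset.expect_mul]

theorem a1_update {M q : ℕ} (t : Fin M) (r : ℕ) (hr : r ≤ t) (β ω : Fin M → Fin q) (c : Fin q) :
    a1 r (Function.update β t c) ω = a1 r β ω := by
  refine a1_congr _ _ _ _ fun s hs => ?_
  rw [Function.update_of_ne]
  intro h
  rw [h] at hs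
  omega

theorem expect_u1_d1 {M : ℕ} (t t' : Fin M) (h : t' < t) (ω ω' : Fin M → Fin 4) :
    𝔼 β, u1 t β ω * d1 t' β ω' = 0 := by
  have e1 : ∀ β, u1 t β ω * d1 t' β ω' = (a1 t β ω * d1 t' β ω') * ups (β t) (ω t) := by
    intro β; unfold u1; ring
  simp only [e1]
  rw [expect_indep t (fun β => a1 t β ω * d1 t' β ω') (fun c => ups c (ω t)), expect_ups,
    mul_zero]
  intro β c
  unfold d1
  rw [a1_update t _ le_rfl, a1_update t _ (le_of_lt h), Function.update_of_ne h.ne]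

theorem expect_u1_sq {M : ℕ} (t : Fin M) (ω : Fin M → Fin 4) :
    𝔼 β, u1 t β ω * d1 t β ω =
      (1 / 4 : ℝ) ^ (t : ℕ) * ((1 / 2 : ℝ) * if ω t = 1 then (1 : ℝ) else 0) := by
  have e1 : ∀ β, u1 t β ω * d1 t β ω = a1 t β ω * ups (β t) (ω t) ^ 2 := by
    intro β
    unfold u1 d1
    rw [← ups_sgn]
    have : a1 t β ω * a1 t β ω = a1 t β ω := by unfold a1; split_ifs <;> simp
    calc _ = (a1 t β ω * a1 t β ω) * (ups (β t) (ω t) * sgn (β t) (ω t)) := by ring
      _ = _ := by rw [this]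
  simp only [e1]
  rw [expect_indep t (fun β => a1 t β ω) (fun c => ups c (ω t) ^ 2), expect_ups_sq,
    expect_a1 _ t.2.le]
  intro β c
  rw [a1_update t _ le_rfl]

theorem u1_d1_ne {M : ℕ} (t t' : Fin M) (h : t ≠ t') (β ω : Fin M → Fin 4) :
    u1 t β ω * d1 t' β ω = 0 := by
  unfold u1 d1 a1
  rcases lt_or_gt_of_ne h with h | h
  · by_cases h2 : ∀ s : Fin M, (s : ℕ) < (t' : ℕ) → β s = ω s
    · rw [h2 t h, ups_self]; simp
    · rw [if_neg h2]; simp
  · by_cases h2 : ∀ s : Fin M, (s : ℕ) < (t : ℕ) → β s = ω s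
    · rw [h2 t' h, sgn_self]; simp
    · rw [if_neg h2]; simp

theorem u1_u1_ne {M : ℕ} (t t' : Fin M) (h : t ≠ t') (β ω : Fin M → Fin 4) :
    u1 t β ω * u1 t' β ω = 0 := by
  unfold u1 a1
  rcases lt_or_gt_of_ne h with h | h
  · by_cases h2 : ∀ s : Fin M, (s : ℕ) < (t' : ℕ) → β s = ω s
    · rw [h2 t h, ups_self]; simp
    · rw [if_neg h2]; simp
  · by_cases h2 : ∀ s : Fin M, (s : ℕ) < (t : ℕ) → β s = ω s
    · rw [h2 t' h, ups_self]; simp
    · rw [if_neg h2]; simp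

theorem uu_dl_ne {e M : ℕ} (j j' : Fin e → Fin M) (h : j ≠ j') (b w : Om e M) :
    uu j b w * dl j' b w = 0 := by
  obtain ⟨i, hi⟩ := Function.ne_iff.1 h
  unfold uu dl
  rw [← Finset.prod_mul_distrib]
  exact Finset.prod_eq_zero (mem_univ i) (u1_d1_ne _ _ hi _ _)

theorem uu_uu_ne {e M : ℕ} (j j' : Fin e → Fin M) (h : j ≠ j') (b w : Om e M) :
    uu j b w * uu j' b w = 0 := by
  obtain ⟨i, hi⟩ := Function.ne_iff.1 h
  unfold uu
  rw [← Finset.prod_mul_distrib]
  exact Finset.prod_eq_zero (mem_univ i) (u1_u1_ne _ _ hi _ _)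

theorem expect_uu_dl {e M : ℕ} (j j' : Fin e → Fin M) (h : ¬ j ≤ j') (w w' : Om e M) :
    𝔼 b, uu j b w * dl j' b w' = 0 := by
  have h' : ∃ i, j' i < j i := by
    by_contra h2
    push Not at h2
    exact h h2
  obtain ⟨i, hi⟩ := h'
  unfold uu dl
  simp only [← Finset.prod_mul_distrib]
  rw [expect_pi (fun i β => u1 (j i) β (w i) * d1 (j' i) β (w' i))]
  exact Finset.prod_eq_zero (mem_univ i) (expect_u1_d1 _ _ hi _ _)

theorem expect_uu_sq {e M : ℕ} (j : Fin e → Fin M) (w : Om e M) :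
    𝔼 b, uu j b w * dl j b w = (1 / 4 : ℝ) ^ lv j * (1 / 2 : ℝ) ^ e *
      ∏ i, (if w i (j i) = 1 then (1 : ℝ) else 0) := by
  unfold uu dl lv
  simp only [← Finset.prod_mul_distrib]
  rw [expect_pi (fun i β => u1 (j i) β (w i) * d1 (j i) β (w i))]
  simp only [expect_u1_sq, Finset.prod_mul_distrib, Finset.prod_pow_eq_pow_sum, Finset.prod_const,
    card_univ, Fintype.card_fin, mul_assoc]

theorem bf_two {e M : ℕ} (j j' : Fin e → Fin M) (w w' : Om e M) : ∃ c : Om e M, ∀ b,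
    bf j b w * bf j' b w' ≤ bf (j ⊔ j') b c * bf (j ⊓ j') w w' := by
  refine ⟨fun i => if j' i ≤ j i then w i else w' i, fun b => ?_⟩
  unfold bf
  by_cases h1 : ag (fun i => (j i : ℕ)) b w
  swap
  · rw [bx_of_not h1, zero_mul]; exact mul_nonneg (bx_nonneg _ _ _) (bx_nonneg _ _ _)
  by_cases h2 : ag (fun i => (j' i : ℕ)) b w'
  swap
  · rw [bx_of_not h2, mul_zero]; exact mul_nonneg (bx_nonneg _ _ _) (bx_nonneg _ _ _)
  rw [bx_of_ag h1, bx_of_ag h2, bx_of_ag, bx_of_ag]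
  · intro i s hs
    have k1 : (s : ℕ) < j i := hs.trans_le (Fin.le_def.1 (inf_le_left (a := j) (b := j') i))
    have k2 : (s : ℕ) < j' i := hs.trans_le (Fin.le_def.1 (inf_le_right (a := j) (b := j') i))
    rw [← h1 i s k1, ← h2 i s k2]
  · intro i s hs
    simp only [Pi.sup_apply] at hs
    by_cases h : j' i ≤ j i
    · rw [sup_eq_left.2 h] at hs
      simp only [if_pos h]
      exact h1 i s hs
    · rw [sup_eq_right.2 (le_of_not_ge h)] at hs
      simp only [if_neg h]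
      exact h2 i s hs

theorem lv_mono {e M : ℕ} {j j' : Fin e → Fin M} (h : j ≤ j') : lv j ≤ lv j' :=
  sum_le_sum fun i _ => Fin.le_def.1 (h i)

theorem pair_nu {e M j1 E l1 : ℕ} {ν : Om e M → ℝ} (h0 : ∀ b, 0 ≤ ν b) (hν : Inv j1 E ν)
    (hE : l1 + j1 ≤ E) (j j' : Fin e → Fin M) (w w' : Om e M) :
    𝔼 b, ν b * (bf j b w * bf j' b w') ≤
      (1 / 4 : ℝ) ^ lv (j ⊔ j') * (9 / 8 : ℝ) ^ (lv (j ⊔ j') - l1) * bf (j ⊓ j') w w' := by
  obtain ⟨c, hc⟩ := bf_two j j' w w'
  calc _ ≤ 𝔼 b, ν b * bf (j ⊔ j') b c * bf (j ⊓ j') w w' := by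
        refine Finset.expect_le_expect fun b _ => ?_
        rw [mul_assoc]
        exact mul_le_mul_of_nonneg_left (hc b) (h0 b)
    _ ≤ _ := by
        rw [← Finset.expect_mul]
        refine mul_le_mul_of_nonneg_right ?_ (bf_nonneg _ _ _)
        refine (hν.2 (fun i => ((j ⊔ j') i : ℕ)) (fun i => ((j ⊔ j') i).2.le) c).trans ?_
        refine mul_le_mul_of_nonneg_left ?_ (by positivity)
        refine pow_le_pow_right₀ (by norm_num) ?_
        unfold lv
        omega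

theorem pair_leb {e M : ℕ} (j j' : Fin e → Fin M) (h : j ≤ j') (w w' : Om e M) :
    𝔼 b, bf j b w * bf j' b w' ≤ (1 / 4 : ℝ) ^ lv j' * bf j w w' := by
  obtain ⟨c, hc⟩ := bf_two j j' w w'
  rw [sup_eq_right.2 h, inf_eq_left.2 h] at hc
  calc _ ≤ 𝔼 b, bf j' b c * bf j w w' := Finset.expect_le_expect fun b _ => hc b
    _ = _ := by
        rw [← Finset.expect_mul]
        unfold bf
        rw [expect_bx _ fun i => (j' i).2.le]
        rfl

theorem fh_nonneg {e M : ℕ} (l1 : ℕ) (b w : Om e M) : 0 ≤ fh l1 b w :=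
  sum_nonneg fun j _ => by
    split_ifs
    · exact bf_nonneg _ _ _
    · exact le_rfl

theorem abs_ff {e M : ℕ} (l1 : ℕ) (b w : Om e M) : |ff l1 b w| ≤ fh l1 b w := by
  refine (Finset.abs_sum_le_sum_abs _ _).trans (sum_le_sum fun j _ => ?_)
  split_ifs
  · exact abs_dl _ _ _
  · simp

theorem abs_y {e M : ℕ} (l1 : ℕ) (J : Finset (Fin e → Fin M)) (hJ : ∀ j ∈ J, l1 ≤ lv j)
    (o : (Fin e → Fin M) → ℝ) (ho : ∀ j, |o j| ≤ 1) (b w : Om e M) :
    |∑ j ∈ J, o j * uu j b w| ≤ fh l1 b w := by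
  refine (Finset.abs_sum_le_sum_abs _ _).trans ?_
  calc _ ≤ ∑ j ∈ J, if l1 ≤ lv j then bf j b w else 0 := by
        refine sum_le_sum fun j hj => ?_
        rw [if_pos (hJ j hj), abs_mul]
        exact (mul_le_of_le_one_left (abs_nonneg _) (ho j)).trans (abs_uu _ _ _)
    _ ≤ _ := by
        refine sum_le_sum_of_subset_of_nonneg (subset_univ _) fun j _ _ => ?_
        split_ifs
        · exact bf_nonneg _ _ _
        · exact le_rfl

theorem fh_fh {e M j1 E l1 : ℕ} {ν : Om e M → ℝ} (h0 : ∀ b, 0 ≤ ν b) (hν : Inv j1 E ν)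
    (hE : l1 + j1 ≤ E) (w w' : Om e M) :
    𝔼 b, ν b * (fh l1 b w * fh l1 b w') ≤ KK l1 0 w w' := by
  unfold fh KK
  simp only [Finset.sum_mul_sum]
  simp only [Finset.mul_sum, Finset.expect_sum_comm]
  refine sum_le_sum fun j _ => sum_le_sum fun j' _ => ?_
  by_cases h1 : l1 ≤ lv j
  · by_cases h2 : l1 ≤ lv j'
    · have h3 : l1 + 0 ≤ lv (j ⊔ j') := h1.trans (lv_mono le_sup_left)
      simp only [if_pos h1, if_pos h2, if_pos (And.intro h1 (And.intro h2 h3))]
      exact pair_nu h0 hν hE j j' w w'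
    · simp [h2]
  · simp [h1]

theorem abs_expect_le {Ω : Type} [Fintype Ω] (ν F G : Ω → ℝ) (h0 : ∀ b, 0 ≤ ν b)
    (h : ∀ b, |F b| ≤ G b) : |𝔼 b, ν b * F b| ≤ 𝔼 b, ν b * G b := by
  rw [abs_le, ← Finset.expect_neg_distrib]
  constructor
  · refine Finset.expect_le_expect fun b _ => ?_
    have := mul_le_mul_of_nonneg_left (abs_le.1 (h b)).1 (h0 b)
    linarith
  · exact Finset.expect_le_expect fun b _ =>
      mul_le_mul_of_nonneg_left (abs_le.1 (h b)).2 (h0 b)

theorem uu_dl_abs {e M : ℕ} (j j' : Fin e → Fin M) (b w w' : Om e M) :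
    |uu j b w * dl j' b w'| ≤ bf j b w * bf j' b w' := by
  rw [abs_mul]
  exact mul_le_mul (abs_uu _ _ _) (abs_dl _ _ _) (abs_nonneg _) (bf_nonneg _ _ _)

theorem exact_uu_dl {e M j1 E : ℕ} {ν : Om e M → ℝ} (hν : Inv j1 E ν) (j j' : Fin e → Fin M)
    (h : lv (j ⊔ j') + e ≤ E) (w w' : Om e M) :
    𝔼 b, ν b * (uu j b w * dl j' b w') = 𝔼 b, uu j b w * dl j' b w' := by
  refine exact1 hν (fun i => ((j ⊔ j') i : ℕ) + 1) (fun i => ((j ⊔ j') i).2) ?_ _ ?_
  · rw [Finset.sum_add_distrib]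
    simpa [lv] using h
  · intro b b' hb
    rw [uu_dep w (ag_mono hb fun i => Nat.succ_le_succ
        (Fin.le_def.1 (le_sup_left (a := j) (b := j') i))),
      dl_dep w' (ag_mono hb fun i => Nat.succ_le_succ
        (Fin.le_def.1 (le_sup_right (a := j) (b := j') i)))]

theorem pair_ud {e M j1 l1 : ℕ} {ν : Om (e + 1) M → ℝ} (h0 : ∀ b, 0 ≤ ν b)
    (hν : Inv j1 (l1 + e + j1) ν) (j j' : Fin (e + 1) → Fin M) (w w' : Om (e + 1) M) :
    |𝔼 b, ν b * (uu j b w * dl j' b w')| ≤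
      (if ∀ i, j i ≤ j' i then (1 / 4 : ℝ) ^ lv j' else 0) * bf j w w' +
      if l1 + j1 ≤ lv (j ⊔ j') then
        (1 / 4 : ℝ) ^ lv (j ⊔ j') * (9 / 8 : ℝ) ^ (lv (j ⊔ j') - l1) * bf (j ⊓ j') w w' else 0 := by
  have p1 : 0 ≤ (if ∀ i, j i ≤ j' i then (1 / 4 : ℝ) ^ lv j' else 0) * bf j w w' := by
    refine mul_nonneg ?_ (bf_nonneg _ _ _)
    split_ifs <;> positivity
  by_cases h : l1 + j1 ≤ lv (j ⊔ j')
  · rw [if_pos h]
    have := (abs_expect_le ν _ _ h0 fun b => uu_dl_abs j j' b w w').trans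
      (pair_nu (l1 := l1) h0 hν (by omega) j j' w w')
    linarith
  · rw [if_neg h, add_zero, exact_uu_dl hν j j' (by omega)]
    by_cases h2 : ∀ i, j i ≤ j' i
    · rw [if_pos h2]
      have := abs_expect_le (fun _ => (1 : ℝ)) _ _ (fun _ => zero_le_one)
        fun b => uu_dl_abs j j' b w w'
      simp only [one_mul] at this
      exact this.trans (pair_leb j j' h2 w w')
    · rw [expect_uu_dl j j' h2, abs_zero]
      exact p1

theorem sum_above {e M : ℕ} (j : Fin e → Fin M) :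
    ∑ j' : Fin e → Fin M, (if ∀ i, j i ≤ j' i then (1 / 4 : ℝ) ^ lv j' else 0) ≤
      2 ^ e * (1 / 4 : ℝ) ^ lv j := by
  have h := geo (1 / 4 : ℝ) (by norm_num) (by norm_num) j
  calc _ ≤ ∑ j' : Fin e → Fin M, (∏ i, (1 / 4 : ℝ) ^ Nat.dist (j' i) (j i)) *
        (1 / 4 : ℝ) ^ lv j := by
        refine sum_le_sum fun j' _ => ?_
        split_ifs with h1
        · rw [Finset.prod_pow_eq_pow_sum, ← pow_add]
          refine le_of_eq (congrArg _ ?_)
          unfold lv
          rw [← Finset.sum_add_distrib]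
          refine sum_congr rfl fun i _ => ?_
          have := Fin.le_def.1 (h1 i)
          unfold Nat.dist
          omega
        · positivity
    _ ≤ _ := by
        rw [← Finset.sum_mul]
        refine mul_le_mul_of_nonneg_right (h.trans ?_) (by positivity)
        exact pow_le_pow_left₀ (by norm_num) (by norm_num) _

theorem y_ff {e M j1 l1 l : ℕ} {ν : Om (e + 1) M → ℝ} (h0 : ∀ b, 0 ≤ ν b)
    (hν : Inv j1 (l1 + e + j1) ν) (J : Finset (Fin (e + 1) → Fin M)) (hJ : ∀ j ∈ J, lv j = l)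
    (hl : l1 ≤ l) (o : (Fin (e + 1) → Fin M) → ℝ) (ho : ∀ j, |o j| ≤ 1) (w w' : Om (e + 1) M) :
    |𝔼 b, ν b * ((∑ j ∈ J, o j * uu j b w) * ff l1 b w')| ≤
      2 ^ (e + 1) * (1 / 4 : ℝ) ^ l * kap J w w' + KK l1 j1 w w' := by
  have e1 : (𝔼 b, ν b * ((∑ j ∈ J, o j * uu j b w) * ff l1 b w')) =
      ∑ j ∈ J, ∑ j' : Fin (e + 1) → Fin M, if l1 ≤ lv j' then
        o j * 𝔼 b, ν b * (uu j b w * dl j' b w') else 0 := by
    unfold ff
    simp only [Finset.sum_mul_sum]
    simp only [Finset.mul_sum, Finset.expect_sum_comm]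
    refine sum_congr rfl fun j _ => sum_congr rfl fun j' _ => ?_
    split_ifs
    · rw [Finset.mul_expect]
      exact Finset.expect_congr rfl fun b _ => by ring
    · simp
  rw [e1]
  calc _ ≤ ∑ j ∈ J, ∑ j' : Fin (e + 1) → Fin M,
        ((if ∀ i, j i ≤ j' i then (1 / 4 : ℝ) ^ lv j' else 0) * bf j w w' +
        if l1 ≤ lv j ∧ l1 ≤ lv j' ∧ l1 + j1 ≤ lv (j ⊔ j') then
          (1 / 4 : ℝ) ^ lv (j ⊔ j') * (9 / 8 : ℝ) ^ (lv (j ⊔ j') - l1) * bf (j ⊓ j') w w'
          else 0) := by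
        refine (Finset.abs_sum_le_sum_abs _ _).trans (sum_le_sum fun j hj => ?_)
        refine (Finset.abs_sum_le_sum_abs _ _).trans (sum_le_sum fun j' _ => ?_)
        have k1 : l1 ≤ lv j := (hJ j hj).symm ▸ hl
        by_cases k2 : l1 ≤ lv j'
        · simp only [k1, k2, if_true, true_and]
          rw [abs_mul]
          exact (mul_le_of_le_one_left (abs_nonneg _) (ho j)).trans (pair_ud h0 hν j j' w w')
        · simp only [k2, if_false, false_and, and_false, abs_zero, add_zero]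
          refine mul_nonneg ?_ (bf_nonneg _ _ _)
          split_ifs <;> positivity
    _ ≤ _ := by
        simp only [Finset.sum_add_distrib]
        refine add_le_add ?_ ?_
        · unfold kap
          rw [Finset.mul_sum]
          refine sum_le_sum fun j hj => ?_
          rw [← Finset.sum_mul, ← hJ j hj]
          exact mul_le_mul_of_nonneg_right (sum_above j) (bf_nonneg _ _ _)
        · refine sum_le_sum_of_subset_of_nonneg (subset_univ _) fun j _ _ => ?_
          refine sum_nonneg fun j' _ => ?_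
          split_ifs
          · have := bf_nonneg (j ⊓ j') w w'
            positivity
          · exact le_rfl

theorem y_ff_self {e M j1 E l1 l : ℕ} {ν : Om e M → ℝ} (hν : Inv j1 E ν)
    (J : Finset (Fin e → Fin M)) (hJ : ∀ j ∈ J, lv j = l) (hl : l1 ≤ l) (hE : l + e ≤ E)
    (o : (Fin e → Fin M) → ℝ) (w : Om e M) :
    𝔼 b, ν b * ((∑ j ∈ J, o j * uu j b w) * ff l1 b w) =
      (1 / 4 : ℝ) ^ l * (1 / 2 : ℝ) ^ e *
        ∑ j ∈ J, o j * ∏ i, (if w i (j i) = 1 then (1 : ℝ) else 0) := by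
  have e1 : ∀ b, ∀ j ∈ J, uu j b w * ff l1 b w = uu j b w * dl j b w := by
    intro b j hj
    unfold ff
    rw [Finset.mul_sum, Finset.sum_eq_single j]
    · rw [if_pos ((hJ j hj).symm ▸ hl)]
    · intro j' _ hne
      split_ifs
      · exact uu_dl_ne j j' hne.symm b w
      · simp
    · simp
  have e2 : ∀ b, ν b * ((∑ j ∈ J, o j * uu j b w) * ff l1 b w) =
      ∑ j ∈ J, o j * (ν b * (uu j b w * dl j b w)) := by
    intro b
    rw [Finset.sum_mul, Finset.mul_sum]
    refine sum_congr rfl fun j hj => ?_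
    rw [← e1 b j hj]; ring
  simp only [e2, Finset.expect_sum_comm, ← Finset.mul_expect]
  rw [Finset.mul_sum]
  refine sum_congr rfl fun j hj => ?_
  rw [exact_uu_dl hν j j (by rw [sup_idem, hJ j hj]; exact hE), expect_uu_sq, hJ j hj]
  ring

theorem y_sq {e M : ℕ} (J : Finset (Fin e → Fin M)) (o : (Fin e → Fin M) → ℝ)
    (ho : ∀ j, o j = 0 ∨ o j = 1) (b w : Om e M) :
    (∑ j ∈ J, o j * uu j b w) ^ 2 ≤ ∑ j ∈ J, o j * bf j b w := by
  rw [sq, Finset.sum_mul_sum]
  refine sum_le_sum fun j hj => ?_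
  rw [Finset.sum_eq_single j]
  · have h1 := abs_uu j b w
    have h2 : bf j b w ≤ 1 := bx_le_one _ _ _
    have h3 : uu j b w * uu j b w ≤ bf j b w := by
      rw [← abs_mul_abs_self]
      nlinarith [abs_nonneg (uu j b w)]
    rcases ho j with h | h <;> rw [h]
    · simp
    · simpa using h3
  · intro j' _ hne
    calc _ = o j * o j' * (uu j b w * uu j' b w) := by ring
      _ = 0 := by rw [uu_uu_ne j j' hne.symm, mul_zero]
  · intro h; exact absurd hj h

end Pool.Agent.P.MP_e00059_co.HD
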