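import Mathlib
import Pool.Agent.P.MP_e00059_co.Q0

/-! Nets, duality in weighted L1, trimming of large directions. -/

namespace Pool.Agent.P.MP_e00059_co.HD

open Finset Real Module
open scoped BigOperators

lemma dual_dist {E : Type} [NormedAddCommGroup E] [NormedSpace ℝ E] (V : Submodule ℝ E) (z : E)
    (m : ℝ) (hm : ∀ v ∈ V, m ≤ ‖z - v‖) :
    ∃ φ : E →ₗ[ℝ] ℝ, (∀ x, |φ x| ≤ ‖x‖) ∧ (∀ v ∈ V, φ v = 0) ∧ m ≤ φ z := by
  obtain ⟨g, g1, g2⟩ := exists_dual_vector'' ℝ (Submodule.Quotient.mk z : E ⧸ V)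
  refine ⟨g.toLinearMap ∘ₗ V.mkQ, fun x => ?_, fun v hv => ?_, ?_⟩
  · exact (g.le_of_opNorm_le g1 _).trans
      ((one_mul _).trans_le (Submodule.Quotient.norm_mk_le V x))
  · simp [(Submodule.Quotient.mk_eq_zero V).2 hv]
  · refine le_trans (le_of_forall_pos_le_add fun ε hε => ?_) g2.ge
    obtain ⟨w, w1, w2⟩ := Submodule.Quotient.norm_mk_lt (Submodule.Quotient.mk z : E ⧸ V) hε
    have := hm (z - w) ((Submodule.Quotient.eq V).1 w1.symm)
    rw [sub_sub_cancel] at this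
    exact this.trans w2.le

lemma net_one (E : Type) [NormedAddCommGroup E] [NormedSpace ℝ E] [FiniteDimensional ℝ E] :
    ∃ s : Finset E, s.card ≤ 5 ^ finrank ℝ E ∧ ∀ x, ‖x‖ ≤ 2 → ∃ c ∈ s, ‖x - c‖ ≤ 1 := by
  classical
  let A : ℕ → Prop := fun n => ∃ s : Finset E, s.card = n ∧ (∀ c ∈ s, ‖c‖ ≤ 2) ∧
    ∀ c ∈ s, ∀ d ∈ s, c ≠ d → 1 ≤ ‖c - d‖
  have hA : ∀ n, A n → n ≤ 5 ^ finrank ℝ E := fun n ⟨s, h0, h1, h2⟩ =>
    h0 ▸ Besicovitch.card_le_of_separated s h1 h2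
  obtain ⟨s, h0, h1, h2⟩ : A (Nat.findGreatest A (5 ^ finrank ℝ E)) :=
    Nat.findGreatest_spec (Nat.zero_le _) ⟨∅, by simp⟩
  refine ⟨s, h0 ▸ Nat.findGreatest_le _, fun x hx => ?_⟩
  by_contra! h
  have hxs : x ∉ s := fun hh => by
    have := h x hh
    norm_num at this
  have h3 : A (s.card + 1) := by
    refine ⟨insert x s, card_insert_of_notMem hxs, forall_mem_insert _ _ _ |>.2 ⟨hx, h1⟩, ?_⟩
    simp only [forall_mem_insert]
    exact ⟨⟨fun hh => absurd rfl hh, fun d hd _ => (h d hd).le⟩, fun c hc =>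
      ⟨fun _ => norm_sub_rev x c ▸ (h c hc).le, h2 c hc⟩⟩
  have := Nat.le_findGreatest (hA _ h3) h3
  omega

lemma net_pow (E : Type) [NormedAddCommGroup E] [NormedSpace ℝ E] [FiniteDimensional ℝ E] (k : ℕ)
    {t : ℝ} (ht : 0 < t) : ∃ s : Finset E, s.card ≤ 5 ^ (k * finrank ℝ E) ∧
      ∀ x, ‖x‖ ≤ 2 ^ k * t → ∃ c ∈ s, ‖x - c‖ ≤ t := by
  classical
  obtain ⟨s1, c1, h1⟩ := net_one E
  induction k generalizing t with
  | zero => exact ⟨{0}, by simp, fun x hx => ⟨0, by simp, by simpa using hx⟩⟩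
  | succ k ih =>
    obtain ⟨s, c, h⟩ := ih (show 0 < 2 * t by positivity)
    refine ⟨image₂ (fun a b => a + t • b) s s1, (card_image₂_le _ _ _).trans ?_, fun x hx => ?_⟩
    · rw [add_mul, one_mul, pow_add]
      exact Nat.mul_le_mul c c1
    · obtain ⟨a, ha, h2⟩ := h x (hx.trans (le_of_eq (by ring)))
      obtain ⟨b, hb, h3⟩ := h1 (t⁻¹ • (x - a)) (by
        rw [norm_smul, norm_inv, norm_of_nonneg ht.le, inv_mul_le_iff₀ ht, mul_comm]
        exact h2)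
      refine ⟨_, mem_image₂_of_mem ha hb, ?_⟩
      rw [show x - (a + t • b) = t • (t⁻¹ • (x - a) - b) by
        rw [smul_sub, smul_inv_smul₀ ht.ne', sub_sub], norm_smul, norm_of_nonneg ht.le]
      exact mul_le_of_le_one_right ht.le h3

theorem net_bound {E Ω : Type} [NormedAddCommGroup E] [NormedSpace ℝ E] [Fintype Ω]
    (V : Submodule ℝ E) [FiniteDimensional ℝ V] (Z : Ω → E) {lam t M1 M2 : ℝ} (hl : 0 < lam)
    (ht : 0 < t) (k : ℕ) (hk : 1 ≤ k) (H1 : ∀ v ∈ V, 𝔼 ω, exp (-(lam * ‖Z ω - v‖)) ≤ M1)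
    (H2 : ∀ φ : E →ₗ[ℝ] ℝ, (∀ x, |φ x| ≤ ‖x‖) → 𝔼 ω, exp (lam * φ (Z ω)) ≤ M2) :
    ∃ φ : Ω → E →ₗ[ℝ] ℝ, (∀ ω x, |φ ω x| ≤ ‖x‖) ∧ (∀ ω, ∀ v ∈ V, φ ω v = 0) ∧
      𝔼 ω, exp (-(lam * φ ω (Z ω))) ≤
        5 ^ (k * finrank ℝ V) * (exp (lam * t) * M1 + exp (-(lam * ((2 ^ k - 2) * t))) * M2) := by
  obtain ⟨s, cs, hs⟩ := net_pow V k ht
  have hσ : ∀ c : E, ∃ φ : E →ₗ[ℝ] ℝ, (∀ x, |φ x| ≤ ‖x‖) ∧ φ c = ‖c‖ := fun c => by
    obtain ⟨g, g1, g2⟩ := exists_dual_vector'' ℝ c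
    exact ⟨g.toLinearMap, fun x => (g.le_of_opNorm_le g1 _).trans_eq (one_mul _), g2⟩
  choose σ σ1 σ2 using hσ
  let S : Ω → ℝ := fun ω => ∑ c ∈ s, (exp (lam * t) * exp (-(lam * ‖Z ω - c‖)) +
    exp (-(lam * ((2 ^ k - 2) * t))) * exp (lam * σ c (Z ω)))
  have R2 : (2 : ℝ) ≤ 2 ^ k := le_self_pow₀ one_le_two (by omega)
  have hS : ∀ ω, ∀ v ∈ V, exp (-(lam * ‖Z ω - v‖)) ≤ S ω := by
    intro ω v hv
    rcases le_total ‖v‖ (2 ^ k * t) with h | h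
    · obtain ⟨c, hc, h1⟩ := hs ⟨v, hv⟩ h
      refine le_trans ?_ (single_le_sum (fun _ _ => by positivity) hc)
      refine le_trans ?_ (le_add_of_nonneg_right (by positivity))
      rw [← exp_add, exp_le_exp]
      have h2 : ‖Z ω - c‖ ≤ ‖Z ω - v‖ + ‖v - c‖ := norm_sub_le_norm_sub_add_norm_sub _ _ _
      have h3 : ‖v - c‖ ≤ t := h1
      nlinarith
    · have v0 : 0 < ‖v‖ := lt_of_lt_of_le (by positivity) h
      set r := 2 ^ k * t / ‖v‖ with hr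
      have r0 : 0 < r := by positivity
      have r1 : r ≤ 1 := (div_le_one v0).2 h
      have e : ‖r • v‖ = 2 ^ k * t := by
        rw [norm_smul, norm_of_nonneg r0.le, hr, div_mul_cancel₀ _ v0.ne']
      obtain ⟨c, hc, h1⟩ := hs ⟨r • v, V.smul_mem r hv⟩ e.le
      refine le_trans ?_ (single_le_sum (fun _ _ => by positivity) hc)
      refine le_trans ?_ (le_add_of_nonneg_left (by positivity))
      rw [← exp_add, exp_le_exp]
      have h3 : ‖r • v - c‖ ≤ t := h1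
      have h4 := norm_sub_norm_le (r • v) (c : E)
      have h5 := (abs_le.1 (σ1 c (r • v - c))).1
      have h6 := (abs_le.1 (σ1 c (Z ω - v))).1
      rw [map_sub] at h5 h6
      rw [σ2, map_smul, smul_eq_mul] at h5
      have h7 : (2 ^ k - 2) * t ≤ r * σ c v := by linarith
      have h8 : 0 ≤ (2 ^ k - 2) * t := mul_nonneg (by linarith) ht.le
      have h9 : 0 ≤ σ c v := le_of_mul_le_mul_left (by linarith) r0
      have h10 : (2 ^ k - 2) * t - σ c (Z ω) ≤ ‖Z ω - v‖ := by nlinarith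
      nlinarith
  have S0 : ∀ ω, 0 < S ω := fun ω => (exp_pos _).trans_le (hS ω 0 V.zero_mem)
  have hφ : ∀ ω, ∃ φ : E →ₗ[ℝ] ℝ, (∀ x, |φ x| ≤ ‖x‖) ∧ (∀ v ∈ V, φ v = 0) ∧
      -log (S ω) / lam ≤ φ (Z ω) := fun ω => dual_dist V _ _ fun v hv => by
    have := (le_log_iff_exp_le (S0 ω)).2 (hS ω v hv)
    rw [div_le_iff₀ hl]
    linarith
  choose φ φ1 φ2 φ3 using hφ
  refine ⟨φ, φ1, φ2, (Finset.expect_le_expect (g := S) fun ω _ => ?_).trans ?_⟩
  · have := φ3 ω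
    rw [div_le_iff₀ hl] at this
    exact (le_log_iff_exp_le (S0 ω)).1 (by linarith)
  · rw [Finset.expect_sum_comm]
    refine (sum_le_card_nsmul _ _ (exp (lam * t) * M1 + exp (-(lam * ((2 ^ k - 2) * t))) * M2)
      fun c _ => ?_).trans ?_
    · rw [Finset.expect_add_distrib, ← Finset.mul_expect, ← Finset.mul_expect]
      exact add_le_add (mul_le_mul_of_nonneg_left (H1 c c.2) (exp_pos _).le)
        (mul_le_mul_of_nonneg_left (H2 _ (σ1 c)) (exp_pos _).le)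
    · have m1 : 0 ≤ M1 := (Finset.expect_nonneg fun _ _ => (exp_pos _).le).trans (H1 0 V.zero_mem)
      have m2 : 0 ≤ M2 := (Finset.expect_nonneg fun _ _ => (exp_pos _).le).trans (H2 0 (by simp))
      rw [nsmul_eq_mul]
      exact mul_le_mul_of_nonneg_right (by exact_mod_cast cs) (by positivity)

/-- the union bound over a net, in weighted L1 -/
theorem netL1 {X Ω : Type} [Fintype X] [Fintype Ω] (μ : X → ℝ) (hμ : ∀ x, 0 ≤ μ x)
    (V : Submodule ℝ (X → ℝ)) (Z : Ω → X → ℝ) {lam t M1 M2 : ℝ} (hl : 0 < lam) (ht : 0 < t)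
    (k : ℕ) (hk : 1 ≤ k) (H1 : ∀ v ∈ V, 𝔼 ω, exp (-(lam * ∑ x, μ x * |Z ω x - v x|)) ≤ M1)
    (H2 : ∀ σ : X → ℝ, (∀ x, |σ x| ≤ 1) → 𝔼 ω, exp (lam * ip μ σ (Z ω)) ≤ M2) :
    ∃ ψ : Ω → X → ℝ, (∀ ω x, |ψ ω x| ≤ 1) ∧ (∀ ω, ∀ v ∈ V, ip μ (ψ ω) v = 0) ∧
      𝔼 ω, exp (-(lam * ip μ (ψ ω) (Z ω))) ≤
        5 ^ (k * finrank ℝ V) * (exp (lam * t) * M1 + exp (-(lam * ((2 ^ k - 2) * t))) * M2) := by
  classical
  let ι : (X → ℝ) →ₗ[ℝ] PiLp 1 (fun _ : X => ℝ) :=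
    (WithLp.linearEquiv 1 ℝ (X → ℝ)).symm.toLinearMap ∘ₗ LinearMap.mulLeft ℝ μ
  have n1 : ∀ v, ‖ι v‖ = ∑ x, μ x * |v x| := fun v => by
    rw [PiLp.norm_eq_of_L1]
    exact sum_congr rfl fun x _ => by simp [ι, abs_of_nonneg (hμ x)]
  let b : X → PiLp 1 (fun _ : X => ℝ) := fun x => PiLp.single 1 x 1
  have b1 : ∀ x, ‖b x‖ = 1 := fun x => by simp [b]
  have b2 : ∀ (φ : PiLp 1 (fun _ : X => ℝ) →ₗ[ℝ] ℝ) v, φ (ι v) = ip μ (fun x => φ (b x)) v := by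
    intro φ v
    have : ι v = ∑ x, (μ x * v x) • b x := by
      ext x
      simp [ι, b, Pi.single_apply]
    rw [this, map_sum]
    exact sum_congr rfl fun x _ => by rw [map_smul, smul_eq_mul]; ring
  obtain ⟨φ, φ1, φ2, φ3⟩ := net_bound (V.map ι) (fun ω => ι (Z ω)) (M1 := M1) (M2 := M2) hl ht k hk
    (by
      rintro _ ⟨v, hv, rfl⟩
      simpa only [← map_sub, n1, Pi.sub_apply] using H1 v hv)
    fun φ h => by simpa only [b2] using H2 _ fun x => (h (b x)).trans_eq (b1 x)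
  refine ⟨fun ω x => φ ω (b x), fun ω x => (φ1 ω _).trans_eq (b1 x), fun ω v hv => ?_, ?_⟩
  · rw [← b2]
    exact φ2 ω _ ⟨v, hv, rfl⟩
  · simp only [b2] at φ3
    have m1 : 0 ≤ M1 := (Finset.expect_nonneg fun _ _ => (exp_pos _).le).trans (H1 0 V.zero_mem)
    have m2 : 0 ≤ M2 := (Finset.expect_nonneg fun _ _ => (exp_pos _).le).trans (H2 0 (by simp))
    exact φ3.trans (mul_le_mul_of_nonneg_right (pow_le_pow_right₀ (by norm_num)
      (Nat.mul_le_mul_left k (Submodule.finrank_map_le ι V))) (by positivity))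

/-- Pythagoras for an orthonormal family -/
lemma pyth {r n : ℕ} {e : Fin r → Fin n → ℝ}
    (he : ∀ i j, ∑ p, e i p * e j p = if i = j then 1 else 0) (w : Fin n → ℝ) :
    (∀ i, ∑ p, (w p - ∑ j, (∑ q, w q * e j q) * e j p) * e i p = 0) ∧
      ∑ p, (w p - ∑ j, (∑ q, w q * e j q) * e j p) ^ 2 + ∑ j, (∑ q, w q * e j q) ^ 2 =
        ∑ p, w p ^ 2 := by
  set c : Fin r → ℝ := fun j => ∑ q, w q * e j q with hc
  have h1 : ∀ i, ∑ p, (w p - ∑ j, c j * e j p) * e i p = 0 := fun i => by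
    simp only [sub_mul, sum_sub_distrib, sum_mul, mul_assoc]
    rw [sum_comm]
    simp [← mul_sum, he, hc]
  refine ⟨h1, ?_⟩
  have h2 : ∑ p, (w p - ∑ j, c j * e j p) * ∑ j, c j * e j p = 0 := by
    simp only [mul_sum (s := (univ : Finset (Fin r))), mul_left_comm _ (c _)]
    rw [sum_comm]
    simp [← mul_sum, h1]
  have h3 : ∑ p, w p * ∑ j, c j * e j p = ∑ j, c j ^ 2 := by
    simp only [mul_sum (s := (univ : Finset (Fin r))), mul_left_comm _ (c _)]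
    rw [sum_comm]
    simp only [← mul_sum, sq, hc]
  rw [← h3, ← sub_eq_zero, ← sum_add_distrib, ← sum_sub_distrib, ← neg_zero, ← h2,
    ← sum_neg_distrib]
  exact sum_congr rfl fun p _ => by ring

/-- trimming: off a small orthonormal family the synthesis map has small norm -/
theorem trim {X : Type} [Fintype X] {n : ℕ} (μ : X → ℝ) (hμ : ∀ x, 0 ≤ μ x)
    (f : Fin n → X → ℝ) (K : ℝ) (hK : 0 < K) :
    ∃ (r : ℕ) (e : Fin r → Fin n → ℝ),
      (∀ i j, ∑ p, e i p * e j p = if i = j then 1 else 0) ∧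
      (r : ℝ) ≤ (∑ p, ∑ q, ip μ (f p) (f q) ^ 2) / K ^ 2 ∧
      ∀ u : Fin n → ℝ, (∀ i, ∑ p, u p * e i p = 0) →
        ∑ x, μ x * (∑ p, u p * f p x) ^ 2 ≤ K * ∑ p, u p ^ 2 := by
  classical
  let A : ℕ → Prop := fun r => ∃ e : Fin r → Fin n → ℝ,
    (∀ i j, ∑ p, e i p * e j p = if i = j then 1 else 0) ∧
      ∀ i, K ≤ ∑ x, μ x * (∑ p, e i p * f p x) ^ 2
  set b := ∑ p, ∑ q, ip μ (f p) (f q) ^ 2 with hb
  have hA : ∀ r, A r → (r : ℝ) ≤ b / K ^ 2 := by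
    rintro r ⟨e, h1, h2⟩
    have h3 : ∀ i, K ^ 2 ≤ ∑ p, (∑ q, ip μ (f p) (f q) * e i q) ^ 2 := fun i => by
      have h4 : ∑ x, μ x * (∑ p, e i p * f p x) ^ 2 =
          ∑ p, e i p * ∑ q, ip μ (f p) (f q) * e i q := by
        simp only [sq, ip, mul_sum, sum_mul]
        rw [sum_comm]
        refine sum_congr rfl fun p _ => ?_
        rw [sum_comm]
        exact sum_congr rfl fun _ _ => sum_congr rfl fun _ _ => by ring
      have h5 := sum_mul_sq_le_sq_mul_sq univ (e i) fun p => ∑ q, ip μ (f p) (f q) * e i q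
      have h6 : ∑ p, e i p ^ 2 = 1 := by simpa [sq] using h1 i i
      rw [h6, one_mul, ← h4] at h5
      exact (pow_le_pow_left₀ hK.le (h2 i) 2).trans h5
    rw [le_div_iff₀ (by positivity)]
    calc (r : ℝ) * K ^ 2 = ∑ _i : Fin r, K ^ 2 := by simp
      _ ≤ _ := sum_le_sum fun i _ => h3 i
      _ ≤ b := by
        rw [sum_comm]
        exact sum_le_sum fun p _ => (le_add_of_nonneg_left (sum_nonneg fun _ _ => sq_nonneg _)).trans
          (pyth h1 fun q => ip μ (f p) (f q)).2.le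
  have h0 := Nat.findGreatest_spec (P := A) (Nat.zero_le ⌊b / K ^ 2⌋₊) ⟨fun i => i.elim0, by simp⟩
  obtain ⟨e, h1, h2⟩ := id h0
  refine ⟨_, e, h1, hA _ h0, fun u hu => ?_⟩
  by_contra! h
  set s := ∑ p, u p ^ 2 with hs
  have s0 : 0 < s := by
    refine (sum_nonneg fun _ _ => sq_nonneg _).lt_of_ne' fun h0 => ?_
    have : ∀ p, u p = 0 := fun p => pow_eq_zero_iff two_ne_zero |>.1
      ((sum_eq_zero_iff_of_nonneg fun _ _ => sq_nonneg _).1 h0 p (mem_univ p))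
    simp [hs, this] at h
  have q0 : 0 < √s := sqrt_pos.2 s0
  have h3 : A (Nat.findGreatest A ⌊b / K ^ 2⌋₊ + 1) := by
    have e0 : ∀ i, ∑ p, u p / √s * e i p = 0 := fun i => by
      simp only [div_mul_eq_mul_div, ← sum_div, hu, zero_div]
    refine ⟨Fin.cons (fun p => u p / √s) e, ?_, ?_⟩
    · simp only [Fin.forall_fin_succ, Fin.cons_zero, Fin.cons_succ, Fin.succ_inj, if_true,
        if_neg (Fin.succ_ne_zero _), if_neg (Fin.succ_ne_zero _).symm]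
      refine ⟨⟨?_, e0⟩, fun i => ⟨by simpa only [mul_comm] using e0 i, h1 i⟩⟩
      simp only [← sq, div_pow, ← sum_div, sq_sqrt s0.le]
      exact div_self s0.ne'
    · simp only [Fin.forall_fin_succ, Fin.cons_zero, Fin.cons_succ]
      refine ⟨?_, h2⟩
      simp only [div_mul_eq_mul_div, ← sum_div, div_pow, sq_sqrt s0.le, ← mul_div_assoc]
      exact (le_div_iff₀ s0).2 h.le
  have := Nat.le_findGreatest (Nat.le_floor (hA _ h3)) h3
  omega

end Pool.Agent.P.MP_e00059_co.HD
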