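import Mathlib
import Pool.Agent.P.MP_e00059_co.Q0

/-! The cube lemma and the witness functions. -/

namespace Pool.Agent.P.MP_e00059_co.HD

open Finset Real
open scoped BigOperators

lemma half_exp (u : ℝ) : (1 + exp u) / 2 ≤ exp (u / 2 + u ^ 2 / 8) := by
  have h := Real.cosh_le_exp_half_sq (u / 2)
  rw [Real.cosh_eq] at h
  have e1 : exp u = exp (u / 2) * exp (u / 2) := by rw [← exp_add, add_halves]
  have e2 : exp (u / 2) * exp (-(u / 2)) = 1 := by rw [← exp_add, add_neg_cancel, exp_zero]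
  rw [exp_add, show u ^ 2 / 8 = (u / 2) ^ 2 / 2 by ring]
  nlinarith [mul_le_mul_of_nonneg_left h (exp_pos (u / 2)).le]

lemma two_pt {A B a b G : ℝ} (hab : b ≤ a) (hA : A ≤ exp (-a)) (hB : B ≤ exp (-b))
    (hB' : B ≤ exp (-a + 2 * G)) : (A + B) / 2 ≤ exp (-((a + b) / 2) + G ^ 2 / 2) := by
  have h1 : B ≤ exp (-a) * exp (min (a - b) (2 * G)) := by
    rw [← exp_add]
    rcases min_choice (a - b) (2 * G) with h | h <;> rw [h]
    · exact hB.trans (le_of_eq (by congr 1; ring))
    · exact hB'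
  set u := min (a - b) (2 * G)
  have h2 : u ≤ a - b := min_le_left _ _
  have h3 : u ≤ 2 * G := min_le_right _ _
  have h4 : (1 + exp u) / 2 ≤ exp ((a - b) / 2 + G ^ 2 / 2) := by
    rcases le_total u 0 with h | h
    · have := exp_le_one_iff.2 h
      have := one_le_exp (show 0 ≤ (a - b) / 2 + G ^ 2 / 2 by nlinarith [sq_nonneg G])
      linarith
    · exact (half_exp u).trans (exp_le_exp.2 (by nlinarith))
  have h5 := mul_le_mul_of_nonneg_left h4 (exp_pos (-a)).le
  rw [← exp_add, show -a + ((a - b) / 2 + G ^ 2 / 2) = -((a + b) / 2) + G ^ 2 / 2 by ring] at h5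
  linarith

lemma ex_cons {n : ℕ} (G : (Fin (n + 1) → Bool) → ℝ) :
    𝔼 a, G a = (𝔼 a : Fin n → Bool, G (Fin.cons true a) +
      𝔼 a : Fin n → Bool, G (Fin.cons false a)) / 2 := by
  rw [← Fintype.expect_equiv (Fin.consEquiv fun _ => Bool)
    (fun x => G (Fin.cons x.1 x.2)) G fun _ => rfl, ← Finset.univ_product_univ,
    Finset.expect_product, Fintype.expect_eq_sum_div_card]
  simp

/-- lower tail for functions with affine minorants on the cube -/
theorem cube {n : ℕ} (g h : (Fin n → Bool) → ℝ) (γ : (Fin n → Bool) → Fin n → ℝ)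
    (H : ∀ ε ε', h ε + ∑ p, γ ε p * (sb (ε' p) - sb (ε p)) ≤ g ε') :
    𝔼 ε, exp (-g ε) ≤ exp (-(𝔼 ε, h ε) + 𝔼 ε, ∑ p, γ ε p ^ 2) := by
  induction n with
  | zero =>
    simp only [univ_unique, expect_singleton, univ_eq_empty, sum_empty, add_zero] at H ⊢
    exact exp_le_exp.2 (neg_le_neg (H _ _))
  | succ n ih =>
    let a : Bool → ℝ := fun x => 𝔼 r : Fin n → Bool, h (Fin.cons x r) -
      𝔼 r : Fin n → Bool, ∑ p : Fin n, γ (Fin.cons x r) p.succ ^ 2
    let G : Bool → ℝ := fun x => 𝔼 r : Fin n → Bool, γ (Fin.cons x r) 0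
    have key : ∀ x y, 𝔼 r : Fin n → Bool, exp (-g (Fin.cons y r)) ≤
        exp (-a x + G x * (sb x - sb y)) := by
      intro x y
      refine (ih (fun r => g (Fin.cons y r))
        (fun r => h (Fin.cons x r) + γ (Fin.cons x r) 0 * (sb y - sb x))
        (fun r p => γ (Fin.cons x r) p.succ) fun r r' => ?_).trans (le_of_eq ?_)
      · have := H (Fin.cons x r) (Fin.cons y r')
        simp only [Fin.sum_univ_succ, Fin.cons_zero, Fin.cons_succ] at this
        linarith
      · rw [Finset.expect_add_distrib, ← Finset.expect_mul]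
        congr 1
        simp only [a, G]
        ring
    have hG : ∀ x, G x ^ 2 ≤ 𝔼 r : Fin n → Bool, γ (Fin.cons x r) 0 ^ 2 := fun x => by
      simpa using Finset.expect_mul_sq_le_sq_mul_sq univ
        (fun r : Fin n → Bool => γ (Fin.cons x r) 0) fun _ => (1 : ℝ)
    have k1 := key true true
    have k2 := key false false
    have k3 := key true false
    have k4 := key false true
    rw [sub_self, mul_zero, add_zero] at k1 k2
    rw [show G true * (sb true - sb false) = 2 * G true by simp [sb]; ring] at k3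
    rw [show G false * (sb false - sb true) = 2 * -G false by simp [sb]; ring] at k4
    rw [ex_cons, ex_cons h, ex_cons fun e => ∑ p, γ e p ^ 2]
    simp only [Fin.sum_univ_succ, Finset.expect_add_distrib]
    have g1 := hG true
    have g2 := hG false
    rcases le_total (a false) (a true) with hab | hab
    · refine (two_pt hab k1 k2 k3).trans (exp_le_exp.2 ?_)
      simp only [a]
      nlinarith [sq_nonneg (G false)]
    · rw [add_comm]
      refine (two_pt hab k2 k1 k4).trans (exp_le_exp.2 ?_)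
      simp only [a]
      nlinarith [sq_nonneg (G true)]

section

variable {P : Type} [Fintype P] [DecidableEq P]

lemma ex_pi {K : Type} [Field K] [CharZero K] (g : P → Bool → K) :
    𝔼 e : P → Bool, ∏ p, g p (e p) = ∏ p, (g p true + g p false) / 2 := by
  rw [Fintype.expect_eq_sum_div_card, ← Fintype.prod_sum, Finset.prod_div_distrib]
  simp

lemma ex_sq (c : P → ℝ) : 𝔼 e : P → Bool, (∑ p, sb (e p) * c p) ^ 2 = ∑ p, c p ^ 2 := by
  have h : ∀ p q, 𝔼 e : P → Bool, sb (e p) * sb (e q) = if p = q then 1 else 0 := by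
    intro p q
    split_ifs with h
    · subst h
      have : ∀ e : P → Bool, sb (e p) * sb (e p) = 1 := fun e => by cases e p <;> simp [sb]
      simp [this]
    · have := ex_pi fun r b => (if r = p then sb b else 1) * if r = q then sb b else 1
      simp only [prod_mul_distrib, prod_ite_eq', mem_univ, if_true] at this
      rw [this]
      exact prod_eq_zero (mem_univ p) (by simp [sb, h])
  have e : ∀ e : P → Bool, (∑ p, sb (e p) * c p) ^ 2 =
      ∑ p, ∑ q, c p * c q * (sb (e p) * sb (e q)) := fun e => by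
    rw [sq, sum_mul_sum]
    exact sum_congr rfl fun p _ => sum_congr rfl fun q _ => by ring
  simp only [e, Finset.expect_sum_comm, ← Finset.mul_expect, h]
  simp [sq]

omit [Fintype P] in
lemma prod_est (a : P → ℝ) (s : Finset P) : |∏ p ∈ s, (1 + a p) - 1| ≤ exp (∑ p ∈ s, |a p|) - 1 ∧
    |∏ p ∈ s, (1 + a p) - 1 - ∑ p ∈ s, a p| ≤ exp (∑ p ∈ s, |a p|) - 1 - ∑ p ∈ s, |a p| := by
  induction s using Finset.induction_on with
  | empty => simp
  | insert q s hq ih =>
    obtain ⟨h1, h2⟩ := ih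
    rw [prod_insert hq, sum_insert hq, sum_insert hq, exp_add]
    set Q := ∏ p ∈ s, (1 + a p)
    set σ := ∑ p ∈ s, |a p|
    have h3 : |a q * (Q - 1)| ≤ |a q| * (exp σ - 1) := by
      rw [abs_mul]
      exact mul_le_mul_of_nonneg_left h1 (abs_nonneg _)
    have h4 := mul_le_mul_of_nonneg_right (add_one_le_exp |a q|) (exp_pos σ).le
    have h5 := abs_le.1 h1
    have h6 := abs_le.1 h2
    have h7 := abs_le.1 h3
    have h8 := le_abs_self (a q)
    have h9 := neg_abs_le (a q)
    constructor <;> rw [abs_le] <;> constructor <;> nlinarith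

lemma odd_est (a : P → ℝ) (h : ∑ p, |a p| ≤ 1) :
    |(∏ p, (1 + a p) - ∏ p, (1 - a p)) / 2 - ∑ p, a p| ≤ (∑ p, |a p|) ^ 2 := by
  have h0 : 0 ≤ ∑ p, |a p| := sum_nonneg fun _ _ => abs_nonneg _
  have h1 := abs_le.1 (prod_est a univ).2
  have h2 := abs_le.1 (prod_est (fun p => -a p) univ).2
  have h3 := (abs_le.1 (Real.abs_exp_sub_one_sub_id_le (x := ∑ p, |a p|)
    (by rwa [abs_of_nonneg h0]))).2
  simp only [abs_neg, sum_neg_distrib, ← sub_eq_add_neg] at h2
  rw [abs_le]
  constructor <;> linarith [h1.1, h1.2, h2.1, h2.2]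

lemma ex_im {Ω : Type} [Fintype Ω] (F : Ω → ℂ) : 𝔼 e, (F e).im = (𝔼 e, F e).im := by
  simp [Fintype.expect_eq_sum_div_card, Complex.div_natCast_im]

lemma ex_re {Ω : Type} [Fintype Ω] (F : Ω → ℂ) : 𝔼 e, (F e).re = (𝔼 e, F e).re := by
  simp [Fintype.expect_eq_sum_div_card, Complex.div_natCast_re]

theorem witness0 {X : Type} (z : P → X → ℝ) (hz : ∀ x, ∑ p, z p x ^ 2 ≤ 1) :
    ∃ W : (P → Bool) → X → ℝ, (∀ e x, |W e x| ≤ 1) ∧ (∀ x, 𝔼 e, W e x = 0) ∧
      (∀ q x, 𝔼 e, sb (e q) * W e x = z q x / 2) ∧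
      ∀ x x', |𝔼 e, W e x * W e x' - (∑ p, z p x * z p x') / 4| ≤
        (∑ p, |z p x| * |z p x'|) ^ 2 / 4 := by
  let c : P → X → Bool → ℂ := fun p x b => 1 + (sb b * z p x : ℝ) * Complex.I
  have c1 : ∀ p x, (c p x true + c p x false) / 2 = 1 := fun p x => by
    simp only [c, sb]
    push_cast
    ring
  refine ⟨fun e x => (∏ p, c p x (e p)).im / 2, fun e x => ?_, fun x => ?_, fun q x => ?_,
    fun x x' => ?_⟩
  · have h1 : ‖∏ p, c p x (e p)‖ ≤ exp (1 / 2) := by
      rw [norm_prod]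
      refine (prod_le_prod (g := fun p => exp (z p x ^ 2 / 2)) (fun _ _ => norm_nonneg _)
        fun p _ => ?_).trans ?_
      · refine abs_le_of_sq_le_sq' ?_ (exp_pos _).le |>.2
        rw [Complex.sq_norm, ← exp_nat_mul]
        refine le_trans (le_of_eq ?_) (add_one_le_exp _)
        cases e p <;> simp [c, sb, Complex.normSq_apply] <;> ring
      · rw [← exp_sum, ← sum_div]
        exact exp_le_exp.2 (by linarith [hz x])
    have h2 : exp (1 / 2) ≤ 2 := by
      refine abs_le_of_sq_le_sq' ?_ zero_le_two |>.2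
      rw [← exp_nat_mul]
      norm_num
      linarith [exp_one_lt_d9]
    rw [abs_div, abs_two, div_le_one two_pos]
    exact (Complex.abs_im_le_norm _).trans (h1.trans h2)
  · rw [← Finset.expect_div, ex_im, ex_pi fun p b => c p x b]
    simp [c1]
  · have e1 : ∀ e : P → Bool, sb (e q) * ((∏ p, c p x (e p)).im / 2) =
        (∏ p, (if p = q then (sb (e p) : ℂ) else 1) * c p x (e p)).im / 2 := fun e => by
      rw [prod_mul_distrib]
      simp [mul_div_assoc]
    simp only [e1]
    rw [← Finset.expect_div, ex_im, ex_pi fun p b => (if p = q then (sb b : ℂ) else 1) * c p x b,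
      Finset.prod_eq_single q (fun p _ h => by simp [c1, h]) (by simp)]
    simp [c, sb]
  · have e1 : ∀ e : P → Bool, (∏ p, c p x (e p)).im / 2 * ((∏ p, c p x' (e p)).im / 2) =
        ((∏ p, c p x (e p) * (starRingEnd ℂ) (c p x' (e p))).re -
          (∏ p, c p x (e p) * c p x' (e p)).re) / 8 := fun e => by
      rw [prod_mul_distrib, prod_mul_distrib, ← map_prod]
      simp only [Complex.mul_re, Complex.conj_re, Complex.conj_im]
      ring
    have e2 : ∀ p, (c p x true * (starRingEnd ℂ) (c p x' true) +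
        c p x false * (starRingEnd ℂ) (c p x' false)) / 2 = ((1 + z p x * z p x' : ℝ) : ℂ) := by
      intro p
      simp only [c, sb, map_add, map_one, map_mul, Complex.conj_ofReal, Complex.conj_I]
      push_cast
      linear_combination (-(z p x : ℂ) * z p x') * Complex.I_mul_I
    have e3 : ∀ p, (c p x true * c p x' true + c p x false * c p x' false) / 2 =
        ((1 - z p x * z p x' : ℝ) : ℂ) := by
      intro p
      simp only [c, sb]
      push_cast
      linear_combination ((z p x : ℂ) * z p x') * Complex.I_mul_I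
    simp only [e1]
    rw [← Finset.expect_div, Finset.expect_sub_distrib, ex_re, ex_re,
      ex_pi fun p b => c p x b * (starRingEnd ℂ) (c p x' b), ex_pi fun p b => c p x b * c p x' b]
    simp only [e2, e3, ← Complex.ofReal_prod, Complex.ofReal_re, ← abs_mul]
    have h1 : ∑ p, |z p x * z p x'| ≤ 1 := by
      have : ∑ p, |z p x * z p x'| ≤ ∑ p, (z p x ^ 2 + z p x' ^ 2) / 2 := sum_le_sum fun p _ =>
        abs_le.2 ⟨by nlinarith [sq_nonneg (z p x + z p x')], by
          nlinarith [sq_nonneg (z p x - z p x')]⟩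
      rw [← sum_div, sum_add_distrib] at this
      linarith [hz x, hz x']
    have h2 := abs_le.1 (odd_est _ h1)
    rw [abs_le]
    constructor <;> linarith [h2.1, h2.2]

end

/-- the witness: half the imaginary part of a Riesz product -/
theorem witness {X : Type} [Fintype X] {n : ℕ} (μ : X → ℝ) (hμ : ∀ x, 0 ≤ μ x)
    (f y : Fin n → X → ℝ) (g : Fin n → ℝ) (hg : ∀ p, |g p| ≤ 1) (s2 θ : ℝ)
    (hy : ∀ x, ∑ p, y p x ^ 2 ≤ s2) (hθ : θ ^ 2 * s2 ≤ 1) :
    ∃ W : (Fin n → Bool) → X → ℝ, (∀ ε x, |W ε x| ≤ 1) ∧ (∀ x, 𝔼 ε, W ε x = 0) ∧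
      (∀ p x, 𝔼 ε, sb (ε p) * W ε x = θ * g p * y p x / 2) ∧
      𝔼 ε, ∑ q, ip μ (W ε) (f q) ^ 2 ≤ θ ^ 2 * (∑ p, ∑ q, ip μ (y p) (f q) ^ 2) / 4 +
        θ ^ 4 * s2 * (∑ p, ∑ q, ip μ (fun x => |y p x|) (fun x => |f q x|) ^ 2) / 4 := by
  have g2 : ∀ p, g p ^ 2 ≤ 1 := fun p => (sq_le_one_iff_abs_le_one _).2 (hg p)
  obtain ⟨W, h1, h2, h3, h4⟩ := witness0 (fun p x => θ * g p * y p x) fun x => by
    refine le_trans ?_ ((mul_le_mul_of_nonneg_left (hy x) (sq_nonneg θ)).trans hθ)
    rw [mul_sum]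
    refine sum_le_sum fun p _ => ?_
    nlinarith [mul_le_mul_of_nonneg_right (g2 p) (sq_nonneg (θ * y p x))]
  refine ⟨W, h1, h2, h3, ?_⟩
  have sq2 : ∀ a b : X → ℝ, ip μ a b ^ 2 =
      ∑ x, ∑ x', μ x * b x * (μ x' * b x') * (a x * a x') := fun a b => by
    rw [ip, sq, sum_mul_sum]
    exact sum_congr rfl fun _ _ => sum_congr rfl fun _ _ => by ring
  have h5 : ∀ x x', (∑ p, |θ * g p * y p x| * |θ * g p * y p x'|) ^ 2 ≤
      θ ^ 4 * s2 * ∑ p, |y p x| * |y p x'| := by
    intro x x'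
    have a0 : 0 ≤ ∑ p, |θ * g p * y p x| * |θ * g p * y p x'| :=
      sum_nonneg fun _ _ => by positivity
    have a1 : ∑ p, |θ * g p * y p x| * |θ * g p * y p x'| ≤ θ ^ 2 * ∑ p, |y p x| * |y p x'| := by
      rw [mul_sum]
      refine sum_le_sum fun p _ => ?_
      rw [show |θ * g p * y p x| * |θ * g p * y p x'| =
        |g p| ^ 2 * (|θ| ^ 2 * (|y p x| * |y p x'|)) by simp only [abs_mul]; ring, sq_abs, sq_abs]
      exact mul_le_of_le_one_left (by positivity) (g2 p)
    have a2 : ∑ p, |y p x| * |y p x'| ≤ s2 := by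
      have : ∑ p, |y p x| * |y p x'| ≤ ∑ p, (y p x ^ 2 + y p x' ^ 2) / 2 := sum_le_sum fun p _ => by
        nlinarith [sq_nonneg (|y p x| - |y p x'|), sq_abs (y p x), sq_abs (y p x')]
      rw [← sum_div, sum_add_distrib] at this
      linarith [hy x, hy x']
    have a3 : 0 ≤ ∑ p, |y p x| * |y p x'| := sum_nonneg fun _ _ => by positivity
    refine (pow_le_pow_left₀ a0 a1 2).trans ?_
    nlinarith [mul_le_mul_of_nonneg_right a2 (show 0 ≤ θ ^ 4 * ∑ p, |y p x| * |y p x'| by positivity)]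
  rw [Finset.expect_sum_comm, sum_comm, sum_comm (f := fun p q => ip μ _ (fun x => |f q x|) ^ 2),
    mul_sum, mul_sum, sum_div, sum_div, ← sum_add_distrib]
  refine sum_le_sum fun q _ => ?_
  have e1 : ∑ x, ∑ x', μ x * f q x * (μ x' * f q x') *
      ((∑ p, θ * g p * y p x * (θ * g p * y p x')) / 4) ≤
      θ ^ 2 * (∑ p, ip μ (y p) (f q) ^ 2) / 4 := by
    have : ∑ p, g p ^ 2 * ip μ (y p) (f q) ^ 2 ≤ ∑ p, ip μ (y p) (f q) ^ 2 :=
      sum_le_sum fun p _ => mul_le_of_le_one_left (sq_nonneg _) (g2 p)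
    refine le_trans (le_of_eq ?_) (div_le_div_of_nonneg_right
      (mul_le_mul_of_nonneg_left this (sq_nonneg θ)) (by norm_num))
    simp only [sq2, mul_sum, sum_div]
    rw [sum_comm (s := (univ : Finset (Fin n)))]
    refine sum_congr rfl fun x _ => ?_
    rw [sum_comm (s := (univ : Finset (Fin n)))]
    exact sum_congr rfl fun _ _ => sum_congr rfl fun _ _ => by ring
  have e2 : ∑ x, ∑ x', μ x * |f q x| * (μ x' * |f q x'|) *
      (θ ^ 4 * s2 * (∑ p, |y p x| * |y p x'|) / 4) =
      θ ^ 4 * s2 * (∑ p, ip μ (fun x => |y p x|) (fun x => |f q x|) ^ 2) / 4 := by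
    simp only [sq2, mul_sum, sum_div]
    rw [sum_comm (s := (univ : Finset (Fin n)))]
    refine sum_congr rfl fun x _ => ?_
    rw [sum_comm (s := (univ : Finset (Fin n)))]
    exact sum_congr rfl fun _ _ => sum_congr rfl fun _ _ => by ring
  refine le_trans ?_ (add_le_add e1 e2.le)
  simp only [sq2 (W _), Finset.expect_sum_comm, ← Finset.mul_expect, ← sum_add_distrib]
  refine sum_le_sum fun x _ => sum_le_sum fun x' _ => ?_
  have b1 := (h4 x x').trans (div_le_div_of_nonneg_right (h5 x x') (by norm_num))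
  have b2 : |μ x * f q x * (μ x' * f q x')| = μ x * |f q x| * (μ x' * |f q x'|) := by
    simp only [abs_mul, abs_of_nonneg (hμ _)]
  rw [← sub_le_iff_le_add', ← mul_sub, ← b2]
  exact (le_abs_self _).trans ((abs_mul _ _).trans_le (mul_le_mul_of_nonneg_left b1 (abs_nonneg _)))

end Pool.Agent.P.MP_e00059_co.HD
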