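import Mathlib
import Pool.Agent.P.MP_e00059_co.QT
import Pool.Agent.P.MP_e00059_co.QN

/-! The abstract one-step theorem. -/

namespace Pool.Agent.P.MP_e00059_co.HD

open Finset Real
open scoped BigOperators

/-- the projection off an orthonormal family -/
def prj {r n : ℕ} (e : Fin r → Fin n → ℝ) (w : Fin n → ℝ) (p : Fin n) : ℝ :=
  w p - ∑ j, (∑ q, w q * e j q) * e j p

lemma prj_dot {r n : ℕ} (e : Fin r → Fin n → ℝ) (u w : Fin n → ℝ) : ∑ p, prj e u p * w p =
    ∑ p, u p * w p - ∑ j, (∑ q, u q * e j q) * ∑ q, w q * e j q := by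
  simp only [prj, sub_mul, sum_sub_distrib, sum_mul (s := (univ : Finset (Fin r)))]
  rw [sum_comm]
  congr 1
  refine sum_congr rfl fun j _ => ?_
  rw [mul_sum]
  exact sum_congr rfl fun _ _ => by ring

lemma prj_symm {r n : ℕ} (e : Fin r → Fin n → ℝ) (u w : Fin n → ℝ) :
    ∑ p, prj e u p * w p = ∑ p, prj e w p * u p := by
  rw [prj_dot, prj_dot]
  simp only [mul_comm]

lemma ip_syn {X : Type} [Fintype X] {n : ℕ} (μ σ : X → ℝ) (f : Fin n → X → ℝ) (u : Fin n → ℝ) :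
    ip μ σ (fun x => ∑ p, u p * f p x) = ∑ p, u p * ip μ σ (f p) := by
  simp only [ip, mul_sum]
  rw [sum_comm]
  exact sum_congr rfl fun _ _ => sum_congr rfl fun _ _ => by ring

lemma ip_le {X : Type} [Fintype X] {μ σ : X → ℝ} (hμ : ∀ x, 0 ≤ μ x) (h : ∀ x, |σ x| ≤ 1)
    (F v : X → ℝ) : ip μ σ F - ip μ σ v ≤ ∑ x, μ x * |F x - v x| := by
  rw [ip, ip, ← sum_sub_distrib]
  refine sum_le_sum fun x _ => ?_
  rw [← mul_sub, ← mul_sub]
  exact mul_le_mul_of_nonneg_left ((le_abs_self _).trans ((abs_mul _ _).trans_le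
    (mul_le_of_le_one_left (abs_nonneg _) (h x)))) (hμ x)

lemma prj_bound {X : Type} [Fintype X] {r n : ℕ} {μ : X → ℝ} (hμ : ∀ x, 0 ≤ μ x)
    (hμ1 : ∑ x, μ x ≤ 1) {f : Fin n → X → ℝ} {K : ℝ} (hK : 0 < K) {e : Fin r → Fin n → ℝ}
    (he : ∀ i j, ∑ p, e i p * e j p = if i = j then 1 else 0)
    (h : ∀ u : Fin n → ℝ, (∀ i, ∑ p, u p * e i p = 0) →
      ∑ x, μ x * (∑ p, u p * f p x) ^ 2 ≤ K * ∑ p, u p ^ 2) {σ : X → ℝ} (hσ : ∀ x, |σ x| ≤ 1) :
    ∑ p, prj e (fun q => ip μ σ (f q)) p ^ 2 ≤ K := by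
  set u := prj e fun q => ip μ σ (f q) with hu
  have h1 : ∀ i, ∑ p, u p * e i p = 0 := (pyth he _).1
  have h2 : ∑ p, u p ^ 2 = ip μ σ fun x => ∑ p, u p * f p x := by
    rw [ip_syn]
    simp only [sq]
    nth_rewrite 1 [hu]
    simp only [prj_dot, h1, mul_zero, sum_const_zero, sub_zero]
    simp only [mul_comm]
  have h3 : ip μ σ (fun x => ∑ p, u p * f p x) ≤
      ∑ x, (K * μ x + μ x * (∑ p, u p * f p x) ^ 2 / K) / 2 := sum_le_sum fun x _ => by
    have h4 := (sq_le_one_iff_abs_le_one _).2 (hσ x)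
    set F := ∑ p, u p * f p x
    have h5 : σ x * F ≤ (K + F ^ 2 / K) / 2 := by
      rw [le_div_iff₀ two_pos, ← sub_le_iff_le_add', le_div_iff₀ hK]
      nlinarith [sq_nonneg (F - K * σ x), mul_le_mul_of_nonneg_left h4 (sq_nonneg K)]
    exact (mul_le_mul_of_nonneg_left h5 (hμ x)).trans_eq (by ring)
  rw [← sum_div, sum_add_distrib, ← mul_sum, ← sum_div, ← h2] at h3
  have h6 := (div_le_iff₀' hK).2 (h u h1)
  nlinarith

theorem step {X : Type} [Fintype X] {n : ℕ} (μ : X → ℝ) (hμ : ∀ x, 0 ≤ μ x)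
    (hμ1 : ∑ x, μ x ≤ 1) (f y : Fin n → X → ℝ) (g : Fin n → ℝ) (hg : ∀ p, |g p| ≤ 1)
    (s2 θ lam K : ℝ) (k : ℕ) (hk : 3 ≤ k) (hs2 : 0 ≤ s2) (hy : ∀ x, ∑ p, y p x ^ 2 ≤ s2)
    (hθ : θ ^ 2 * s2 ≤ 1) (hlam : 0 < lam) (hK : 0 < K) (V : Finset (X → ℝ)) :
    ∃ ψ : (Fin n → Bool) → X → ℝ, (∀ ε x, |ψ ε x| ≤ 1) ∧ (∀ ε, ∀ v ∈ V, ip μ (ψ ε) v = 0) ∧
      (∀ ε, ∑ p, ip μ (ψ ε) (f p) ^ 2 ≤ K) ∧
      𝔼 ε : Fin n → Bool, exp (-(lam * ∑ p, g p * sb (ε p) * ip μ (ψ ε) (f p))) ≤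
        exp (-(lam * θ * (∑ p, g p ^ 2 * ip μ (y p) (f p)) / 8
          - lam ^ 2 * θ ^ 2 * (∑ p, ∑ q, ip μ (y p) (f q) ^ 2) / 2
          - lam ^ 2 * θ ^ 4 * s2 *
              (∑ p, ∑ q, ip μ (fun x => |y p x|) (fun x => |f q x|) ^ 2) / 2
          - (2 * k + 1) * (V.card + (∑ p, ∑ q, ip μ (f p) (f q) ^ 2) / K ^ 2)
          - lam ^ 2 * K / 2 ^ k - 2)) := by
  classical
  obtain ⟨r, e, he, hr, hT⟩ := trim μ hμ f K hK
  obtain ⟨W, w1, w2, w3, w4⟩ := witness μ hμ f y g hg s2 θ hy hθ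
  set a := ∑ p, g p ^ 2 * ip μ (y p) (f p) with ha
  set b1 := ∑ p, ∑ q, ip μ (y p) (f q) ^ 2
  set b2 := ∑ p, ∑ q, ip μ (fun x => |y p x|) (fun x => |f q x|) ^ 2
  set b3 := ∑ p, ∑ q, ip μ (f p) (f q) ^ 2
  have p1 : 0 ≤ lam ^ 2 * θ ^ 2 * b1 := by positivity
  have p2 : 0 ≤ lam ^ 2 * θ ^ 4 * s2 * b2 := by positivity
  have p3 : 0 ≤ lam ^ 2 * K / 2 ^ k := by positivity
  have r0 : (0 : ℝ) ≤ r := r.cast_nonneg
  have d0 : (0 : ℝ) ≤ V.card := Nat.cast_nonneg _
  have k0 : (0 : ℝ) ≤ k := k.cast_nonneg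
  have k1 : (0 : ℝ) ≤ 2 * k + 1 := by positivity
  have R8 : (8 : ℝ) ≤ 2 ^ k := le_trans (by norm_num) (pow_le_pow_right₀ one_le_two hk)
  have g2 : ∀ p, g p ^ 2 ≤ 1 := fun p => (sq_le_one_iff_abs_le_one _).2 (hg p)
  set t := θ * a / 8 with ht
  rw [show lam * θ * a / 8 = lam * t by rw [ht]; ring]
  rcases le_total ((2 ^ k - 3) * t) (lam * K / 2) with hc | hc
  · refine ⟨fun _ _ => 0, by simp, by simp [ip], by simp [ip, hK.le], ?_⟩
    have h1 : lam * t ≤ lam ^ 2 * K / 2 ^ k := by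
      rw [le_div_iff₀ (by positivity), sq, mul_assoc, mul_assoc]
      refine mul_le_mul_of_nonneg_left ?_ hlam.le
      rcases le_total t 0 with h | h <;> nlinarith [mul_pos hlam hK]
    simp only [ip, zero_mul, mul_zero, sum_const_zero, neg_zero, exp_zero, Fintype.expect_const]
    exact one_le_exp (by linarith [mul_nonneg k1 (add_nonneg d0 (r0.trans hr))])
  have t0 : 0 < t := by
    by_contra! h
    nlinarith [mul_pos hlam hK]
  let Z : (Fin n → Bool) → X → ℝ := fun ε x => ∑ p, prj e (fun q => g q * sb (ε q)) p * f p x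
  have hZ : ∀ σ ε, ip μ σ (Z ε) = ∑ p, prj e (fun q => ip μ σ (f q)) p * (g p * sb (ε p)) :=
    fun σ ε => by rw [ip_syn, prj_symm]
  let U : Finset (X → ℝ) := V ∪ univ.image fun i x => ∑ p, e i p * f p x
  obtain ⟨ψ, ψ1, ψ2, ψ3⟩ := netL1 μ hμ (Submodule.span ℝ (U : Set (X → ℝ))) Z
    (M1 := exp (-(lam * (4 * t)) + (lam ^ 2 * θ ^ 2 * b1 / 4 + lam ^ 2 * θ ^ 4 * s2 * b2 / 4) + r / 4))
    (M2 := exp (lam ^ 2 * K / 2)) hlam t0 k (by omega) (fun v _ => by
      refine (cube _ (fun ε => lam * (ip μ (W ε) (Z ε) - ip μ (W ε) v))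
        (fun ε p => lam * g p * prj e (fun q => ip μ (W ε) (f q)) p) fun ε ε' => ?_).trans
        (exp_le_exp.2 ?_)
      · refine le_trans (le_of_eq ?_) (mul_le_mul_of_nonneg_left (ip_le hμ (w1 ε) _ _) hlam.le)
        rw [hZ, hZ, mul_sub, mul_sub, sub_add_eq_add_sub, mul_sum, mul_sum, ← sum_add_distrib]
        congr 1
        exact sum_congr rfl fun _ _ => by ring
      · have e1 : 𝔼 ε, ip μ (W ε) v = 0 := by
          simp only [ip, Finset.expect_sum_comm, ← Finset.mul_expect, ← Finset.expect_mul, w2]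
          simp
        have e2 : 𝔼 ε, ∑ p, ip μ (W ε) (f p) * (g p * sb (ε p)) = 4 * t := by
          have : ∀ ε p, ip μ (W ε) (f p) * (g p * sb (ε p)) =
              ∑ x, g p * μ x * f p x * (sb (ε p) * W ε x) := fun ε p => by
            rw [ip, sum_mul]
            exact sum_congr rfl fun _ _ => by ring
          simp only [this, Finset.expect_sum_comm, ← Finset.mul_expect, w3]
          simp only [ht, ha, ip, mul_sum, sum_div]
          exact sum_congr rfl fun _ _ => sum_congr rfl fun _ _ => by ring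
        have e3 : 𝔼 ε : Fin n → Bool, ∑ j, (∑ q, g q * sb (ε q) * e j q) ^ 2 ≤ r := by
          rw [Finset.expect_sum_comm]
          refine (sum_le_card_nsmul _ _ 1 fun j _ => ?_).trans (by simp)
          simp only [mul_comm _ (sb _), mul_assoc]
          rw [ex_sq fun q => g q * e j q]
          refine (sum_le_sum fun q _ => ?_).trans_eq ((he j j).trans (if_pos rfl))
          nlinarith [mul_le_mul_of_nonneg_right (g2 q) (sq_nonneg (e j q))]
        have e4 : ∀ ε, -(lam * (ip μ (W ε) (Z ε) - ip μ (W ε) v)) +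
            ∑ p, (lam * g p * prj e (fun q => ip μ (W ε) (f q)) p) ^ 2 ≤
            -lam * ∑ p, ip μ (W ε) (f p) * (g p * sb (ε p)) + (lam * ip μ (W ε) v +
              (lam ^ 2 * ∑ p, ip μ (W ε) (f p) ^ 2 +
                1 / 4 * ∑ j, (∑ q, g q * sb (ε q) * e j q) ^ 2)) := fun ε => by
          have a1 : ∑ p, (lam * g p * prj e (fun q => ip μ (W ε) (f q)) p) ^ 2 ≤
              lam ^ 2 * ∑ p, prj e (fun q => ip μ (W ε) (f q)) p ^ 2 := by
            rw [mul_sum]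
            exact sum_le_sum fun p _ => by
              nlinarith [mul_le_mul_of_nonneg_right (g2 p)
                (sq_nonneg (lam * prj e (fun q => ip μ (W ε) (f q)) p))]
          have a2 : lam * ∑ j, (∑ q, ip μ (W ε) (f q) * e j q) * ∑ q, g q * sb (ε q) * e j q ≤
              lam ^ 2 * ∑ j, (∑ q, ip μ (W ε) (f q) * e j q) ^ 2 +
                1 / 4 * ∑ j, (∑ q, g q * sb (ε q) * e j q) ^ 2 := by
            rw [mul_sum, mul_sum, mul_sum, ← sum_add_distrib]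
            exact sum_le_sum fun j _ => by
              nlinarith [sq_nonneg (lam * ∑ q, ip μ (W ε) (f q) * e j q -
                (∑ q, g q * sb (ε q) * e j q) / 2)]
          have a3 := (pyth he fun q => ip μ (W ε) (f q)).2
          rw [hZ, prj_dot, ← a3]
          simp only [prj] at a1 ⊢
          linarith
        rw [← Finset.expect_neg_distrib, ← Finset.expect_add_distrib]
        refine (Finset.expect_le_expect fun ε _ => e4 ε).trans ?_
        simp only [Finset.expect_add_distrib, ← Finset.mul_expect, e1, e2]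
        nlinarith [mul_le_mul_of_nonneg_left w4 (sq_nonneg lam)])
    fun σ hσ => by
      have := hoeff fun p => lam * g p * prj e (fun q => ip μ σ (f q)) p
      refine le_trans (le_of_eq ?_) (this.trans (exp_le_exp.2 ?_))
      · simp only [hZ, mul_sum, mul_assoc, mul_left_comm _ (g _)]
      · refine div_le_div_of_nonneg_right (le_trans ?_ (mul_le_mul_of_nonneg_left
          (prj_bound hμ hμ1 hK he hT hσ) (sq_nonneg lam))) zero_le_two
        rw [mul_sum]
        exact sum_le_sum fun p _ => by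
          nlinarith [mul_le_mul_of_nonneg_right (g2 p)
            (sq_nonneg (lam * prj e (fun q => ip μ σ (f q)) p))]
  have hp : ∀ ε p, prj e (fun q => ip μ (ψ ε) (f q)) p = ip μ (ψ ε) (f p) := fun ε p => by
    have : ∀ j, ∑ q, ip μ (ψ ε) (f q) * e j q = 0 := fun j => by
      simpa only [mul_comm] using (ip_syn μ _ f (e j)).symm.trans (ψ2 ε _ (Submodule.subset_span
        (mem_coe.2 (mem_union_right _ (mem_image_of_mem _ (mem_univ j))))))
    simp [prj, this]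
  refine ⟨ψ, ψ1, fun ε v hv => ψ2 ε v (Submodule.subset_span (mem_coe.2 (mem_union_left _ hv))),
    fun ε => by simpa only [hp] using prj_bound hμ hμ1 hK he hT (ψ1 ε), ?_⟩
  simp only [hZ, hp, mul_comm (ip μ _ _)] at ψ3
  refine ψ3.trans ?_
  have hd : (Module.finrank ℝ (Submodule.span ℝ (U : Set (X → ℝ))) : ℝ) ≤ V.card + r := by
    exact_mod_cast (finrank_span_finset_le_card U).trans ((card_union_le _ _).trans
      (Nat.add_le_add_left (card_image_le.trans (by simp)) _))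
  set d := Module.finrank ℝ (Submodule.span ℝ (U : Set (X → ℝ)))
  have h5 : (5 : ℝ) ^ (k * d) ≤ exp (2 * k * (V.card + r)) := by
    refine (pow_le_pow_left₀ (by norm_num) (show (5 : ℝ) ≤ exp 2 from ?_) _).trans ?_
    · linarith [quadratic_le_exp_of_nonneg (show (0 : ℝ) ≤ 2 by norm_num)]
    · rw [← exp_nat_mul, exp_le_exp]
      push_cast
      nlinarith [mul_le_mul_of_nonneg_left hd k0]
  set L := -(lam * t) + (lam ^ 2 * θ ^ 2 * b1 / 2 + lam ^ 2 * θ ^ 4 * s2 * b2 / 2) + r with hL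
  have h6 : (2 : ℝ) * exp L ≤ exp (L + 2) := by
    rw [exp_add L]
    nlinarith [add_one_le_exp (2 : ℝ), exp_pos L]
  rw [← exp_add, ← exp_add]
  refine (mul_le_mul h5 ((add_le_add (exp_le_exp.2 (show _ ≤ L from ?_))
    (exp_le_exp.2 (show _ ≤ L from ?_))).trans ((two_mul _).ge.trans h6)) (by positivity)
    (exp_pos _).le).trans ?_
  · nlinarith [mul_pos hlam t0]
  · nlinarith [mul_le_mul_of_nonneg_left hc hlam.le]
  · rw [← exp_add, exp_le_exp]
    nlinarith [mul_le_mul_of_nonneg_left hr k1]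

end Pool.Agent.P.MP_e00059_co.HD
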