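import Mathlib
import Pool.Agent.P.MP_e00059_co.QG1
import Pool.Agent.P.MP_e00059_co.QS

/-! The geometric step. -/

namespace Pool.Agent.P.MP_e00059_co.HD

open Finset Real
open scoped BigOperators

theorem inv_one {e M : ℕ} (j1 E : ℕ) (hE : E ≤ M) : Inv j1 E (fun _ : Om e M => (1 : ℝ)) := by
  constructor
  · intro j hj w
    simp only [one_mul]
    exact expect_bx j (fun i => (single_le_sum (f := j) (fun _ _ => Nat.zero_le _)
      (mem_univ i)).trans (hj.trans hE)) w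
  · intro j hj w
    simp only [one_mul]
    rw [expect_bx j hj w]
    exact le_mul_of_one_le_right (by positivity) (one_le_pow₀ (by norm_num))

theorem inv_step {e M j1 l0 : ℕ} (hj : 4 ≤ j1) {ν ψ : Om e M → ℝ} (h0 : ∀ b, 0 ≤ ν b)
    (hν : Inv j1 (l0 + j1) ν) (hψ : ∀ b, |ψ b| ≤ 1)
    (horth : ∀ j : Fin e → ℕ, ∑ i, j i ≤ l0 → ∀ w, 𝔼 b, ν b * ψ b * bx j b w = 0) (σ : ℝ)
    (hσ : |σ| ≤ 1) : Inv j1 l0 fun b => ν b * (1 + σ * ψ b / 2) := by
  have ex : ∀ j : Fin e → ℕ, ∑ i, j i ≤ l0 → ∀ w,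
      𝔼 b, ν b * (1 + σ * ψ b / 2) * bx j b w = (1 / 4 : ℝ) ^ (∑ i, j i) := by
    intro j hj w
    have : ∀ b, ν b * (1 + σ * ψ b / 2) * bx j b w =
        ν b * bx j b w + σ / 2 * (ν b * ψ b * bx j b w) := fun b => by ring
    simp only [this]
    rw [Finset.expect_add_distrib, ← Finset.mul_expect, horth j hj w, hν.1 j (by omega) w]
    simp
  refine ⟨ex, fun j hjM w => ?_⟩
  by_cases h : ∑ i, j i ≤ l0
  · rw [ex j h w]
    exact le_mul_of_one_le_right (by positivity) (one_le_pow₀ (by norm_num))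
  · have h1 : 𝔼 b, ν b * (1 + σ * ψ b / 2) * bx j b w ≤ 3 / 2 * 𝔼 b, ν b * bx j b w := by
      rw [Finset.mul_expect]
      refine Finset.expect_le_expect fun b _ => ?_
      have k1 : |σ * ψ b| ≤ 1 := by
        rw [abs_mul]; exact mul_le_one₀ hσ (abs_nonneg _) (hψ b)
      have k2 := (abs_le.1 k1).2
      have k3 := mul_nonneg (h0 b) (bx_nonneg j b w)
      nlinarith
    have h2 := hν.2 j hjM w
    have h3 : ∑ i, j i + j1 - l0 = (∑ i, j i + j1 - (l0 + j1)) + j1 := by omega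
    have h4 : (3 / 2 : ℝ) ≤ (9 / 8 : ℝ) ^ j1 :=
      le_trans (by norm_num) (pow_le_pow_right₀ (by norm_num) hj)
    rw [h3, pow_add, ← mul_assoc]
    have h5 : 0 ≤ (1 / 4 : ℝ) ^ (∑ i, j i) * (9 / 8 : ℝ) ^ (∑ i, j i + j1 - (l0 + j1)) := by
      positivity
    nlinarith

/-- canonical centres of the boxes of shape `j` -/
def can {e M : ℕ} (j : Fin e → Fin M) : Finset (Om e M) :=
  Fintype.piFinset fun i => Fintype.piFinset fun t => if t < j i then univ else {0}

theorem card_can {e M : ℕ} (j : Fin e → Fin M) : (can j).card = 4 ^ lv j := by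
  unfold can lv
  rw [Fintype.card_piFinset, ← Finset.prod_pow_eq_pow_sum]
  refine prod_congr rfl fun i _ => ?_
  rw [Fintype.card_piFinset]
  have : ∀ t : Fin M, (if t < j i then (univ : Finset (Fin 4)) else {0}).card =
      if t < j i then 4 else 1 := by
    intro t; split_ifs <;> simp
  simp only [this]
  rw [Finset.prod_ite, Finset.prod_const_one, mul_one, Finset.prod_const]
  congr 1
  rw [Finset.filter_gt_eq_Iio, Fin.card_Iio]

theorem exists_can {e M : ℕ} (j : Fin e → Fin M) (w : Om e M) :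
    ∃ c ∈ can j, ∀ b, bf j b w = bf j b c := by
  refine ⟨fun i t => if t < j i then w i t else 0, ?_, fun b => ?_⟩
  · unfold can
    simp only [Fintype.mem_piFinset]
    intro i t
    split_ifs <;> simp
  · unfold bf
    rw [bx_comm _ b w, bx_comm _ b]
    refine bx_dep b fun i s hs => ?_
    have : s < j i := hs
    simp [this]

theorem refine_shape {e M l0 : ℕ} (hM : l0 < M) (j : Fin (e + 1) → ℕ) (hj : ∑ i, j i ≤ l0) :
    ∃ j' : Fin (e + 1) → Fin M, lv j' = l0 ∧ ∀ i, j i ≤ (j' i : ℕ) := by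
  have h1 : ∀ i, j i ≤ ∑ i, j i := fun i =>
    single_le_sum (f := j) (fun _ _ => Nat.zero_le _) (mem_univ i)
  rw [Fin.sum_univ_succ] at hj
  refine ⟨Fin.cons ⟨l0 - ∑ i : Fin e, j i.succ, by omega⟩
    fun i => ⟨j i.succ, by have := h1 i.succ; rw [Fin.sum_univ_succ] at this; omega⟩, ?_, ?_⟩
  · unfold lv
    rw [Fin.sum_univ_succ]
    simp only [Fin.cons_zero, Fin.cons_succ]
    omega
  · intro i
    refine Fin.cases ?_ (fun i => ?_) i
    · simp only [Fin.cons_zero]; omega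
    · simp only [Fin.cons_succ]; exact le_rfl

theorem orth_all {e M l0 : ℕ} (hM : l0 < M) (η : Om (e + 1) M → ℝ)
    (h : ∀ j : Fin (e + 1) → Fin M, lv j = l0 → ∀ c ∈ can j, 𝔼 b, η b * bf j b c = 0)
    (j : Fin (e + 1) → ℕ) (hj : ∑ i, j i ≤ l0) (F : Om (e + 1) M → ℝ)
    (hF : ∀ b b', ag j b b' → F b = F b') : 𝔼 b, η b * F b = 0 := by
  obtain ⟨j', h1, h2⟩ := refine_shape hM j hj
  refine exact0 η (fun i => (j' i : ℕ)) (fun i => (j' i).2.le) (fun w => ?_) F
    fun b b' hb => hF b b' (ag_mono hb h2)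
  obtain ⟨c, hc, h3⟩ := exists_can j' w
  have := h j' h1 c hc
  simp only [← h3] at this
  exact this

theorem kk_ff {e M l1 : ℕ} (hM : l1 + e < M) (η : Om (e + 1) M → ℝ)
    (h : ∀ j : Fin (e + 1) → Fin M, lv j = l1 + e → ∀ c ∈ can j, 𝔼 b, η b * bf j b c = 0)
    (w : Om (e + 1) M) : 𝔼 b, η b * kk b w = 𝔼 b, η b * ff l1 b w := by
  unfold ff
  simp only [kk_eq, Finset.mul_sum, Finset.expect_sum_comm]
  refine sum_congr rfl fun j _ => ?_
  split_ifs with h1
  · rfl
  · rw [orth_all hM η h (fun i => (j i : ℕ) + 1) ?_ _ fun b b' hb => dl_dep w hb]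
    · simp
    · rw [Finset.sum_add_distrib]
      unfold lv at h1
      simp only [sum_const, card_univ, Fintype.card_fin, smul_eq_mul, mul_one]
      omega

theorem ip_node {N Ω : Type} [Fintype N] [DecidableEq N] [Fintype Ω] (ρ : ℝ) (ν : N → Ω → ℝ)
    (F : N × Ω → ℝ) (i : N) (G : Ω → ℝ) :
    ip (fun x : N × Ω => ρ * ν x.1 x.2 / Fintype.card Ω) F
      (fun x => if i = x.1 then G x.2 else 0) = ρ * 𝔼 b, ν i b * (F (i, b) * G b) := by
  unfold ip
  rw [Fintype.sum_prod_type, Finset.sum_eq_single i]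
  · rw [Fintype.expect_eq_sum_div_card, Finset.sum_div, Finset.mul_sum]
    refine sum_congr rfl fun b _ => ?_
    simp only [if_true]
    ring
  · intro i' _ hi
    simp [Ne.symm hi]
  · simp

theorem ip_two {N Ω : Type} [Fintype N] [DecidableEq N] [Fintype Ω] (ρ : ℝ) (hρ : 0 ≤ ρ)
    (ν : N → Ω → ℝ) (i i' : N) (F G : Ω → ℝ) (B : ℝ) (h : |𝔼 b, ν i' b * (F b * G b)| ≤ B) :
    ip (fun x : N × Ω => ρ * ν x.1 x.2 / Fintype.card Ω)
      (fun x => if i = x.1 then F x.2 else 0) (fun x => if i' = x.1 then G x.2 else 0) ^ 2 ≤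
      if i = i' then ρ ^ 2 * B ^ 2 else 0 := by
  rw [ip_node]
  split_ifs with h1
  · rw [mul_pow]
    refine mul_le_mul_of_nonneg_left ?_ (sq_nonneg _)
    exact sq_le_sq' (abs_le.1 h).1 (abs_le.1 h).2
  · simp

theorem count_ok {e M n : ℕ} {N : Type} [DecidableEq N] (w : Fin n → Om e M) (lab : Fin n → N)
    (j : Fin e → Fin M) (T : ℝ) (hT : 0 ≤ T) (i : N) (b : Om e M) :
    ∑ p, (if lab p = i then
      (if (∑ p', if lab p = lab p' then bf j (w p) (w p') else 0) ≤ T then (1 : ℝ) else 0) *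
        bf j b (w p) else 0) ≤ T := by
  by_cases h : ∃ p, lab p = i ∧ (∑ p', if lab p = lab p' then bf j (w p) (w p') else 0) ≤ T ∧
      ag (fun i => (j i : ℕ)) b (w p)
  · obtain ⟨p0, h1, h2, h3⟩ := h
    refine le_trans (sum_le_sum fun p _ => ?_) h2
    rw [h1]
    by_cases k1 : lab p = i
    · rw [if_pos k1, if_pos k1.symm]
      have k2 : bf j b (w p) = bf j (w p0) (w p) := bx_dep _ h3
      rw [k2]
      refine mul_le_of_le_one_left (bf_nonneg _ _ _) ?_
      split_ifs <;> norm_num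
    · rw [if_neg k1, if_neg (Ne.symm k1)]
  · refine le_trans (le_of_eq (sum_eq_zero fun p _ => ?_)) hT
    split_ifs with k1 k2
    · have : ¬ ag (fun i => (j i : ℕ)) b (w p) := fun k3 => h ⟨p, k1, k2, k3⟩
      unfold bf
      rw [bx_of_not this, mul_zero]
    · simp
    · rfl

theorem gstep {e M n : ℕ} (w : Fin n → Om (e + 1) M) (l1 j0 j1 k : ℕ) (hk : 3 ≤ k) (hj : 4 ≤ j1)
    (hj' : j0 + (e + 1) ≤ j1) (hM : l1 + e < M)
    (J : Finset (Fin (e + 1) → Fin M))
    (hJ : ∀ j ∈ J, lv j = l1 + e + j0) (T θ lam K α ρ : ℝ) (hT : 0 < T) (hθ0 : 0 ≤ θ)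
    (hθ : θ ^ 2 * (J.card * T) ≤ 1) (hlam : 0 < lam) (hK : 0 < K)
    (hα : α = lam * θ * ρ * (1 / 4 : ℝ) ^ (l1 + e + j0) * (1 / 2 : ℝ) ^ (e + 1) / 8)
    (N : Type) [Fintype N] [DecidableEq N] (lab : Fin n → N) (ν : N → Om (e + 1) M → ℝ)
    (hρ : Fintype.card N * ρ = 1) (hν : ∀ i b, 0 ≤ ν i b)
    (hI : ∀ i, Inv j1 (l1 + e + j1) (ν i)) (g : Fin n → ℝ) (hg : ∀ p, |g p| ≤ 1) :
    ∃ ψ : (Fin n → Bool) → N → Om (e + 1) M → ℝ, (∀ ε i b, |ψ ε i b| ≤ 1) ∧
      (∀ ε i (σ : ℝ), |σ| ≤ 1 → Inv j1 (l1 + e) fun b => ν i b * (1 + σ * ψ ε i b / 2)) ∧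
      (∀ ε, ∑ p, Phi (fun b p => kk b (w p)) lab ν (ψ ε) p ^ 2 ≤ K) ∧
      𝔼 ε : Fin n → Bool,
          exp (-(lam * ∑ p, g p * sb (ε p) * Phi (fun b p => kk b (w p)) lab ν (ψ ε) p)) ≤
        exp (-(∑ p, α * mid J (w p) * g p ^ 2
          - (∑ p, ∑ p', if lab p = lab p' then
              α * kap J (w p) (w p') / T
              + lam ^ 2 * θ ^ 2 * ρ ^ 2 *
                  (4 ^ (e + 1) * (1 / 16 : ℝ) ^ (l1 + e + j0) * kap J (w p) (w p') ^ 2
                    + KK l1 j1 (w p) (w p') ^ 2)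
              + (lam ^ 2 * θ ^ 4 * (J.card * T) / 2 + (2 * k + 1) / K ^ 2) * ρ ^ 2 *
                  KK l1 0 (w p) (w p') ^ 2 else 0)
          - ((2 * k + 1) * (Fintype.card N * (M : ℝ) ^ e * 4 ^ (l1 + e))
              + lam ^ 2 * K / 2 ^ k + 2))) := by
  classical
  have hN : (0 : ℝ) < Fintype.card N := by
    rcases (Nat.cast_nonneg (α := ℝ) (Fintype.card N)).eq_or_lt with h | h
    · rw [← h] at hρ; simp at hρ
    · exact h
  have hρ0 : 0 < ρ := by
    by_contra h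
    have := mul_nonneg hN.le (neg_nonneg.2 (not_lt.1 h))
    linarith
  have hα0 : 0 ≤ α := by rw [hα]; positivity
  set cnt : Fin n → (Fin (e + 1) → Fin M) → ℝ :=
    fun p j => ∑ p', if lab p = lab p' then bf j (w p) (w p') else 0 with hcnt
  set o : Fin n → (Fin (e + 1) → Fin M) → ℝ := fun p j => if cnt p j ≤ T then 1 else 0 with ho
  have ho1 : ∀ p j, o p j = 0 ∨ o p j = 1 := by
    intro p j; simp only [ho]; split_ifs <;> simp
  have ho2 : ∀ p j, |o p j| ≤ 1 := by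
    intro p j; rcases ho1 p j with h | h <;> simp [h]
  set Y : Fin n → Om (e + 1) M → ℝ := fun p b => ∑ j ∈ J, o p j * uu j b (w p) with hY
  set μ : N × Om (e + 1) M → ℝ :=
    fun x => ρ * ν x.1 x.2 / Fintype.card (Om (e + 1) M) with hμ
  set f : Fin n → N × Om (e + 1) M → ℝ :=
    fun p x => if lab p = x.1 then ff l1 x.2 (w p) else 0 with hf
  set y : Fin n → N × Om (e + 1) M → ℝ := fun p x => if lab p = x.1 then Y p x.2 else 0 with hy
  set V : Finset (N × Om (e + 1) M → ℝ) := univ.biUnion fun i : N =>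
    (univ.filter fun j : Fin (e + 1) → Fin M => lv j = l1 + e).biUnion fun j =>
      (can j).image fun c => fun x : N × Om (e + 1) M => if i = x.1 then bf j x.2 c else 0
    with hV
  have hJ' : ∀ j ∈ J, l1 ≤ lv j := fun j h => by rw [hJ j h]; omega
  have hμ0 : ∀ x, 0 ≤ μ x := fun x => by
    have := hν x.1 x.2
    simp only [hμ]; positivity
  have hμ1 : ∑ x, μ x ≤ 1 := by
    rw [Fintype.sum_prod_type]
    have : ∀ i, ∑ b, μ (i, b) = ρ := by
      intro i
      have h := (hI i).1 (fun _ => 0) (by simp) (fun _ _ => 0)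
      have h2 : ∀ b : Om (e + 1) M, bx (fun _ => 0) b (fun _ _ => 0) = 1 :=
        fun b => bx_of_ag fun i s hs => absurd hs (Nat.not_lt_zero _)
      simp only [h2, mul_one, sum_const_zero, pow_zero] at h
      rw [Fintype.expect_eq_sum_div_card] at h
      simp only [hμ]
      rw [← Finset.sum_div, ← Finset.mul_sum, mul_div_assoc, h, mul_one]
    simp only [this, sum_const, card_univ, nsmul_eq_mul]
    exact hρ.le
  have hy2 : ∀ x, ∑ p, y p x ^ 2 ≤ J.card * T := by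
    intro x
    calc _ ≤ ∑ p, ∑ j ∈ J, (if lab p = x.1 then o p j * bf j x.2 (w p) else 0) := by
          refine sum_le_sum fun p _ => ?_
          simp only [hy]
          split_ifs
          · exact y_sq J (o p) (ho1 p) _ _
          · simp
      _ ≤ ∑ _j ∈ J, T := by
          rw [Finset.sum_comm]
          exact sum_le_sum fun j _ => count_ok w lab j T hT.le x.1 x.2
      _ = _ := by simp
  obtain ⟨ψ, k1, k2, k3, k4⟩ := step μ hμ0 hμ1 f y g hg (J.card * T) θ lam K k hk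
    (by positivity) hy2 hθ hlam hK V
  have horth : ∀ ε i, ∀ j : Fin (e + 1) → Fin M, lv j = l1 + e → ∀ c ∈ can j,
      𝔼 b, ν i b * ψ ε (i, b) * bf j b c = 0 := by
    intro ε i j h1 c hc
    have := k2 ε (fun x => if i = x.1 then bf j x.2 c else 0) (by
      simp only [hV, mem_biUnion, mem_image, mem_filter, mem_univ, true_and]
      exact ⟨i, j, h1, c, hc, rfl⟩)
    rw [hμ, ip_node ρ ν (ψ ε) i (fun b => bf j b c)] at this
    simp only [mul_assoc]
    exact (mul_eq_zero.1 this).resolve_left hρ0.ne'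
  have hPhi : ∀ ε p, Phi (fun b p => kk b (w p)) lab ν (fun i b => ψ ε (i, b)) p =
      ip μ (ψ ε) (f p) := by
    intro ε p
    unfold Phi
    rw [hμ, hf, ip_node ρ ν (ψ ε) (lab p) (fun b => ff l1 b (w p)),
      kk_ff hM _ (horth ε (lab p)), div_eq_iff hN.ne']
    simp only [mul_assoc]
    rw [mul_left_comm, mul_comm ρ, hρ, mul_one]
  refine ⟨fun ε i b => ψ ε (i, b), fun ε i b => k1 ε _, fun ε i σ hσ => ?_, fun ε => ?_, ?_⟩
  · refine inv_step hj (hν i) (hI i) (fun b => k1 ε _) (fun j hj w => ?_) σ hσ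
    exact orth_all hM _ (horth ε i) j hj _ fun b b' hb => bx_dep w hb
  · simp only [hPhi]; exact k3 ε
  simp only [hPhi]
  refine k4.trans (exp_le_exp.2 (neg_le_neg ?_))
  have hE : l1 + j1 ≤ l1 + e + j1 := by omega
  have b3 : ∑ p, ∑ q, ip μ (f p) (f q) ^ 2 ≤
      ∑ p, ∑ q, if lab p = lab q then ρ ^ 2 * KK l1 0 (w p) (w q) ^ 2 else 0 := by
    refine sum_le_sum fun p _ => sum_le_sum fun q _ => ?_
    refine ip_two ρ hρ0.le ν _ _ (fun b => ff l1 b (w p)) (fun b => ff l1 b (w q)) _ ?_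
    refine (abs_expect_le _ _ _ (hν _) fun b => ?_).trans (fh_fh (hν _) (hI _) hE _ _)
    rw [abs_mul]
    exact mul_le_mul (abs_ff _ _ _) (abs_ff _ _ _) (abs_nonneg _) (fh_nonneg _ _ _)
  have b2 : ∑ p, ∑ q, ip μ (fun x => |y p x|) (fun x => |f q x|) ^ 2 ≤
      ∑ p, ∑ q, if lab p = lab q then ρ ^ 2 * KK l1 0 (w p) (w q) ^ 2 else 0 := by
    refine sum_le_sum fun p _ => sum_le_sum fun q _ => ?_
    have e1 : (fun x => |y p x|) = fun x => if lab p = x.1 then |Y p x.2| else 0 := by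
      funext x; simp only [hy]; split_ifs <;> simp
    have e2 : (fun x => |f q x|) = fun x => if lab q = x.1 then |ff l1 x.2 (w q)| else 0 := by
      funext x; simp only [hf]; split_ifs <;> simp
    rw [e1, e2]
    refine ip_two ρ hρ0.le ν _ _ (fun b => |Y p b|) (fun b => |ff l1 b (w q)|) _ ?_
    refine (abs_expect_le _ _ _ (hν _) fun b => ?_).trans (fh_fh (hν _) (hI _) hE _ _)
    rw [abs_mul, abs_abs, abs_abs]
    exact mul_le_mul (abs_y l1 J hJ' _ (ho2 p) _ _) (abs_ff _ _ _) (abs_nonneg _)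
      (fh_nonneg _ _ _)
  have b1 : ∑ p, ∑ q, ip μ (y p) (f q) ^ 2 ≤
      ∑ p, ∑ q, if lab p = lab q then 2 * ρ ^ 2 *
        (4 ^ (e + 1) * (1 / 16 : ℝ) ^ (l1 + e + j0) * kap J (w p) (w q) ^ 2
          + KK l1 j1 (w p) (w q) ^ 2) else 0 := by
    refine sum_le_sum fun p _ => sum_le_sum fun q _ => ?_
    refine (ip_two ρ hρ0.le ν _ _ (Y p) (fun b => ff l1 b (w q)) _
      (y_ff (hν _) (hI _) J hJ (by omega) (o p) (ho2 p) (w p) (w q))).trans ?_
    split_ifs
    · have e1 : (4 : ℝ) ^ (e + 1) * (1 / 16 : ℝ) ^ (l1 + e + j0) =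
          (2 ^ (e + 1) * (1 / 4 : ℝ) ^ (l1 + e + j0)) ^ 2 := by
        rw [mul_pow, ← pow_mul, ← pow_mul, mul_comm (e + 1), mul_comm (l1 + e + j0), pow_mul,
          pow_mul]
        norm_num
      rw [e1, ← mul_pow]
      have := sq_nonneg (2 ^ (e + 1) * (1 / 4 : ℝ) ^ (l1 + e + j0) * kap J (w p) (w q) -
        KK l1 j1 (w p) (w q))
      have h2 := sq_nonneg ρ
      nlinarith
    · exact le_rfl
  have ba : ∑ p, α * mid J (w p) * g p ^ 2 -
      (∑ p, ∑ q, if lab p = lab q then α * kap J (w p) (w q) / T else 0) ≤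
      lam * θ * (∑ p, g p ^ 2 * ip μ (y p) (f p)) / 8 := by
    rw [← Finset.sum_sub_distrib, Finset.mul_sum, Finset.sum_div]
    refine sum_le_sum fun p _ => ?_
    have e1 : ip μ (y p) (f p) = ρ * ((1 / 4 : ℝ) ^ (l1 + e + j0) * (1 / 2 : ℝ) ^ (e + 1) *
        ∑ j ∈ J, o p j * ∏ i, (if w p i (j i) = 1 then (1 : ℝ) else 0)) := by
      rw [hμ, hf, ip_node ρ ν (y p) (lab p) (fun b => ff l1 b (w p)),
        ← y_ff_self (hI (lab p)) J hJ (l1 := l1) (by omega) (by omega) (o p) (w p)]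
      simp only [hy, if_true, hY]
    have e2 : (∑ q, if lab p = lab q then α * kap J (w p) (w q) / T else 0) =
        α * ∑ j ∈ J, cnt p j / T := by
      simp only [hcnt]
      rw [← Finset.sum_div, Finset.sum_comm, ← mul_div_assoc, Finset.mul_sum, Finset.sum_div]
      refine sum_congr rfl fun q _ => ?_
      split_ifs
      · rfl
      · simp
    have e3 : lam * θ * (g p ^ 2 * ip μ (y p) (f p)) / 8 =
        α * ∑ j ∈ J, g p ^ 2 * (o p j * ∏ i, (if w p i (j i) = 1 then (1 : ℝ) else 0)) := by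
      rw [e1, hα, ← Finset.mul_sum]; ring
    rw [e2, e3, mul_assoc, ← mul_sub]
    refine mul_le_mul_of_nonneg_left ?_ hα0
    unfold mid
    rw [Finset.sum_mul, ← Finset.sum_sub_distrib]
    refine sum_le_sum fun j _ => ?_
    have c0 : 0 ≤ cnt p j := sum_nonneg fun q _ => by
      split_ifs
      · exact bf_nonneg _ _ _
      · exact le_rfl
    have g1 : g p ^ 2 ≤ 1 := by rw [sq_le_one_iff_abs_le_one]; exact hg p
    have m1 : (∏ i, (if w p i (j i) = 1 then (1 : ℝ) else 0)) ≤ 1 :=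
      prod_le_one (fun _ _ => by split_ifs <;> norm_num) fun _ _ => by split_ifs <;> norm_num
    have m0 : 0 ≤ ∏ i, (if w p i (j i) = 1 then (1 : ℝ) else 0) :=
      prod_nonneg fun _ _ => by split_ifs <;> norm_num
    by_cases h : cnt p j ≤ T
    · have : o p j = 1 := if_pos h
      rw [this]
      have := div_nonneg c0 hT.le
      linarith
    · have : o p j = 0 := if_neg h
      rw [this]
      have h1 : 1 ≤ cnt p j / T := by rw [le_div_iff₀ hT]; linarith
      have h2 := mul_le_one₀ m1 (sq_nonneg (g p)) g1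
      linarith
  have bV : (V.card : ℝ) ≤ Fintype.card N * (M : ℝ) ^ e * 4 ^ (l1 + e) := by
    have : V.card ≤ Fintype.card N * M ^ e * 4 ^ (l1 + e) := by
      calc V.card ≤ ∑ _i : N, M ^ e * 4 ^ (l1 + e) := by
            refine card_biUnion_le.trans (sum_le_sum fun i _ => ?_)
            refine card_biUnion_le.trans ?_
            calc _ ≤ ∑ _j ∈ (univ.filter fun j : Fin (e + 1) → Fin M => lv j = l1 + e),
                  4 ^ (l1 + e) := by
                  refine sum_le_sum fun j hj => card_image_le.trans ?_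
                  rw [card_can, (mem_filter.1 hj).2]
              _ ≤ _ := by
                  rw [sum_const, smul_eq_mul]
                  exact Nat.mul_le_mul_right _ (card_lv _)
        _ = _ := by simp [mul_assoc]
    exact_mod_cast this
  have split : (∑ p, ∑ p', if lab p = lab p' then
              α * kap J (w p) (w p') / T
              + lam ^ 2 * θ ^ 2 * ρ ^ 2 *
                  (4 ^ (e + 1) * (1 / 16 : ℝ) ^ (l1 + e + j0) * kap J (w p) (w p') ^ 2
                    + KK l1 j1 (w p) (w p') ^ 2)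
              + (lam ^ 2 * θ ^ 4 * (J.card * T) / 2 + (2 * k + 1) / K ^ 2) * ρ ^ 2 *
                  KK l1 0 (w p) (w p') ^ 2 else 0) =
      (∑ p, ∑ q, if lab p = lab q then α * kap J (w p) (w q) / T else 0) +
      lam ^ 2 * θ ^ 2 / 2 * (∑ p, ∑ q, if lab p = lab q then 2 * ρ ^ 2 *
        (4 ^ (e + 1) * (1 / 16 : ℝ) ^ (l1 + e + j0) * kap J (w p) (w q) ^ 2
          + KK l1 j1 (w p) (w q) ^ 2) else 0) +
      (lam ^ 2 * θ ^ 4 * (J.card * T) / 2 + (2 * k + 1) / K ^ 2) *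
        (∑ p, ∑ q, if lab p = lab q then ρ ^ 2 * KK l1 0 (w p) (w q) ^ 2 else 0) := by
    simp only [Finset.mul_sum, ← Finset.sum_add_distrib]
    refine sum_congr rfl fun p _ => sum_congr rfl fun q _ => ?_
    split_ifs
    · ring
    · simp
  rw [split]
  have t1 := mul_le_mul_of_nonneg_left b1 (show 0 ≤ lam ^ 2 * θ ^ 2 / 2 by positivity)
  have t2 := mul_le_mul_of_nonneg_left b2
    (show 0 ≤ lam ^ 2 * θ ^ 4 * (J.card * T) / 2 by positivity)
  have t3 := mul_le_mul_of_nonneg_left b3 (show 0 ≤ (2 * k + 1 : ℝ) / K ^ 2 by positivity)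
  have t4 := mul_le_mul_of_nonneg_left bV (show 0 ≤ (2 * k + 1 : ℝ) by positivity)
  have e5 : (2 * k + 1 : ℝ) * (V.card + (∑ p, ∑ q, ip μ (f p) (f q) ^ 2) / K ^ 2) =
      (2 * k + 1) * V.card + (2 * k + 1) / K ^ 2 * ∑ p, ∑ q, ip μ (f p) (f q) ^ 2 := by ring
  rw [e5, add_mul]
  linarith

end Pool.Agent.P.MP_e00059_co.HD
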