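import Mathlib
import Pool.Agent.P.MP_e00059_co.Q0

/-! The recursion over the digits of the first coordinate. -/

namespace Pool.Agent.P.MP_e00059_co.HD

open Finset Real
open scoped BigOperators

/-- the digit function on natural numbers -/
noncomputable def dS (m α : ℕ) : ℝ := if m ≤ α ∧ α < 3 * m then -1 else 1

/-- its initial sums -/
noncomputable def dP (m t : ℕ) : ℝ := ∑ α ∈ range t, dS m α

theorem dP_succ (m t : ℕ) : dP m (t + 1) = dP m t + dS m t := sum_range_succ _ _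

theorem dP_eq (m t : ℕ) : dP m t =
    if t ≤ m then (t : ℝ) else if t ≤ 3 * m then 2 * (m : ℝ) - t else (t : ℝ) - 4 * m := by
  induction t with
  | zero => simp [dP]
  | succ t ih =>
    rw [dP_succ, ih]
    unfold dS
    by_cases h1 : t + 1 ≤ m
    · rw [if_pos h1, if_pos (by omega), if_neg (by omega)]; push_cast; ring
    · by_cases h2 : t + 1 ≤ 3 * m
      · rw [if_neg h1, if_pos h2, if_pos (show m ≤ t ∧ t < 3 * m by omega)]
        by_cases h3 : t ≤ m
        · have : t = m := by omega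
          subst this
          rw [if_pos h3]; push_cast; ring
        · rw [if_neg h3, if_pos (by omega)]; push_cast; ring
      · rw [if_neg h1, if_neg h2, if_neg (show ¬ (m ≤ t ∧ t < 3 * m) by omega)]
        by_cases h3 : t ≤ m
        · have h4 : m = 0 := by omega
          have h5 : t = 0 := by omega
          subst h4 h5
          simp
        · rw [if_neg h3]
          by_cases h4 : t ≤ 3 * m
          · have : t = 3 * m := by omega
            subst this
            rw [if_pos h4]; push_cast; ring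
          · rw [if_neg h4]; push_cast; ring

theorem dF (m x t : ℕ) : ∑ α ∈ range t, dS m α * sgn α x =
    if t ≤ x then - dP m t else dP m t - dP m (x + 1) - dP m x := by
  induction t with
  | zero => simp [dP]
  | succ t ih =>
    rw [sum_range_succ, ih]
    rcases lt_trichotomy t x with h | h | h
    · rw [if_pos h.le, if_pos (by omega), dP_succ]
      unfold sgn
      rw [if_neg (by omega), if_pos h]; ring
    · subst h
      rw [if_pos le_rfl, if_neg (by omega), sgn_self]; ring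
    · rw [if_neg (by omega), if_neg (by omega), dP_succ m t]
      unfold sgn
      rw [if_pos h]; ring

/-- the digit function -/
theorem digit (m : ℕ) (hm : 0 < m) : ∃ s : Fin (4 * m) → ℝ, (∀ α, |s α| ≤ 1) ∧
    (∀ α, s (Fin.rev α) = s α) ∧ ∑ α, s α = 0 ∧
    (1 / 64 : ℝ) ≤ 𝔼 x, (𝔼 α, s α * sgn α x) ^ 2 := by
  have hP : dP m (4 * m) = 0 := by
    rw [dP_eq, if_neg (by omega), if_neg (by omega)]; push_cast; ring
  have hm' : (0 : ℝ) < m := by exact_mod_cast hm
  refine ⟨fun α => dS m α, fun α => ?_, fun α => ?_, ?_, ?_⟩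
  · beta_reduce; unfold dS; split_ifs <;> simp
  · have := α.isLt
    beta_reduce
    unfold dS
    rw [Fin.val_rev]
    by_cases h : m ≤ (α : ℕ) ∧ (α : ℕ) < 3 * m
    · rw [if_pos h, if_pos (by omega)]
    · rw [if_neg h, if_neg (by omega)]
  · rw [Fin.sum_univ_eq_sum_range (fun α => dS m α)]; exact hP
  · have e1 : ∀ x : Fin (4 * m), (𝔼 α : Fin (4 * m), dS m α * sgn α x) ^ 2 =
        (dP m (x + 1) + dP m x) ^ 2 / (4 * m) ^ 2 := by
      intro x
      have hx := x.isLt
      have e2 : ∀ α : Fin (4 * m), sgn α x = sgn (α : ℕ) (x : ℕ) := fun α => rfl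
      simp only [e2]
      rw [Fintype.expect_eq_sum_div_card,
        Fin.sum_univ_eq_sum_range (fun α => dS m α * sgn α (x : ℕ)), dF, if_neg (by omega), hP]
      simp only [Fintype.card_fin]
      push_cast
      ring
    simp only [e1]
    rw [Fintype.expect_eq_sum_div_card, ← Finset.sum_div,
      Fin.sum_univ_eq_sum_range (fun x => (dP m (x + 1) + dP m x) ^ 2)]
    simp only [Fintype.card_fin]
    have e3 : ∑ x ∈ range (m + m), (dP m (x + 1) + dP m x) ^ 2 ≤
        ∑ x ∈ range (4 * m), (dP m (x + 1) + dP m x) ^ 2 :=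
      sum_le_sum_of_subset_of_nonneg (range_subset_range.2 (by omega)) fun _ _ _ => sq_nonneg _
    have e4 : ∑ _x ∈ range m, (m : ℝ) ^ 2 ≤ ∑ x ∈ range (m + m), (dP m (x + 1) + dP m x) ^ 2 := by
      rw [sum_range_add, ← sum_add_distrib]
      refine sum_le_sum fun x hx => ?_
      have hx' := mem_range.1 hx
      have f1 : dP m (x + 1) = x + 1 := by rw [dP_eq, if_pos (by omega)]; push_cast; ring
      have f2 : dP m x = x := by rw [dP_eq, if_pos (by omega)]
      have f3 : dP m (m + x + 1) = m - x - 1 := by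
        rw [dP_eq, if_neg (by omega), if_pos (by omega)]; push_cast; ring
      have f4 : dP m (m + x) = m - x := by
        have := dP_succ m (m + x)
        unfold dS at this
        rw [if_pos (by omega)] at this
        linarith
      rw [f1, f2, f3, f4]
      nlinarith [sq_nonneg (2 * (x : ℝ) + 1 - m), sq_nonneg (m : ℝ)]
    rw [sum_const, card_range, nsmul_eq_mul] at e4
    push_cast
    rw [div_div, le_div_iff₀ (by positivity)]
    nlinarith

/-- largest value of the weighted sign sum -/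
noncomputable def top {n r q : ℕ} (ys : Fin r → Fin n → Fin q) (u : Fin n → ℝ) : ℝ :=
  ⨆ a : Fin r → Fin q, ∑ p, u p * lsg a fun t => ys t p

/-- mean value of the sign -/
noncomputable def mm {n r q : ℕ} (ys : Fin r → Fin n → Fin q) (p : Fin n) : ℝ :=
  𝔼 a : Fin r → Fin q, lsg a fun t => ys t p

/-- mean of the sign of one digit -/
noncomputable def mb {q : ℕ} (x : Fin q) : ℝ := 𝔼 α, sgn α x

/-- pairing of the digit function with the sign of one digit -/
noncomputable def sig {q : ℕ} (s : Fin q → ℝ) (x : Fin q) : ℝ := 𝔼 α, s α * sgn α x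

/-- the potential -/
noncomputable def XX {Ω N : Type} [Fintype Ω] [Fintype N] [DecidableEq N] {n r q : ℕ}
    (k : Ω → Fin n → ℝ) (χ : Fin n → ℝ) (ys : Fin r → Fin n → Fin q) (lab : Fin n → N)
    (ν : N → Ω → ℝ) (γ : Fin n → ℝ) : ℝ :=
  (𝔼 i : N, 𝔼 b, ν i b * (top ys (fun p => if lab p = i then χ p * k b p else 0)
    - ∑ p, (if lab p = i then χ p * k b p else 0) * mm ys p)) + ∑ p, γ p * mm ys p

theorem lsg_cons {n r q : ℕ} (α : Fin q) (a : Fin r → Fin q) (ξ : Fin n → Fin q)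
    (ys : Fin r → Fin n → Fin q) (p : Fin n) :
    (lsg (Fin.cons α a : Fin (r + 1) → Fin q)
        fun t => (Fin.cons ξ ys : Fin (r + 1) → Fin n → Fin q) t p) =
      sgn α (ξ p) + if ξ p = α then lsg a fun t => ys t p else 0 := by
  rw [lsg_succ]
  simp only [Fin.cons_zero, Fin.cons_succ, eq_comm (a := α)]

theorem le_top' {n r q : ℕ} (ys : Fin r → Fin n → Fin q) (u : Fin n → ℝ) (a : Fin r → Fin q) :
    (∑ p, u p * lsg a fun t => ys t p) ≤ top ys u :=
  le_ciSup (f := fun a : Fin r → Fin q => ∑ p, u p * lsg a fun t => ys t p)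
    (Finite.bddAbove_range _) a

theorem top_cons {n r q : ℕ} (α : Fin q) (ξ : Fin n → Fin q) (ys : Fin r → Fin n → Fin q)
    (u : Fin n → ℝ) :
    ∑ p, u p * sgn α (ξ p) + top ys (fun p => if ξ p = α then u p else 0) ≤
      top (Fin.cons ξ ys : Fin (r + 1) → Fin n → Fin q) u := by
  have : Nonempty (Fin q) := ⟨α⟩
  rw [← le_sub_iff_add_le']
  refine ciSup_le fun a => ?_
  rw [le_sub_iff_add_le']
  refine le_trans (le_of_eq ?_) (le_top' _ u (Fin.cons α a))
  rw [← sum_add_distrib]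
  refine sum_congr rfl fun p _ => ?_
  rw [lsg_cons]
  beta_reduce
  split_ifs <;> ring

theorem expect_ite {q : ℕ} (x : Fin q) (F : Fin q → ℝ) :
    (𝔼 α, if x = α then F α else 0) = F x / q := by
  rw [Fintype.expect_eq_sum_div_card]
  simp

theorem mm_cons {n r q : ℕ} (ξ : Fin n → Fin q) (ys : Fin r → Fin n → Fin q) (p : Fin n) :
    mm (Fin.cons ξ ys : Fin (r + 1) → Fin n → Fin q) p = mb (ξ p) + mm ys p / q := by
  have : Nonempty (Fin q) := ⟨ξ p⟩
  unfold mm
  rw [expect_cons]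
  simp only [lsg_cons, Finset.expect_add_distrib]
  congr 1
  · unfold mb
    exact expect_congr rfl fun α _ => Finset.expect_const univ_nonempty _
  · rw [← expect_ite (ξ p) fun _ => 𝔼 a : Fin r → Fin q, lsg a fun t => ys t p]
    refine expect_congr rfl fun α _ => ?_
    split_ifs
    · rfl
    · simp

theorem point {n r q : ℕ} (hq : 2 ≤ q) (s : Fin q → ℝ) (hs1 : ∀ α, |s α| ≤ 1)
    (hs3 : ∑ α, s α = 0) (ξ : Fin n → Fin q) (ys : Fin r → Fin n → Fin q) (u : Fin n → ℝ)
    (ψ : ℝ) (hψ : |ψ| ≤ 1) :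
    ψ / 2 * ∑ p, u p * (sig s (ξ p) + s (ξ p) * mm ys p / q) +
      (𝔼 α, (1 + s α * ψ / 2) * (top ys (fun p => if ξ p = α then u p else 0)
        - ∑ p, (if ξ p = α then u p else 0) * mm ys p)) ≤
      top (Fin.cons ξ ys : Fin (r + 1) → Fin n → Fin q) u
        - ∑ p, u p * mm (Fin.cons ξ ys : Fin (r + 1) → Fin n → Fin q) p := by
  have : Nonempty (Fin q) := ⟨⟨0, by omega⟩⟩
  set T := top (Fin.cons ξ ys : Fin (r + 1) → Fin n → Fin q) u
  have hw : ∀ α, 0 ≤ 1 + s α * ψ / 2 := by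
    intro α
    have h1 : |s α * ψ| ≤ 1 := by
      rw [abs_mul]; exact mul_le_one₀ (hs1 α) (abs_nonneg _) hψ
    linarith [(abs_le.1 h1).1]
  have e0 : (𝔼 α, (1 + s α * ψ / 2) * T) = T := by
    rw [← Finset.expect_mul, Finset.expect_add_distrib, Finset.expect_const univ_nonempty,
      Fintype.expect_eq_sum_div_card, ← Finset.sum_div, ← Finset.sum_mul, hs3]
    simp
  have e1 : (𝔼 α, (1 + s α * ψ / 2) * ∑ p, u p * sgn α (ξ p)) =
      ∑ p, u p * (mb (ξ p) + ψ / 2 * sig s (ξ p)) := by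
    simp only [Finset.mul_sum]
    rw [Finset.expect_sum_comm]
    refine sum_congr rfl fun p _ => ?_
    unfold mb sig
    rw [Finset.mul_expect, ← Finset.expect_add_distrib, Finset.mul_expect]
    exact expect_congr rfl fun α _ => by ring
  have e2 : (𝔼 α, (1 + s α * ψ / 2) * ∑ p, (if ξ p = α then u p else 0) * mm ys p) =
      ∑ p, (1 + s (ξ p) * ψ / 2) * (u p * mm ys p) / q := by
    simp only [Finset.mul_sum]
    rw [Finset.expect_sum_comm]
    refine sum_congr rfl fun p _ => ?_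
    rw [← expect_ite (ξ p) fun α => (1 + s α * ψ / 2) * (u p * mm ys p)]
    refine expect_congr rfl fun α _ => ?_
    split_ifs <;> ring
  have e3 : (𝔼 α, (1 + s α * ψ / 2) * (∑ p, u p * sgn α (ξ p) +
      top ys (fun p => if ξ p = α then u p else 0))) ≤ 𝔼 α, (1 + s α * ψ / 2) * T :=
    Finset.expect_le_expect fun α _ => mul_le_mul_of_nonneg_left (top_cons α ξ ys u) (hw α)
  simp only [mul_add, mul_sub, Finset.expect_add_distrib, Finset.expect_sub_distrib] at e3 ⊢
  rw [e0, e1] at e3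
  rw [e2]
  have e4 : ψ / 2 * ∑ p, (u p * sig s (ξ p) + u p * (s (ξ p) * mm ys p / q))
      - ∑ p, (1 + s (ξ p) * ψ / 2) * (u p * mm ys p) / q
      + ∑ p, u p * mm (Fin.cons ξ ys : Fin (r + 1) → Fin n → Fin q) p =
      ∑ p, u p * (mb (ξ p) + ψ / 2 * sig s (ξ p)) := by
    rw [Finset.mul_sum, ← sum_sub_distrib, ← sum_add_distrib]
    refine sum_congr rfl fun p _ => ?_
    rw [mm_cons]; ring
  linarith

theorem pair_Phi {Ω N : Type} [Fintype Ω] [Fintype N] [DecidableEq N] {n : ℕ}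
    (k : Ω → Fin n → ℝ) (χ c : Fin n → ℝ) (lab : Fin n → N) (ν ψ : N → Ω → ℝ) :
    (𝔼 i : N, 𝔼 b, ν i b * (ψ i b / 2 * ∑ p, (if lab p = i then χ p * k b p else 0) * c p)) =
      ∑ p, χ p * c p * Phi k lab ν ψ p / 2 := by
  simp only [Finset.mul_sum, Finset.expect_sum_comm]
  refine sum_congr rfl fun p _ => ?_
  have e1 : ∀ i : N, (𝔼 b, ν i b * (ψ i b / 2 * ((if lab p = i then χ p * k b p else 0) * c p))) =
      if lab p = i then χ p * c p / 2 * 𝔼 b, ν i b * ψ i b * k b p else 0 := by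
    intro i
    split_ifs
    · rw [Finset.mul_expect]
      exact expect_congr rfl fun b _ => by ring
    · simp
  simp only [e1]
  rw [Fintype.expect_eq_sum_div_card]
  simp only [Finset.sum_ite_eq, mem_univ, if_true]
  unfold Phi
  ring

theorem XX_cons {Ω N : Type} [Fintype Ω] [Fintype N] [DecidableEq N] {n r q : ℕ} (hq : 2 ≤ q)
    (s : Fin q → ℝ) (hs1 : ∀ α, |s α| ≤ 1) (hs3 : ∑ α, s α = 0)
    (k : Ω → Fin n → ℝ) (χ : Fin n → ℝ) (ξ : Fin n → Fin q) (ys : Fin r → Fin n → Fin q)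
    (lab : Fin n → N) (ν ψ : N → Ω → ℝ) (γ : Fin n → ℝ) (hν : ∀ i b, 0 ≤ ν i b)
    (hψ : ∀ i b, |ψ i b| ≤ 1) :
    ∑ p, χ p * sig s (ξ p) * Phi k lab ν ψ p / 2 + ∑ p, γ p * mb (ξ p) +
      XX k χ ys (fun p => (lab p, ξ p)) (fun i b => ν i.1 b * (1 + s i.2 * ψ i.1 b / 2))
        (fun p => (γ p + χ p * s (ξ p) * Phi k lab ν ψ p / 2) / q) ≤
      XX k χ (Fin.cons ξ ys : Fin (r + 1) → Fin n → Fin q) lab ν γ := by
  have e1 := Finset.expect_le_expect (s := (univ : Finset N)) fun i _ =>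
    Finset.expect_le_expect (s := (univ : Finset Ω)) fun b _ =>
      mul_le_mul_of_nonneg_left (point hq s hs1 hs3 ξ ys
        (fun p => if lab p = i then χ p * k b p else 0) (ψ i b) (hψ i b)) (hν i b)
  simp only [mul_add (ν _ _), Finset.expect_add_distrib] at e1
  rw [pair_Phi] at e1
  unfold XX
  have e2 : (𝔼 i : N × Fin q, 𝔼 b, ν i.1 b * (1 + s i.2 * ψ i.1 b / 2) *
      (top ys (fun p => if (lab p, ξ p) = i then χ p * k b p else 0)
        - ∑ p, (if (lab p, ξ p) = i then χ p * k b p else 0) * mm ys p)) =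
      𝔼 i : N, 𝔼 b, ν i b * 𝔼 α, (1 + s α * ψ i b / 2) *
        (top ys (fun p => if ξ p = α then (if lab p = i then χ p * k b p else 0) else 0)
        - ∑ p, (if ξ p = α then (if lab p = i then χ p * k b p else 0) else 0) * mm ys p) := by
    rw [← Finset.univ_product_univ, Finset.expect_product]
    refine expect_congr rfl fun i _ => ?_
    rw [Finset.expect_comm]
    refine expect_congr rfl fun b _ => ?_
    rw [Finset.mul_expect]
    refine expect_congr rfl fun α _ => ?_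
    have e3 : ∀ p, (if (lab p, ξ p) = (i, α) then χ p * k b p else 0) =
        if ξ p = α then (if lab p = i then χ p * k b p else 0) else 0 := by
      intro p
      by_cases h1 : lab p = i <;> by_cases h2 : ξ p = α <;> simp [h1, h2]
    simp only [e3]
    ring
  rw [e2]
  have e4 : ∑ p, χ p * sig s (ξ p) * Phi k lab ν ψ p / 2 + ∑ p, γ p * mb (ξ p) +
      ∑ p, (γ p + χ p * s (ξ p) * Phi k lab ν ψ p / 2) / q * mm ys p =
      ∑ p, χ p * (sig s (ξ p) + s (ξ p) * mm ys p / q) * Phi k lab ν ψ p / 2 +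
      ∑ p, γ p * mm (Fin.cons ξ ys : Fin (r + 1) → Fin n → Fin q) p := by
    rw [← sum_add_distrib, ← sum_add_distrib, ← sum_add_distrib]
    refine sum_congr rfl fun p _ => ?_
    rw [mm_cons]; ring
  linarith

/-- reflect the digits whose Boolean is false -/
def flp {n q : ℕ} (ε : Fin n → Bool) (ζ : Fin n → Fin q) (p : Fin n) : Fin q :=
  if ε p then ζ p else Fin.rev (ζ p)

theorem flp_flp {n q : ℕ} (ε : Fin n → Bool) (ζ : Fin n → Fin q) : flp ε (flp ε ζ) = ζ := by
  funext p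
  unfold flp
  split_ifs <;> simp

theorem expect_flp {n q : ℕ} (G : (Fin n → Fin q) → ℝ) :
    𝔼 ξ, G ξ = 𝔼 ζ, 𝔼 ε : Fin n → Bool, G (flp ε ζ) := by
  rw [Finset.expect_comm]
  have e1 : ∀ ε : Fin n → Bool, 𝔼 ζ, G (flp ε ζ) = 𝔼 ξ, G ξ := fun ε =>
    Fintype.expect_equiv (Function.Involutive.toPerm (flp ε) (flp_flp ε)) _ _ fun _ => rfl
  simp only [e1]
  exact (Finset.expect_const univ_nonempty _).symm

theorem sgn_rev {q : ℕ} (α x : Fin q) : sgn (Fin.rev α) (Fin.rev x) = - sgn α x := by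
  unfold sgn
  simp only [Fin.rev_lt_rev]
  rcases lt_trichotomy α x with h | h | h
  · simp [h, h.not_gt]
  · simp [h]
  · simp [h, h.not_gt]

theorem sig_rev {q : ℕ} (s : Fin q → ℝ) (hs2 : ∀ α, s (Fin.rev α) = s α) (x : Fin q) :
    sig s (Fin.rev x) = - sig s x := by
  unfold sig
  rw [← Finset.expect_neg_distrib]
  refine (Fintype.expect_equiv Fin.revPerm _ _ fun α => ?_).symm
  rw [Fin.revPerm_apply, hs2, sgn_rev]; ring

theorem mb_eq {q : ℕ} (x : Fin q) : mb x = sig (fun _ => 1) x := by simp [mb, sig]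

theorem sig_flp {n q : ℕ} (s : Fin q → ℝ) (hs2 : ∀ α, s (Fin.rev α) = s α) (ε : Fin n → Bool)
    (ζ : Fin n → Fin q) (p : Fin n) : sig s (flp ε ζ p) = sig s (ζ p) * sb (ε p) := by
  unfold flp sb
  split_ifs
  · simp
  · rw [sig_rev s hs2]; ring

theorem abs_sig {q : ℕ} (s : Fin q → ℝ) (hs1 : ∀ α, |s α| ≤ 1) (x : Fin q) : |sig s x| ≤ 1 := by
  have : Nonempty (Fin q) := ⟨x⟩
  have h : ∀ α, |s α * sgn α x| ≤ 1 := fun α => by
    rw [abs_mul]; exact mul_le_one₀ (hs1 α) (abs_nonneg _) (abs_sgn _ _)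
  rw [abs_le]
  exact ⟨Finset.le_expect univ_nonempty fun α _ => (abs_le.1 (h α)).1,
    Finset.expect_le univ_nonempty fun α _ => (abs_le.1 (h α)).2⟩

theorem exp_half (a b : ℝ) : exp ((a + b) / 2) ≤ (exp a + exp b) / 2 := by
  have h1 : exp a = exp (a / 2) ^ 2 := by rw [← Real.exp_nat_mul]; congr 1; push_cast; ring
  have h2 : exp b = exp (b / 2) ^ 2 := by rw [← Real.exp_nat_mul]; congr 1; push_cast; ring
  rw [add_div, Real.exp_add, h1, h2]
  nlinarith [sq_nonneg (exp (a / 2) - exp (b / 2))]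

/-- the expected credit of one level, seen from a state with `r` digits left -/
noncomputable def BB {N : Type} [DecidableEq N] {n : ℕ} (q : ℕ) (cs lam K : ℝ)
    (A : ℕ → Fin n → ℝ) (H : ℕ → Fin n → Fin n → ℝ) (C : ℕ → ℝ) (lab : Fin n → N) (r t : ℕ) : ℝ :=
  (cs * ∑ p, A t p - (∑ p, ∑ p', (if p = p' then 1 else
      if lab p = lab p' then (q : ℝ) ^ (t + 1) / q ^ r else 0) * H t p p') - C t) / 2
    - lam ^ 2 * K / q ^ 2

theorem BB_succ {N : Type} [DecidableEq N] {n q : ℕ} (hq : 2 ≤ q) (cs lam K : ℝ)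
    (A : ℕ → Fin n → ℝ) (H : ℕ → Fin n → Fin n → ℝ) (C : ℕ → ℝ) (lab : Fin n → N) (r t : ℕ) :
    (𝔼 ξ : Fin n → Fin q, BB q cs lam K A H C (fun p => (lab p, ξ p)) r t) =
      BB q cs lam K A H C lab (r + 1) t := by
  have : Nonempty (Fin q) := ⟨⟨0, by omega⟩⟩
  have hq0 : (q : ℝ) ≠ 0 := by positivity
  have e1 : ∀ p p' : Fin n, (𝔼 ξ : Fin n → Fin q, (if p = p' then (1 : ℝ) else
      if (lab p, ξ p) = (lab p', ξ p') then (q : ℝ) ^ (t + 1) / q ^ r else 0) * H t p p') =
      (if p = p' then 1 else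
      if lab p = lab p' then (q : ℝ) ^ (t + 1) / q ^ (r + 1) else 0) * H t p p' := by
    intro p p'
    rw [← Finset.expect_mul]
    congr 1
    by_cases h : p = p'
    · simp only [if_pos h]
      exact Finset.expect_const univ_nonempty _
    · simp only [if_neg h]
      rw [expect_two p p' h fun b b' =>
        if (lab p, b) = (lab p', b') then (q : ℝ) ^ (t + 1) / q ^ r else 0]
      by_cases h2 : lab p = lab p'
      · simp only [h2, Prod.mk.injEq, true_and, if_true, expect_ite]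
        rw [Finset.expect_const univ_nonempty]
        field_simp
        ring
      · simp [h2]
  unfold BB
  simp only [div_eq_mul_inv _ (2 : ℝ), Finset.expect_sub_distrib, ← Finset.expect_mul,
    Finset.expect_sum_comm, Finset.expect_const univ_nonempty]
  simp only [Finset.expect_mul, e1]

theorem gam_bound {n q : ℕ} (hq : 2 ≤ q) (γ c Φ : Fin n → ℝ) (hc : ∀ p, |c p| ≤ 1) (K lam : ℝ)
    (hK : ∑ p, Φ p ^ 2 ≤ K) :
    2 * lam ^ 2 * ∑ p, ((γ p + c p * Φ p / 2) / q) ^ 2 ≤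
      lam ^ 2 * ∑ p, γ p ^ 2 + lam ^ 2 * K / q ^ 2 := by
  have hq' : (2 : ℝ) ≤ q := by exact_mod_cast hq
  have h4 : (4 : ℝ) ≤ (q : ℝ) ^ 2 := by nlinarith
  have e1 : ∑ p, 2 * ((γ p + c p * Φ p / 2) / q) ^ 2 ≤ ∑ p, (γ p ^ 2 + Φ p ^ 2 / q ^ 2) := by
    refine sum_le_sum fun p _ => ?_
    have h1 : c p ^ 2 ≤ 1 := by
      have := abs_le.1 (hc p)
      nlinarith
    have h2 : (c p * Φ p) ^ 2 ≤ Φ p ^ 2 := by
      rw [mul_pow]; nlinarith [sq_nonneg (Φ p)]
    have h3 : 2 * (γ p + c p * Φ p / 2) ^ 2 ≤ γ p ^ 2 * q ^ 2 + Φ p ^ 2 := by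
      nlinarith [sq_nonneg (γ p - c p * Φ p / 2), sq_nonneg (γ p),
        mul_le_mul_of_nonneg_left h4 (sq_nonneg (γ p))]
    rw [div_pow, ← mul_div_assoc, div_le_iff₀ (by positivity), add_mul,
      div_mul_cancel₀ _ (by positivity)]
    exact h3
  rw [← Finset.mul_sum, sum_add_distrib, ← Finset.sum_div] at e1
  have e2 : (∑ p, Φ p ^ 2) / (q : ℝ) ^ 2 ≤ K / q ^ 2 := by gcongr
  have e3 := mul_le_mul_of_nonneg_left (e1.trans (add_le_add le_rfl e2)) (sq_nonneg lam)
  calc _ = lam ^ 2 * (2 * ∑ p, ((γ p + c p * Φ p / 2) / q) ^ 2) := by ring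
    _ ≤ _ := e3
    _ = _ := by ring

theorem recur_aux {Ω : Type} [Fintype Ω] [Nonempty Ω] {n q : ℕ} (hq : 2 ≤ q) (Λ : ℕ)
    (s : Fin q → ℝ) (hs1 : ∀ α, |s α| ≤ 1) (hs2 : ∀ α, s (Fin.rev α) = s α)
    (hs3 : ∑ α, s α = 0) (cs : ℝ) (hcs : cs ≤ 𝔼 x, (𝔼 α, s α * sgn α x) ^ 2)
    (k : Ω → Fin n → ℝ) (I : ℕ → (Ω → ℝ) → Prop) (lam K : ℝ)
    (hlam : 0 < lam) (A : ℕ → Fin n → ℝ) (hA : ∀ r p, 0 ≤ A r p) (H : ℕ → Fin n → Fin n → ℝ)
    (C : ℕ → ℝ)
    (hstep : ∀ r < Λ, ∀ (N : Type) [Fintype N] [DecidableEq N] (lab : Fin n → N)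
      (ν : N → Ω → ℝ), Fintype.card N * q ^ (r + 1) = q ^ Λ → (∀ i b, 0 ≤ ν i b) →
      (∀ i, I (r + 1) (ν i)) → ∀ g : Fin n → ℝ, (∀ p, |g p| ≤ 1) →
      ∃ ψ : (Fin n → Bool) → N → Ω → ℝ, (∀ ε i b, |ψ ε i b| ≤ 1) ∧
        (∀ ε i (σ : ℝ), |σ| ≤ 1 → I r fun b => ν i b * (1 + σ * ψ ε i b / 2)) ∧
        (∀ ε, ∑ p, Phi k lab ν (ψ ε) p ^ 2 ≤ K) ∧
        𝔼 ε : Fin n → Bool, exp (-(lam * ∑ p, g p * sb (ε p) * Phi k lab ν (ψ ε) p)) ≤
          exp (-(∑ p, A r p * g p ^ 2
            - (∑ p, ∑ p', if lab p = lab p' then H r p p' else 0) - C r)))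
    (r : ℕ) : r ≤ Λ → ∀ (N : Type) [Fintype N] [DecidableEq N] (lab : Fin n → N),
      Fintype.card N * q ^ r = q ^ Λ → ∃ Cr : (Fin r → Fin n → Fin q) → ℝ,
      ∑ t ∈ range r, BB q cs lam K A H C lab r t ≤ 𝔼 ys, Cr ys ∧
      ∀ (χ : Fin n → ℝ) (ν : N → Ω → ℝ) (γ : Fin n → ℝ), (∀ p, χ p = 1 ∨ χ p = -1) →
        (∀ i b, 0 ≤ ν i b) → (∀ i, I r (ν i)) →
        𝔼 ys, exp (-(lam * XX k χ ys lab ν γ) + Cr ys) ≤ exp (2 * lam ^ 2 * ∑ p, γ p ^ 2) := by
  have : Nonempty (Fin q) := ⟨⟨0, by omega⟩⟩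
  have hq0 : (q : ℝ) ≠ 0 := by positivity
  induction r with
  | zero =>
    intro _ N _ _ lab _
    refine ⟨fun _ => 0, by simp, fun χ ν γ _ _ _ => ?_⟩
    refine Finset.expect_le univ_nonempty fun ys _ => exp_le_exp.2 ?_
    have e1 : XX k χ ys lab ν γ = 0 := by simp [XX, top, mm, lsg_zero]
    rw [e1]
    simp only [mul_zero, neg_zero, add_zero]
    positivity
  | succ r ih =>
    intro hr N _ _ lab hN
    have hN' : Fintype.card (N × Fin q) * q ^ r = q ^ Λ := by
      rw [Fintype.card_prod, Fintype.card_fin, ← hN]; ring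
    choose Cr hCr1 hCr2 using fun ξ : Fin n → Fin q =>
      ih (by omega) (N × Fin q) (fun p => (lab p, ξ p)) hN'
    set cr : (Fin n → Fin q) → ℝ := fun ξ => (∑ p, A r p * sig s (ξ p) ^ 2
      - (∑ p, ∑ p', if lab p = lab p' then H r p p' else 0) - C r) / 2
      - lam ^ 2 * K / q ^ 2 with hcr
    refine ⟨fun ys => cr (ys 0) + Cr (ys 0) (Fin.tail ys), ?_, fun χ ν γ hχ hν hI => ?_⟩
    · rw [expect_cons]
      simp only [Fin.cons_zero, Fin.tail_cons, Finset.expect_add_distrib,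
        Finset.expect_const univ_nonempty]
      rw [sum_range_succ, add_comm]
      refine add_le_add ?_ ?_
      · have e1 : ∀ p p' : Fin n, (if p = p' then 1 else
            if lab p = lab p' then (q : ℝ) ^ (r + 1) / q ^ (r + 1) else 0) * H r p p' =
            if lab p = lab p' then H r p p' else 0 := by
          intro p p'
          by_cases h : p = p'
          · simp [h]
          · by_cases h2 : lab p = lab p'
            · rw [if_neg h, if_pos h2, if_pos h2, div_self (by positivity), one_mul]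
            · simp [h, h2]
        have e2 : cs * ∑ p, A r p ≤ 𝔼 ξ : Fin n → Fin q, ∑ p, A r p * sig s (ξ p) ^ 2 := by
          rw [Finset.expect_sum_comm, Finset.mul_sum]
          refine sum_le_sum fun p _ => ?_
          rw [← Finset.mul_expect, expect_one p fun x => sig s x ^ 2, mul_comm]
          exact mul_le_mul_of_nonneg_left hcs (hA r p)
        unfold BB
        simp only [e1, hcr, div_eq_mul_inv _ (2 : ℝ), Finset.expect_sub_distrib,
          ← Finset.expect_mul, Finset.expect_const univ_nonempty]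
        linarith
      · refine le_trans (le_of_eq ?_) (Finset.expect_le_expect fun ξ _ => hCr1 ξ)
        rw [Finset.expect_sum_comm]
        exact sum_congr rfl fun t _ => (BB_succ hq cs lam K A H C lab r t).symm
    · rw [expect_cons, expect_flp]
      refine Finset.expect_le univ_nonempty fun ζ _ => ?_
      have hχ1 : ∀ p, |χ p| = 1 := fun p => by rcases hχ p with h | h <;> simp [h]
      have hχ2 : ∀ p, χ p ^ 2 = 1 := fun p => by rcases hχ p with h | h <;> simp [h]
      obtain ⟨ψ, h1, h2, h3, h4⟩ := hstep r (by omega) N lab ν hN hν hI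
        (fun p => χ p * sig s (ζ p)) fun p => by
          rw [abs_mul, hχ1, one_mul]; exact abs_sig s hs1 _
      set c0 := ∑ p, A r p * (χ p * sig s (ζ p)) ^ 2
        - (∑ p, ∑ p', if lab p = lab p' then H r p p' else 0) - C r with hc0
      set G := ∑ p, γ p ^ 2 with hG
      have hcr2 : ∀ ε, cr (flp ε ζ) = c0 / 2 - lam ^ 2 * K / q ^ 2 := by
        intro ε
        simp only [hcr, hc0, sig_flp s hs2, mul_pow, sb_sq, hχ2, mul_one, one_mul]
      have key : ∀ ε : Fin n → Bool, (𝔼 ys : Fin r → Fin n → Fin q,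
          exp (-(lam * XX k χ (Fin.cons (flp ε ζ) ys : Fin (r + 1) → Fin n → Fin q) lab ν γ)
            + (cr (flp ε ζ) + Cr (flp ε ζ) ys))) ≤
          exp (2 * lam ^ 2 * G) *
            ((exp c0 * exp (-(lam * ∑ p, χ p * sig s (ζ p) * sb (ε p) * Phi k lab ν (ψ ε) p))
            + exp (-(2 * lam ^ 2 * G)) *
              exp (∑ p, (-(2 * lam * γ p * mb (ζ p))) * sb (ε p))) / 2) := by
        intro ε
        have g1 := hCr2 (flp ε ζ) χ
          (fun i b => ν i.1 b * (1 + s i.2 * ψ ε i.1 b / 2))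
          (fun p => (γ p + χ p * s (flp ε ζ p) * Phi k lab ν (ψ ε) p / 2) / q) hχ
          (fun i b => by
            have t1 : |s i.2 * ψ ε i.1 b| ≤ 1 := by
              rw [abs_mul]; exact mul_le_one₀ (hs1 _) (abs_nonneg _) (h1 _ _ _)
            exact mul_nonneg (hν _ _) (by linarith [(abs_le.1 t1).1]))
          (fun i => h2 ε i.1 (s i.2) (hs1 _))
        have g2 := gam_bound hq γ (fun p => χ p * s (flp ε ζ p)) (Phi k lab ν (ψ ε))
          (fun p => by rw [abs_mul, hχ1, one_mul]; exact hs1 _) K lam (h3 ε)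
        set a := ∑ p, χ p * sig s (ζ p) * sb (ε p) * Phi k lab ν (ψ ε) p with ha
        set b := ∑ p, γ p * mb (ζ p) * sb (ε p) with hb
        have ea : ∑ p, χ p * sig s (flp ε ζ p) * Phi k lab ν (ψ ε) p / 2 = a / 2 := by
          rw [ha, Finset.sum_div]
          exact sum_congr rfl fun p _ => by rw [sig_flp s hs2]; ring
        have eb : ∑ p, γ p * mb (flp ε ζ p) = b :=
          sum_congr rfl fun p _ => by rw [mb_eq, mb_eq, sig_flp _ fun _ => rfl]; ring
        have eb2 : ∑ p, (-(2 * lam * γ p * mb (ζ p))) * sb (ε p) = -(2 * lam * b) := by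
          rw [hb, Finset.mul_sum, ← Finset.sum_neg_distrib]
          exact sum_congr rfl fun p _ => by ring
        rw [eb2, ← Real.exp_add, ← Real.exp_add]
        refine le_trans ?_ (mul_le_mul_of_nonneg_left (exp_half _ _) (exp_pos _).le)
        rw [← Real.exp_add]
        refine le_trans (Finset.expect_le_expect
          (g := fun ys => exp (-(lam * (a / 2 + b)) + cr (flp ε ζ)) *
            exp (-(lam * XX k χ ys (fun p => (lab p, flp ε ζ p))
              (fun i b => ν i.1 b * (1 + s i.2 * ψ ε i.1 b / 2))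
              (fun p => (γ p + χ p * s (flp ε ζ p) * Phi k lab ν (ψ ε) p / 2) / q))
              + Cr (flp ε ζ) ys)) fun ys _ => ?_) ?_
        · rw [← Real.exp_add]
          refine exp_le_exp.2 ?_
          have g3 := mul_le_mul_of_nonneg_left
            (XX_cons hq s hs1 hs3 k χ (flp ε ζ) ys lab ν (ψ ε) γ hν (h1 ε)) hlam.le
          rw [ea, eb] at g3
          linarith
        · rw [← Finset.mul_expect]
          refine (mul_le_mul_of_nonneg_left g1 (exp_pos _).le).trans ?_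
          rw [← Real.exp_add, hcr2]
          refine exp_le_exp.2 ?_
          linarith
      simp only [Fin.cons_zero, Fin.tail_cons]
      refine (Finset.expect_le_expect fun ε _ => key ε).trans ?_
      simp only [div_eq_mul_inv _ (2 : ℝ), ← Finset.mul_expect, ← Finset.expect_mul,
        Finset.expect_add_distrib]
      have f1 : exp c0 * (𝔼 ε : Fin n → Bool,
          exp (-(lam * ∑ p, χ p * sig s (ζ p) * sb (ε p) * Phi k lab ν (ψ ε) p))) ≤ 1 := by
        refine (mul_le_mul_of_nonneg_left h4 (exp_pos _).le).trans (le_of_eq ?_)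
        rw [← Real.exp_add]; simp
      have f2 : exp (-(2 * lam ^ 2 * G)) * (𝔼 ε : Fin n → Bool,
          exp (∑ p, (-(2 * lam * γ p * mb (ζ p))) * sb (ε p))) ≤ 1 := by
        refine (mul_le_mul_of_nonneg_left (hoeff _) (exp_pos _).le).trans ?_
        rw [← Real.exp_add, Real.exp_le_one_iff]
        have f3 : ∑ p, (-(2 * lam * γ p * mb (ζ p))) ^ 2 ≤ ∑ p, 4 * lam ^ 2 * γ p ^ 2 := by
          refine sum_le_sum fun p _ => ?_
          have t1 : mb (ζ p) ^ 2 ≤ 1 := by
            have := abs_le.1 (abs_sig (fun _ => 1) (fun _ => by simp) (ζ p))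
            rw [mb_eq]; nlinarith
          have t2 : 0 ≤ 4 * lam ^ 2 * γ p ^ 2 := by positivity
          nlinarith [mul_le_mul_of_nonneg_left t1 t2]
        rw [← Finset.mul_sum] at f3
        linarith
      refine mul_le_of_le_one_right (exp_pos _).le ?_
      linarith

theorem recur {Ω : Type} [Fintype Ω] [Nonempty Ω] {n q : ℕ} (hq : 2 ≤ q) (Λ : ℕ)
    (s : Fin q → ℝ) (hs1 : ∀ α, |s α| ≤ 1) (hs2 : ∀ α, s (Fin.rev α) = s α)
    (hs3 : ∑ α, s α = 0) (cs : ℝ) (hcs : cs ≤ 𝔼 x, (𝔼 α, s α * sgn α x) ^ 2)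
    (k : Ω → Fin n → ℝ) (I : ℕ → (Ω → ℝ) → Prop) (h0 : I Λ fun _ => 1) (lam K : ℝ)
    (hlam : 0 < lam) (A : ℕ → Fin n → ℝ) (hA : ∀ r p, 0 ≤ A r p) (H : ℕ → Fin n → Fin n → ℝ)
    (C : ℕ → ℝ)
    (hstep : ∀ r < Λ, ∀ (N : Type) [Fintype N] [DecidableEq N] (lab : Fin n → N)
      (ν : N → Ω → ℝ), Fintype.card N * q ^ (r + 1) = q ^ Λ → (∀ i b, 0 ≤ ν i b) →
      (∀ i, I (r + 1) (ν i)) → ∀ g : Fin n → ℝ, (∀ p, |g p| ≤ 1) →
      ∃ ψ : (Fin n → Bool) → N → Ω → ℝ, (∀ ε i b, |ψ ε i b| ≤ 1) ∧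
        (∀ ε i (σ : ℝ), |σ| ≤ 1 → I r fun b => ν i b * (1 + σ * ψ ε i b / 2)) ∧
        (∀ ε, ∑ p, Phi k lab ν (ψ ε) p ^ 2 ≤ K) ∧
        𝔼 ε : Fin n → Bool, exp (-(lam * ∑ p, g p * sb (ε p) * Phi k lab ν (ψ ε) p)) ≤
          exp (-(∑ p, A r p * g p ^ 2
            - (∑ p, ∑ p', if lab p = lab p' then H r p p' else 0) - C r))) :
    ∃ xs : Fin n → Fin Λ → Fin q, ∀ χ : Fin n → ℝ, (∀ p, χ p = 1 ∨ χ p = -1) →
      ∃ (a : Fin Λ → Fin q) (b : Ω),
        ∑ r ∈ range Λ, ((cs * ∑ p, A r p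
            - (∑ p, ∑ p', (if p = p' then 1 else (q : ℝ) ^ (r + 1) / q ^ Λ) * H r p p')
            - C r) / 2 - lam ^ 2 * K / q ^ 2) - n ≤
          2 * lam * |∑ p, χ p * (lsg a (xs p) * k b p)| := by
  have : Nonempty (Fin q) := ⟨⟨0, by omega⟩⟩
  obtain ⟨Cr, h1, h2⟩ := recur_aux hq Λ s hs1 hs2 hs3 cs hcs k I lam K hlam A hA H C hstep Λ le_rfl
    Unit (fun _ => ()) (by simp)
  set Z : (Fin Λ → Fin n → Fin q) → ℝ := fun ys => 𝔼 c : Fin n → Bool,
    exp (-(lam * XX k (fun p => sb (c p)) ys (fun _ => ()) (fun _ _ => 1) fun _ => 0) + Cr ys)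
    with hZ
  have hZ1 : 𝔼 ys, Z ys ≤ 1 := by
    simp only [hZ]
    rw [Finset.expect_comm]
    refine Finset.expect_le univ_nonempty fun c _ => ?_
    have := h2 (fun p => sb (c p)) (fun _ _ => 1) (fun _ => 0)
      (fun p => by cases c p <;> simp [sb]) (fun _ _ => zero_le_one) fun _ => h0
    simpa using this
  have h3 : ∑ t ∈ range Λ, BB q cs lam K A H C (fun _ => ()) Λ t ≤ 𝔼 ys, (Cr ys - Z ys + 1) := by
    rw [Finset.expect_add_distrib, Finset.expect_sub_distrib, Finset.expect_const univ_nonempty]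
    linarith
  obtain ⟨ys, -, hys⟩ := Finset.exists_le_of_le_expect univ_nonempty h3
  refine ⟨fun p t => ys t p, fun χ hχ => ?_⟩
  obtain ⟨⟨a, b⟩, hab⟩ := Finite.exists_max fun x : (Fin Λ → Fin q) × Ω =>
    |∑ p, χ p * ((lsg x.1 fun t => ys t p) * k x.2 p)|
  refine ⟨a, b, ?_⟩
  set D := |∑ p, χ p * ((lsg a fun t => ys t p) * k b p)|
  have hD : ∀ a' b', |∑ p, χ p * k b' p * lsg a' fun t => ys t p| ≤ D := fun a' b' => by
    refine le_trans (le_of_eq ?_) (hab (a', b'))
    congr 1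
    exact sum_congr rfl fun p _ => by ring
  have hX : XX k χ ys (fun _ => ()) (fun _ _ => 1) (fun _ => 0) ≤ 2 * D := by
    unfold XX
    simp only [zero_mul, sum_const_zero, add_zero, one_mul, if_true]
    refine Finset.expect_le univ_nonempty fun i _ => Finset.expect_le univ_nonempty fun b' _ => ?_
    have t1 : top ys (fun p => χ p * k b' p) ≤ D := ciSup_le fun a' => (abs_le.1 (hD a' b')).2
    have t2 : -D ≤ ∑ p, χ p * k b' p * mm ys p := by
      unfold mm
      simp only [Finset.mul_expect]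
      rw [← Finset.expect_sum_comm]
      exact Finset.le_expect univ_nonempty fun a' _ => (abs_le.1 (hD a' b')).1
    linarith
  have hc : χ = fun p => sb (decide (χ p = 1)) := by
    funext p
    rcases hχ p with h | h
    · simp [h, sb]
    · rw [h]; norm_num [sb]
  have h4 : exp (-(lam * XX k χ ys (fun _ => ()) (fun _ _ => 1) fun _ => 0) + Cr ys) ≤
      2 ^ n * Z ys := by
    simp only [hZ]
    rw [Fintype.expect_eq_sum_div_card]
    simp only [Fintype.card_fun, Fintype.card_bool, Fintype.card_fin, Nat.cast_pow, Nat.cast_ofNat]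
    rw [mul_div_cancel₀ _ (by positivity)]
    have t3 := Finset.single_le_sum (f := fun c : Fin n → Bool =>
      exp (-(lam * XX k (fun p => sb (c p)) ys (fun _ => ()) (fun _ _ => 1) fun _ => 0) + Cr ys))
      (fun _ _ => (exp_pos _).le) (mem_univ fun p => decide (χ p = 1))
    rw [← hc] at t3
    exact t3
  have h5 : (2 : ℝ) ^ n * Z ys ≤ exp (n + (Z ys - 1)) := by
    rw [Real.exp_add]
    have t4 : (2 : ℝ) ^ n ≤ exp n := by
      rw [← mul_one (n : ℝ), Real.exp_nat_mul]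
      exact pow_le_pow_left₀ (by norm_num) (by linarith [Real.add_one_le_exp 1]) n
    have t5 : 0 ≤ Z ys := expect_nonneg fun _ _ => (exp_pos _).le
    exact mul_le_mul t4 (by linarith [Real.add_one_le_exp (Z ys - 1)]) t5 (exp_pos _).le
  have h6 := exp_le_exp.1 (h4.trans h5)
  have h7 := mul_le_mul_of_nonneg_left hX hlam.le
  simp only [BB, if_true] at hys
  linarith

end Pool.Agent.P.MP_e00059_co.HD
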