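import Mathlib
import Pool.Agent.P.MP_e00059_co.QG
import Pool.Agent.P.MP_e00059_co.QR
import Pool.Agent.P.MP_e00059_co.QCn

/-! Choice of the constants and the combinatorial lower bound. -/

namespace Pool.Agent.P.MP_e00059_co.HD

open Finset Real
open scoped BigOperators

theorem avg_two {B : Type} [Fintype B] [Nonempty B] {n : ℕ} (H : B → B → ℝ) (ρ hd ho : ℝ)
    (hρ : 0 ≤ ρ) (hho : 0 ≤ ho) (h1 : ∀ b, H b b ≤ hd) (h2 : ∀ b, 𝔼 b', H b b' ≤ ho) :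
    𝔼 w : Fin n → B, ∑ p, ∑ p', (if p = p' then 1 else ρ) * H (w p) (w p') ≤
      n * hd + (n : ℝ) ^ 2 * ρ * ho := by
  simp only [Finset.expect_sum_comm]
  calc _ ≤ ∑ p : Fin n, ∑ p' : Fin n, ((if p = p' then hd else 0) + ρ * ho) := by
        refine sum_le_sum fun p _ => sum_le_sum fun p' _ => ?_
        by_cases h : p = p'
        · subst h
          simp only [if_true, one_mul]
          have := Finset.expect_le (s := univ) (f := fun w : Fin n → B => H (w p) (w p))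
            univ_nonempty fun w _ => h1 (w p)
          have := mul_nonneg hρ hho
          linarith
        · simp only [if_neg h, zero_add]
          rw [← Finset.mul_expect, expect_two p p' h H]
          exact mul_le_mul_of_nonneg_left (Finset.expect_le univ_nonempty fun b _ => h2 b) hρ
    _ = _ := by
        simp only [Finset.sum_add_distrib, Finset.sum_ite_eq, mem_univ, if_true, sum_const,
          card_univ, Fintype.card_fin, nsmul_eq_mul]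
        ring

theorem lev_common (m W S Sb σ y c : ℝ) (hm : 0 < m) (hW : 0 < W) (h2 : Sb ≤ m)
    (h3 : 0 ≤ Sb) (h4 : Sb ≤ σ * S) (hy : 1 ≤ y) (hc : 0 ≤ c) :
    c ^ 2 * y ^ 2 * W * Sb * (Sb / m) + c * y ^ 3 * Sb * W ≤
      y ^ 3 * (c ^ 2 + c) * σ * (S * W) := by
  have k1 : Sb / m ≤ 1 := (div_le_one hm).2 h2
  have k2 : y ^ 2 ≤ y ^ 3 := pow_le_pow_right₀ hy (by norm_num)
  have k3 : 0 ≤ y := by linarith
  calc _ ≤ c ^ 2 * y ^ 3 * W * (σ * S) * 1 + c * y ^ 3 * (σ * S) * W := by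
        have : 0 ≤ σ * S := h3.trans h4
        gcongr
    _ = _ := by ring

theorem level (n m W S Sb σ x y ρ ϑ c lam1 cT a8 P4 P3 B0 α L2 B T : ℝ) (hm : 1 ≤ m) (hW : 0 < W)
    (hS : 0 ≤ S) (hx : 0 < x) (hy : 1 ≤ y) (hn : n = m * W) (h1 : S ≤ m) (h2 : Sb ≤ m)
    (h3 : 0 ≤ Sb) (h4 : Sb ≤ σ * S) (hϑ : 0 ≤ ϑ) (hϑ1 : ϑ ≤ 1) (hc : 0 ≤ c) (hB0 : 0 ≤ B0)
    (hl : 0 < lam1) (hcT : 0 < cT) (ha8 : 0 < a8) (hP4 : 0 ≤ P4)
    (hρ : ρ = y / (W * x)) (hα : α = lam1 / (m * a8)) (hL2 : L2 = lam1 ^ 2 * W ^ 2 / m ^ 2)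
    (hB : B = B0 * W ^ 2 / m ^ 2) (hT : T = cT * m) :
    n * (α * S / T + L2 * ρ ^ 2 * (P4 * (x / y) ^ 2 * S ^ 2 + (c * Sb * x * ϑ) ^ 2)
        + B * ρ ^ 2 * (c * Sb * x) ^ 2)
      + n ^ 2 * ρ * (α * (S * (x / y)) / T
        + L2 * ρ ^ 2 * (P4 * (x / y) ^ 2 * (P3 * (S * (x / y))) + c * Sb * x ^ 3 * ϑ)
        + B * ρ ^ 2 * (c * Sb * x ^ 3)) ≤
      (2 * (lam1 / (a8 * cT)) + lam1 ^ 2 * P4 * (1 + P3)
        + lam1 ^ 2 * ϑ * (y ^ 3 * (c ^ 2 + c) * σ) + B0 * (y ^ 3 * (c ^ 2 + c) * σ)) *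
        (S * W) := by
  have hm0 : 0 < m := by linarith
  have hy0 : 0 < y := by linarith
  have com := lev_common m W S Sb σ y c hm0 hW h2 h3 h4 hy hc
  have e1 : n * (α * S / T + L2 * ρ ^ 2 * (P4 * (x / y) ^ 2 * S ^ 2 + (c * Sb * x * ϑ) ^ 2)
        + B * ρ ^ 2 * (c * Sb * x) ^ 2)
      + n ^ 2 * ρ * (α * (S * (x / y)) / T
        + L2 * ρ ^ 2 * (P4 * (x / y) ^ 2 * (P3 * (S * (x / y))) + c * Sb * x ^ 3 * ϑ)
        + B * ρ ^ 2 * (c * Sb * x ^ 3)) =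
      lam1 / (a8 * cT) * (S * W) * (1 / m + 1) + lam1 ^ 2 * P4 * (S * W) * (S / m + P3)
        + lam1 ^ 2 * ϑ * (ϑ * (c ^ 2 * y ^ 2 * W * Sb * (Sb / m)) + c * y ^ 3 * Sb * W)
        + B0 * (c ^ 2 * y ^ 2 * W * Sb * (Sb / m) + c * y ^ 3 * Sb * W) := by
    rw [hn, hρ, hα, hL2, hB, hT]
    field_simp
    ring
  rw [e1]
  have k1 : 1 / m ≤ 1 := (div_le_one hm0).2 hm
  have k2 : S / m ≤ 1 := (div_le_one hm0).2 h1
  have k3 : ϑ * (c ^ 2 * y ^ 2 * W * Sb * (Sb / m)) ≤ c ^ 2 * y ^ 2 * W * Sb * (Sb / m) :=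
    mul_le_of_le_one_left (by positivity) hϑ1
  have t1 : lam1 / (a8 * cT) * (S * W) * (1 / m + 1) ≤ lam1 / (a8 * cT) * (S * W) * (1 + 1) := by
    gcongr
  have t2 : lam1 ^ 2 * P4 * (S * W) * (S / m + P3) ≤ lam1 ^ 2 * P4 * (S * W) * (1 + P3) := by
    gcongr
  have t3 : lam1 ^ 2 * ϑ * (ϑ * (c ^ 2 * y ^ 2 * W * Sb * (Sb / m)) + c * y ^ 3 * Sb * W) ≤
      lam1 ^ 2 * ϑ * (y ^ 3 * (c ^ 2 + c) * σ * (S * W)) :=
    mul_le_mul_of_nonneg_left (by linarith) (by positivity)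
  have t4 := mul_le_mul_of_nonneg_left com hB0
  linarith

theorem avg_level {e M n : ℕ} (l1 j0 j1 : ℕ) (J : Finset (Fin (e + 1) → Fin M))
    (hJ : ∀ j ∈ J, lv j = l1 + e + j0) (c α T L2 B ρ : ℝ) (hc0 : 0 ≤ c) (hα : 0 ≤ α)
    (hT : 0 < T) (hL2 : 0 ≤ L2) (hB : 0 ≤ B) (hρ : 0 ≤ ρ)
    (hc : ∀ (i : ℕ) (w : Om (e + 1) M),
      KK l1 i w w ≤ c * (M : ℝ) ^ e * (1 / 4 : ℝ) ^ l1 * (3 / 4 : ℝ) ^ i ∧
      𝔼 w', KK l1 i w w' ^ 2 ≤ c * (M : ℝ) ^ e * (1 / 64 : ℝ) ^ l1 * (3 / 4 : ℝ) ^ i)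
    (x y : ℝ) (hx : x = (1 / 4 : ℝ) ^ l1) (hy : y = 4 ^ (e + j0)) :
    𝔼 w : Fin n → Om (e + 1) M, ∑ p, ∑ p', (if p = p' then 1 else ρ) *
      (α * kap J (w p) (w p') / T
        + L2 * ρ ^ 2 * (4 ^ (e + 1) * (1 / 16 : ℝ) ^ (l1 + e + j0) * kap J (w p) (w p') ^ 2
          + KK l1 j1 (w p) (w p') ^ 2) + B * ρ ^ 2 * KK l1 0 (w p) (w p') ^ 2) ≤
    n * (α * J.card / T + L2 * ρ ^ 2 * (4 ^ (e + 1) * (x / y) ^ 2 * (J.card : ℝ) ^ 2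
          + (c * (M : ℝ) ^ e * x * (3 / 4 : ℝ) ^ j1) ^ 2) + B * ρ ^ 2 * (c * (M : ℝ) ^ e * x) ^ 2)
      + (n : ℝ) ^ 2 * ρ * (α * (J.card * (x / y)) / T
        + L2 * ρ ^ 2 * (4 ^ (e + 1) * (x / y) ^ 2 * (3 ^ (e + 1) * (J.card * (x / y)))
          + c * (M : ℝ) ^ e * x ^ 3 * (3 / 4 : ℝ) ^ j1)
        + B * ρ ^ 2 * (c * (M : ℝ) ^ e * x ^ 3)) := by
  have e1 : (1 / 4 : ℝ) ^ (l1 + e + j0) = x / y := by
    rw [hx, hy, add_assoc, pow_add, one_div_pow 4 (e + j0)]; ring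
  have e2 : (1 / 16 : ℝ) ^ (l1 + e + j0) = (x / y) ^ 2 := by
    rw [← e1, ← pow_mul, mul_comm, pow_mul]; norm_num
  have e3 : (1 / 64 : ℝ) ^ l1 = x ^ 3 := by
    rw [hx, ← pow_mul, mul_comm, pow_mul]; norm_num
  have hx0 : 0 < x := by rw [hx]; positivity
  have hy0 : 0 < y := by rw [hy]; positivity
  rw [e2]
  refine avg_two (fun w w' : Om (e + 1) M => α * kap J w w' / T
        + L2 * ρ ^ 2 * (4 ^ (e + 1) * (x / y) ^ 2 * kap J w w' ^ 2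
          + KK l1 j1 w w' ^ 2) + B * ρ ^ 2 * KK l1 0 w w' ^ 2) ρ _ _ hρ (by positivity)
    (fun w => ?_) fun w => ?_
  · have k1 := (hc j1 w).1
    have k2 := (hc 0 w).1
    rw [← hx] at k1 k2
    rw [pow_zero, mul_one] at k2
    have k3 := KK_nonneg l1 j1 w w
    have k4 := KK_nonneg l1 0 w w
    simp only [kap_self]
    gcongr
  · have k1 := (hc j1 w).2
    have k2 := (hc 0 w).2
    rw [e3] at k1 k2
    rw [pow_zero, mul_one] at k2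
    have k3 := expect_kap J _ hJ w
    have k4 := expect_kap_sq J _ hJ w
    rw [e1] at k3 k4
    simp only [Finset.expect_add_distrib, div_eq_mul_inv _ T, ← Finset.mul_expect,
      ← Finset.expect_mul, k3]
    gcongr

theorem core (e : ℕ) : ∃ (a : ℕ) (c1 c2 c3 : ℝ), 0 < c1 ∧ 0 < c2 ∧ 0 < c3 ∧
    ∀ Λ : ℕ, 1 ≤ Λ → ∀ n : ℕ, c1 * (Λ : ℝ) ^ e * 4 ^ (a * Λ) ≤ n →
      (n : ℝ) ≤ c2 * (Λ : ℝ) ^ (e + 1) * 4 ^ (a * Λ) →
      ∃ (M q : ℕ) (xs : Fin n → Fin Λ → Fin q) (w : Fin n → Om (e + 1) M),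
        ∀ χ : Fin n → ℝ, (∀ p, χ p = 1 ∨ χ p = -1) → ∃ (x : Fin Λ → Fin q) (b : Om (e + 1) M),
          c3 * Λ * √(n * (Λ : ℝ) ^ e / 4 ^ (a * Λ)) ≤
            |∑ p, χ p * (lsg x (xs p) * kk b (w p))| := by
  obtain ⟨c, hc1, hc⟩ := KK_bounds e
  have hc0 : 0 ≤ c := by linarith
  obtain ⟨a8, ha8⟩ : ∃ a8 : ℝ, a8 = 8 * 2 ^ (e + 1) := ⟨_, rfl⟩
  obtain ⟨P4, hP4⟩ : ∃ P4 : ℝ, P4 = 4 ^ (e + 1) := ⟨_, rfl⟩
  obtain ⟨P3, hP3⟩ : ∃ P3 : ℝ, P3 = 3 ^ (e + 1) := ⟨_, rfl⟩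
  have a80 : 0 < a8 := by rw [ha8]; positivity
  have P40 : 0 < P4 := by rw [hP4]; positivity
  have P30 : 0 < P3 := by rw [hP3]; positivity
  obtain ⟨lam1, hlam1⟩ : ∃ lam1 : ℝ, lam1 = 1 / (1024 * a8 * P4 * (P4 * (1 + P3))) := ⟨_, rfl⟩
  have lam10 : 0 < lam1 := by rw [hlam1]; positivity
  obtain ⟨υ, hυ⟩ : ∃ υ : ℝ, υ = lam1 / (a8 * (1024 * P4)) := ⟨_, rfl⟩
  have υ0 : 0 < υ := by rw [hυ]; positivity
  have hυ2 : lam1 ^ 2 * P4 * (1 + P3) = υ := by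
    rw [hυ, sq]
    nth_rewrite 2 [hlam1]
    field_simp
  obtain ⟨σ, hσ⟩ : ∃ σ : ℝ, σ = ((e : ℝ) + 2) ^ e := ⟨_, rfl⟩
  have σ1 : 1 ≤ σ := by
    rw [hσ]; exact one_le_pow₀ (by have := Nat.cast_nonneg (α := ℝ) e; linarith)
  have c51 : 1 ≤ (c ^ 2 + c) * σ * 64 ^ e :=
    one_le_mul_of_one_le_of_one_le (one_le_mul_of_one_le_of_one_le (by nlinarith) σ1)
      (one_le_pow₀ (by norm_num))
  obtain ⟨j0, j1, k, θ0, K0, hk, hj, hj', θ00, K00, n1, n2, n3, n4, n5, n6, n7⟩ :=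
    numbers e υ lam1 (1024 * P4) ((c ^ 2 + c) * σ * 64 ^ e) σ υ0 lam10 (by positivity) c51 σ1
  have j10 : (0 : ℝ) < j1 := by exact_mod_cast (by omega : 0 < j1)
  obtain ⟨y, hy⟩ : ∃ y : ℝ, y = 4 ^ (e + j0) := ⟨_, rfl⟩
  have y1 : 1 ≤ y := by rw [hy]; exact one_le_pow₀ (by norm_num)
  have y0 : 0 < y := by linarith
  have y3 : y ^ 3 = 64 ^ e * 64 ^ j0 := by
    rw [hy, ← pow_mul, mul_comm, pow_mul, ← pow_add]; norm_num
  refine ⟨(e + 1) * j1, σ * (j1 : ℝ) ^ e * (y / 4 ^ j1), υ * (j1 : ℝ) ^ e * (y / 4 ^ j1),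
    υ * θ0 / lam1 * √((j1 : ℝ) ^ e / (y / 4 ^ j1)), by positivity, by positivity, by positivity,
    fun Λ hΛ n hn1 hn2 => ?_⟩
  have Λ1 : (1 : ℝ) ≤ Λ := by exact_mod_cast hΛ
  obtain ⟨W, hW⟩ : ∃ W : ℝ, W = 4 ^ ((e + 1) * j1 * Λ) * (y / 4 ^ j1) := ⟨_, rfl⟩
  have W0 : 0 < W := by rw [hW]; positivity
  obtain ⟨u, hu⟩ : ∃ u : ℕ, u = j1 * Λ := ⟨_, rfl⟩
  obtain ⟨M, hM⟩ : ∃ M : ℕ, M = e * u + e + Λ * j1 := ⟨_, rfl⟩
  have u1' : j1 ≤ u := by rw [hu]; exact Nat.le_mul_of_pos_right _ hΛ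
  have uM : u ≤ M := by rw [hM, hu, mul_comm Λ j1]; omega
  have Mu : M ≤ (e + 2) * u := by
    rw [hM, mul_comm Λ j1, ← hu, add_mul]; omega
  obtain ⟨S, hS⟩ : ∃ S : ℝ, S = (u : ℝ) ^ e := ⟨_, rfl⟩
  have S1 : 1 ≤ S := by
    rw [hS]; exact one_le_pow₀ (by exact_mod_cast (by omega : 1 ≤ u))
  have S0 : 0 < S := by linarith
  have hS' : S = (j1 : ℝ) ^ e * (Λ : ℝ) ^ e := by rw [hS, hu]; push_cast; rw [mul_pow]
  have SSb : S ≤ (M : ℝ) ^ e := by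
    rw [hS]; exact pow_le_pow_left₀ (Nat.cast_nonneg _) (by exact_mod_cast uM) _
  have Sbσ : (M : ℝ) ^ e ≤ σ * S := by
    rw [hS, hσ, ← mul_pow]
    exact pow_le_pow_left₀ (Nat.cast_nonneg _) (by exact_mod_cast Mu) _
  obtain ⟨m, hm⟩ : ∃ m : ℝ, m = n / W := ⟨_, rfl⟩
  have hnm : (n : ℝ) = m * W := by rw [hm]; field_simp
  have Sbm : (M : ℝ) ^ e ≤ m := by
    rw [hm, le_div_iff₀ W0]
    refine le_trans ?_ hn1
    calc _ ≤ σ * S * W := by gcongr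
      _ = _ := by rw [hS', hW]; ring
  have m1 : 1 ≤ m := S1.trans (SSb.trans Sbm)
  have m0 : 0 < m := by linarith
  have hn3 : (n : ℝ) ≤ υ * (S * W) * Λ := by
    refine hn2.trans (le_of_eq ?_)
    rw [hS', hW]; ring
  obtain ⟨R, hR⟩ : ∃ R : ℝ, R = √(m * S) := ⟨_, rfl⟩
  have R0 : 0 < R := by rw [hR]; positivity
  have R2 : R ^ 2 = m * S := by rw [hR, Real.sq_sqrt (by positivity)]
  obtain ⟨θ, hθ⟩ : ∃ θ : ℝ, θ = θ0 / R := ⟨_, rfl⟩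
  have θp : 0 < θ := by rw [hθ]; positivity
  have θ2 : θ ^ 2 = θ0 ^ 2 / (m * S) := by rw [hθ, div_pow, R2]
  obtain ⟨lam, hlam⟩ : ∃ lam : ℝ, lam = lam1 * W / (m * θ) := ⟨_, rfl⟩
  have lam0 : 0 < lam := by rw [hlam]; positivity
  obtain ⟨K, hK⟩ : ∃ K : ℝ, K = K0 * m / W := ⟨_, rfl⟩
  have Kp : 0 < K := by rw [hK]; positivity
  obtain ⟨T, hT⟩ : ∃ T : ℝ, T = 1024 * P4 * m := ⟨_, rfl⟩
  have Tp : 0 < T := by rw [hT]; positivity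
  obtain ⟨α, hα⟩ : ∃ α : ℝ, α = lam1 / (m * a8) := ⟨_, rfl⟩
  have αp : 0 < α := by rw [hα]; positivity
  have L2 : lam ^ 2 * θ ^ 2 = lam1 ^ 2 * W ^ 2 / m ^ 2 := by rw [hlam]; field_simp
  have θST : θ ^ 2 * (S * T) = θ0 ^ 2 * (1024 * P4) := by rw [θ2, hT]; field_simp
  have hB : lam ^ 2 * θ ^ 4 * (S * T) / 2 + (2 * k + 1) / K ^ 2 =
      (lam1 ^ 2 * θ0 ^ 2 * (1024 * P4) / 2 + (2 * k + 1) / K0 ^ 2) * W ^ 2 / m ^ 2 := by
    have : lam ^ 2 * θ ^ 4 * (S * T) = (lam ^ 2 * θ ^ 2) * (θ ^ 2 * (S * T)) := by ring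
    rw [this, L2, θST, hK]
    field_simp
  have LK : lam ^ 2 * K = lam1 ^ 2 * K0 / θ0 ^ 2 * (S * W) := by
    have : lam ^ 2 = lam1 ^ 2 * W ^ 2 / m ^ 2 / θ ^ 2 := by rw [← L2]; field_simp
    rw [this, θ2, hK]
    field_simp
  obtain ⟨q, hq⟩ : ∃ q : ℕ, q = 4 * 4 ^ (j1 - 1) := ⟨_, rfl⟩
  have hq' : (q : ℝ) = 4 ^ j1 := by
    rw [hq, ← pow_succ', show j1 - 1 + 1 = j1 by omega]; push_cast; rfl
  have hdig : ∃ s : Fin q → ℝ, (∀ α, |s α| ≤ 1) ∧ (∀ α, s (Fin.rev α) = s α) ∧ ∑ α, s α = 0 ∧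
      (1 / 64 : ℝ) ≤ 𝔼 x, (𝔼 α, s α * sgn α x) ^ 2 := by
    rw [hq]; exact digit _ (by positivity)
  obtain ⟨s, s1, s2, s3, s4⟩ := hdig
  have q2 : 2 ≤ q := by
    have : 0 < 4 ^ (j1 - 1) := by positivity
    omega
  have hlev : ∀ r < Λ, e * u + r * j1 + e + j1 ≤ M := by
    intro r hr
    have := Nat.mul_le_mul_right j1 (show r + 1 ≤ Λ from hr)
    rw [add_mul] at this
    omega
  have hJ : ∀ r : ℕ, ∃ J : Finset (Fin (e + 1) → Fin M), r < Λ →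
      (J.card : ℝ) = S ∧ ∀ j ∈ J, lv j = e * u + r * j1 + e + j0 := by
    intro r
    by_cases hr : r < Λ
    · have := hlev r hr
      obtain ⟨J, h1, h2⟩ := exists_shapes (e := e) (M := M) u (e * u + r * j1 + e + j0)
        (by omega) (by omega) uM
      exact ⟨J, fun _ => ⟨by rw [h1, hS]; push_cast; rfl, h2⟩⟩
    · exact ⟨∅, fun h => absurd h hr⟩
  choose J hJ using hJ
  obtain ⟨ρ, hρ⟩ : ∃ ρ : ℕ → ℝ, ρ = fun r => (q : ℝ) ^ (r + 1) / q ^ Λ := ⟨_, rfl⟩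
  have hρ2 : ∀ r, ρ r = y / (W * (1 / 4 : ℝ) ^ (e * u + r * j1)) := by
    intro r
    rw [hρ, hW, hu]
    simp only [hq', one_div_pow]
    field_simp
    simp only [← pow_mul, ← pow_add]
    congr 1
    ring
  have ρ0 : ∀ r, 0 < ρ r := fun r => by rw [hρ2]; positivity
  obtain ⟨H, hH⟩ : ∃ H : ℕ → Om (e + 1) M → Om (e + 1) M → ℝ, H = fun r w w' =>
      α * kap (J r) w w' / T
        + lam ^ 2 * θ ^ 2 * ρ r ^ 2 *
          (4 ^ (e + 1) * (1 / 16 : ℝ) ^ (e * u + r * j1 + e + j0) * kap (J r) w w' ^ 2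
            + KK (e * u + r * j1) j1 w w' ^ 2)
        + (lam ^ 2 * θ ^ 4 * (S * T) / 2 + (2 * k + 1) / K ^ 2) * ρ r ^ 2 *
          KK (e * u + r * j1) 0 w w' ^ 2 := ⟨_, rfl⟩
  obtain ⟨C, hC⟩ : ∃ C : ℝ, C = (2 * k + 1) * (W / 4 ^ j0 * (M : ℝ) ^ e)
      + lam ^ 2 * K / 2 ^ k + 2 := ⟨_, rfl⟩
  have W1 : (4 : ℝ) ^ j0 ≤ W := by
    rw [hW, hy, mul_div_assoc', le_div_iff₀ (by positivity), ← pow_add, ← pow_add]
    refine pow_le_pow_right₀ (by norm_num) ?_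
    rw [mul_assoc, ← hu, add_mul]
    omega
  have D0 : 0 < S * W := by positivity
  have hC2 : C ≤ 2 * υ * (S * W) := by
    have k1 : (2 * k + 1 : ℝ) * (W / 4 ^ j0 * (M : ℝ) ^ e) ≤
        (2 * k + 1) * (W / 4 ^ j0 * (σ * S)) := by gcongr
    have k2 : (2 : ℝ) ≤ 2 / 4 ^ j0 * (S * W) := by
      rw [div_mul_eq_mul_div, le_div_iff₀ (by positivity)]
      nlinarith
    have k3 := mul_le_mul_of_nonneg_right n4 D0.le
    have k4 := mul_le_mul_of_nonneg_right n5 D0.le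
    have k5 : lam ^ 2 * K / 2 ^ k = lam1 ^ 2 * K0 / (θ0 ^ 2 * 2 ^ k) * (S * W) := by
      rw [LK]; field_simp
    have k6 : ((2 * k + 1 : ℝ) * σ + 2) / 4 ^ j0 * (S * W) =
        (2 * k + 1) * (W / 4 ^ j0 * (σ * S)) + 2 / 4 ^ j0 * (S * W) := by ring
    rw [hC]
    linarith
  have hq3 : lam ^ 2 * K / (q : ℝ) ^ 2 ≤ υ * (S * W) / 2 := by
    have k4 := mul_le_mul_of_nonneg_right n7 D0.le
    have k5 : lam ^ 2 * K / (q : ℝ) ^ 2 =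
        2 * lam1 ^ 2 * K0 / (θ0 ^ 2 * 16 ^ j1) * (S * W) / 2 := by
      rw [LK, hq', ← pow_mul, mul_comm j1 2, pow_mul]
      norm_num
      field_simp
    linarith
  have hex : ∃ w : Fin n → Om (e + 1) M, 3 * υ * (S * W) * Λ ≤
      ∑ r ∈ range Λ, ((1 / 64 * ∑ p, α * mid (J r) (w p)
        - (∑ p, ∑ p', (if p = p' then 1 else ρ r) * H r (w p) (w p')) - C) / 2
        - lam ^ 2 * K / (q : ℝ) ^ 2) := by
    obtain ⟨w, _, hw⟩ := Finset.exists_le_of_le_expect (s := univ) (a := 3 * υ * (S * W) * Λ)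
      (f := fun w : Fin n → Om (e + 1) M => ∑ r ∈ range Λ,
        ((1 / 64 * ∑ p, α * mid (J r) (w p)
        - (∑ p, ∑ p', (if p = p' then 1 else ρ r) * H r (w p) (w p')) - C) / 2
        - lam ^ 2 * K / (q : ℝ) ^ 2)) univ_nonempty (by
      rw [Finset.expect_sum_comm]
      calc 3 * υ * (S * W) * Λ = ∑ _r ∈ range Λ, 3 * υ * (S * W) := by
            rw [sum_const, card_range, nsmul_eq_mul]; ring
        _ ≤ _ := sum_le_sum fun r hr => ?_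
      obtain ⟨J1, J2⟩ := hJ r (mem_range.1 hr)
      have g1 : 𝔼 w : Fin n → Om (e + 1) M, ∑ p, α * mid (J r) (w p) =
          1024 * υ * (S * W) := by
        rw [Finset.expect_sum_comm]
        simp only [← Finset.mul_expect, expect_one _ (mid (J r)), expect_mid, J1, sum_const,
          card_univ, Fintype.card_fin, nsmul_eq_mul]
        rw [hnm, hα, hυ, one_div_pow, ← hP4]
        field_simp
      have g2 := avg_level (n := n) (e * u + r * j1) j0 j1 (J r) J2 c α T (lam ^ 2 * θ ^ 2)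
        (lam ^ 2 * θ ^ 4 * (S * T) / 2 + (2 * k + 1) / K ^ 2) (ρ r) hc0 αp.le Tp (by positivity)
        (by positivity) (ρ0 r).le (fun i w => hc M _ i w) _ y rfl hy
      have g3 := level n m W S ((M : ℝ) ^ e) σ ((1 / 4 : ℝ) ^ (e * u + r * j1)) y (ρ r)
        ((3 / 4 : ℝ) ^ j1) c lam1 (1024 * P4) a8 P4 P3
        (lam1 ^ 2 * θ0 ^ 2 * (1024 * P4) / 2 + (2 * k + 1) / K0 ^ 2) α _ _ T m1 W0 S0.le
        (by positivity) y1 hnm (SSb.trans Sbm) Sbm (by positivity) Sbσ (by positivity)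
        (pow_le_one₀ (by norm_num) (by norm_num)) hc0 (by positivity) lam10 (by positivity) a80
        P40.le (hρ2 r) hα L2 hB hT
      rw [J1, ← hP4, ← hP3] at g2
      have g4 : (2 * (lam1 / (a8 * (1024 * P4))) + lam1 ^ 2 * P4 * (1 + P3)
          + lam1 ^ 2 * (3 / 4 : ℝ) ^ j1 * (y ^ 3 * (c ^ 2 + c) * σ)
          + (lam1 ^ 2 * θ0 ^ 2 * (1024 * P4) / 2 + (2 * k + 1) / K0 ^ 2) *
            (y ^ 3 * (c ^ 2 + c) * σ)) ≤ 6 * υ := by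
        rw [← hυ, hυ2, y3]
        have e2 : lam1 ^ 2 * (3 / 4 : ℝ) ^ j1 * (64 ^ e * 64 ^ j0 * (c ^ 2 + c) * σ) =
          lam1 ^ 2 * (3 / 4 : ℝ) ^ j1 * 64 ^ j0 * ((c ^ 2 + c) * σ * 64 ^ e) := by ring
        have e3 : (lam1 ^ 2 * θ0 ^ 2 * (1024 * P4) / 2 + (2 * k + 1) / K0 ^ 2) *
            (64 ^ e * 64 ^ j0 * (c ^ 2 + c) * σ) =
            lam1 ^ 2 * θ0 ^ 2 * (1024 * P4) * ((c ^ 2 + c) * σ * 64 ^ e) * 64 ^ j0 / 2 +
            (2 * k + 1) * ((c ^ 2 + c) * σ * 64 ^ e) * 64 ^ j0 / K0 ^ 2 := by ring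
        rw [e2, e3]
        linarith
      have g5 : 𝔼 w : Fin n → Om (e + 1) M,
          (∑ p, ∑ p', (if p = p' then 1 else ρ r) * H r (w p) (w p')) ≤ 6 * υ * (S * W) := by
        simp only [hH, ← hP4]
        exact g2.trans (g3.trans (mul_le_mul_of_nonneg_right g4 D0.le))
      simp only [Finset.expect_sub_distrib, div_eq_mul_inv _ (2 : ℝ), ← Finset.expect_mul,
        ← Finset.mul_expect, g1, Finset.expect_const univ_nonempty]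
      have := mul_pos υ0 D0
      linarith)
    exact ⟨w, hw⟩
  obtain ⟨w, hw⟩ := hex
  obtain ⟨xs, hxs⟩ := recur q2 Λ s s1 s2 s3 (1 / 64) s4 (fun b p => kk b (w p))
    (fun r ν => Inv j1 (e * u + r * j1 + e) ν) (inv_one _ _ (by omega)) lam K lam0
    (fun r p => α * mid (J r) (w p)) (fun r p => mul_nonneg αp.le (mid_nonneg _ _))
    (fun r p p' => H r (w p) (w p')) (fun _ => C) (by
      intro r hr N _ _ lab ν hN hν hI g hg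
      obtain ⟨J1, J2⟩ := hJ r hr
      have hl := hlev r hr
      have hN' : (Fintype.card N : ℝ) * ρ r = 1 := by
        have : (Fintype.card N : ℝ) * (q : ℝ) ^ (r + 1) = (q : ℝ) ^ Λ := by exact_mod_cast hN
        rw [hρ]
        simp only []
        rw [← mul_div_assoc, this, div_self (by rw [hq']; positivity)]
      have hN2 : (Fintype.card N : ℝ) * (M : ℝ) ^ e * 4 ^ (e * u + r * j1 + e) =
          W / 4 ^ j0 * (M : ℝ) ^ e := by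
        rw [eq_inv_of_mul_eq_one_left hN', hρ2, hy, one_div_pow, pow_add 4 _ e, pow_add 4 e]
        field_simp
      have := gstep w (e * u + r * j1) j0 j1 k hk hj hj' (by omega) (J r) J2 T θ lam K α (ρ r) Tp
        θp.le (by rw [J1, θST]; exact n1) lam0 Kp (by
          rw [hρ2, hα, hlam, ha8, hy, add_assoc, pow_add _ _ (e + j0), one_div_pow 4 (e + j0),
            one_div_pow 2]
          field_simp) N lab ν hN' hν (fun i => by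
          have h := hI i
          rwa [show e * u + (r + 1) * j1 + e = e * u + r * j1 + e + j1 by ring] at h) g hg
      rw [hN2, J1, ← hC] at this
      simp only [hH]
      exact this)
  refine ⟨M, q, xs, w, fun χ hχ => ?_⟩
  obtain ⟨x, b, hx⟩ := hxs χ hχ
  refine ⟨x, b, ?_⟩
  simp only [hρ] at hw
  have f1 : lam * (υ * θ0 / lam1 * Λ * R) = υ * (S * W) * Λ := by
    rw [hlam, hθ]
    field_simp
    rw [R2]
  have f2 : υ * θ0 / lam1 * √((j1 : ℝ) ^ e / (y / 4 ^ j1)) * Λ *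
      √(n * (Λ : ℝ) ^ e / 4 ^ ((e + 1) * j1 * Λ)) = υ * θ0 / lam1 * Λ * R := by
    have : R = √((j1 : ℝ) ^ e / (y / 4 ^ j1)) * √(n * (Λ : ℝ) ^ e / 4 ^ ((e + 1) * j1 * Λ)) := by
      rw [hR, ← Real.sqrt_mul (by positivity), hm, hS', hW]
      congr 1
      field_simp
    rw [this]; ring
  rw [f2]
  refine le_of_mul_le_mul_left ?_ lam0
  rw [f1]
  linarith

end Pool.Agent.P.MP_e00059_co.HD
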