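import Mathlib
import Pool.Agent.P.MP_e00059_co.Q0

/-! From digit strings to points and boxes. -/

namespace Pool.Agent.P.MP_e00059_co.HD

open Finset Real
open scoped BigOperators

theorem enc_aux (q M : ℕ) : ∃ c : (Fin M → Fin q) → ℕ, (∀ β, c β < q ^ M) ∧
    ∀ β ω, lsg β ω = sgn (c β) (c ω) := by
  induction M with
  | zero => exact ⟨fun _ => 0, fun _ => by simp, fun β ω => by rw [lsg_zero, sgn_self]⟩
  | succ M ih =>
    obtain ⟨c, hc, h⟩ := ih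
    have key : ∀ β ω : Fin (M + 1) → Fin q, β 0 < ω 0 →
        (β 0 : ℕ) * q ^ M + c (fun i => β i.succ) < (ω 0 : ℕ) * q ^ M + c (fun i => ω i.succ) := by
      intro β ω hlt
      have h1 : (β 0 : ℕ) + 1 ≤ (ω 0 : ℕ) := hlt
      have h2 := Nat.mul_le_mul_right (q ^ M) h1
      have h3 := hc (fun i => β i.succ)
      rw [add_mul, one_mul] at h2
      omega
    refine ⟨fun β => (β 0 : ℕ) * q ^ M + c (fun i => β i.succ), fun β => ?_, fun β ω => ?_⟩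
    · have h1 : (β 0 : ℕ) + 1 ≤ q := (β 0).2
      have h2 := Nat.mul_le_mul_right (q ^ M) h1
      have h3 := hc (fun i => β i.succ)
      rw [add_mul, one_mul] at h2
      rw [pow_succ, mul_comm (q ^ M) q]
      show (β 0 : ℕ) * q ^ M + c (fun i => β i.succ) < q * q ^ M
      omega
    · rw [lsg_succ]
      rcases lt_trichotomy (β 0) (ω 0) with hlt | heq | hgt
      · have k1 := key β ω hlt
        rw [if_neg hlt.ne]
        simp only [sgn, if_neg hlt.not_gt, if_pos hlt, if_neg k1.not_gt, if_pos k1, add_zero]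
      · rw [if_pos heq, h, heq, sgn_self, zero_add]
        simp only [sgn, heq, Nat.add_lt_add_iff_left]
      · have k1 := key ω β hgt
        rw [if_neg hgt.ne']
        simp only [sgn, if_pos hgt, if_pos k1, add_zero]

/-- an order preserving integer code for digit strings -/
theorem enc (q M : ℕ) : ∃ c : (Fin M → Fin q) → ℕ, ∀ β ω, lsg β ω = sgn (c β) (c ω) := by
  obtain ⟨c, -, h⟩ := enc_aux q M
  exact ⟨c, h⟩

theorem sgn_split (t z : ℕ) (δ η B : ℝ) (h0 : 0 ≤ δ) (h1 : δ ≤ 1 - η) (hη : 0 < η)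
    (hB : (z : ℝ) + 1 ≤ B) :
    sgn t z = ∑ σ : Bool, sb σ * (if (if σ then -1 else (t : ℝ) + 1) ≤ z + δ ∧
      z + δ ≤ (if σ then t - η else t + 1 + B) then (1 : ℝ) else 0) := by
  have hz : (0 : ℝ) ≤ z := Nat.cast_nonneg z
  have ht : (0 : ℝ) ≤ t := Nat.cast_nonneg t
  simp only [Fintype.sum_bool, sb, if_true, Bool.false_eq_true, if_false, sgn]
  rcases lt_trichotomy z t with hlt | heq | hgt
  · have k : (z : ℝ) + 1 ≤ t := by exact_mod_cast hlt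
    rw [if_pos hlt, if_pos ⟨by linarith, by linarith⟩, if_neg (fun h => by linarith [h.1])]
    norm_num
  · subst heq
    rw [if_neg (lt_irrefl _), if_neg (lt_irrefl _), if_neg (fun h => by linarith [h.2]),
      if_neg (fun h => by linarith [h.1])]
    norm_num
  · have k : (t : ℝ) + 1 ≤ z := by exact_mod_cast hgt
    rw [if_neg hgt.not_gt, if_pos hgt, if_neg (fun h => by linarith [h.2]),
      if_pos ⟨by linarith, by linarith⟩]
    norm_num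

open Classical in
theorem embed (d n : ℕ) (z : Fin n → Fin (d + 1) → ℕ) (D : ℝ)
    (h : ∀ χ : Fin n → ℝ, (∀ p, χ p = 1 ∨ χ p = -1) → ∃ t : Fin (d + 1) → ℕ,
      D ≤ |∑ p, χ p * ∏ i, sgn (t i) (z p i)|) :
    ∃ P : Finset (Fin (d + 1) → ℝ), P.card = n ∧ ∀ χ : (Fin (d + 1) → ℝ) → ℝ,
      (∀ p, χ p = 1 ∨ χ p = -1) → ∃ a b : Fin (d + 1) → ℝ, (∀ i, a i ≤ b i) ∧
        D / 2 ^ (d + 1) ≤ |∑ p ∈ P with ∀ i, a i ≤ p i ∧ p i ≤ b i, χ p| := by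
  have hn : (0 : ℝ) < n + 1 := by positivity
  obtain ⟨η, hη⟩ : ∃ η : ℝ, η = 1 / (n + 1) := ⟨_, rfl⟩
  have hη0 : 0 < η := by rw [hη]; positivity
  have hη1 : η * (n + 1) = 1 := by rw [hη]; field_simp
  have d0 : ∀ p : Fin n, (0 : ℝ) ≤ (p : ℕ) * η := fun p => by positivity
  have d1 : ∀ p : Fin n, ((p : ℕ) : ℝ) * η ≤ 1 - η := by
    intro p
    have : ((p : ℕ) : ℝ) ≤ n := by exact_mod_cast p.2.le
    nlinarith
  obtain ⟨pt, hpt⟩ : ∃ pt : Fin n → Fin (d + 1) → ℝ,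
      ∀ p i, pt p i = z p i + (p : ℕ) * η := ⟨fun p i => z p i + (p : ℕ) * η, fun _ _ => rfl⟩
  have inj : Function.Injective pt := by
    intro p p' hp
    have e0 := congrFun hp 0
    rw [hpt, hpt] at e0
    have k1 : z p 0 = z p' 0 := by
      have a1 : ((z p 0 : ℕ) : ℝ) < z p' 0 + 1 := by linarith [d0 p, d1 p']
      have a2 : ((z p' 0 : ℕ) : ℝ) < z p 0 + 1 := by linarith [d0 p', d1 p]
      have b1 : z p 0 < z p' 0 + 1 := by exact_mod_cast a1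
      have b2 : z p' 0 < z p 0 + 1 := by exact_mod_cast a2
      omega
    rw [k1] at e0
    have k2 : ((p : ℕ) : ℝ) = (p' : ℕ) := mul_right_cancel₀ hη0.ne' (add_left_cancel e0)
    exact Fin.ext (by exact_mod_cast k2)
  refine ⟨univ.image pt, by rw [card_image_of_injective _ inj]; simp, fun χ hχ => ?_⟩
  obtain ⟨t, ht⟩ := h (fun p => χ (pt p)) fun p => hχ _
  obtain ⟨B, hB⟩ : ∃ B : Fin (d + 1) → ℝ, ∀ i, B i = ∑ p, ((z p i : ℝ) + 1) :=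
    ⟨_, fun _ => rfl⟩
  have hB0 : ∀ i, 0 ≤ B i := fun i => by
    rw [hB]; exact sum_nonneg fun p _ => by positivity
  have hB1 : ∀ p i, (z p i : ℝ) + 1 ≤ B i := fun p i => by
    rw [hB]
    exact single_le_sum (f := fun p => (z p i : ℝ) + 1) (fun p _ => by positivity) (mem_univ p)
  obtain ⟨lo, hlo⟩ : ∃ lo : (Fin (d + 1) → Bool) → Fin (d + 1) → ℝ,
      ∀ σ i, lo σ i = if σ i then -1 else (t i : ℝ) + 1 := ⟨_, fun _ _ => rfl⟩
  obtain ⟨hi, hhi⟩ : ∃ hi : (Fin (d + 1) → Bool) → Fin (d + 1) → ℝ,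
      ∀ σ i, hi σ i = if σ i then t i - η else t i + 1 + B i := ⟨_, fun _ _ => rfl⟩
  have hle : ∀ σ i, lo σ i ≤ hi σ i := by
    intro σ i
    rw [hlo, hhi]
    have k1 : (0 : ℝ) ≤ t i := Nat.cast_nonneg _
    have k2 : η ≤ 1 := by nlinarith [Nat.cast_nonneg (α := ℝ) n]
    split_ifs
    · linarith
    · linarith [hB0 i]
  have e1 : ∀ p, ∏ i, sgn (t i) (z p i) = ∑ σ : Fin (d + 1) → Bool, (∏ i, sb (σ i)) *
      if ∀ i, lo σ i ≤ pt p i ∧ pt p i ≤ hi σ i then (1 : ℝ) else 0 := by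
    intro p
    rw [prod_congr rfl fun i _ => sgn_split (t i) (z p i) _ η (B i) (d0 p) (d1 p) hη0 (hB1 p i),
      Fintype.prod_sum]
    refine sum_congr rfl fun σ _ => ?_
    rw [prod_mul_distrib, Fintype.prod_boole]
    congr 1
    simp only [← hlo, ← hhi, ← hpt]
  have e2 : ∑ p, χ (pt p) * ∏ i, sgn (t i) (z p i) = ∑ σ : Fin (d + 1) → Bool, (∏ i, sb (σ i)) *
      ∑ p ∈ univ.image pt with ∀ i, lo σ i ≤ p i ∧ p i ≤ hi σ i, χ p := by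
    simp only [e1, mul_sum]
    rw [sum_comm]
    refine sum_congr rfl fun σ _ => ?_
    rw [sum_filter, sum_image fun p _ p' _ hp => inj hp]
    refine sum_congr rfl fun p _ => ?_
    split_ifs <;> ring
  have e3 : ∑ _σ : Fin (d + 1) → Bool, D / 2 ^ (d + 1) ≤ ∑ σ : Fin (d + 1) → Bool,
      |∑ p ∈ univ.image pt with ∀ i, lo σ i ≤ p i ∧ p i ≤ hi σ i, χ p| := by
    have k1 : ∑ _σ : Fin (d + 1) → Bool, D / 2 ^ (d + 1) = D := by
      simp only [sum_const, card_univ, Fintype.card_fun, Fintype.card_bool, Fintype.card_fin,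
        nsmul_eq_mul]
      push_cast
      field_simp
    rw [k1]
    refine ht.trans ?_
    rw [e2]
    refine (abs_sum_le_sum_abs _ _).trans (le_of_eq (sum_congr rfl fun σ _ => ?_))
    rw [abs_mul, abs_prod]
    simp [abs_sb]
  obtain ⟨σ, -, hσ⟩ := exists_le_of_sum_le univ_nonempty e3
  exact ⟨lo σ, hi σ, hle σ, hσ⟩

open Classical in
theorem small (d n : ℕ) (hn : 1 ≤ n) :
    ∃ P : Finset (Fin (d + 1) → ℝ), P.card = n ∧ ∀ χ : (Fin (d + 1) → ℝ) → ℝ,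
      (∀ p, χ p = 1 ∨ χ p = -1) → ∃ a b : Fin (d + 1) → ℝ, (∀ i, a i ≤ b i) ∧
        1 ≤ |∑ p ∈ P with ∀ i, a i ≤ p i ∧ p i ≤ b i, χ p| := by
  obtain ⟨P, hP⟩ := Infinite.exists_subset_card_eq (Fin (d + 1) → ℝ) n
  obtain ⟨x, hx⟩ : P.Nonempty := card_pos.1 (by omega)
  refine ⟨P, hP, fun χ hχ => ⟨x, x, fun _ => le_rfl, ?_⟩⟩
  have : (P.filter fun p => ∀ i, x i ≤ p i ∧ p i ≤ x i) = {x} := by
    ext p
    simp only [mem_filter, mem_singleton]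
    constructor
    · rintro ⟨-, h⟩
      exact funext fun i => le_antisymm (h i).2 (h i).1
    · rintro rfl
      exact ⟨hx, fun _ => ⟨le_rfl, le_rfl⟩⟩
  rw [this, sum_singleton]
  rcases hχ x with h | h <;> simp [h]

theorem rpow_half (e : ℕ) (x : ℝ) (hx : 0 < x) :
    x ^ ((e : ℝ) + 3 / 2) = x * √(x ^ (2 * e + 1)) := by
  rw [Real.sqrt_eq_rpow, ← Real.rpow_natCast, ← Real.rpow_mul hx.le]
  nth_rewrite 2 [← Real.rpow_one x]
  rw [← Real.rpow_add hx]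
  congr 1
  push_cast
  ring

/-- choice of the depth -/
theorem select (e a : ℕ) (c1 c2 c3 : ℝ) (h1 : 0 < c1) (h2 : 0 < c2) (h3 : 0 < c3) :
    ∃ c : ℝ, 0 < c ∧ ∀ n : ℕ, 2 ≤ n → c * Real.log n ^ ((e : ℝ) + 3 / 2) ≤ 1 ∨
      ∃ Λ : ℕ, 1 ≤ Λ ∧ c1 * (Λ : ℝ) ^ e * 4 ^ (a * Λ) ≤ n ∧
        (n : ℝ) ≤ c2 * (Λ : ℝ) ^ (e + 1) * 4 ^ (a * Λ) ∧
        c * Real.log n ^ ((e : ℝ) + 3 / 2) ≤ c3 * Λ * √(n * (Λ : ℝ) ^ e / 4 ^ (a * Λ)) := by
  obtain ⟨c4, hc4⟩ : ∃ c4 : ℝ, c4 = c2 / (2 ^ (e + 1) * 4 ^ a) := ⟨_, rfl⟩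
  have h4 : 0 < c4 := by rw [hc4]; positivity
  obtain ⟨c5, hc5⟩ : ∃ c5 : ℝ, c5 = |Real.log c2| + (e + 1) + 3 * a := ⟨_, rfl⟩
  have h5 : 0 < c5 := by rw [hc5]; positivity
  obtain ⟨L0, hL0⟩ := exists_nat_ge (c1 / c4 + 2)
  have hq : 0 < c1 / c4 := div_pos h1 h4
  have hL2 : (2 : ℝ) ≤ L0 := by linarith
  have hs : (0 : ℝ) ≤ (e : ℝ) + 3 / 2 := by positivity
  have p1 : 0 < (c5 * L0) ^ ((e : ℝ) + 3 / 2) := Real.rpow_pos_of_pos (by positivity) _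
  have p2 : 0 < c5 ^ ((e : ℝ) + 3 / 2) := Real.rpow_pos_of_pos h5 _
  have p3 : 0 < √c4 := Real.sqrt_pos.2 h4
  refine ⟨min (1 / (c5 * L0) ^ ((e : ℝ) + 3 / 2)) (c3 * √c4 / c5 ^ ((e : ℝ) + 3 / 2)),
    lt_min (by positivity) (by positivity), fun n hn => ?_⟩
  have hn1 : (1 : ℝ) ≤ n := by exact_mod_cast (by omega : 1 ≤ n)
  have ex : ∃ Λ : ℕ, (n : ℝ) ≤ c2 * (Λ : ℝ) ^ (e + 1) * 4 ^ (a * Λ) := by
    obtain ⟨Λ, hΛ⟩ := exists_nat_ge (n / c2 + 1)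
    have k0 : 0 ≤ (n : ℝ) / c2 := by positivity
    have k1 : (1 : ℝ) ≤ Λ := by linarith
    have k2 : (Λ : ℝ) ≤ (Λ : ℝ) ^ (e + 1) := le_self_pow₀ k1 (by omega)
    have k3 : (1 : ℝ) ≤ 4 ^ (a * Λ) := one_le_pow₀ (by norm_num)
    have k4 : (n : ℝ) ≤ c2 * Λ := by
      have : (n : ℝ) / c2 ≤ Λ := by linarith
      rwa [div_le_iff₀' h2] at this
    refine ⟨Λ, ?_⟩
    calc (n : ℝ) ≤ c2 * (Λ : ℝ) ^ (e + 1) * 1 := by nlinarith
      _ ≤ _ := by gcongr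
  classical
  obtain ⟨Λ, hΛ, hmin⟩ : ∃ Λ : ℕ, (n : ℝ) ≤ c2 * (Λ : ℝ) ^ (e + 1) * 4 ^ (a * Λ) ∧
      ∀ m : ℕ, m < Λ → ¬ (n : ℝ) ≤ c2 * (m : ℝ) ^ (e + 1) * 4 ^ (a * m) :=
    ⟨Nat.find ex, Nat.find_spec ex, fun m hm => Nat.find_min ex hm⟩
  have hΛ1 : 1 ≤ Λ := by
    rcases Nat.eq_zero_or_pos Λ with h0 | h0
    · subst h0
      simp at hΛ
      omega
    · exact h0
  have hΛr : (1 : ℝ) ≤ Λ := by exact_mod_cast hΛ1
  have hlog0 : 0 ≤ Real.log n := Real.log_nonneg hn1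
  have hlog : Real.log n ≤ c5 * Λ := by
    have k1 := Real.log_le_log (by linarith) hΛ
    rw [Real.log_mul (by positivity) (by positivity), Real.log_mul (by positivity) (by positivity),
      Real.log_pow, Real.log_pow] at k1
    have k2 : Real.log Λ ≤ Λ := (Real.log_le_sub_one_of_pos (by linarith)).trans (by linarith)
    have k3 : Real.log 4 ≤ 3 := (Real.log_le_sub_one_of_pos (by norm_num)).trans (by norm_num)
    have k4 : Real.log c2 ≤ |Real.log c2| * Λ :=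
      (le_abs_self _).trans (le_mul_of_one_le_right (abs_nonneg _) hΛr)
    have k5 : ((e + 1 : ℕ) : ℝ) * Real.log Λ ≤ ((e + 1 : ℕ) : ℝ) * Λ := by gcongr
    have k6 : ((a * Λ : ℕ) : ℝ) * Real.log 4 ≤ ((a * Λ : ℕ) : ℝ) * 3 := by gcongr
    push_cast at k1 k5 k6
    rw [hc5]
    nlinarith
  have hl0 : 0 ≤ Real.log n ^ ((e : ℝ) + 3 / 2) := Real.rpow_nonneg hlog0 _
  by_cases hsm : Λ ≤ L0
  · left
    have k1 : (Λ : ℝ) ≤ L0 := by exact_mod_cast hsm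
    have k2 : Real.log n ^ ((e : ℝ) + 3 / 2) ≤ (c5 * L0) ^ ((e : ℝ) + 3 / 2) :=
      Real.rpow_le_rpow hlog0 (hlog.trans (by gcongr)) hs
    calc _ ≤ 1 / (c5 * L0) ^ ((e : ℝ) + 3 / 2) * (c5 * L0) ^ ((e : ℝ) + 3 / 2) :=
          mul_le_mul (min_le_left _ _) k2 hl0 (by positivity)
      _ = 1 := by field_simp
  · right
    have k1 : (L0 : ℝ) ≤ Λ := by exact_mod_cast (not_le.1 hsm).le
    obtain ⟨m, rfl⟩ : ∃ m, Λ = m + 1 := ⟨Λ - 1, by omega⟩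
    have k2 := not_le.1 (hmin m (by omega))
    have hm : ((m + 1 : ℕ) : ℝ) ≤ 2 * m := by
      push_cast at k1 ⊢
      linarith
    have hpos : (0 : ℝ) < ((m + 1 : ℕ) : ℝ) := by linarith
    have k3 : c4 * ((m + 1 : ℕ) : ℝ) ^ (e + 1) * 4 ^ (a * (m + 1)) ≤ n := by
      refine le_trans ?_ k2.le
      calc c4 * ((m + 1 : ℕ) : ℝ) ^ (e + 1) * 4 ^ (a * (m + 1))
          ≤ c4 * (2 * (m : ℝ)) ^ (e + 1) * 4 ^ (a * (m + 1)) := by gcongr
        _ = c2 * (m : ℝ) ^ (e + 1) * 4 ^ (a * m) := by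
          rw [hc4, mul_pow, mul_add a, mul_one, pow_add (4 : ℝ)]
          field_simp
    generalize m + 1 = Λ at *
    have k4 : c1 ≤ c4 * Λ := by
      have : c1 / c4 ≤ Λ := by linarith
      rwa [div_le_iff₀' h4] at this
    refine ⟨Λ, hΛ1, le_trans ?_ k3, hΛ, ?_⟩
    · calc c1 * (Λ : ℝ) ^ e * 4 ^ (a * Λ) ≤ c4 * Λ * (Λ : ℝ) ^ e * 4 ^ (a * Λ) := by gcongr
        _ = _ := by ring
    · have k5 : c4 * (Λ : ℝ) ^ (2 * e + 1) ≤ n * (Λ : ℝ) ^ e / 4 ^ (a * Λ) := by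
        rw [le_div_iff₀ (by positivity)]
        calc c4 * (Λ : ℝ) ^ (2 * e + 1) * 4 ^ (a * Λ)
            = c4 * (Λ : ℝ) ^ (e + 1) * 4 ^ (a * Λ) * (Λ : ℝ) ^ e := by ring
          _ ≤ _ := by gcongr
      have k6 := Real.sqrt_le_sqrt k5
      rw [Real.sqrt_mul h4.le] at k6
      have k7 : Real.log n ^ ((e : ℝ) + 3 / 2) ≤
          c5 ^ ((e : ℝ) + 3 / 2) * (Λ * √((Λ : ℝ) ^ (2 * e + 1))) := by
        rw [← rpow_half e _ hpos, ← Real.mul_rpow h5.le hpos.le]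
        exact Real.rpow_le_rpow hlog0 hlog hs
      calc _ ≤ c3 * √c4 / c5 ^ ((e : ℝ) + 3 / 2) *
            (c5 ^ ((e : ℝ) + 3 / 2) * (Λ * √((Λ : ℝ) ^ (2 * e + 1)))) :=
            mul_le_mul (min_le_right _ _) k7 hl0 (by positivity)
        _ = c3 * Λ * (√c4 * √((Λ : ℝ) ^ (2 * e + 1))) := by field_simp
        _ ≤ _ := by gcongr

end Pool.Agent.P.MP_e00059_co.HD
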