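import Mathlib
import Pool.Agent.P.MP_e00059_co.QC
import Pool.Agent.P.MP_e00059_co.QE

/-! The lower bound. -/

namespace Pool.Agent.P.MP_e00059_co.HD

open Finset Real
open scoped BigOperators

open Classical in
theorem lowerD (e : ℕ) : ∃ c : ℝ, 0 < c ∧ ∀ n : ℕ, 2 ≤ n →
    ∃ P : Finset (Fin (e + 1 + 1) → ℝ), P.card = n ∧ ∀ χ : (Fin (e + 1 + 1) → ℝ) → ℝ,
      (∀ p, χ p = 1 ∨ χ p = -1) → ∃ a b : Fin (e + 1 + 1) → ℝ, (∀ i, a i ≤ b i) ∧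
        c * Real.log n ^ ((e : ℝ) + 3 / 2) ≤
          |∑ p ∈ P with ∀ i, a i ≤ p i ∧ p i ≤ b i, χ p| := by
  obtain ⟨a, c1, c2, c3, h1, h2, h3, hcore⟩ := core e
  have h4 : 0 < c3 / 2 ^ (e + 1 + 1) := by positivity
  obtain ⟨c, hc, hsel⟩ := select e a c1 c2 (c3 / 2 ^ (e + 1 + 1)) h1 h2 h4
  refine ⟨c, hc, fun n hn => ?_⟩
  rcases hsel n hn with hs | ⟨Λ, g1, g2, g3, g4⟩
  · obtain ⟨P, hP, h⟩ := small (e + 1) n (by omega)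
    refine ⟨P, hP, fun χ hχ => ?_⟩
    obtain ⟨a', b', k1, k2⟩ := h χ hχ
    exact ⟨a', b', k1, hs.trans k2⟩
  · obtain ⟨M, q, xs, w, h⟩ := hcore Λ g1 n g2 g3
    obtain ⟨cx, hcx⟩ := enc q Λ
    obtain ⟨cw, hcw⟩ := enc 4 M
    obtain ⟨P, hP, h'⟩ := embed (e + 1) n
      (fun p => Fin.cons (cx (xs p)) fun i => cw (w p i))
      (c3 * Λ * √(n * (Λ : ℝ) ^ e / 4 ^ (a * Λ))) (by
        intro χ hχ
        obtain ⟨x, b, hx⟩ := h χ hχ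
        refine ⟨Fin.cons (cx x) fun i => cw (b i), ?_⟩
        simp only [Fin.prod_univ_succ (n := e + 1), Fin.cons_zero, Fin.cons_succ, ← hcx, ← hcw]
        exact hx)
    refine ⟨P, hP, fun χ hχ => ?_⟩
    obtain ⟨a', b', k1, k2⟩ := h' χ hχ
    refine ⟨a', b', k1, g4.trans (le_trans (le_of_eq ?_) k2)⟩
    ring

end Pool.Agent.P.MP_e00059_co.HD
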