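import Mathlib
import Pool.Agent.P.MP_e00059_co.Ban

/-! Upper bound for the discrepancy of rectangles (Nikolov). -/

namespace Pool.Agent.P.MP_e00059_co

open Finset

theorem up_key (L : ℕ) : ∀ r y : ℕ, r < 2 ^ L → y < 2 ^ L →
    ∑ l ∈ range L, (if (y / 2 ^ l) % 2 = 1 ∧ r / 2 ^ l + 1 = y / 2 ^ l then (1 : ℝ) else 0) =
      if r < y then 1 else 0 := by
  induction L with
  | zero =>
    intro r y hr hy
    have : ¬ r < y := by simp at hr hy; omega
    simp [this]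
  | succ L ih =>
    intro r y hr hy
    rw [Finset.sum_range_succ']
    have h1 : ∀ x l : ℕ, x / 2 ^ (l + 1) = (x / 2) / 2 ^ l := by
      intro x l
      rw [Nat.div_div_eq_div_mul, pow_succ']
    simp only [h1]
    rw [ih (r / 2) (y / 2) (by rw [pow_succ] at hr; omega) (by rw [pow_succ] at hy; omega)]
    simp only [pow_zero, Nat.div_one]
    by_cases h2 : r / 2 < y / 2
    · rw [if_pos h2, if_neg (by omega), if_pos (by omega)]; simp
    · by_cases h3 : y % 2 = 1 ∧ r + 1 = y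
      · rw [if_neg h2, if_pos h3, if_pos (by omega)]; simp
      · rw [if_neg h2, if_neg h3, if_neg (by omega)]; simp

open Classical in
theorem up_rank {α : Type} (P : Finset α) (lt : α → α → Prop) (D : α → Prop) (p : α) (hp : p ∈ P)
    (h1 : ¬ lt p p) (h2 : ∀ q ∈ P, D p → lt q p → D q) (h3 : ∀ q ∈ P, ¬ D p → D q → lt q p) :
    (P.filter fun q => lt q p).card < (P.filter D).card ↔ D p := by
  constructor
  · intro h
    by_contra hD
    have : P.filter D ⊆ P.filter fun q => lt q p := by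
      intro q hq
      rw [mem_filter] at hq ⊢
      exact ⟨hq.1, h3 q hq.1 hD hq.2⟩
    have := card_le_card this
    omega
  · intro hD
    apply card_lt_card
    rw [Finset.ssubset_iff_of_subset]
    · exact ⟨p, mem_filter.2 ⟨hp, hD⟩, fun h => h1 (mem_filter.1 h).2⟩
    · intro q hq
      rw [mem_filter] at hq ⊢
      exact ⟨hq.1, h2 q hq.1 hD hq.2⟩

theorem up_norm (L n : ℕ) (q : Fin L × Fin (n + 1) → Prop) [DecidablePred q]
    (hq : ∀ l m m', q (l, m) → q (l, m') → m = m') :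
    ∑ k, (if q k then (1 : ℝ) else 0) ^ 2 ≤ √(L : ℝ) ^ 2 := by
  rw [Real.sq_sqrt (Nat.cast_nonneg _), Fintype.sum_prod_type]
  have : ∀ l : Fin L, ∑ m : Fin (n + 1), (if q (l, m) then (1 : ℝ) else 0) ^ 2 ≤ 1 := by
    intro l
    have e : ∀ m : Fin (n + 1), (if q (l, m) then (1 : ℝ) else 0) ^ 2 =
        if q (l, m) then (1 : ℝ) else 0 := by
      intro m; split_ifs <;> simp
    simp only [e]
    rw [Finset.sum_boole]
    have : (univ.filter fun m => q (l, m)).card ≤ 1 := by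
      rw [card_le_one]
      intro a ha b hb
      exact hq l a b (mem_filter.1 ha).2 (mem_filter.1 hb).2
    exact_mod_cast this
  calc _ ≤ ∑ _l : Fin L, (1 : ℝ) := sum_le_sum fun l _ => this l
    _ = L := by simp

theorem up_inner (L n r y : ℕ) (hr : r ≤ n) (hy : y ≤ n) (hn : n < 2 ^ L) :
    ∑ k : Fin L × Fin (n + 1),
      (if (y / 2 ^ (k.1 : ℕ)) % 2 = 1 ∧ (k.2 : ℕ) + 1 = y / 2 ^ (k.1 : ℕ) then (1 : ℝ) else 0) *
        (if r / 2 ^ (k.1 : ℕ) = (k.2 : ℕ) then (1 : ℝ) else 0) = if r < y then 1 else 0 := by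
  rw [← up_key L r y (by omega) (by omega), Fintype.sum_prod_type,
    ← Fin.sum_univ_eq_sum_range (fun l =>
      if (y / 2 ^ l) % 2 = 1 ∧ r / 2 ^ l + 1 = y / 2 ^ l then (1 : ℝ) else 0) L]
  refine Finset.sum_congr rfl fun l _ => ?_
  have hlt : r / 2 ^ (l : ℕ) < n + 1 := lt_of_le_of_lt (Nat.div_le_self _ _) (by omega)
  rw [Finset.sum_eq_single (⟨r / 2 ^ (l : ℕ), hlt⟩ : Fin (n + 1))]
  · simp
  · intro m _ hm
    have : ¬ r / 2 ^ (l : ℕ) = (m : ℕ) := fun h => hm (Fin.ext h.symm)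
    simp [this]
  · simp

theorem up_anchor {α : Type} (n : ℕ) (P : Finset α) (s r : α → ℕ) (hs : Set.InjOn s P)
    (hr : ∀ p ∈ P, r p ≤ n) (L : ℕ) (hL : 0 < L) (hn : n < 2 ^ L) :
    ∃ ε : ℕ → ℝ, (∀ i, ε i = 1 ∨ ε i = -1) ∧ ∀ t ≤ n, ∀ y ≤ n,
      |∑ p ∈ P, if s p < t ∧ r p < y then ε (s p) else 0| ≤
        16 * L * √(2 * Real.log (28 * (n + 1) * (n + 2))) := by
  classical
  have hpos : 0 < √(L : ℝ) := Real.sqrt_pos.2 (by exact_mod_cast hL)
  obtain ⟨ε, hε, h⟩ := balance (ι := Fin L × Fin (n + 1)) (J := Fin (n + 1)) n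
    (fun i k => ∑ p ∈ P, if s p = i then
      (if r p / 2 ^ (k.1 : ℕ) = (k.2 : ℕ) then (1 : ℝ) else 0) else 0)
    (fun y k => if ((y : ℕ) / 2 ^ (k.1 : ℕ)) % 2 = 1 ∧ (k.2 : ℕ) + 1 = (y : ℕ) / 2 ^ (k.1 : ℕ)
      then (1 : ℝ) else 0) √(L : ℝ) √(L : ℝ) hpos hpos
    (by
      intro i _
      by_cases hi : ∃ p ∈ P, s p = i
      · obtain ⟨p, hp, hpi⟩ := hi
        have e : ∀ k : Fin L × Fin (n + 1), (∑ q ∈ P, if s q = i then
            (if r q / 2 ^ (k.1 : ℕ) = (k.2 : ℕ) then (1 : ℝ) else 0) else 0) =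
            if r p / 2 ^ (k.1 : ℕ) = (k.2 : ℕ) then (1 : ℝ) else 0 := by
          intro k
          rw [Finset.sum_eq_single p]
          · rw [if_pos hpi]
          · intro q hq hqp
            rw [if_neg]
            intro h
            exact hqp (hs hq hp (h.trans hpi.symm))
          · intro h; exact absurd hp h
        simp only [e]
        apply up_norm L n (fun k => r p / 2 ^ (k.1 : ℕ) = (k.2 : ℕ))
        intro l m m' h1 h2
        exact Fin.ext (h1.symm.trans h2)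
      · have e : ∀ k : Fin L × Fin (n + 1), (∑ q ∈ P, if s q = i then
            (if r q / 2 ^ (k.1 : ℕ) = (k.2 : ℕ) then (1 : ℝ) else 0) else 0) = 0 := by
          intro k
          apply Finset.sum_eq_zero
          intro q hq
          rw [if_neg]
          intro h
          exact hi ⟨q, hq, h⟩
        simp only [e]
        simp)
    (by
      intro y
      apply up_norm L n (fun k => ((y : ℕ) / 2 ^ (k.1 : ℕ)) % 2 = 1 ∧
        (k.2 : ℕ) + 1 = (y : ℕ) / 2 ^ (k.1 : ℕ))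
      intro l m m' h1 h2
      have := h1.2.trans h2.2.symm
      exact Fin.ext (by simpa using this))
  refine ⟨ε, hε, fun t ht y hy => ?_⟩
  have h0 := h t ht ⟨y, by omega⟩
  have e1 : ∀ i : ℕ, (∑ k : Fin L × Fin (n + 1),
      (if (y / 2 ^ (k.1 : ℕ)) % 2 = 1 ∧ (k.2 : ℕ) + 1 = y / 2 ^ (k.1 : ℕ) then (1 : ℝ) else 0) *
      ∑ p ∈ P, if s p = i then
        (if r p / 2 ^ (k.1 : ℕ) = (k.2 : ℕ) then (1 : ℝ) else 0) else 0) =
      ∑ p ∈ P, if s p = i then (if r p < y then (1 : ℝ) else 0) else 0 := by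
    intro i
    simp only [Finset.mul_sum]
    rw [Finset.sum_comm]
    refine Finset.sum_congr rfl fun p hp => ?_
    by_cases hpi : s p = i
    · simp only [if_pos hpi]
      exact up_inner L n (r p) y (hr p hp) hy hn
    · simp only [if_neg hpi]
      simp
  simp only [e1] at h0
  have e2 : (∑ i ∈ range t, ε i * ∑ p ∈ P, if s p = i then (if r p < y then (1 : ℝ) else 0) else 0)
      = ∑ p ∈ P, if s p < t ∧ r p < y then ε (s p) else 0 := by
    simp only [Finset.mul_sum]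
    rw [Finset.sum_comm]
    refine Finset.sum_congr rfl fun p _ => ?_
    simp only [mul_ite, mul_one, mul_zero]
    rw [Finset.sum_ite_eq]
    by_cases h1 : s p < t <;> by_cases h2 : r p < y <;> simp [h1, h2]
  rw [e2] at h0
  have e3 : 16 * √(L : ℝ) * √(L : ℝ) = 16 * L := by
    rw [mul_assoc, Real.mul_self_sqrt (Nat.cast_nonneg _)]
  rw [e3] at h0
  have e4 : ((Fintype.card (Fin (n + 1)) : ℕ) : ℝ) + 1 = n + 2 := by
    rw [Fintype.card_fin]; push_cast; ring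
  rw [e4] at h0
  exact h0

theorem up_const (n : ℕ) (hn : 2 ≤ n) :
    16 * ((Nat.log 2 n + 1 : ℕ) : ℝ) * √(2 * Real.log (28 * (n + 1) * (n + 2))) ≤
      240 * Real.log n ^ (3 / 2 : ℝ) := by
  have hn' : (2 : ℝ) ≤ n := by exact_mod_cast hn
  have h2 : Real.log 2 ≤ Real.log n := Real.log_le_log (by norm_num) hn'
  have hl2 : (0.69 : ℝ) < Real.log 2 := lt_trans (by norm_num) Real.log_two_gt_d9
  have hl : 0 < Real.log n := by linarith
  have h3 : (Nat.log 2 n : ℝ) * Real.log 2 ≤ Real.log n := by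
    rw [← Real.log_pow]
    apply Real.log_le_log (by positivity)
    exact_mod_cast Nat.pow_log_le_self 2 (by omega)
  have h4 : ((Nat.log 2 n + 1 : ℕ) : ℝ) ≤ 3 * Real.log n := by
    push_cast
    have : (0 : ℝ) ≤ Nat.log 2 n := Nat.cast_nonneg _
    nlinarith
  have h5 : (28 : ℝ) * (n + 1) * (n + 2) ≤ (n : ℝ) ^ 9 := by
    have a1 : (n : ℝ) + 1 ≤ n ^ 2 := by nlinarith
    have a2 : (n : ℝ) + 2 ≤ n ^ 2 := by nlinarith
    have a3 : (28 : ℝ) ≤ n ^ 5 := by
      have : (2 : ℝ) ^ 5 ≤ n ^ 5 := by gcongr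
      linarith [show (2 : ℝ) ^ 5 = 32 by norm_num]
    calc (28 : ℝ) * (n + 1) * (n + 2) ≤ n ^ 5 * n ^ 2 * n ^ 2 := by gcongr
      _ = n ^ 9 := by ring
  have h6 : Real.log (28 * (n + 1) * (n + 2)) ≤ 9 * Real.log n := by
    have := Real.log_le_log (by positivity) h5
    rw [Real.log_pow] at this
    exact_mod_cast this
  have h7 : √(2 * Real.log (28 * (n + 1) * (n + 2))) ≤ 5 * √(Real.log n) := by
    rw [Real.sqrt_le_left (by positivity), mul_pow, Real.sq_sqrt hl.le]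
    linarith
  have h8 : Real.log n ^ (3 / 2 : ℝ) = Real.log n * √(Real.log n) := by
    rw [Real.sqrt_eq_rpow, show (3 / 2 : ℝ) = 1 + 1 / 2 by norm_num, Real.rpow_add hl,
      Real.rpow_one]
  rw [h8]
  calc 16 * ((Nat.log 2 n + 1 : ℕ) : ℝ) * √(2 * Real.log (28 * (n + 1) * (n + 2)))
      ≤ 16 * (3 * Real.log n) * (5 * √(Real.log n)) := by gcongr
    _ = _ := by ring

open Classical in
theorem upper : ∃ C : ℝ, 0 < C ∧ ∀ n : ℕ, 2 ≤ n → ∀ P : Finset (ℝ × ℝ), P.card = n →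
    ∃ χ : ℝ × ℝ → ℝ, (∀ p, χ p = 1 ∨ χ p = -1) ∧ ∀ a₁ b₁ a₂ b₂ : ℝ,
      |∑ p ∈ P with (a₁ ≤ p.1 ∧ p.1 ≤ b₁) ∧ (a₂ ≤ p.2 ∧ p.2 ≤ b₂), χ p| ≤
        C * Real.log n ^ (3 / 2 : ℝ) := by
  refine ⟨960, by norm_num, fun n hn P hP => ?_⟩
  set s : ℝ × ℝ → ℕ := fun p => (P.filter fun q => toLex q < toLex p).card with hs
  set r : ℝ × ℝ → ℕ := fun p => (P.filter fun q => q.2 < p.2).card with hr
  have hlt : ∀ p ∈ P, ∀ q, toLex p < toLex q → s p < s q := by
    intro p hp q hpq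
    have := (up_rank P (fun a b => toLex a < toLex b) (fun a => toLex a < toLex q) p hp
      (lt_irrefl _) (fun a _ h1 h2 => h2.trans h1)
      (fun a _ h1 _ => absurd hpq h1)).2 hpq
    convert this
  have hinj : Set.InjOn s P := by
    intro p hp q hq h
    rcases lt_trichotomy (toLex p) (toLex q) with h1 | h1 | h1
    · exact absurd h (hlt p hp q h1).ne
    · exact toLex.injective h1
    · exact absurd h (hlt q hq p h1).ne'
  have hcard : ∀ D : ℝ × ℝ → Prop, (P.filter D).card ≤ n := fun D => hP ▸ card_filter_le _ _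
  obtain ⟨ε, hε, h⟩ := up_anchor n P s r hinj (fun p _ => by convert hcard _)
    (Nat.log 2 n + 1) (by omega) (Nat.lt_pow_succ_log_self (by norm_num) n)
  have hc := up_const n hn
  refine ⟨fun p => ε (s p), fun p => hε _, fun a₁ b₁ a₂ b₂ => ?_⟩
  have hD : 0 ≤ 240 * Real.log n ^ (3 / 2 : ℝ) :=
    le_trans (le_trans (abs_nonneg _) (h 0 (Nat.zero_le _) 0 (Nat.zero_le _))) hc
  by_cases hab : a₁ ≤ b₁ ∧ a₂ ≤ b₂
  swap
  · have : (P.filter fun p => (a₁ ≤ p.1 ∧ p.1 ≤ b₁) ∧ (a₂ ≤ p.2 ∧ p.2 ≤ b₂)) = ∅ := by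
      rw [filter_eq_empty_iff]
      intro p _ hp
      exact hab ⟨hp.1.1.trans hp.1.2, hp.2.1.trans hp.2.2⟩
    rw [this]
    simp only [sum_empty, abs_zero]
    linarith
  set t₁ := (P.filter fun q => q.1 < a₁).card
  set t₂ := (P.filter fun q => q.1 ≤ b₁).card
  set y₁ := (P.filter fun q => q.2 < a₂).card
  set y₂ := (P.filter fun q => q.2 ≤ b₂).card
  have lex1 : ∀ p q : ℝ × ℝ, toLex q < toLex p → q.1 ≤ p.1 := by
    intro p q hq
    rcases Prod.Lex.toLex_lt_toLex.1 hq with h1 | h1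
    · exact h1.le
    · exact h1.1.le
  have lex2 : ∀ p q : ℝ × ℝ, q.1 < p.1 → toLex q < toLex p := fun p q hq =>
    Prod.Lex.toLex_lt_toLex.2 (Or.inl hq)
  have k1 : ∀ p ∈ P, s p < t₁ ↔ p.1 < a₁ := by
    intro p hp
    have := up_rank P (fun a b => toLex a < toLex b) (fun a => a.1 < a₁) p hp (lt_irrefl _)
      (fun q _ h1 h2 => (lex1 p q h2).trans_lt h1)
      (fun q _ h1 h2 => lex2 p q (h2.trans_le (not_lt.1 h1)))
    convert this
  have k2 : ∀ p ∈ P, s p < t₂ ↔ p.1 ≤ b₁ := by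
    intro p hp
    have := up_rank P (fun a b => toLex a < toLex b) (fun a => a.1 ≤ b₁) p hp (lt_irrefl _)
      (fun q _ h1 h2 => (lex1 p q h2).trans h1)
      (fun q _ h1 h2 => lex2 p q (h2.trans_lt (not_le.1 h1)))
    convert this
  have k3 : ∀ p ∈ P, r p < y₁ ↔ p.2 < a₂ := by
    intro p hp
    have := up_rank P (fun a b => a.2 < b.2) (fun a => a.2 < a₂) p hp (lt_irrefl _)
      (fun q _ h1 h2 => h2.trans h1) (fun q _ h1 h2 => h2.trans_le (not_lt.1 h1))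
    convert this
  have k4 : ∀ p ∈ P, r p < y₂ ↔ p.2 ≤ b₂ := by
    intro p hp
    have := up_rank P (fun a b => a.2 < b.2) (fun a => a.2 ≤ b₂) p hp (lt_irrefl _)
      (fun q _ h1 h2 => h2.le.trans h1) (fun q _ h1 h2 => h2.trans_lt (not_le.1 h1))
    convert this
  have ht₁ : t₁ ≤ n := by convert hcard _
  have ht₂ : t₂ ≤ n := by convert hcard _
  have hy₁ : y₁ ≤ n := by convert hcard _
  have hy₂ : y₂ ≤ n := by convert hcard _
  have e : (∑ p ∈ P with (a₁ ≤ p.1 ∧ p.1 ≤ b₁) ∧ (a₂ ≤ p.2 ∧ p.2 ≤ b₂), ε (s p)) =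
      (∑ p ∈ P, if s p < t₂ ∧ r p < y₂ then ε (s p) else 0) -
      (∑ p ∈ P, if s p < t₁ ∧ r p < y₂ then ε (s p) else 0) -
      (∑ p ∈ P, if s p < t₂ ∧ r p < y₁ then ε (s p) else 0) +
      (∑ p ∈ P, if s p < t₁ ∧ r p < y₁ then ε (s p) else 0) := by
    rw [sum_filter, ← sum_sub_distrib, ← sum_sub_distrib, ← sum_add_distrib]
    refine sum_congr rfl fun p hp => ?_
    simp only [k1 p hp, k2 p hp, k3 p hp, k4 p hp]
    by_cases c1 : p.1 < a₁ <;> by_cases c2 : p.1 ≤ b₁ <;> by_cases c3 : p.2 < a₂ <;>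
      by_cases c4 : p.2 ≤ b₂ <;>
      first
      | (exfalso; linarith [hab.1, hab.2, not_le.1 c2])
      | (exfalso; linarith [hab.1, hab.2, not_le.1 c4])
      | simp [c1, c2, c3, c4, not_le.2, not_lt.1]
  rw [e]
  have g1 := abs_le.1 ((h t₂ ht₂ y₂ hy₂).trans hc)
  have g2 := abs_le.1 ((h t₁ ht₁ y₂ hy₂).trans hc)
  have g3 := abs_le.1 ((h t₂ ht₂ y₁ hy₁).trans hc)
  have g4 := abs_le.1 ((h t₁ ht₁ y₁ hy₁).trans hc)
  rw [abs_le]
  constructor <;> linarith [g1.1, g1.2, g2.1, g2.2, g3.1, g3.2, g4.1, g4.2]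

end Pool.Agent.P.MP_e00059_co
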