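import Mathlib
import Pool.Agent.P.MP_e00059_co.Upper

/-! Upper bound for the discrepancy of boxes in every dimension (Nikolov). -/

namespace Pool.Agent.P.MP_e00059_co

open Finset

/-- the dyadic pieces of the initial segment `[0, y)` -/
noncomputable def upSeg (L n y : ℕ) (k : Fin L × Fin (n + 1)) : ℝ :=
  if (y / 2 ^ (k.1 : ℕ)) % 2 = 1 ∧ (k.2 : ℕ) + 1 = y / 2 ^ (k.1 : ℕ) then 1 else 0

/-- the dyadic intervals that contain `r` -/
noncomputable def upPt (L n r : ℕ) (k : Fin L × Fin (n + 1)) : ℝ :=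
  if r / 2 ^ (k.1 : ℕ) = (k.2 : ℕ) then 1 else 0

theorem upSeg_norm (L n y : ℕ) : ∑ k, upSeg L n y k ^ 2 ≤ L := by
  have := up_norm L n (fun k => (y / 2 ^ (k.1 : ℕ)) % 2 = 1 ∧
    (k.2 : ℕ) + 1 = y / 2 ^ (k.1 : ℕ)) (by
      intro l m m' h1 h2
      have := h1.2.trans h2.2.symm
      exact Fin.ext (by simpa using this))
  rw [Real.sq_sqrt (Nat.cast_nonneg _)] at this
  exact this

theorem upPt_norm (L n r : ℕ) : ∑ k, upPt L n r k ^ 2 ≤ L := by
  have := up_norm L n (fun k => r / 2 ^ (k.1 : ℕ) = (k.2 : ℕ)) (by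
      intro l m m' h1 h2
      exact Fin.ext (h1.symm.trans h2))
  rw [Real.sq_sqrt (Nat.cast_nonneg _)] at this
  exact this

theorem upSeg_diff_norm (L n y z : ℕ) :
    ∑ k, (upSeg L n z k - upSeg L n y k) ^ 2 ≤ 4 * L := by
  have h1 := upSeg_norm L n y
  have h2 := upSeg_norm L n z
  have h3 : ∑ k, (upSeg L n z k - upSeg L n y k) ^ 2 ≤
      ∑ k, (2 * upSeg L n z k ^ 2 + 2 * upSeg L n y k ^ 2) :=
    sum_le_sum fun k _ => by nlinarith [sq_nonneg (upSeg L n z k + upSeg L n y k)]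
  rw [sum_add_distrib, ← mul_sum, ← mul_sum] at h3
  linarith

theorem upSeg_inner (L n r y z : ℕ) (hr : r ≤ n) (hyz : y ≤ z) (hz : z ≤ n) (hn : n < 2 ^ L) :
    ∑ k, (upSeg L n z k - upSeg L n y k) * upPt L n r k = if y ≤ r ∧ r < z then 1 else 0 := by
  have h1 : ∑ k, upSeg L n z k * upPt L n r k = if r < z then 1 else 0 :=
    up_inner L n r z hr hz hn
  have h2 : ∑ k, upSeg L n y k * upPt L n r k = if r < y then 1 else 0 :=
    up_inner L n r y hr (hyz.trans hz) hn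
  simp only [sub_mul, sum_sub_distrib, h1, h2]
  by_cases c1 : r < y
  · rw [if_pos c1, if_pos (by omega), if_neg (by omega)]; simp
  · by_cases c2 : r < z
    · rw [if_pos c2, if_neg c1, if_pos (by omega)]; simp
    · rw [if_neg c2, if_neg c1, if_neg (by omega)]; simp

theorem upD_prod_norm {κ : Type} [Fintype κ] (e : ℕ) (f : Fin e → κ → ℝ) (B : ℝ)
    (h : ∀ i, ∑ k, f i k ^ 2 ≤ B) :
    ∑ k : Fin e → κ, (∏ i, f i (k i)) ^ 2 ≤ B ^ e := by
  classical
  have e1 : ∑ k : Fin e → κ, (∏ i, f i (k i)) ^ 2 = ∏ i, ∑ k, f i k ^ 2 := by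
    rw [Finset.prod_univ_sum, Fintype.piFinset_univ]
    exact sum_congr rfl fun k _ => (prod_pow _ _ _).symm
  rw [e1]
  calc ∏ i, ∑ k, f i k ^ 2 ≤ ∏ _i : Fin e, B :=
        prod_le_prod (fun i _ => sum_nonneg fun k _ => sq_nonneg _) fun i _ => h i
    _ = B ^ e := by simp

theorem upD_prod_inner {κ : Type} [Fintype κ] (e : ℕ) (f g : Fin e → κ → ℝ) :
    ∑ k : Fin e → κ, (∏ i, f i (k i)) * ∏ i, g i (k i) = ∏ i, ∑ k, f i k * g i k := by
  classical
  rw [Finset.prod_univ_sum, Fintype.piFinset_univ]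
  exact sum_congr rfl fun k _ => (prod_mul_distrib).symm

open Classical in
theorem upD_anchor {α : Type} (e n : ℕ) (P : Finset α) (s : α → ℕ) (r : α → Fin e → ℕ)
    (hs : Set.InjOn s P) (hr : ∀ p ∈ P, ∀ i, r p i ≤ n) (L : ℕ) (hL : 0 < L) (hn : n < 2 ^ L) :
    ∃ ε : ℕ → ℝ, (∀ i, ε i = 1 ∨ ε i = -1) ∧ ∀ t ≤ n, ∀ y z : Fin e → ℕ, (∀ i, y i ≤ z i) →
      (∀ i, z i ≤ n) →
      |∑ p ∈ P, if s p < t ∧ ∀ i, y i ≤ r p i ∧ r p i < z i then ε (s p) else 0| ≤
        16 * (2 * L) ^ e * √(2 * Real.log (28 * (n + 1) * (((n + 1) ^ 2) ^ e + 1))) := by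
  have hL' : (0 : ℝ) < L := by exact_mod_cast hL
  have hpos : 0 < √(L : ℝ) := Real.sqrt_pos.2 hL'
  have hsq : √(L : ℝ) ^ 2 = L := Real.sq_sqrt hL'.le
  obtain ⟨ε, hε, h⟩ := balance (ι := Fin e → Fin L × Fin (n + 1))
    (J := Fin e → Fin (n + 1) × Fin (n + 1)) n
    (fun i k => ∑ p ∈ P, if s p = i then ∏ c, upPt L n (r p c) (k c) else 0)
    (fun j k => ∏ c, (upSeg L n (j c).2 (k c) - upSeg L n (j c).1 (k c)))
    (√(L : ℝ) ^ e) ((2 * √(L : ℝ)) ^ e) (by positivity) (by positivity)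
    (by
      intro i _
      rw [← pow_mul, mul_comm e 2, pow_mul, hsq]
      by_cases hi : ∃ p ∈ P, s p = i
      · obtain ⟨p, hp, hpi⟩ := hi
        have e1 : ∀ k : Fin e → Fin L × Fin (n + 1), (∑ q ∈ P, if s q = i then
            ∏ c, upPt L n (r q c) (k c) else 0) = ∏ c, upPt L n (r p c) (k c) := by
          intro k
          rw [Finset.sum_eq_single p]
          · rw [if_pos hpi]
          · intro q hq hqp
            rw [if_neg]
            intro h
            exact hqp (hs hq hp (h.trans hpi.symm))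
          · intro h; exact absurd hp h
        simp only [e1]
        exact upD_prod_norm e (fun c k => upPt L n (r p c) k) L fun c => upPt_norm L n _
      · have e1 : ∀ k : Fin e → Fin L × Fin (n + 1), (∑ q ∈ P, if s q = i then
            ∏ c, upPt L n (r q c) (k c) else 0) = 0 := by
          intro k
          apply Finset.sum_eq_zero
          intro q hq
          rw [if_neg]
          intro h
          exact hi ⟨q, hq, h⟩
        simp only [e1]
        simp only [ne_eq, OfNat.ofNat_ne_zero, not_false_eq_true, zero_pow, sum_const_zero]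
        positivity)
    (by
      intro j
      rw [← pow_mul, mul_comm e 2, pow_mul, mul_pow, hsq]
      have := upD_prod_norm e (fun c k => upSeg L n (j c).2 k - upSeg L n (j c).1 k) (4 * L)
        fun c => upSeg_diff_norm L n _ _
      rw [show (2 : ℝ) ^ 2 = 4 by norm_num]
      exact this)
  refine ⟨ε, hε, fun t ht y z hyz hz => ?_⟩
  have h0 := h t ht fun c => (⟨y c, by have := hyz c; have := hz c; omega⟩,
    ⟨z c, by have := hz c; omega⟩)
  have e1 : ∀ i : ℕ, (∑ k : Fin e → Fin L × Fin (n + 1),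
      (∏ c, (upSeg L n (z c) (k c) - upSeg L n (y c) (k c))) *
      ∑ p ∈ P, if s p = i then ∏ c, upPt L n (r p c) (k c) else 0) =
      ∑ p ∈ P, if s p = i then
        (if ∀ c, y c ≤ r p c ∧ r p c < z c then (1 : ℝ) else 0) else 0 := by
    intro i
    simp only [Finset.mul_sum]
    rw [Finset.sum_comm]
    refine Finset.sum_congr rfl fun p hp => ?_
    by_cases hpi : s p = i
    · simp only [if_pos hpi]
      rw [upD_prod_inner e (fun c k => upSeg L n (z c) k - upSeg L n (y c) k)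
        (fun c k => upPt L n (r p c) k)]
      have e2 : ∀ c, ∑ k, (upSeg L n (z c) k - upSeg L n (y c) k) * upPt L n (r p c) k =
          if y c ≤ r p c ∧ r p c < z c then 1 else 0 := fun c =>
        upSeg_inner L n (r p c) (y c) (z c) (hr p hp c) (hyz c) (hz c) hn
      simp only [e2]
      rw [Finset.prod_ite_zero]
      simp
    · simp only [if_neg hpi]
      simp
  simp only [e1] at h0
  have e2 : (∑ i ∈ range t, ε i * ∑ p ∈ P, if s p = i then
        (if ∀ c, y c ≤ r p c ∧ r p c < z c then (1 : ℝ) else 0) else 0)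
      = ∑ p ∈ P, if s p < t ∧ ∀ c, y c ≤ r p c ∧ r p c < z c then ε (s p) else 0 := by
    simp only [Finset.mul_sum]
    rw [Finset.sum_comm]
    refine Finset.sum_congr rfl fun p _ => ?_
    simp only [mul_ite, mul_one, mul_zero]
    rw [Finset.sum_ite_eq]
    by_cases h1 : s p < t <;> by_cases h2 : ∀ c, y c ≤ r p c ∧ r p c < z c
    · rw [if_pos (mem_range.2 h1), if_pos h2, if_pos ⟨h1, h2⟩]
    · rw [if_pos (mem_range.2 h1), if_neg h2, if_neg fun h => h2 h.2]
    · rw [if_neg fun h => h1 (mem_range.1 h), if_neg fun h => h1 h.1]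
    · rw [if_neg fun h => h1 (mem_range.1 h), if_neg fun h => h1 h.1]
  rw [e2] at h0
  have e3 : 16 * √(L : ℝ) ^ e * (2 * √(L : ℝ)) ^ e = 16 * (2 * L) ^ e := by
    rw [mul_assoc, ← mul_pow]
    have : √(L : ℝ) * (2 * √(L : ℝ)) = 2 * L := by nlinarith
    rw [this]
  rw [e3] at h0
  have e4 : ((Fintype.card (Fin e → Fin (n + 1) × Fin (n + 1)) : ℕ) : ℝ) =
      ((n + 1) ^ 2) ^ e := by
    rw [Fintype.card_fun, Fintype.card_prod, Fintype.card_fin, Fintype.card_fin]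
    push_cast; ring
  rw [e4] at h0
  exact h0

theorem upD_const (e n : ℕ) (hn : 2 ≤ n) :
    16 * (2 * ((Nat.log 2 n + 1 : ℕ) : ℝ)) ^ e *
        √(2 * Real.log (28 * (n + 1) * (((n + 1) ^ 2) ^ e + 1))) ≤
      16 * 6 ^ e * √(8 * e + 16) * Real.log n ^ ((e : ℝ) + 1 / 2) := by
  have hn' : (2 : ℝ) ≤ n := by exact_mod_cast hn
  have h2 : Real.log 2 ≤ Real.log n := Real.log_le_log (by norm_num) hn'
  have hl2 : (0.69 : ℝ) < Real.log 2 := lt_trans (by norm_num) Real.log_two_gt_d9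
  have hl : 0 < Real.log n := by linarith
  have h3 : (Nat.log 2 n : ℝ) * Real.log 2 ≤ Real.log n := by
    rw [← Real.log_pow]
    apply Real.log_le_log (by positivity)
    exact_mod_cast Nat.pow_log_le_self 2 (by omega)
  have h4 : 2 * ((Nat.log 2 n + 1 : ℕ) : ℝ) ≤ 6 * Real.log n := by
    push_cast
    have : (0 : ℝ) ≤ Nat.log 2 n := Nat.cast_nonneg _
    nlinarith
  have h5 : (28 : ℝ) * (n + 1) * (((n + 1) ^ 2) ^ e + 1) ≤ (n : ℝ) ^ (4 * e + 8) := by
    have a1 : (n : ℝ) + 1 ≤ n ^ 2 := by nlinarith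
    have a3 : (28 : ℝ) ≤ n ^ 5 := by
      have : (2 : ℝ) ^ 5 ≤ n ^ 5 := by gcongr
      linarith [show (2 : ℝ) ^ 5 = 32 by norm_num]
    have a4 : (((n : ℝ) + 1) ^ 2) ^ e ≤ (((n : ℝ) ^ 2) ^ 2) ^ e := by gcongr
    have a5 : (1 : ℝ) ≤ (((n : ℝ) ^ 2) ^ 2) ^ e := by
      apply one_le_pow₀; apply one_le_pow₀; apply one_le_pow₀; linarith
    have a2 : (((n : ℝ) + 1) ^ 2) ^ e + 1 ≤ n * (((n : ℝ) ^ 2) ^ 2) ^ e := by nlinarith
    calc (28 : ℝ) * (n + 1) * (((n + 1) ^ 2) ^ e + 1)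
        ≤ (n : ℝ) ^ 5 * (n : ℝ) ^ 2 * (n * (((n : ℝ) ^ 2) ^ 2) ^ e) := by gcongr
      _ = (n : ℝ) ^ (4 * e + 8) := by ring
  have h6 : Real.log (28 * (n + 1) * (((n + 1) ^ 2) ^ e + 1)) ≤ (4 * e + 8) * Real.log n := by
    have := Real.log_le_log (by positivity) h5
    rw [Real.log_pow] at this
    exact_mod_cast this
  have h7 : √(2 * Real.log (28 * (n + 1) * (((n + 1) ^ 2) ^ e + 1))) ≤
      √(8 * e + 16) * √(Real.log n) := by
    rw [← Real.sqrt_mul (by positivity)]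
    apply Real.sqrt_le_sqrt
    linarith
  have h8 : Real.log n ^ ((e : ℝ) + 1 / 2) = Real.log n ^ e * √(Real.log n) := by
    rw [Real.sqrt_eq_rpow, Real.rpow_add hl, Real.rpow_natCast]
  rw [h8]
  calc 16 * (2 * ((Nat.log 2 n + 1 : ℕ) : ℝ)) ^ e *
        √(2 * Real.log (28 * (n + 1) * (((n + 1) ^ 2) ^ e + 1)))
      ≤ 16 * (6 * Real.log n) ^ e * (√(8 * e + 16) * √(Real.log n)) := by gcongr
    _ = _ := by rw [mul_pow]; ring

theorem upD_rank {α : Type} (P : Finset α) (lt : α → α → Prop) (D : α → Prop) (p : α)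
    [DecidablePred fun q => lt q p] [DecidablePred D] (hp : p ∈ P)
    (h1 : ¬ lt p p) (h2 : ∀ q ∈ P, D p → lt q p → D q) (h3 : ∀ q ∈ P, ¬ D p → D q → lt q p) :
    (P.filter fun q => lt q p).card < (P.filter D).card ↔ D p := by
  constructor
  · intro h
    by_contra hD
    have : P.filter D ⊆ P.filter fun q => lt q p := by
      intro q hq
      rw [mem_filter] at hq ⊢
      exact ⟨hq.1, h3 q hq.1 hD hq.2⟩
    have := card_le_card this
    omega
  · intro hD
    apply card_lt_card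
    rw [Finset.ssubset_iff_of_subset]
    · exact ⟨p, mem_filter.2 ⟨hp, hD⟩, fun h => h1 (mem_filter.1 h).2⟩
    · intro q hq
      rw [mem_filter] at hq ⊢
      exact ⟨hq.1, h2 q hq.1 hD hq.2⟩

open Classical in
theorem upperD (e : ℕ) : ∃ C : ℝ, 0 < C ∧ ∀ n : ℕ, 2 ≤ n →
    ∀ P : Finset (Fin (e + 1) → ℝ), P.card = n →
    ∃ χ : (Fin (e + 1) → ℝ) → ℝ, (∀ p, χ p = 1 ∨ χ p = -1) ∧ ∀ a b : Fin (e + 1) → ℝ,
      |∑ p ∈ P with ∀ i, a i ≤ p i ∧ p i ≤ b i, χ p| ≤
        C * Real.log n ^ ((e : ℝ) + 1 / 2) := by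
  refine ⟨2 * (16 * 6 ^ e * √(8 * e + 16)), by positivity, fun n hn P hP => ?_⟩
  let φ : (Fin (e + 1) → ℝ) → ℝ ×ₗ Lex (Fin (e + 1) → ℝ) := fun p => toLex (p 0, toLex p)
  have hφ : Function.Injective φ := by
    intro p q h
    have := congrArg (fun x => ofLex (ofLex x).2) h
    exact this
  let s : (Fin (e + 1) → ℝ) → ℕ := fun p => (P.filter fun q => φ q < φ p).card
  let r : (Fin (e + 1) → ℝ) → Fin e → ℕ := fun p c =>
    (P.filter fun q => q c.succ < p c.succ).card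
  have hlt : ∀ p ∈ P, ∀ q, φ p < φ q → s p < s q := by
    intro p hp q hpq
    exact (upD_rank P (fun a b => φ a < φ b) (fun a => φ a < φ q) p hp
      (lt_irrefl _) (fun a _ h1 h2 => h2.trans h1)
      (fun a _ h1 _ => absurd hpq h1)).2 hpq
  have hinj : Set.InjOn s P := by
    intro p hp q hq h
    rcases lt_trichotomy (φ p) (φ q) with h1 | h1 | h1
    · exact absurd h (hlt p hp q h1).ne
    · exact hφ h1
    · exact absurd h (hlt q hq p h1).ne'
  obtain ⟨ε, hε, h⟩ := upD_anchor e n P s r hinj (fun p _ c => hP ▸ card_filter_le _ _)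
    (Nat.log 2 n + 1) (by omega) (Nat.lt_pow_succ_log_self (by norm_num) n)
  have hc := upD_const e n hn
  refine ⟨fun p => ε (s p), fun p => hε _, fun a b => ?_⟩
  have hD : 0 ≤ 16 * 6 ^ e * √(8 * e + 16) * Real.log n ^ ((e : ℝ) + 1 / 2) :=
    le_trans (by positivity) hc
  by_cases hab : ∀ i, a i ≤ b i
  swap
  · have : (P.filter fun p => ∀ i, a i ≤ p i ∧ p i ≤ b i) = ∅ := by
      rw [filter_eq_empty_iff]
      intro p _ hp
      exact hab fun i => (hp i).1.trans (hp i).2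
    rw [this]
    simp only [sum_empty, abs_zero]
    linarith
  let t₁ := (P.filter fun q => q 0 < a 0).card
  let t₂ := (P.filter fun q => q 0 ≤ b 0).card
  let y : Fin e → ℕ := fun c => (P.filter fun q => q c.succ < a c.succ).card
  let z : Fin e → ℕ := fun c => (P.filter fun q => q c.succ ≤ b c.succ).card
  have lex1 : ∀ p q, φ q < φ p → q 0 ≤ p 0 := by
    intro p q hq
    rcases Prod.Lex.toLex_lt_toLex.1 hq with h1 | h1
    · exact h1.le
    · exact h1.1.le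
  have lex2 : ∀ p q, q 0 < p 0 → φ q < φ p := fun p q hq =>
    Prod.Lex.toLex_lt_toLex.2 (Or.inl hq)
  have k1 : ∀ p ∈ P, s p < t₁ ↔ p 0 < a 0 := by
    intro p hp
    exact upD_rank P (fun u v => φ u < φ v) (fun u => u 0 < a 0) p hp (lt_irrefl _)
      (fun q _ h1 h2 => (lex1 p q h2).trans_lt h1)
      (fun q _ h1 h2 => lex2 p q (h2.trans_le (not_lt.1 h1)))
  have k2 : ∀ p ∈ P, s p < t₂ ↔ p 0 ≤ b 0 := by
    intro p hp
    exact upD_rank P (fun u v => φ u < φ v) (fun u => u 0 ≤ b 0) p hp (lt_irrefl _)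
      (fun q _ h1 h2 => (lex1 p q h2).trans h1)
      (fun q _ h1 h2 => lex2 p q (h2.trans_lt (not_le.1 h1)))
  have k3 : ∀ p ∈ P, ∀ c, r p c < y c ↔ p c.succ < a c.succ := by
    intro p hp c
    exact upD_rank P (fun u v => u c.succ < v c.succ) (fun u => u c.succ < a c.succ) p hp
      (lt_irrefl _) (fun q _ h1 h2 => h2.trans h1) (fun q _ h1 h2 => h2.trans_le (not_lt.1 h1))
  have k4 : ∀ p ∈ P, ∀ c, r p c < z c ↔ p c.succ ≤ b c.succ := by
    intro p hp c
    exact upD_rank P (fun u v => u c.succ < v c.succ) (fun u => u c.succ ≤ b c.succ) p hp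
      (lt_irrefl _) (fun q _ h1 h2 => h2.le.trans h1)
      (fun q _ h1 h2 => h2.trans_lt (not_le.1 h1))
  have ht₁ : t₁ ≤ n := hP ▸ card_filter_le _ _
  have ht₂ : t₂ ≤ n := hP ▸ card_filter_le _ _
  have hz : ∀ c, z c ≤ n := fun c => hP ▸ card_filter_le _ _
  have hyz : ∀ c, y c ≤ z c := by
    intro c
    apply card_le_card
    intro q hq
    rw [mem_filter] at hq ⊢
    exact ⟨hq.1, hq.2.le.trans (hab _)⟩
  have e1 : (∑ p ∈ P with ∀ i, a i ≤ p i ∧ p i ≤ b i, ε (s p)) =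
      (∑ p ∈ P, if s p < t₂ ∧ ∀ c, y c ≤ r p c ∧ r p c < z c then ε (s p) else 0) -
      (∑ p ∈ P, if s p < t₁ ∧ ∀ c, y c ≤ r p c ∧ r p c < z c then ε (s p) else 0) := by
    rw [sum_filter, ← sum_sub_distrib]
    refine sum_congr rfl fun p hp => ?_
    have k5 : (∀ c, y c ≤ r p c ∧ r p c < z c) ↔
        ∀ c : Fin e, a c.succ ≤ p c.succ ∧ p c.succ ≤ b c.succ := by
      refine forall_congr' fun c => ?_
      rw [← not_lt, k3 p hp c, k4 p hp c, not_lt]
    simp only [k1 p hp, k2 p hp, k5, Fin.forall_fin_succ]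
    by_cases c0 : ∀ c : Fin e, a c.succ ≤ p c.succ ∧ p c.succ ≤ b c.succ
    · by_cases c1 : p 0 < a 0
      · rw [if_neg fun h => absurd h.1.1 (not_le.2 c1), if_pos ⟨c1.le.trans (hab 0), c0⟩,
          if_pos ⟨c1, c0⟩, sub_self]
      · by_cases c2 : p 0 ≤ b 0
        · rw [if_pos ⟨⟨not_lt.1 c1, c2⟩, c0⟩, if_pos ⟨c2, c0⟩, if_neg fun h => c1 h.1, sub_zero]
        · rw [if_neg fun h => c2 h.1.2, if_neg fun h => c2 h.1, if_neg fun h => c1 h.1, sub_zero]
    · rw [if_neg fun h => c0 h.2, if_neg fun h => c0 h.2, if_neg fun h => c0 h.2, sub_zero]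
  rw [e1]
  have g1 := abs_le.1 ((h t₂ ht₂ y z hyz hz).trans hc)
  have g2 := abs_le.1 ((h t₁ ht₁ y z hyz hz).trans hc)
  rw [abs_le]
  constructor <;> linarith [g1.1, g1.2, g2.1, g2.2]

end Pool.Agent.P.MP_e00059_co
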