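import Mathlib
import Pool.Agent.P.MP_e00059_co.UpperD

/-! The upper bound in every dimension (Nikolov). -/

namespace Pool.Agent.P.MP_e00059_co.HD

open Finset Real
open scoped BigOperators

open Classical in
theorem upperD (e : ℕ) : ∃ C : ℝ, 0 < C ∧ ∀ n : ℕ, 2 ≤ n →
    ∀ P : Finset (Fin (e + 1) → ℝ), P.card = n → ∃ χ : (Fin (e + 1) → ℝ) → ℝ,
      (∀ p, χ p = 1 ∨ χ p = -1) ∧ ∀ a b : Fin (e + 1) → ℝ,
        |∑ p ∈ P with ∀ i, a i ≤ p i ∧ p i ≤ b i, χ p| ≤ C * Real.log n ^ ((e : ℝ) + 1 / 2) :=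
  Pool.Agent.P.MP_e00059_co.upperD e

end Pool.Agent.P.MP_e00059_co.HD
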