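import Mathlib
import Pool.Agent.P.MP_e00059_co.Riesz

/-! Bounded differences and moment bounds on finite product spaces. -/

open Finset Real
open scoped BigOperators

namespace Pool.Agent.P.MP_e00059_co.L43

lemma exp_dev (y c : ℝ) (h : |y| ≤ c) (hc : c ≤ 1) : exp y ≤ 1 + y + c ^ 2 := by
  have h1 := Real.abs_exp_sub_one_sub_id_le (h.trans hc)
  have h2 : y ^ 2 ≤ c ^ 2 := by
    rw [← sq_abs]
    exact pow_le_pow_left₀ (abs_nonneg _) h 2
  linarith [le_abs_self (exp y - 1 - y)]

/-- exponential moment bound for functions with bounded differences -/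
lemma mcd {B : Type} [Fintype B] [Nonempty B] (lam c : ℝ) (h0 : 0 ≤ lam) (h1 : lam * c ≤ 1)
    (n : ℕ) : ∀ G : (Fin n → B) → ℝ, (∀ a i b, |G (Function.update a i b) - G a| ≤ c) →
      𝔼 a, exp (-(lam * G a)) ≤ exp (-(lam * 𝔼 a, G a) + (lam * c) ^ 2 * n) := by
  induction n with
  | zero =>
    intro G _
    simp [Finset.expect, Finset.univ_unique]
  | succ n ih =>
    intro G hG
    let G' : (Fin n → B) → ℝ := fun a => 𝔼 b, G (Fin.cons b a)
    have hG' : ∀ a i b, |G' (Function.update a i b) - G' a| ≤ c := by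
      intro a i b
      simp only [G']
      rw [← Finset.expect_sub_distrib]
      refine (Finset.abs_expect_le _ _).trans ((Finset.expect_le_expect fun x _ => ?_).trans
        (Fintype.expect_const c).le)
      have := hG (Fin.cons x a) i.succ b
      rwa [← Fin.cons_update] at this
    have h2 : ∀ a, 𝔼 b, exp (-(lam * G (Fin.cons b a))) ≤
        exp (-(lam * G' a)) * exp ((lam * c) ^ 2) := by
      intro a
      have h3 : ∀ b, |G (Fin.cons b a) - G' a| ≤ c := by
        intro b
        have e : G (Fin.cons b a) - G' a = 𝔼 x, (G (Fin.cons b a) - G (Fin.cons x a)) := by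
          rw [Finset.expect_sub_distrib, Fintype.expect_const]
        rw [e]
        refine (Finset.abs_expect_le _ _).trans ((Finset.expect_le_expect fun x _ => ?_).trans
          (Fintype.expect_const c).le)
        have := hG (Fin.cons x a) 0 b
        rwa [Fin.update_cons_zero] at this
      have h4 : ∀ b, exp (-(lam * G (Fin.cons b a))) ≤ exp (-(lam * G' a)) *
          (1 + (lam * c) ^ 2 - lam * (G (Fin.cons b a) - G' a)) := by
        intro b
        have h5 := exp_dev (-(lam * (G (Fin.cons b a) - G' a))) (lam * c) (by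
          rw [abs_neg, abs_mul, abs_of_nonneg h0]
          exact mul_le_mul_of_nonneg_left (h3 b) h0) h1
        have e : exp (-(lam * G (Fin.cons b a))) =
            exp (-(lam * G' a)) * exp (-(lam * (G (Fin.cons b a) - G' a))) := by
          rw [← exp_add]
          ring_nf
        rw [e]
        exact mul_le_mul_of_nonneg_left (by linarith) (exp_pos _).le
      refine (Finset.expect_le_expect fun b _ => h4 b).trans ?_
      rw [← Finset.mul_expect, Finset.expect_sub_distrib, ← Finset.mul_expect,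
        Finset.expect_sub_distrib, Fintype.expect_const, Fintype.expect_const]
      refine mul_le_mul_of_nonneg_left ?_ (exp_pos _).le
      have := add_one_le_exp ((lam * c) ^ 2)
      simp only [G', sub_self, mul_zero, sub_zero]
      linarith
    rw [expect_cons, expect_cons]
    refine (Finset.expect_le_expect fun a _ => h2 a).trans ?_
    rw [← Finset.expect_mul]
    refine (mul_le_mul_of_nonneg_right (ih G' hG') (exp_pos _).le).trans (le_of_eq ?_)
    rw [← exp_add]
    congr 1
    simp only [G']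
    push_cast
    ring

lemma mom {B : Type} [Fintype B] [Nonempty B] (n : ℕ) : ∀ h : Fin n → B → ℝ,
    𝔼 a : Fin n → B, ∑ i, h i (a i) = ∑ i, 𝔼 b, h i b ∧
    𝔼 a : Fin n → B, (∑ i, h i (a i)) ^ 2 =
      ∑ i, (𝔼 b, h i b ^ 2 - (𝔼 b, h i b) ^ 2) + (∑ i, 𝔼 b, h i b) ^ 2 := by
  induction n with
  | zero => intro h; simp
  | succ n ih =>
    intro h
    obtain ⟨h1, h2⟩ := ih fun i => h i.succ
    rw [expect_cons, expect_cons]
    simp only [Fin.sum_univ_succ, Fin.cons_zero, Fin.cons_succ]
    constructor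
    · simp only [Finset.expect_add_distrib, Fintype.expect_const]
      rw [h1]
    · have e : ∀ (a : Fin n → B) (c : B), (h 0 c + ∑ i : Fin n, h i.succ (a i)) ^ 2 =
          h 0 c ^ 2 + (h 0 c * (2 * ∑ i : Fin n, h i.succ (a i)) +
            (∑ i : Fin n, h i.succ (a i)) ^ 2) := fun a c => by ring
      simp only [e, Finset.expect_add_distrib, Fintype.expect_const, ← Finset.expect_mul,
        ← Finset.mul_expect]
      rw [h1, h2]
      ring

lemma mom2 {B : Type} [Fintype B] [Nonempty B] (n : ℕ) (h : Fin n → B → ℝ) :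
    𝔼 a : Fin n → B, (∑ i, h i (a i)) ^ 2 ≤ ∑ i, 𝔼 b, h i b ^ 2 + (∑ i, 𝔼 b, h i b) ^ 2 := by
  rw [(mom n h).2]
  exact add_le_add_left (Finset.sum_le_sum fun i _ => sub_le_self _ (sq_nonneg _)) _

lemma lip {B J : Type} [Fintype J] {n : ℕ} (φ : ℝ → ℝ) (hφ : ∀ x y, |φ x - φ y| ≤ |x - y|)
    (g : Fin n → B → J → ℝ) (hg : ∀ i b, ∑ R, |g i b R| ≤ 1) (a : Fin n → B) (j : Fin n) (b : B) :
    |∑ R, φ (∑ i, g i (Function.update a j b i) R) - ∑ R, φ (∑ i, g i (a i) R)| ≤ 2 := by
  rw [← Finset.sum_sub_distrib]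
  refine (Finset.abs_sum_le_sum_abs _ _).trans ?_
  have e : ∀ R, ∑ i, g i (Function.update a j b i) R - ∑ i, g i (a i) R =
      g j b R - g j (a j) R := by
    intro R
    rw [← Finset.sum_sub_distrib, Finset.sum_eq_single j]
    · simp
    · intro i _ hi
      rw [Function.update_of_ne hi, sub_self]
    · simp
  calc _ ≤ ∑ R, (|g j b R| + |g j (a j) R|) := Finset.sum_le_sum fun R _ => by
        refine (hφ _ _).trans ?_
        rw [e]
        exact abs_sub _ _
    _ ≤ 2 := by
        rw [Finset.sum_add_distrib]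
        linarith [hg j b, hg j (a j)]

/-- first absolute moment from below -/
lemma khin (n : ℕ) (c : Fin n → ℝ) (A N : ℝ) (hA : 0 < A) (hN : ∑ i, c i ^ 2 ≤ N) :
    (∑ i, c i ^ 2 - max (N - A) 0) / (9 * √A) ≤ 𝔼 a : Fin n → Fin 3, |∑ i, c i * z (a i)| := by
  obtain ⟨h2, h4⟩ := moments n c
  set V := ∑ i, c i ^ 2 with hV
  have V0 : 0 ≤ V := Finset.sum_nonneg fun _ _ => sq_nonneg _
  have key : ∀ θ : ℝ, 0 < θ → θ ^ 2 * V ≤ 1 / 9 →
      θ * V / 3 ≤ 𝔼 a : Fin n → Fin 3, |∑ i, c i * z (a i)| := by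
    intro θ hθ h9
    have pt : ∀ S : ℝ, θ * S ^ 2 - θ ^ 3 * S ^ 4 ≤ |S| := by
      intro S
      set x := θ * |S| with hx
      have x0 : 0 ≤ x := by positivity
      have hx1 : x ^ 2 - x ^ 4 ≤ x := by
        rcases le_total x 1 with h | h
        · nlinarith [pow_nonneg x0 4]
        · nlinarith [mul_nonneg (sq_nonneg x) (show 0 ≤ x ^ 2 - 1 by nlinarith)]
      have x2 : x ^ 2 = θ ^ 2 * S ^ 2 := by rw [hx, mul_pow, sq_abs]
      have x4 : x ^ 4 = θ ^ 4 * S ^ 4 := by
        rw [show x ^ 4 = (x ^ 2) ^ 2 by ring, x2]; ring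
      refine le_of_mul_le_mul_left ?_ hθ
      rw [x2, x4] at hx1
      linarith
    refine le_trans ?_ (Finset.expect_le_expect fun a _ => pt _)
    rw [Finset.expect_sub_distrib, ← Finset.mul_expect, ← Finset.mul_expect, h2]
    have h5 := mul_le_mul_of_nonneg_left h4 (pow_pos hθ 3).le
    have h6 : 0 ≤ θ * V := by positivity
    nlinarith [mul_le_mul_of_nonneg_left h9 h6]
  have sA : 0 < √A := sqrt_pos.2 hA
  rcases le_total V A with h | h
  · refine le_trans ?_ (key (1 / (3 * √A)) (by positivity) ?_)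
    · rw [div_le_iff₀ (by positivity)]
      have : 1 / (3 * √A) * V / 3 * (9 * √A) = V := by field_simp; ring
      rw [this]
      linarith [le_max_right (N - A) 0]
    · rw [div_pow, mul_pow, sq_sqrt hA.le, div_mul_eq_mul_div, div_le_iff₀ (by positivity)]
      linarith
  · have hV0 : 0 < V := hA.trans_le h
    have sV : 0 < √V := sqrt_pos.2 hV0
    refine le_trans ?_ (key (1 / (3 * √V)) (by positivity) ?_)
    · have e1 : 1 / (3 * √V) * V / 3 = √V / 9 := by
        rw [div_mul_eq_mul_div, one_mul, div_div, div_eq_div_iff (by positivity) (by norm_num)]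
        nlinarith [mul_self_sqrt hV0.le]
      rw [e1, div_le_div_iff₀ (by positivity) (by norm_num)]
      have h7 : √A ≤ √V := sqrt_le_sqrt h
      nlinarith [le_max_left (N - A) 0, mul_self_sqrt hA.le, mul_le_mul_of_nonneg_right h7 sA.le]
    · rw [div_pow, mul_pow, sq_sqrt hV0.le, div_mul_eq_mul_div, div_le_iff₀ (by positivity)]
      linarith

/-- first absolute moment from above -/
lemma khin' (n : ℕ) (c : Fin n → ℝ) (τ : ℝ) (hτ : 0 < τ) :
    𝔼 a : Fin n → Fin 3, |∑ i, c i * z (a i)| ≤ (∑ i, c i ^ 2) / (2 * τ) + τ / 2 := by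
  obtain ⟨h2, -⟩ := moments n c
  have V0 : 0 ≤ ∑ i, c i ^ 2 := Finset.sum_nonneg fun _ _ => sq_nonneg _
  have pt : ∀ S : ℝ, |S| ≤ 1 / (2 * τ) * S ^ 2 + τ / 2 := by
    intro S
    have : 1 / (2 * τ) * S ^ 2 + τ / 2 - |S| = (|S| - τ) ^ 2 / (2 * τ) := by
      rw [← sq_abs S]
      field_simp
      ring
    have h3 : 0 ≤ (|S| - τ) ^ 2 / (2 * τ) := by positivity
    linarith
  refine (Finset.expect_le_expect fun a _ => pt _).trans ?_
  rw [Finset.expect_add_distrib, ← Finset.mul_expect, h2, Fintype.expect_const]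
  refine add_le_add_left ?_ _
  rw [div_mul_eq_mul_div, one_mul]
  exact div_le_div_of_nonneg_right (by linarith) (by positivity)

end Pool.Agent.P.MP_e00059_co.L43
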