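import Mathlib
import Pool.Agent.P.MP_e00059_co.RA

/-! The adaptive Riesz product for independent random digit points and bounded real weights. -/

open Finset Real
open scoped BigOperators

namespace Pool.Agent.P.MP_e00059_co.L43

lemma step2 {J : Type} [Fintype J] [DecidableEq J] (n : ℕ) (cell : Fin n → J)
    (α α' β : Fin n → ℝ) (hα : ∀ i, |α i| ≤ 1) (hα' : ∀ i, |α' i| ≤ 1) (hβ : ∀ i, |β i| ≤ 2)
    (lam A τ : ℝ) (h0 : 0 ≤ lam) (h1 : lam * 2 ≤ 1) (hA : 0 < A) (hτ : 0 < τ) :
    𝔼 d : Fin n → Fin 3, exp (-(lam *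
      (1 / 12 * ∑ R, |∑ i, (if cell i = R then α i else 0) * z (d i)| -
        1 / 12 * ∑ R, |∑ i, (if cell i = R then α' i else 0) * z (d i)| -
        1 / 3 * ∑ i, β i * z (d i)))) ≤
      exp (-(lam * ((∑ i, α i ^ 2 -
        ∑ R, max (∑ i, (if cell i = R then (1 : ℝ) else 0) - A) 0) / (108 * √A) -
        ((∑ i, α' i ^ 2) / (2 * τ) + Fintype.card J * τ / 2) / 12)) + (lam * 2) ^ 2 * n) := by
  have hl : ∀ γ : Fin n → ℝ, (∀ i, |γ i| ≤ 1) → ∀ (a : Fin n → Fin 3) (j : Fin n) (b : Fin 3),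
      |∑ R, |∑ i, (if cell i = R then γ i else 0) * z (Function.update a j b i)| -
        (∑ R, |∑ i, (if cell i = R then γ i else 0) * z (a i)|)| ≤ 2 := by
    intro γ hγ
    refine lip (fun x => |x|) abs_abs_sub_abs_le_abs_sub
      (fun i b R => (if cell i = R then γ i else 0) * z b) fun i b => ?_
    rw [Finset.sum_eq_single (cell i)]
    · rw [if_pos rfl, abs_mul]
      exact mul_le_one₀ (hγ i) (abs_nonneg _) (abs_z _)
    · intro R _ hR
      rw [if_neg (Ne.symm hR), zero_mul, abs_zero]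
    · simp
  have sq : ∀ γ : Fin n → ℝ, ∑ R, ∑ i, (if cell i = R then γ i else 0) ^ 2 = ∑ i, γ i ^ 2 := by
    intro γ
    rw [Finset.sum_comm]
    simp
  refine (mcd lam 2 h0 h1 n _ fun a j b => ?_).trans (exp_le_exp.2 ?_)
  · have h2 := abs_le.1 (hl α hα a j b)
    have h3 := abs_le.1 (hl α' hα' a j b)
    have h4 := abs_le.1 (lip (J := Unit) id (fun _ _ => le_rfl) (fun i b _ => β i * z b / 2)
      (fun i b => by
        have := mul_le_mul (hβ i) (abs_z b) (abs_nonneg _) two_pos.le
        simp only [Finset.univ_unique, Finset.sum_singleton, abs_div, abs_mul, abs_two]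
        linarith) a j b)
    simp only [Finset.univ_unique, Finset.sum_singleton, id, ← Finset.sum_div] at h4
    rw [abs_le]
    constructor <;> linarith [h2.1, h2.2, h3.1, h3.2, h4.1, h4.2]
  · refine add_le_add_left (neg_le_neg (mul_le_mul_of_nonneg_left ?_ h0)) _
    rw [Finset.expect_sub_distrib, Finset.expect_sub_distrib, ← Finset.mul_expect,
      ← Finset.mul_expect, ← Finset.mul_expect, Finset.expect_sum_comm, Finset.expect_sum_comm,
      (mom n fun i b => β i * z b).1]
    simp only [← Finset.mul_expect, ex_z, mul_zero, Finset.sum_const_zero, sub_zero]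
    have h2 := Finset.sum_le_sum fun R (_ : R ∈ univ) =>
      khin n (fun i => if cell i = R then α i else 0) A
        (∑ i, (if cell i = R then (1 : ℝ) else 0)) hA (Finset.sum_le_sum fun i _ => by
          split_ifs
          · rw [← sq_abs]
            nlinarith [hα i, abs_nonneg (α i)]
          · simp)
    have h3 := Finset.sum_le_sum fun R (_ : R ∈ univ) =>
      khin' n (fun i => if cell i = R then α' i else 0) τ hτ
    rw [← Finset.sum_div, Finset.sum_sub_distrib, sq] at h2
    rw [Finset.sum_add_distrib, ← Finset.sum_div, sq, Finset.sum_const, card_univ,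
      nsmul_eq_mul] at h3
    have e : ∀ x : ℝ, x / (108 * √A) = 1 / 12 * (x / (9 * √A)) := fun x => by
      have : 0 < √A := sqrt_pos.2 hA
      field_simp
      ring
    rw [e]
    linarith

/-- configurations of `n` points given by two digit strings -/
abbrev Om (n S : ℕ) := Fin n → Dg S × Dg S

variable {S n : ℕ}

/-- the cell of a point at time `t` -/
def cl (t : ℕ) (w : Dg S × Dg S) : Dg S := mix t w.1 w.2

/-- resampling of digit `q` of the first coordinates -/
def upd (q : Fin S) (ω : Om n S) (d : Fin n → Fin 3) : Om n S :=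
  fun i => (Function.update (ω i).1 q (d i), (ω i).2)

lemma resample (q : Fin S) (G : Om n S → ℝ) : 𝔼 ω, G ω = 𝔼 ω, 𝔼 d, G (upd q ω d) := by
  have h1 : 𝔼 ω, G ω = 𝔼 x : Om n S × (Fin n → Fin 3), G x.1 := by
    rw [← univ_product_univ, Finset.expect_product]
    simp
  rw [h1, ← Finset.expect_product', univ_product_univ]
  refine (Fintype.expect_equiv (Function.Involutive.toPerm
    (fun x : Om n S × (Fin n → Fin 3) => (upd q x.1 x.2, fun i => (x.1 i).1 q)) ?_) _ _
      fun i => rfl).symm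
  intro x
  ext <;> simp [upd]

lemma cl_upd (t : ℕ) (q : Fin S) (hq : t ≤ q) (ω : Om n S) (d : Fin n → Fin 3) (i : Fin n) :
    cl t (upd q ω d i) = cl t (ω i) := mix_update t q hq _ _ _

lemma cl_succ (t : ℕ) (q : Fin S) (hq : (q : ℕ) = t) (ω : Om n S) (d : Fin n → Fin 3)
    (i : Fin n) : cl (t + 1) (upd q ω d i) = Function.update (cl t (ω i)) q (d i) := by
  ext j
  by_cases h : j = q
  · subst h
    simp [cl, upd, mix, hq]
  · have h' : (j : ℕ) ≠ t := fun e => h (Fin.ext (e.trans hq.symm))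
    simp only [cl, upd, mix, Function.update_of_ne h]
    split_ifs <;> first | rfl | omega

/-- the tested quantity at time `t` -/
noncomputable def T2 (t : ℕ) (w : Fin n → ℝ) (ω : Om n S) (Ψ : Dg S → Dg S → ℝ) : ℝ :=
  ∑ i, w i * 𝔼 u, 𝔼 v, Hx t (cl t (ω i)) u * Hy (ω i).2 v * (Ψ u v - 1)

/-- the number of points in excess of `A` in the cells at time `t` -/
noncomputable def exc (A : ℝ) (t : ℕ) (ω : Om n S) : ℝ :=
  ∑ R, max (∑ i, (if cl t (ω i) = R then (1 : ℝ) else 0) - A) 0

/-- digit `j` is the middle digit -/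
noncomputable def mid (j : ℕ) (y : Dg S) : ℝ := ∑ q : Fin S, if (q : ℕ) = j ∧ y q = 1 then 1 else 0

/-- the credit earned at step `j` -/
noncomputable def cred (lam A κ : ℝ) (a : Fin n → ℝ) (j : ℕ) (ω : Om n S) : ℝ :=
  lam * ((∑ i, a i ^ 2 * mid j (ω i).2 / 9 - exc A (j + 1) ω) / (108 * √A)) - κ

lemma cred_upd (lam A κ : ℝ) (a : Fin n → ℝ) (j : ℕ) (q : Fin S) (hq : j + 1 ≤ q) (ω : Om n S)
    (d : Fin n → Fin 3) : cred lam A κ a j (upd q ω d) = cred lam A κ a j ω := by
  simp only [cred, exc, cl_upd _ q hq]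
  rfl

theorem all_steps2 (lam A τ η : ℝ) (h0 : 0 ≤ lam) (h1 : lam * 2 ≤ 1) (hA : 0 < A) (hτ : 0 < τ)
    (hη : η ≤ 1) (a : Fin n → ℝ) (ha : ∀ i, |a i| ≤ 1) (k : ℕ) (hk : k < S) :
    ∃ Ψ : Om n S → Dg S → Dg S → ℝ, (∀ ω, Good k (Ψ ω)) ∧
      (∀ ω d (q : Fin S), k + 1 ≤ q → Ψ (upd q ω d) = Ψ ω) ∧
      ∀ e : Fin n → ℝ, (∀ i, |e i| ≤ η) →
        𝔼 ω, exp (-(lam * (3 ^ S * T2 (k + 1) (fun i => a i + e i) ω (Ψ ω))) +
          ∑ j ∈ range k, cred lam A (lam * ((η ^ 2 * n / (2 * τ) + 3 ^ S * τ / 2) / 12) +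
            (lam * 2) ^ 2 * n) a j ω) ≤ 1 := by
  induction k with
  | zero =>
    refine ⟨fun _ _ _ => 1, fun _ => ⟨fun _ _ => zero_le_one, fun _ _ _ => rfl,
      fun _ _ => by simp⟩, fun _ _ _ _ => rfl, fun e _ => ?_⟩
    simp [T2]
  | succ k ih =>
    obtain ⟨Ψ, hΨ, hinv, hs⟩ := ih (by omega)
    set κ := lam * ((η ^ 2 * n / (2 * τ) + 3 ^ S * τ / 2) / 12) + (lam * 2) ^ 2 * n with hκ
    let p : Fin S := ⟨k + 1, hk⟩
    let r : Fin S := ⟨k, by omega⟩
    let W : Om n S → Fin n → ℝ := fun ω i => Wt (k + 1) r (Ψ ω) (ω i).2 (cl (k + 1) (ω i))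
    let C : Om n S → Dg S → ℝ := fun ω R =>
      ∑ i, (if cl (k + 1) (ω i) = R then a i * W ω i else 0) * z ((ω i).1 p)
    let ε : Om n S → Dg S → ℝ := fun ω R => if 0 ≤ C ω R then 1 else -1
    have hε1 : ∀ ω R, |ε ω R| ≤ 1 := fun ω R => by
      by_cases hc : 0 ≤ C ω R <;> simp [ε, hc]
    have hε : ∀ ω R, ε ω R * C ω R = |C ω R| := fun ω R => by
      by_cases hc : 0 ≤ C ω R
      · simp [ε, hc, abs_of_nonneg hc]
      · simp [ε, hc, abs_of_neg (not_le.1 hc)]
    have hW : ∀ ω d (q : Fin S), k + 1 ≤ q → W (upd q ω d) = W ω := by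
      intro ω d q hq
      ext i
      simp only [W, hinv ω d q hq, cl_upd _ q hq]
      rfl
    refine ⟨fun ω => nextP (k + 1) p r (ε ω) (Ψ ω),
      fun ω => (hΨ ω).next p r rfl rfl _ (hε1 ω), fun ω d q hq => ?_, fun e he => ?_⟩
    · have hq' : k + 1 ≤ q := by omega
      have hne : p ≠ q := by
        rintro rfl
        simp [p] at hq
      have hC : C (upd q ω d) = C ω := by
        ext R
        simp only [C, hW ω d q hq', cl_upd _ q hq']
        simp only [upd, Function.update_of_ne hne]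
      simp only [ε, hC, hinv ω d q hq']
    rw [resample p]
    refine le_trans (Finset.expect_le_expect fun ω _ => ?_) (hs e he)
    have hp : k + 1 ≤ (p : ℕ) := le_rfl
    let β : Fin n → ℝ := fun i => (a i + e i) * Nt (k + 1) (Ψ ω) (ω i).2 (cl (k + 1) (ω i))
    have hC : ∀ d R, C (upd p ω d) R =
        ∑ i, (if cl (k + 1) (ω i) = R then a i * W ω i else 0) * z (d i) := by
      intro d R
      simp only [C, hW ω d p hp, cl_upd _ p hp]
      simp [upd]
    have regroup : ∀ (f : Fin n → ℝ) (g : Dg S → ℝ) (d : Fin n → Fin 3),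
        ∑ i, g (cl (k + 1) (ω i)) * (f i * z (d i)) =
          ∑ R, g R * ∑ i, (if cl (k + 1) (ω i) = R then f i else 0) * z (d i) := by
      intro f g d
      simp only [Finset.mul_sum]
      rw [Finset.sum_comm]
      refine Finset.sum_congr rfl fun i _ => ?_
      simp
    have key : ∀ d : Fin n → Fin 3,
        3 ^ S * T2 (k + 1) (fun i => a i + e i) ω (Ψ ω) +
        (1 / 12 * ∑ R, |∑ i, (if cl (k + 1) (ω i) = R then a i * W ω i else 0) * z (d i)| -
          1 / 12 * ∑ R, |∑ i, (if cl (k + 1) (ω i) = R then e i * W ω i else 0) * z (d i)| -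
          1 / 3 * ∑ i, β i * z (d i)) ≤
        3 ^ S * T2 (k + 1 + 1) (fun i => a i + e i) (upd p ω d)
          (nextP (k + 1) p r (ε (upd p ω d)) (Ψ (upd p ω d))) := by
      intro d
      have e1 : 3 ^ S * T2 (k + 1 + 1) (fun i => a i + e i) (upd p ω d)
          (nextP (k + 1) p r (ε (upd p ω d)) (Ψ (upd p ω d))) -
          3 ^ S * T2 (k + 1) (fun i => a i + e i) ω (Ψ ω) =
          1 / 12 * ∑ i, ε (upd p ω d) (cl (k + 1) (ω i)) * (a i * W ω i * z (d i)) +
          1 / 12 * ∑ i, ε (upd p ω d) (cl (k + 1) (ω i)) * (e i * W ω i * z (d i)) -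
          1 / 3 * ∑ i, β i * z (d i) := by
        rw [← mul_sub, T2, T2, ← Finset.sum_sub_distrib, hinv ω d p hp]
        simp only [Finset.mul_sum, ← Finset.sum_add_distrib, ← Finset.sum_sub_distrib]
        refine Finset.sum_congr rfl fun i _ => ?_
        have := (hΨ ω).point r rfl p rfl (ε (upd p ω d)) (cl (k + 1) (ω i)) (ω i).2
          (fun q hq => by simp [cl, mix, not_lt.2 hq]) (d i)
        rw [cl_succ (k + 1) p rfl]
        simp only [β, W]
        change 3 ^ S * ((a i + e i) * (𝔼 u, 𝔼 v, Hx (k + 1 + 1)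
          (Function.update (cl (k + 1) (ω i)) p (d i)) u * Hy (ω i).2 v *
            (nextP (k + 1) p r (ε (upd p ω d)) (Ψ ω) u v - 1)) - _) = _
        linear_combination (a i + e i) * this
      rw [regroup, regroup] at e1
      simp only [← hC, hε] at e1
      have e2 : -∑ R, |∑ i, (if cl (k + 1) (ω i) = R then e i * W ω i else 0) * z (d i)| ≤
          ∑ R, ε (upd p ω d) R *
            ∑ i, (if cl (k + 1) (ω i) = R then e i * W ω i else 0) * z (d i) := by
        rw [← Finset.sum_neg_distrib]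
        refine Finset.sum_le_sum fun R _ => le_trans ?_ (neg_abs_le _)
        rw [abs_mul, neg_le_neg_iff]
        exact mul_le_of_le_one_left (abs_nonneg _) (hε1 _ _)
      simp only [← hC]
      linarith
    have hWa : ∀ i, |W ω i| ≤ 1 := fun i => (hΨ ω).abs_Wt r rfl _ _
    have hst := step2 n (fun i => cl (k + 1) (ω i)) (fun i => a i * W ω i) (fun i => e i * W ω i) β
      (fun i => by rw [abs_mul]; exact mul_le_one₀ (ha i) (abs_nonneg _) (hWa i))
      (fun i => by rw [abs_mul]; exact mul_le_one₀ ((he i).trans hη) (abs_nonneg _) (hWa i))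
      (fun i => by
        simp only [β]
        rw [abs_mul]
        have h2 : |a i + e i| ≤ 2 := (abs_add_le _ _).trans (by linarith [ha i, he i])
        have h3 := (hΨ ω).abs_Nt r rfl (ω i).2 (cl (k + 1) (ω i))
        nlinarith [abs_nonneg (a i + e i), abs_nonneg (Nt (k + 1) (Ψ ω) (ω i).2 (cl (k + 1) (ω i)))])
      lam A τ h0 h1 hA hτ
    have hcr : ∀ d, ∑ j ∈ range (k + 1), cred lam A κ a j (upd p ω d) =
        ∑ j ∈ range k, cred lam A κ a j ω + cred lam A κ a k ω := by
      intro d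
      rw [← Finset.sum_range_succ (fun j => cred lam A κ a j ω)]
      exact Finset.sum_congr rfl fun j hj => cred_upd _ _ _ _ _ _
        (by have := mem_range.1 hj; change j + 1 ≤ k + 1; omega) _ _
    have h5 : ∑ i, a i ^ 2 * mid k (ω i).2 / 9 ≤ ∑ i, (a i * W ω i) ^ 2 := by
      refine Finset.sum_le_sum fun i _ => ?_
      have e3 : mid k (ω i).2 = if (ω i).2 r = 1 then 1 else 0 := by
        unfold mid
        rw [Finset.sum_eq_single r]
        · simp [r]
        · intro q _ hq
          exact if_neg fun h => hq (Fin.ext h.1)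
        · simp
      rw [e3]
      split_ifs with h
      · simp only [W]
        rw [(hΨ ω).Wt_mid r rfl _ _ (fun q hq => by simp [cl, mix, not_lt.2 hq]) h]
        linarith
      · simpa using sq_nonneg _
    have h6 : ∑ i, (e i * W ω i) ^ 2 ≤ η ^ 2 * n := by
      calc _ ≤ ∑ _i : Fin n, η ^ 2 := Finset.sum_le_sum fun i _ => by
            rw [← sq_abs, abs_mul]
            exact pow_le_pow_left₀ (by positivity)
              ((mul_le_of_le_one_right (abs_nonneg _) (hWa i)).trans (he i)) 2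
        _ = _ := by simp [mul_comm]
    have h7 : -(lam * ((∑ i, (a i * W ω i) ^ 2 - exc A (k + 1) ω) / (108 * √A) -
        ((∑ i, (e i * W ω i) ^ 2) / (2 * τ) + Fintype.card (Dg S) * τ / 2) / 12)) +
        (lam * 2) ^ 2 * n ≤ -cred lam A κ a k ω := by
      have c1 : (Fintype.card (Dg S) : ℝ) = 3 ^ S := by simp
      have c2 := div_le_div_of_nonneg_right (sub_le_sub_right h5 (exc A (k + 1) ω))
        (show 0 ≤ 108 * √A by positivity)
      have c3 := div_le_div_of_nonneg_right h6 (show 0 ≤ 2 * τ by positivity)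
      rw [cred, hκ, c1]
      nlinarith [mul_le_mul_of_nonneg_left c2 h0, mul_le_mul_of_nonneg_left c3 h0]
    have h8 := hst.trans (exp_le_exp.2 h7)
    set X := -(lam * (3 ^ S * T2 (k + 1) (fun i => a i + e i) ω (Ψ ω))) +
      ∑ j ∈ range k, cred lam A κ a j ω with hX
    have h9 := mul_le_mul_of_nonneg_left h8 (exp_pos (X + cred lam A κ a k ω)).le
    rw [← exp_add, add_neg_cancel_right, Finset.mul_expect] at h9
    refine le_trans (Finset.expect_le_expect fun d _ => ?_) h9
    rw [← exp_add, exp_le_exp, hcr, hX]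
    linarith [mul_le_mul_of_nonneg_left (key d) h0, mul_add lam
      (3 ^ S * T2 (k + 1) (fun i => a i + e i) ω (Ψ ω))
      (1 / 12 * ∑ R, |∑ i, (if cl (k + 1) (ω i) = R then a i * W ω i else 0) * z (d i)| -
          1 / 12 * ∑ R, |∑ i, (if cl (k + 1) (ω i) = R then e i * W ω i else 0) * z (d i)| -
          1 / 3 * ∑ i, β i * z (d i))]

end Pool.Agent.P.MP_e00059_co.L43
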