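import Mathlib
import Pool.Agent.P.MP_e00059_co.RB

/-! The geometry of random digit points and the union bound over a net of weights. -/

open Finset Real
open scoped BigOperators

namespace Pool.Agent.P.MP_e00059_co.L43

variable {S n : ℕ}

/-- shortage of middle digits -/
noncomputable def sho (s : ℕ) (y : Dg S) : ℝ := max (s / 3 - ∑ j ∈ range s, mid j y) 0

/-- the geometric defect of a configuration -/
noncomputable def dfc (A : ℝ) (s : ℕ) (ω : Om n S) : ℝ :=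
  ∑ i, sho s (ω i).2 + ∑ j ∈ range s, exc A (j + 1) ω

lemma mid_nonneg (j : ℕ) (y : Dg S) : 0 ≤ mid j y :=
  Finset.sum_nonneg fun _ _ => by split_ifs <;> norm_num

lemma max_le_sq (t c : ℝ) (hc : 0 < c) : max t 0 ≤ c + t ^ 2 / (4 * c) := by
  have h1 : 0 ≤ t ^ 2 / (4 * c) := by positivity
  have h2 : c + t ^ 2 / (4 * c) - t = (t - 2 * c) ^ 2 / (4 * c) := by
    field_simp
    ring
  have h3 : 0 ≤ (t - 2 * c) ^ 2 / (4 * c) := by positivity
  exact max_le (by linarith) (by linarith)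

lemma ex_sho (s : ℕ) (hS : S = s + 1) (c : ℝ) (hc : 0 < c) :
    𝔼 y : Dg S, sho s y ≤ c + (s + 1) / (4 * c) := by
  let h : Fin S → Fin 3 → ℝ := fun q b =>
    (if (q : ℕ) < s then 1 else 0) * (1 / 3 - if b = 1 then 1 else 0)
  have e : ∀ y : Dg S, s / 3 - ∑ j ∈ range s, mid j y = ∑ q, h q (y q) := by
    intro y
    have e1 : ∀ j ∈ range s, 1 / 3 - mid j y =
        ∑ q : Fin S, if (q : ℕ) = j then (1 / 3 - if y q = 1 then (1 : ℝ) else 0) else 0 := by
      intro j hj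
      have hj' : j < S := by have := mem_range.1 hj; omega
      unfold mid
      rw [Finset.sum_eq_single ⟨j, hj'⟩, Finset.sum_eq_single ⟨j, hj'⟩]
      · simp
      · intro q _ hq
        exact if_neg fun h => hq (Fin.ext h)
      · simp
      · intro q _ hq
        exact if_neg fun h => hq (Fin.ext h.1)
      · simp
    have e2 : (s : ℝ) / 3 - ∑ j ∈ range s, mid j y = ∑ j ∈ range s, (1 / 3 - mid j y) := by
      rw [Finset.sum_sub_distrib]
      simp
      ring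
    rw [e2, Finset.sum_congr rfl e1, Finset.sum_comm]
    refine Finset.sum_congr rfl fun q _ => ?_
    rw [Finset.sum_ite_eq]
    by_cases hq : (q : ℕ) < s <;> simp [h, hq]
  have h1 := mom2 S h
  have h2 : ∀ q, 𝔼 b, h q b = 0 := fun q => by
    rw [ex3]
    by_cases hq : (q : ℕ) < s <;> simp [h, hq]
    norm_num
  have h3 : ∀ q, 𝔼 b, h q b ^ 2 ≤ 1 := fun q => by
    rw [ex3]
    by_cases hq : (q : ℕ) < s <;> simp [h, hq]
    norm_num
  have h4 : ∑ q, 𝔼 b, h q b ^ 2 ≤ s + 1 :=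
    (Finset.sum_le_sum fun q _ => h3 q).trans (by simp [hS])
  simp only [h2, Finset.sum_const_zero] at h1
  simp only [sho, e]
  refine (Finset.expect_le_expect fun y _ => max_le_sq _ c hc).trans ?_
  rw [Finset.expect_add_distrib, Fintype.expect_const, ← Finset.expect_div]
  refine add_le_add_right (div_le_div_of_nonneg_right (by linarith) (by positivity)) _

lemma ex_pair (G : Dg S → Dg S → ℝ) : 𝔼 w : Dg S × Dg S, G w.1 w.2 = 𝔼 a, 𝔼 b, G a b := by
  rw [← univ_product_univ, Finset.expect_product]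

lemma ex_exc (A : ℝ) (hA : 0 < A) (t : ℕ) :
    𝔼 ω : Om n S, exc A t ω ≤ (n + n ^ 2 / 3 ^ S) / (4 * A) := by
  have h1 : ∀ R : Dg S, 𝔼 w : Dg S × Dg S, (if cl t w = R then (1 : ℝ) else 0) = 1 / 3 ^ S := by
    intro R
    rw [show (𝔼 w : Dg S × Dg S, (if cl t w = R then (1 : ℝ) else 0)) = _ from
      ex_pair fun a b => if mix t a b = R then (1 : ℝ) else 0,
      ← expect_mix t fun a => if a = R then (1 : ℝ) else 0, Fintype.expect_eq_sum_div_card]
    simp
  have h2 : ∀ R : Dg S, 𝔼 ω : Om n S, max (∑ i, (if cl t (ω i) = R then (1 : ℝ) else 0) - A) 0 ≤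
      (n / 3 ^ S + (n / 3 ^ S) ^ 2) / (4 * A) := by
    intro R
    have h3 := mom2 n fun (_ : Fin n) (w : Dg S × Dg S) => if cl t w = R then (1 : ℝ) else 0
    simp only [ite_pow, one_pow, ne_eq, OfNat.ofNat_ne_zero, not_false_eq_true, zero_pow, h1,
      Finset.sum_const, card_univ, Fintype.card_fin, nsmul_eq_mul, mul_one_div] at h3
    have h4 : ∀ N : ℝ, max (N - A) 0 ≤ N ^ 2 / (4 * A) := fun N => by
      refine max_le ?_ (by positivity)
      rw [le_div_iff₀ (by positivity)]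
      nlinarith [sq_nonneg (N - 2 * A)]
    refine (Finset.expect_le_expect fun ω _ => h4 _).trans ?_
    rw [← Finset.expect_div]
    exact div_le_div_of_nonneg_right h3 (by positivity)
  unfold exc
  rw [Finset.expect_sum_comm]
  refine (Finset.sum_le_sum fun R _ => h2 R).trans (le_of_eq ?_)
  simp only [Finset.sum_const, card_univ, Fintype.card_pi, Fintype.card_fin, Finset.prod_const,
    nsmul_eq_mul]
  push_cast
  field_simp

lemma dfc_diff (A : ℝ) (s : ℕ) (hs : 0 < s) (ω : Om n S) (i : Fin n) (b : Dg S × Dg S) :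
    |dfc A s (Function.update ω i b) - dfc A s ω| ≤ 4 * s := by
  have hs' : (0 : ℝ) < s := by exact_mod_cast hs
  have h1 := lip (J := Unit) id (fun _ _ => le_rfl)
    (fun (_ : Fin n) (w : Dg S × Dg S) _ => sho s w.2 / s) (fun _ w => by
      have h2 : 0 ≤ ∑ j ∈ range s, mid j w.2 := Finset.sum_nonneg fun _ _ => mid_nonneg _ _
      have h3 : sho s w.2 ≤ s := max_le (by linarith) hs'.le
      have h4 : 0 ≤ sho s w.2 := le_max_right _ _
      simp only [Finset.univ_unique, Finset.sum_singleton]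
      rw [abs_of_nonneg (by positivity), div_le_one hs']
      exact h3) ω i b
  simp only [Finset.univ_unique, Finset.sum_singleton, id, ← Finset.sum_div] at h1
  rw [← sub_div, abs_div, abs_of_pos hs', div_le_iff₀ hs'] at h1
  have h2 : ∀ t, |exc A t (Function.update ω i b) - exc A t ω| ≤ 2 := fun t =>
    lip (fun x => max (x - A) 0) (fun x y => by
        simpa using abs_max_sub_max_le_abs (x - A) (y - A) 0)
      (fun (_ : Fin n) (w : Dg S × Dg S) R => if cl t w = R then (1 : ℝ) else 0) (fun _ w => by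
        rw [Finset.sum_eq_single (cl t w)]
        · simp
        · intro R _ hR
          rw [if_neg (Ne.symm hR), abs_zero]
        · simp) ω i b
  have h3 : |∑ j ∈ range s, exc A (j + 1) (Function.update ω i b) -
      ∑ j ∈ range s, exc A (j + 1) ω| ≤ 2 * s := by
    rw [← Finset.sum_sub_distrib]
    refine (Finset.abs_sum_le_sum_abs _ _).trans ((Finset.sum_le_sum fun j _ => h2 _).trans ?_)
    simp [mul_comm]
  rw [abs_le] at h1 h3 ⊢
  unfold dfc
  constructor <;> linarith [h1.1, h1.2, h3.1, h3.2]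

lemma ex_dfc (δ q : ℝ) (h0 : 0 < δ) (h1 : δ ≤ 1) (s : ℕ) (hS : S = s + 1)
    (hq : q ^ 2 * 3 ^ S = n) (hq1 : 1 ≤ q ^ 2) (hs : 209952 ≤ δ ^ 2 * s) :
    𝔼 ω : Om n S, exp (δ / 6912 / s * (dfc ((18 / δ * q) ^ 2) s ω - δ * n * s / 108)) ≤
      exp (-(δ ^ 2 / (3 * 10 ^ 6) * n)) := by
  have hs1 : (1 : ℝ) ≤ s := by nlinarith [Nat.cast_nonneg (α := ℝ) s, mul_pos h0 h0]
  have hs0 : 0 < s := by exact_mod_cast (zero_lt_one.trans_le hs1)
  have hn : (0 : ℝ) ≤ n := Nat.cast_nonneg n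
  set A := (18 / δ * q) ^ 2 with hA
  have eA : A = 324 / δ ^ 2 * q ^ 2 := by rw [hA]; ring
  have A0 : 0 < A := by rw [eA]; positivity
  have h2 : 𝔼 ω : Om n S, dfc A s ω ≤ δ * n * s / 216 := by
    unfold dfc
    rw [Finset.expect_add_distrib, (mom n fun _ (w : Dg S × Dg S) => sho s w.2).1,
      Finset.expect_sum_comm]
    have h3 : 𝔼 w : Dg S × Dg S, sho s w.2 ≤ δ * s / 324 := by
      rw [ex_pair fun _ b => sho s b, Fintype.expect_const]
      refine (ex_sho s hS (δ * s / 648) (by positivity)).trans ?_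
      have : ((s : ℝ) + 1) / (4 * (δ * s / 648)) ≤ δ * s / 648 := by
        rw [div_le_iff₀ (by positivity)]
        nlinarith [mul_le_mul_of_nonneg_right hs (zero_le_one.trans hs1)]
      linarith
    have h4 : ((n : ℝ) + n ^ 2 / 3 ^ S) / (4 * A) ≤ δ * n / 648 := by
      have e : (n : ℝ) ^ 2 / 3 ^ S = n * q ^ 2 := by
        rw [div_eq_iff (by positivity), mul_assoc, hq, sq]
      rw [e, div_le_iff₀ (by positivity), eA]
      have e2 : δ * n / 648 * (4 * (324 / δ ^ 2 * q ^ 2)) = 2 * (n * q ^ 2) / δ := by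
        field_simp
        ring
      rw [e2, le_div_iff₀ h0]
      have h5 := mul_le_mul_of_nonneg_left hq1 hn
      nlinarith [mul_le_mul_of_nonneg_left h1 (show 0 ≤ (n : ℝ) + n * q ^ 2 by positivity)]
    have h5 := Finset.sum_le_sum fun i (_ : i ∈ (univ : Finset (Fin n))) => h3
    have h6 := Finset.sum_le_sum fun j (_ : j ∈ range s) =>
      (ex_exc (n := n) (S := S) A A0 (j + 1)).trans h4
    simp only [Finset.sum_const, card_univ, Fintype.card_fin, card_range, nsmul_eq_mul] at h5 h6 ⊢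
    linarith
  have e1 : δ / 6912 / s * (4 * s) = δ / 1728 := by
    field_simp
    norm_num
  have h3 := mcd (δ / 6912 / s) (4 * s) (by positivity) (by rw [e1]; linarith) n
    (fun ω : Om n S => -dfc A s ω) (fun ω i b => by
      rw [neg_sub_neg, abs_sub_comm]
      exact dfc_diff A s hs0 ω i b)
  simp only [mul_neg, neg_neg, Finset.expect_neg_distrib, e1] at h3
  have e4 : ∀ c x y : ℝ, exp (c * (x - y)) = exp (c * x) * exp (-(c * y)) := fun c x y => by
    rw [← exp_add]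
    ring_nf
  simp only [e4]
  rw [← Finset.expect_mul]
  refine (mul_le_mul_of_nonneg_right h3 (exp_pos _).le).trans ?_
  rw [← exp_add, exp_le_exp]
  have h4 := mul_le_mul_of_nonneg_left h2 (show 0 ≤ δ / 6912 / s by positivity)
  have e2 : δ / 6912 / s * (δ * n * s / 216) = δ ^ 2 * n / 1492992 := by
    field_simp
    ring
  have e3 : δ / 6912 / s * (δ * n * s / 108) = δ ^ 2 * n / 746496 := by
    field_simp
    ring
  have h5 : 0 ≤ δ ^ 2 * n := by positivity
  rw [e3]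
  rw [e2] at h4
  linarith

lemma T2_le (w : Fin n → ℝ) (ω : Om n S) (Ψ : Dg S → Dg S → ℝ) {k : ℕ} (h : Good k Ψ) (M : ℝ)
    (hM : ∀ u v, |∑ i, w i * (Hx S (ω i).1 u * Hy (ω i).2 v)| ≤ M) : T2 S w ω Ψ ≤ 2 * M := by
  have e0 : ∀ x : Dg S × Dg S, cl S x = x.1 := fun x => by
    ext j
    simp [cl, mix]
  have e : T2 S w ω Ψ =
      𝔼 u, 𝔼 v, (∑ i, w i * (Hx S (ω i).1 u * Hy (ω i).2 v)) * (Ψ u v - 1) := by
    simp only [T2, e0, Finset.sum_mul, Finset.expect_sum_comm, Finset.mul_expect, mul_assoc]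
  have e2 : 2 * M = 𝔼 u, 𝔼 v, M * (Ψ u v + 1) := by
    simp only [← Finset.mul_expect, Finset.expect_add_distrib, h.mean]
    simp
    ring
  rw [e, e2]
  refine Finset.expect_le_expect fun u _ => Finset.expect_le_expect fun v _ => ?_
  have h5 := abs_le.1 (hM u v)
  nlinarith [mul_nonneg (sub_nonneg.2 h5.2) (h.nonneg u v)]

lemma sq_round (a x η : ℝ) (h3 : |a| ≤ 1) (h4 : |x| ≤ 1) (h5 : a ≤ x ∧ x ≤ a + η) :
    x ^ 2 ≤ a ^ 2 + 2 * η := by
  rw [abs_le] at h3 h4
  nlinarith [mul_nonneg (sub_nonneg.2 h5.1) (show 0 ≤ 2 - (x + a) by linarith)]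

lemma net (x : ℝ) (L : ℕ) (hx : |x| ≤ 1) (hL : (1 : ℝ) ≤ L) : ⌊(x + 1) * L⌋₊ < 2 * L + 1 ∧
    (⌊(x + 1) * L⌋₊ : ℝ) / L - 1 ≤ x ∧ x ≤ (⌊(x + 1) * L⌋₊ : ℝ) / L - 1 + 1 / L := by
  rw [abs_le] at hx
  have h1 : 0 ≤ (x + 1) * L := by nlinarith
  refine ⟨?_, ?_, ?_⟩
  · rw [Nat.floor_lt h1]
    push_cast
    nlinarith
  · rw [sub_le_iff_le_add, div_le_iff₀ (by positivity)]
    exact Nat.floor_le h1
  · rw [sub_add_eq_add_sub, ← add_div, le_sub_iff_add_le, le_div_iff₀ (by positivity)]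
    exact (Nat.lt_floor_add_one _).le

lemma mid_low (δ A : ℝ) (s : ℕ) (ω : Om n S) (a : Fin n → ℝ) (ha : ∀ i, |a i| ≤ 1)
    (g1 : dfc A s ω ≤ δ * n * s / 108) (g5 : δ * n / 2 ≤ ∑ i, a i ^ 2) : δ * n * s / 108 ≤
      ∑ t ∈ range s, (∑ i, a i ^ 2 * mid t (ω i).2 / 9 - exc A (t + 1) ω) := by
  rw [Finset.sum_sub_distrib, Finset.sum_comm]
  have h2 : ∑ i, (a i ^ 2 * (s / 27) - sho s (ω i).2) ≤
      ∑ i, ∑ t ∈ range s, a i ^ 2 * mid t (ω i).2 / 9 := Finset.sum_le_sum fun i _ => by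
    rw [← Finset.sum_div, ← Finset.mul_sum]
    have h3 : s / 3 - ∑ t ∈ range s, mid t (ω i).2 ≤ sho s (ω i).2 := le_max_left _ _
    have h4 : 0 ≤ sho s (ω i).2 := le_max_right _ _
    have h5 : a i ^ 2 ≤ 1 := by
      rw [← sq_abs]
      nlinarith [ha i, abs_nonneg (a i)]
    nlinarith [mul_le_mul_of_nonneg_left h3 (sq_nonneg (a i)), mul_le_mul_of_nonneg_right h5 h4]
  rw [Finset.sum_sub_distrib, ← Finset.sum_mul] at h2
  unfold dfc at g1
  nlinarith [mul_le_mul_of_nonneg_right g5 (Nat.cast_nonneg (α := ℝ) s)]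

lemma last_arith (δ q κ η lam N n s L T V : ℝ) (h0 : 0 < δ) (q0 : 0 < q) (hs : 0 < s) (hn : 0 < n)
    (hκ : κ = δ ^ 2 / 419904) (_ : η ≠ 0) (η1 : η ≤ 12 * κ) (hlam : lam = κ / (8 * q))
    (hq : q ^ 2 * N = n) (hm : (4 * L + 3) * q ^ 2 ≤ s * κ ^ 2 / 32)
    (g3 : T ≤ 2 * (s * κ * q / 8)) (g6 : δ * n * s / 108 ≤ V) :
    0 ≤ -(lam * (N * T)) + (lam * (V / (108 * (18 / δ * q))) -
      s * (lam * ((η ^ 2 * n / (2 * (η * q)) + N * (η * q) / 2) / 12) + (lam * 2) ^ 2 * n)) +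
      -((4 * L + 3) * n) := by
  have κ0 : 0 < κ := by rw [hκ]; positivity
  have lam0 : 0 < lam := by rw [hlam]; positivity
  have e3 : N = n / q ^ 2 := by rw [← hq]; field_simp
  have g8 := mul_le_mul_of_nonneg_left (div_le_div_of_nonneg_right g6
    (show 0 ≤ 108 * (18 / δ * q) by positivity)) lam0.le
  set X : ℝ := n * s * κ / q ^ 2 with hX
  have X0 : 0 < X := by positivity
  have e4 : lam * (δ * n * s / 108 / (108 * (18 / δ * q))) = X * κ / 4 := by
    rw [hlam, hX, hκ]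
    field_simp
    norm_num
  have e5 : s * (lam * ((η ^ 2 * n / (2 * (η * q)) + N * (η * q) / 2) / 12) +
      (lam * 2) ^ 2 * n) = X * η / 96 + X * κ / 16 := by
    rw [e3, hlam, hX]
    field_simp
    ring
  have e6 : lam * (N * (2 * (s * κ * q / 8))) = X * κ / 32 := by
    rw [e3, hlam, hX]
    field_simp
    norm_num
  have g9 : (4 * L + 3) * n ≤ X * κ / 32 := by
    have e7 : X * κ / 32 = s * κ ^ 2 / 32 * n / q ^ 2 := by
      rw [hX]
      field_simp
    rw [e7, le_div_iff₀ (by positivity)]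
    nlinarith [mul_le_mul_of_nonneg_right hm hn.le]
  have g10 := mul_le_mul_of_nonneg_left (mul_le_mul_of_nonneg_left g3
    (show 0 ≤ N by rw [e3]; positivity)) lam0.le
  linarith [mul_le_mul_of_nonneg_left η1 X0.le]

theorem core2 (δ q : ℝ) (h0 : 0 < δ) (h1 : δ ≤ 1) (L : ℕ) (hL : 34992 ≤ δ ^ 2 * L) (s : ℕ)
    (hS : S = s + 1) (q0 : 0 < q) (hq : q ^ 2 * 3 ^ S = n) (hq1 : 1 ≤ q ^ 2)
    (hs : 209952 ≤ δ ^ 2 * s) (hm : (4 * L + 3) * q ^ 2 ≤ s * (δ ^ 2 / 419904) ^ 2 / 32) :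
    ∃ Z : Om n S → ℝ, (∀ ω, 0 ≤ Z ω) ∧ 𝔼 ω, Z ω ≤ 2 * exp (-(δ ^ 2 / (3 * 10 ^ 6) * n)) ∧
      ∀ ω, Z ω < 1 → ∀ χ : Fin n → ℝ, (∀ i, |χ i| ≤ 1) → δ * n ≤ ∑ i, χ i ^ 2 →
        ∃ u v, s * (δ ^ 2 / 419904) * q / 8 < |∑ i, χ i * (Hx S (ω i).1 u * Hy (ω i).2 v)| := by
  have hd2 : δ ^ 2 ≤ 1 := by nlinarith
  have hs1 : (1 : ℝ) ≤ s := by nlinarith [Nat.cast_nonneg (α := ℝ) s, mul_pos h0 h0]
  have hL1 : (1 : ℝ) ≤ L := by nlinarith [Nat.cast_nonneg (α := ℝ) L, mul_pos h0 h0]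
  have hq2 : 1 ≤ q := by nlinarith
  have hn : (0 : ℝ) < n := by rw [← hq]; positivity
  set κ : ℝ := δ ^ 2 / 419904 with hκ
  have κ0 : 0 < κ := by positivity
  set η : ℝ := 1 / L with hη
  have η0 : 0 < η := by positivity
  have η1 : η ≤ 12 * κ := by
    rw [hη, hκ, div_le_iff₀ (by positivity)]
    linarith
  have η2 : η ≤ δ / 4 := by nlinarith
  set lam : ℝ := κ / (8 * q) with hlam
  have lam0 : 0 < lam := by positivity
  have lam1 : lam * 2 ≤ 1 := by
    rw [hlam, div_mul_eq_mul_div, div_le_one (by positivity)]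
    linarith
  set A := (18 / δ * q) ^ 2 with hA
  have sA : √A = 18 / δ * q := sqrt_sq (by positivity)
  let av : (Fin n → Fin (2 * L + 1)) → Fin n → ℝ := fun j i => (j i : ℕ) / L - 1
  let ev : (Fin n → Bool) → Fin n → ℝ := fun σ i => if σ i then η else 0
  have hav : ∀ j i, |av j i| ≤ 1 := fun j i => by
    have h2 : ((j i : ℕ) : ℝ) ≤ 2 * L := by exact_mod_cast Nat.lt_succ_iff.1 (j i).2
    have h3 : ((j i : ℕ) : ℝ) / L ≤ 2 := by rw [div_le_iff₀ (by positivity)]; exact h2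
    have h4 : 0 ≤ ((j i : ℕ) : ℝ) / L := by positivity
    rw [abs_le]
    constructor <;> simp only [av] <;> linarith
  have hev : ∀ σ i, |ev σ i| ≤ η := fun σ i => by
    simp only [ev]
    split_ifs
    · rw [abs_of_pos η0]
    · simpa using η0.le
  choose Ψ hΨ hinv hsm using fun j => all_steps2 (S := S) lam A (η * q) η lam0.le lam1
    (by positivity) (by positivity) (by linarith) (av j) (hav j) s (by omega)
  rw [← hS] at hsm
  set κ' := lam * ((η ^ 2 * n / (2 * (η * q)) + 3 ^ S * (η * q) / 2) / 12) + (lam * 2) ^ 2 * n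
    with hκ'
  let F : (Fin n → Fin (2 * L + 1)) × (Fin n → Bool) → Om n S → ℝ := fun x ω =>
    exp (-(lam * (3 ^ S * T2 S (fun i => av x.1 i + ev x.2 i) ω (Ψ x.1 ω))) +
      ∑ j ∈ range s, cred lam A κ' (av x.1) j ω)
  refine ⟨fun ω => (∑ x, F x ω) * exp (-((4 * L + 3) * n)) +
    exp (δ / 6912 / s * (dfc A s ω - δ * n * s / 108)), fun ω => by positivity, ?_,
    fun ω hω χ hχ hχ2 => ?_⟩
  · rw [Finset.expect_add_distrib, ← Finset.expect_mul, Finset.expect_sum_comm]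
    have h2 := ex_dfc δ q h0 h1 s hS hq hq1 hs
    have h3 : ∑ x, 𝔼 ω, F x ω ≤ exp ((4 * L + 2) * n) := by
      refine (Finset.sum_le_sum fun x _ => hsm x.1 _ (hev x.2)).trans ?_
      simp only [Finset.sum_const, card_univ, Fintype.card_prod, Fintype.card_pi, Fintype.card_fin,
        Finset.prod_const, Fintype.card_bool, nsmul_eq_mul, mul_one]
      push_cast
      rw [← mul_pow, mul_comm _ (n : ℝ), exp_nat_mul]
      exact pow_le_pow_left₀ (by positivity) (by linarith [add_one_le_exp (4 * L + 2 : ℝ)]) n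
    have h4 := mul_le_mul_of_nonneg_right h3 (exp_pos (-((4 * L + 3) * n))).le
    rw [← exp_add] at h4
    have h5 : exp ((4 * L + 2) * n + -((4 * L + 3) * n)) ≤ exp (-(δ ^ 2 / (3 * 10 ^ 6) * n)) :=
      exp_le_exp.2 (by linarith [mul_le_mul_of_nonneg_right hd2 hn.le])
    linarith
  by_contra hc
  push Not at hc
  have hF0 : ∀ x, 0 ≤ F x ω := fun x => (exp_pos _).le
  have g1 : dfc A s ω ≤ δ * n * s / 108 := by
    have h2 : exp (δ / 6912 / s * (dfc A s ω - δ * n * s / 108)) < 1 :=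
      lt_of_le_of_lt (le_add_of_nonneg_left (by positivity)) hω
    rw [exp_lt_one_iff] at h2
    exact sub_nonpos.1 (neg_of_mul_neg_right h2 (by positivity)).le
  let j : Fin n → Fin (2 * L + 1) := fun i => ⟨_, (net (χ i) L (hχ i) hL1).1⟩
  have hj1 : ∀ i, av j i ≤ χ i ∧ χ i ≤ av j i + η := fun i => (net (χ i) L (hχ i) hL1).2
  let φ : Fin n → ℝ := fun i => 𝔼 u, 𝔼 v, Hx S (cl S (ω i)) u * Hy (ω i).2 v * (Ψ j ω u v - 1)
  let σ : Fin n → Bool := fun i => decide (φ i < 0)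
  have g2 : T2 S (fun i => av j i + ev σ i) ω (Ψ j ω) ≤ T2 S χ ω (Ψ j ω) := by
    refine Finset.sum_le_sum fun i _ => ?_
    change (av j i + ev σ i) * φ i ≤ χ i * φ i
    by_cases h : φ i < 0
    · have : ev σ i = η := by simp [ev, σ, h]
      rw [this]
      exact mul_le_mul_of_nonpos_right (hj1 i).2 h.le
    · have : ev σ i = 0 := by simp [ev, σ, h]
      rw [this, add_zero]
      exact mul_le_mul_of_nonneg_right (hj1 i).1 (not_lt.1 h)
  have g3 := g2.trans (T2_le χ ω _ (hΨ j ω) _ hc)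
  have g4 : F (j, σ) ω * exp (-((4 * L + 3) * n)) < 1 :=
    lt_of_le_of_lt ((mul_le_mul_of_nonneg_right (Finset.single_le_sum (fun x _ => hF0 x)
      (mem_univ _)) (exp_pos _).le).trans (le_add_of_nonneg_right (exp_pos _).le)) hω
  simp only [F] at g4
  rw [← exp_add, exp_lt_one_iff] at g4
  have g5 : δ * n / 2 ≤ ∑ i, av j i ^ 2 := by
    have h2 : ∑ i, χ i ^ 2 ≤ ∑ i, (av j i ^ 2 + 2 * η) :=
      Finset.sum_le_sum fun i _ => sq_round _ _ _ (hav j i) (hχ i) (hj1 i)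
    rw [Finset.sum_add_distrib, Finset.sum_const, card_univ, Fintype.card_fin, nsmul_eq_mul] at h2
    linarith [mul_le_mul_of_nonneg_left η2 hn.le]
  have g6 := mid_low δ A s ω (av j) (hav j) g1 g5
  have g7 : ∑ t ∈ range s, cred lam A κ' (av j) t ω = lam *
      ((∑ t ∈ range s, (∑ i, av j i ^ 2 * mid t (ω i).2 / 9 - exc A (t + 1) ω)) / (108 * √A)) -
      s * κ' := by
    simp only [cred]
    rw [Finset.sum_sub_distrib, ← Finset.mul_sum, ← Finset.sum_div]
    simp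
  rw [g7, sA] at g4
  exact absurd (last_arith δ q κ η lam (3 ^ S) n s L _ _ h0 q0 (by linarith) hn hκ η0.ne' η1 hlam hq hm
    g3 g6) (not_le.2 g4)

end Pool.Agent.P.MP_e00059_co.L43
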