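import Mathlib
import Pool.Agent.P.MP_e00059_co.RC

/-! From digit strings to uniformly distributed points of the unit square. -/

open Finset Real MeasureTheory
open scoped BigOperators

namespace Pool.Agent.P.MP_e00059_co.L43

lemma idx (N : ℕ) (hN : 0 < N) (x : ℝ) (h0 : 0 ≤ x) (h1 : x ≤ 1) : ∃ j : Fin N,
    ((j : ℕ) / N ≤ x ∧ x ≤ ((j : ℕ) + 1) / N) ∧ (∀ a : Fin N, j ≤ a ↔ x ≤ ((a : ℕ) + 1) / N) ∧
      ∀ a : Fin N, j < a ↔ 0 < (a : ℕ) ∧ x ≤ (a : ℕ) / N := by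
  have hN' : (0 : ℝ) < N := by exact_mod_cast hN
  have key : ∀ a : ℕ, ⌈x * N⌉₊ ≤ a ↔ x ≤ a / N := fun a => by
    rw [Nat.ceil_le, le_div_iff₀ hN']
  have h2 : ⌈x * N⌉₊ ≤ N := (key N).2 (by rwa [div_self hN'.ne'])
  have k2 : ∀ a : ℕ, ⌈x * N⌉₊ - 1 ≤ a ↔ x ≤ (a + 1) / N := fun a => by
    have := key (a + 1)
    push_cast at this
    rw [← this]
    omega
  refine ⟨⟨⌈x * N⌉₊ - 1, by omega⟩, ⟨?_, (k2 _).1 le_rfl⟩, fun a => k2 a, fun a => ?_⟩
  · rcases Nat.eq_zero_or_pos ⌈x * N⌉₊ with h | h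
    · simpa [h] using h0
    · refine le_of_lt (not_le.1 fun hc => ?_)
      have := (key _).2 hc
      simp only at this
      omega
  · rw [← key, Fin.lt_def]
    simp only
    omega

open Classical in
theorem transfer {S n : ℕ} (Z : Om n S → ℝ) (hZ : ∀ ω, 0 ≤ Z ω) (M : ℝ) (Q : (Fin n → ℝ) → Prop)
    (h : ∀ ω, Z ω < 1 → ∀ χ, Q χ → ∃ u v, M < |∑ i, χ i * (Hx S (ω i).1 u * Hy (ω i).2 v)|) :
    volume {x : Fin n → ℝ × ℝ | (∀ i, x i ∈ Set.Icc (0 : ℝ) 1 ×ˢ Set.Icc (0 : ℝ) 1) ∧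
      ∃ χ, Q χ ∧ ∀ b₁ b₂ : ℝ, 0 ≤ b₁ → 0 ≤ b₂ →
        |∑ i with (0 ≤ (x i).1 ∧ (x i).1 ≤ b₁) ∧ (0 ≤ (x i).2 ∧ (x i).2 ≤ b₂), χ i| ≤ M} ≤
      ENNReal.ofReal (𝔼 ω, Z ω) := by
  set N := 3 ^ S with hN
  have N0 : 0 < N := by positivity
  have N0' : (0 : ℝ) < N := by exact_mod_cast N0
  have hc : Fintype.card (Dg S) = N := by simp [hN]
  let E : Fin N ≃o Lex (Dg S) := monoEquivOfFin (Lex (Dg S)) hc
  let E' : Fin N ≃o Colex (Dg S) :=
    @monoEquivOfFin (Colex (Dg S)) (inferInstanceAs (Fintype (Dg S))) _ _ hc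
  let I : Fin N → Set ℝ := fun j => Set.Icc ((j : ℕ) / N) (((j : ℕ) + 1) / N)
  have hI : ∀ j, volume (I j) = ENNReal.ofReal (1 / N) := fun j => by
    simp only [I, Real.volume_Icc]
    congr 1
    ring
  let cs : Om n S → Set (Fin n → ℝ × ℝ) := fun ω =>
    Set.univ.pi fun i => I (E.symm (toLex (ω i).1)) ×ˢ I (E'.symm (toColex (ω i).2))
  have hcs : ∀ ω, volume (cs ω) = ENNReal.ofReal ((1 / N * (1 / N)) ^ n) := fun ω => by
    simp only [cs, volume_pi_pi, Measure.volume_eq_prod, Measure.prod_prod, hI]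
    rw [Finset.prod_const, card_univ, Fintype.card_fin, ENNReal.ofReal_pow (by positivity),
      ENNReal.ofReal_mul (by positivity)]
  refine (measure_mono (t := ⋃ ω ∈ univ.filter fun ω => 1 ≤ Z ω, cs ω) ?_).trans
    ((measure_biUnion_finset_le _ _).trans ?_)
  · rintro x ⟨hx, χ, hχ, hb⟩
    choose j j1 j2 j3 using fun i => idx N N0 (x i).1 (hx i).1.1 (hx i).1.2
    choose l l1 l2 l3 using fun i => idx N N0 (x i).2 (hx i).2.1 (hx i).2.2
    let ω : Om n S := fun i => (ofLex (E (j i)), ofColex (E' (l i)))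
    simp only [Set.mem_iUnion]
    refine ⟨ω, mem_filter.2 ⟨mem_univ _, not_lt.1 fun hlt => ?_⟩, fun i _ => ?_⟩
    · obtain ⟨u, v, huv⟩ := h ω hlt χ hχ
      obtain ⟨a, ha⟩ := E.surjective (toLex u)
      obtain ⟨b, hb'⟩ := E'.surjective (toColex v)
      have e1 : ∀ i, Hx S (ω i).1 u =
          ((if j i < a then 1 else 0) + if j i ≤ a then 1 else 0) / 2 := fun i => by
        have h1 : toLex (ω i).1 < toLex u ↔ j i < a := by
          rw [← ha]
          exact E.lt_iff_lt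
        have h2 : toLex (ω i).1 ≤ toLex u ↔ j i ≤ a := by
          rw [← ha]
          exact E.le_iff_le
        rw [Hx_top, if_congr h1 rfl rfl, if_congr h2 rfl rfl]
      have e2 : ∀ i, Hy (ω i).2 v = if l i ≤ b then 1 else 0 := fun i => by
        rw [Hy, ← hb']
        simp only [ω, toColex_ofColex, E'.le_iff_le]
      have e3 : ∑ i, χ i * (Hx S (ω i).1 u * Hy (ω i).2 v) =
          (∑ i with j i < a ∧ l i ≤ b, χ i + ∑ i with j i ≤ a ∧ l i ≤ b, χ i) / 2 := by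
        simp only [e1, e2, sum_filter, ← Finset.sum_add_distrib, Finset.sum_div]
        refine Finset.sum_congr rfl fun i _ => ?_
        by_cases h1 : j i < a <;> by_cases h2 : j i ≤ a <;> by_cases h3 : l i ≤ b <;>
          simp [h1, h2, h3, div_eq_mul_inv, ← mul_two]
      have b1 := hb (((a : ℕ) + 1) / N) (((b : ℕ) + 1) / N) (by positivity) (by positivity)
      have b2 := hb ((a : ℕ) / N) (((b : ℕ) + 1) / N) (by positivity) (by positivity)
      have f1 : ∀ i, (0 ≤ (x i).1) = True := fun i => eq_true (hx i).1.1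
      have f2 : ∀ i, (0 ≤ (x i).2) = True := fun i => eq_true (hx i).2.1
      simp only [f1, f2, true_and, ← j2, ← l2] at b1 b2
      have b3 : |∑ i with j i < a ∧ l i ≤ b, χ i| ≤ M := by
        rcases Nat.eq_zero_or_pos (a : ℕ) with h0 | h0
        · simpa [j3, h0] using (abs_nonneg _).trans b1
        · simpa only [j3, h0, true_and] using b2
      rw [e3, abs_div, abs_two, lt_div_iff₀ two_pos] at huv
      linarith [abs_add_le (∑ i with j i < a ∧ l i ≤ b, χ i) (∑ i with j i ≤ a ∧ l i ≤ b, χ i)]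
    · simp only [ω, toLex_ofLex, toColex_ofColex, OrderIso.symm_apply_apply]
      exact ⟨j1 i, l1 i⟩
  · simp only [hcs]
    rw [← ENNReal.ofReal_sum_of_nonneg fun _ _ => by positivity]
    refine ENNReal.ofReal_le_ofReal ?_
    have e : (Fintype.card (Om n S) : ℝ) = (N * N) ^ n := by
      simp only [Fintype.card_pi, Fintype.card_prod, hc, Finset.prod_const, card_univ,
        Fintype.card_fin]
      push_cast
      rfl
    rw [Fintype.expect_eq_sum_div_card, e, Finset.sum_div, sum_filter]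
    refine Finset.sum_le_sum fun ω _ => ?_
    split_ifs with h1
    · rw [one_div_mul_one_div, one_div_pow]
      exact div_le_div_of_nonneg_right h1 (by positivity)
    · exact div_nonneg (hZ ω) (by positivity)

lemma pick (c : ℝ) (h0 : 0 < c) (h1 : c ≤ 1) (s₀ : ℕ) : ∃ n₀ : ℕ, ∀ n ≥ n₀, ∃ s : ℕ, s₀ ≤ s ∧
    (n : ℝ) ≤ c * s * 3 ^ (s + 1) ∧ c * s * 3 ^ (s + 1) ≤ 6 * (n : ℝ) ∧ log n ≤ 5 * s := by
  classical
  refine ⟨(s₀ + 2) * 3 ^ (s₀ + 2 + 1) + 1, fun n hn => ?_⟩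
  have hex : ∃ s : ℕ, (n : ℝ) ≤ c * s * 3 ^ (s + 1) := by
    obtain ⟨s, hs⟩ := exists_nat_ge (n / c)
    rw [div_le_iff₀' h0] at hs
    exact ⟨s, hs.trans (le_mul_of_one_le_right (by positivity) (one_le_pow₀ (by norm_num)))⟩
  have h2 := Nat.find_spec hex
  have h3 := fun t => Nat.find_min hex (m := t)
  set s := Nat.find hex
  have h4 : (n : ℝ) ≤ s * 3 ^ (s + 1) := h2.trans (by
    rw [mul_assoc]
    exact mul_le_of_le_one_left (by positivity) h1)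
  have h5 : s₀ + 2 ≤ s := by
    by_contra hc
    have h6 : n ≤ s * 3 ^ (s + 1) := by exact_mod_cast h4
    have h7 : s * 3 ^ (s + 1) ≤ (s₀ + 2) * 3 ^ (s₀ + 2 + 1) :=
      Nat.mul_le_mul (by omega) (Nat.pow_le_pow_right (by norm_num) (by omega))
    omega
  obtain ⟨t, ht⟩ : ∃ t, s = t + 1 := ⟨s - 1, by omega⟩
  have h6 := not_le.1 (h3 t (by omega))
  have h7 : (1 : ℝ) ≤ t := by exact_mod_cast (by omega : 1 ≤ t)
  have hs : (s : ℝ) = t + 1 := by exact_mod_cast ht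
  refine ⟨s, by omega, h2, ?_, ?_⟩
  · rw [hs, ht, pow_succ _ (t + 1)]
    have h8 : 0 < c * 3 ^ (t + 1) := by positivity
    nlinarith [mul_le_mul_of_nonneg_left h7 h8.le]
  · have hn0 : (0 : ℝ) < n := by exact_mod_cast (by omega : 0 < n)
    rw [log_le_iff_le_exp hn0]
    have h8 : (3 : ℝ) ≤ exp 2 := by linarith [add_one_le_exp (2 : ℝ)]
    have h9 : (s : ℝ) ≤ exp s := by linarith [add_one_le_exp (s : ℝ)]
    calc (n : ℝ) ≤ exp s * exp 2 ^ (s + 1) := h4.trans (by gcongr)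
      _ = exp (s + (s + 1) * 2) := by
        rw [← exp_nat_mul, ← exp_add]
        push_cast
        rfl
      _ ≤ _ := exp_le_exp.2 (by linarith)

open Classical in
theorem random_lower (δ : ℝ) (h0 : 0 < δ) (h1 : δ ≤ 1) : ∃ c : ℝ, 0 < c ∧ ∃ n₀ : ℕ, ∀ n ≥ n₀,
    volume {x : Fin n → ℝ × ℝ | (∀ i, x i ∈ Set.Icc (0 : ℝ) 1 ×ˢ Set.Icc (0 : ℝ) 1) ∧
      ∃ χ : Fin n → ℝ, ((∀ i, |χ i| ≤ 1) ∧ δ * n ≤ ∑ i, χ i ^ 2) ∧ ∀ b₁ b₂ : ℝ, 0 ≤ b₁ → 0 ≤ b₂ →
        |∑ i with (0 ≤ (x i).1 ∧ (x i).1 ≤ b₁) ∧ (0 ≤ (x i).2 ∧ (x i).2 ≤ b₂), χ i| ≤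
          c * log n ^ (3 / 2 : ℝ)} ≤ ENNReal.ofReal (2 * exp (-(c * n))) := by
  obtain ⟨L, hL⟩ := exists_nat_ge (34992 / δ ^ 2)
  rw [div_le_iff₀' (by positivity)] at hL
  set κ : ℝ := δ ^ 2 / 419904 with hκ
  have κ0 : 0 < κ := by positivity
  have κ1 : κ ≤ 1 := by rw [hκ]; nlinarith
  set c₁ : ℝ := κ ^ 2 / 32 / (4 * L + 3) with hc₁
  have c0 : 0 < c₁ := by positivity
  have c1 : c₁ ≤ 1 := by
    rw [hc₁, div_le_one (by positivity)]
    nlinarith [Nat.cast_nonneg (α := ℝ) L]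
  obtain ⟨s₀, hs₀⟩ := exists_nat_ge (max (209952 / δ ^ 2) (6 / c₁))
  obtain ⟨n₀, hn₀⟩ := pick c₁ c0 c1 s₀
  refine ⟨min (δ ^ 2 / (3 * 10 ^ 6)) (κ / (40 * √(30 / c₁))), by positivity, n₀, fun n hn => ?_⟩
  obtain ⟨s, k1, k2, k3, k4⟩ := hn₀ n hn
  have k1' : (s₀ : ℝ) ≤ s := by exact_mod_cast k1
  have k5 := ((le_max_left _ _).trans hs₀).trans k1'
  have k6 := ((le_max_right _ _).trans hs₀).trans k1'
  rw [div_le_iff₀' (by positivity)] at k5 k6
  have N0 : (0 : ℝ) < 3 ^ (s + 1) := by positivity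
  set q : ℝ := √(n / 3 ^ (s + 1)) with hq
  have q2 : q ^ 2 * 3 ^ (s + 1) = n := by
    rw [hq, sq_sqrt (by positivity)]
    field_simp
  have q3 : q ^ 2 ≤ c₁ * s := le_of_mul_le_mul_right (by rwa [q2]) N0
  have q4 : c₁ * s ≤ 6 * q ^ 2 := le_of_mul_le_mul_right (by rwa [mul_assoc 6, q2]) N0
  have q0 : 0 < q := by
    refine lt_of_le_of_ne (sqrt_nonneg _) fun h => ?_
    rw [← h] at q4
    linarith
  obtain ⟨Z, z0, z1, z2⟩ := core2 (n := n) δ q h0 h1 L hL s rfl q0 q2 (by linarith) k5 (by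
    rw [hc₁, div_mul_eq_mul_div, le_div_iff₀' (by positivity)] at q3
    rw [← hκ]
    linarith)
  refine le_trans (measure_mono ?_) ((transfer Z z0 _
    (fun χ => (∀ i, |χ i| ≤ 1) ∧ δ * n ≤ ∑ i, χ i ^ 2)
    fun ω hω χ hχ => z2 ω hω χ hχ.1 hχ.2).trans (ENNReal.ofReal_le_ofReal (z1.trans ?_)))
  · rintro x ⟨hx, χ, hχ, hb⟩
    refine ⟨hx, χ, hχ, fun b₁ b₂ g1 g2 => (hb b₁ b₂ g1 g2).trans ?_⟩
    have l0 : 0 ≤ log n := log_natCast_nonneg n
    have e : log n ^ (3 / 2 : ℝ) = log n * √(log n) := by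
      rw [sqrt_eq_rpow, ← rpow_one_add' l0 (by norm_num)]
      norm_num
    have r0 : 0 < √(30 / c₁) := by positivity
    have l1 : √(log n) ≤ √(30 / c₁) * q := by
      rw [sqrt_le_left (by positivity), mul_pow, sq_sqrt (by positivity), div_mul_eq_mul_div,
        le_div_iff₀ c0]
      nlinarith [mul_le_mul_of_nonneg_right k4 c0.le]
    calc _ ≤ κ / (40 * √(30 / c₁)) * (5 * s * (√(30 / c₁) * q)) := by
          rw [e]
          exact mul_le_mul (min_le_right _ _) (mul_le_mul k4 l1 (sqrt_nonneg _) (by positivity))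
            (by positivity) (by positivity)
      _ = _ := by
          field_simp
          ring
  · refine mul_le_mul_of_nonneg_left (exp_le_exp.2 (neg_le_neg ?_)) two_pos.le
    exact mul_le_mul_of_nonneg_right (min_le_left _ _) (Nat.cast_nonneg n)

end Pool.Agent.P.MP_e00059_co.L43
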